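import Pool.Agent.LibHP2.W7

set_option autoImplicit false

namespace Pool.Agent.LibHPQ

open Polynomial Pool.Agent.LibHP

/-! ### Admissible extensions -/

/-- The extension `L` of the field `K` (over `k`) embeds in a rational function field over `k` in
which it is algebraically closed. -/
def Adm (k K L : Type) [Field k] [Field K] [Field L] [Algebra k K] [Algebra K L] : Prop :=
  ∃ (n : ℕ) (ι : L →+* RF k n),
    (∀ e : RF k n, (∃ P : L[X], P ≠ 0 ∧ P.eval₂ ι e = 0) → ∃ l, ι l = e) ∧
    ∀ c : k, ι (algebraMap K L (algebraMap k K c)) = algebraMap k (RF k n) c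

/-- The compositum of the field `K` and of the extension `N` of the subfield `M` of `K` is a finite
admissible extension of `K`, in which `N` is algebraically closed. -/
def AdmOver (k M K N : Type) [Field k] [Field M] [Field K] [Field N] [Algebra k K] [Algebra M K]
    [Algebra M N] : Prop :=
  ∃ (L : Type) (_ : Field L) (_ : Algebra K L) (j : N →+* L), FiniteDimensional K L ∧ Adm k K L ∧
    (∀ c : M, j (algebraMap M N c) = algebraMap K L (algebraMap M K c)) ∧
    Subfield.closure (Set.range (algebraMap K L) ∪ Set.range j) = ⊤ ∧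
    ∀ z : L, (∃ P : M[X], P ≠ 0 ∧ P.eval₂ ((algebraMap K L).comp (algebraMap M K)) z = 0) →
      ∃ a, j a = z

/-- The valuation ring `W` of `L` lies over the prime `π` of the polynomial ring mapped to `L`. -/
def Above {k L : Type} [Field k] [Field L] {m : ℕ} (φ : MvPolynomial (Fin m) k →+* L)
    (π : MvPolynomial (Fin m) k) (W : ValuationSubring L) : Prop :=
  (∀ p, φ p ∈ W) ∧ ∀ p, W.valuation (φ p) < 1 ↔ π ∣ p

/-- Some valuation ring of `L` over `π` is ramified. -/
def RamAt {k L : Type} [Field k] [Field L] {m : ℕ} (φ : MvPolynomial (Fin m) k →+* L)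
    (π : MvPolynomial (Fin m) k) : Prop :=
  ∃ W : ValuationSubring L, Above φ π W ∧ ¬ Unram W (φ π)

/-! ### The map `P ↦ 2H - 3P` on the curve `w ^ 2 = G(τ)`, `deg G ≤ 4` -/

section Quartic

variable {κ : Type} [Field κ]

/-- `4 G G''/2 - G'^2`. -/
noncomputable def dl (G : κ[X]) : κ[X] := 4 * G * hasseDeriv 2 G - (derivative G) ^ 2

noncomputable def cc (G : κ[X]) : κ[X] := 8 * G ^ 2 * hasseDeriv 3 G - derivative G * dl G

/-- The denominator of the abscissa of `2H - 3P`. -/
noncomputable def mm (G : κ[X]) : κ[X] := (dl G) ^ 2 - 64 * G ^ 3 * hasseDeriv 4 G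

/-- The numerator of the abscissa of `2H - 3P`. -/
noncomputable def nn (G : κ[X]) : κ[X] := X * mm G + 8 * G * cc G

/-- The ordinate of `2H - 3P` is `w * vv / mm ^ 2`. -/
noncomputable def vv (G : κ[X]) : κ[X] :=
  (mm G) ^ 2 + 4 * derivative G * cc G * mm G + 8 * dl G * (cc G) ^ 2

/-- The homogenization of `p` evaluated at `(N, M)`. -/
noncomputable def homP (p N M : κ[X]) : κ[X] :=
  ∑ j ∈ Finset.range (p.natDegree + 1), C (p.coeff j) * N ^ j * M ^ (p.natDegree - j)

/-- The conditions on `G`. -/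
structure Quart (G : κ[X]) : Prop where
  sep : G.Separable
  le : G.natDegree ≤ 4
  ge : 2 ≤ G.natDegree

end Quartic

/-! ### Restriction to a line -/

section Line

variable {k σ ι : Type} [Field k] [DecidableEq ι]

/-- The substitution `x_v ↦ y_v + X μ_v` for `v` in the group `i`, `x_v ↦ y_v` for the other `v`;
the polynomial ring in `y_v = X (inl v)`, `μ_v = X (inr v)`. -/
noncomputable def psi (g : σ → ι) (i : ι) :
    MvPolynomial σ k →ₐ[k] (MvPolynomial (σ ⊕ σ) k)[X] :=
  MvPolynomial.aeval (fun v => C (MvPolynomial.X (Sum.inl v)) +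
    if g v = i then X * C (MvPolynomial.X (Sum.inr v)) else 0)

/-- The field `k(y, μ)`. -/
abbrev KY (k σ : Type) [Field k] : Type := FractionRing (MvPolynomial (σ ⊕ σ) k)

/-- `psi` with coefficients in the field `k(y, μ)`. -/
noncomputable def ell (g : σ → ι) (i : ι) : MvPolynomial σ k →+* (KY k σ)[X] :=
  (mapRingHom (algebraMap (MvPolynomial (σ ⊕ σ) k) (KY k σ))).comp (psi (k := k) g i).toRingHom

end Line

/-- The properties of the restriction to a line which are used. -/
structure LineHom {k κ : Type} [Field k] [Field κ] {m : ℕ}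
    (l : MvPolynomial (Fin m) k →+* κ[X]) : Prop where
  irr : ∀ p, Irreducible p → IsUnit (l p) ∨ Irreducible (l p)
  cop : ∀ p q, Irreducible p → ¬ p ∣ q → IsCoprime (l p) (l q)

/-- `K₁ = κ(τ)(w)`, with `τ` transcendental over `κ` and `w ^ 2 = G(τ)`. -/
structure CurveField {κ K₁ : Type} [Field κ] [Field K₁] (ε : κ →+* K₁) (τ w : K₁) (G : κ[X]) :
    Prop where
  tr : ∀ P : κ[X], P.eval₂ ε τ = 0 → P = 0
  eq : w ^ 2 = G.eval₂ ε τ
  gen : ∀ z : K₁, ∃ P Q R : κ[X], R.eval₂ ε τ ≠ 0 ∧
    z * R.eval₂ ε τ = P.eval₂ ε τ + Q.eval₂ ε τ * w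

/-- `F` is of degree at most two in the variables of the group `i`, and nondegenerate as a
quadratic polynomial in these variables. -/
def IsQuadraticIn {k σ ι : Type} [Field k] [Fintype σ] [DecidableEq σ] [DecidableEq ι]
    (g : σ → ι) (F : MvPolynomial σ k) (i : ι) : Prop :=
  (∀ s ∈ F.support, ∑ v with g v = i, s v ≤ 2) ∧ (gramGroup g F i).det ≠ 0

/-- `F` is of degree two, three or four in the variables of the group `i`. -/
def IsQuarticIn {k σ ι : Type} [Field k] [Fintype σ] [DecidableEq σ] [DecidableEq ι]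
    (g : σ → ι) (F : MvPolynomial σ k) (i : ι) : Prop :=
  (∀ s ∈ F.support, ∑ v with g v = i, s v ≤ 4) ∧ ∃ s ∈ F.support, 2 ≤ ∑ v with g v = i, s v

end Pool.Agent.LibHPQ
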