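import Pool.Agent.LibHPQ.Q8
import Pool.Agent.LibHP2.W5
import Pool.Agent.LibHP.U1

set_option autoImplicit false

namespace Pool.Agent.LibHPQ

open Polynomial Pool.Agent.LibHP

/-- The field `k(x_v, g v = i)`. -/
abbrev SF (k : Type) {σ ι K : Type} [Field k] [Field K] [Algebra k K] (g : σ → ι) (x : σ → K)
    (i : ι) : Type :=
  IntermediateField.adjoin k (x '' {v | g v = i})

open scoped IntermediateField.algebraAdjoinAdjoin in
private theorem Q10a_extend {k K τ : Type} [Field k] [Field K] [Algebra k K] (T : Set K) (z : τ → K)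
    (h : AlgebraicIndependent (Algebra.adjoin k T) z) :
    AlgebraicIndependent (IntermediateField.adjoin k T) z :=
  h.extendScalars (IntermediateField.adjoin k T)

/-- The constants of all families over `k(x_v, g v = i₁)`. -/
theorem const_of_special (k σ ι : Type) [Field k] [CharZero k] [Fintype σ] [DecidableEq σ]
    [DecidableEq ι] (g : σ → ι) (F : MvPolynomial σ k) (i₀ i₁ : ι) (hs : Setup g F i₀ i₁)
    (K : Type) [Field K] [Algebra k K] (x : σ → K) (w : K) (hx : IsDoublePt F x w) (c : K)
    (h : ∀ τ : K →+* RatFunc K,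
      (∀ a : SF k g x i₁, τ (algebraMap (SF k g x i₁) K a) =
        RatFunc.C (algebraMap (SF k g x i₁) K a)) →
      (∀ a, ∃ b, HasJet (τ a) a b) → τ c = RatFunc.C c) :
    ∃ a : SF k g x i₁, algebraMap (SF k g x i₁) K a = c := by
  classical
  have hSF : CharZero (SF k g x i₁) :=
    charZero_of_injective_algebraMap (algebraMap k (SF k g x i₁)).injective
  have hK : CharZero K := charZero_of_injective_algebraMap (algebraMap k K).injective
  have hmulti : ∀ (r : ℕ) (s : K →+* RF K r),
      (∀ a : SF k g x i₁, s (algebraMap (SF k g x i₁) K a) =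
        algebraMap K (RF K r) (algebraMap (SF k g x i₁) K a)) →
      (∀ a, HasVal (s a) a) → s c = algebraMap K (RF K r) c :=
    fun r s h1 h2 => fixed_multi_of_fixed_one (SF k g x i₁) K c h r s h1 h2
  have hmem : ∀ i, i ≠ i₁ → c ∈ IntermediateField.adjoin k (x '' {v | g v ≠ i}) := by
    intro i hi
    obtain ⟨n, hn, B, y, hBs, hBd, hBy⟩ := exists_quad_structure_double k σ ι g F i (hs.surj i)
      (hs.quad i hi).1 (hs.quad i hi).2 K x w hx
    have hM : CharZero (IntermediateField.adjoin k (x '' {v | g v ≠ i})) :=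
      charZero_of_injective_algebraMap
        (algebraMap k (IntermediateField.adjoin k (x '' {v | g v ≠ i}))).injective
    have hle : IntermediateField.adjoin k (x '' {v | g v = i₁}) ≤
        IntermediateField.adjoin k (x '' {v | g v ≠ i}) := by
      refine IntermediateField.adjoin.mono _ _ _ (Set.image_mono ?_)
      intro v hv
      have hv' : g v = i₁ := hv
      show g v ≠ i
      rw [hv']
      exact hi.symm
    obtain ⟨a, ha⟩ := const_of_quad (IntermediateField.adjoin k (x '' {v | g v ≠ i})) K n hn B hBs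
      hBd y hBy c (fun r s hs' hv => hmulti r s (fun a => hs' ⟨a.1, hle a.2⟩) hv)
    rw [← ha]
    exact a.2
  have hind : AlgebraicIndependent (SF k g x i₁) (fun v : {v : σ // g v ≠ i₁} => x v.1) := by
    have h1 : AlgebraicIndependent (Algebra.adjoin k (x '' {v | g v = i₁}))
        (fun v : ({v | g v ≠ i₁} : Set σ) => x v) :=
      hx.1.adjoin_of_disjoint (by
        rw [Set.disjoint_left]
        intro v h1 h2
        exact h2 h1)
    exact Q10a_extend _ _ h1
  refine mem_base_of_mem_all (SF k g x i₁) {v : σ // g v ≠ i₁} {i : ι // i ≠ i₁}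
    (fun v => ⟨g v.1, v.2⟩) K (fun v => x v.1) hind ⟨⟨i₀, hs.ne⟩⟩ c fun i => ?_
  have hle : IntermediateField.adjoin k (x '' {v | g v ≠ i.1}) ≤
      (IntermediateField.adjoin (SF k g x i₁) ((fun v : {v : σ // g v ≠ i₁} => x v.1) ''
        {v | (⟨g v.1, v.2⟩ : {i : ι // i ≠ i₁}) ≠ i})).restrictScalars k := by
    rw [IntermediateField.adjoin_le_iff]
    rintro _ ⟨v, hv, rfl⟩
    have hv' : g v ≠ i.1 := hv
    rw [SetLike.mem_coe, IntermediateField.mem_restrictScalars]
    by_cases h1 : g v = i₁
    · have h2 : x v ∈ IntermediateField.adjoin k (x '' {v | g v = i₁}) :=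
        IntermediateField.subset_adjoin _ _ ⟨v, h1, rfl⟩
      exact IntermediateField.algebraMap_mem
        (IntermediateField.adjoin (SF k g x i₁) ((fun v : {v : σ // g v ≠ i₁} => x v.1) ''
        {v | (⟨g v.1, v.2⟩ : {i : ι // i ≠ i₁}) ≠ i})) (⟨x v, h2⟩ : SF k g x i₁)
    · refine IntermediateField.subset_adjoin _ _ ⟨⟨v, h1⟩, ?_, rfl⟩
      intro h2
      exact hv' (congrArg Subtype.val h2)
  exact hle (hmem i.1 i.2)

/-- A second embedding of `K` over `k(x_v, g v = i₁)`, linearly disjoint from the first one. -/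
theorem exists_disjoint_special (k σ ι : Type) [Field k] [CharZero k] [Fintype σ] [DecidableEq σ]
    [DecidableEq ι] (g : σ → ι) (F : MvPolynomial σ k) (i₀ i₁ : ι) (hs : Setup g F i₀ i₁)
    (K : Type) [Field K] [Algebra k K] (x : σ → K) (w : K) (hx : IsDoublePt F x w) :
    ∃ (r : ℕ) (F₁ : K →+* RF K r),
      (∀ c : SF k g x i₁, F₁ (algebraMap (SF k g x i₁) K c) =
        algebraMap K (RF K r) (algebraMap (SF k g x i₁) K c)) ∧
      ∀ (m : ℕ) (a : Fin m → K), LinearIndependent (SF k g x i₁) a →
        LinearIndependent K (F₁ ∘ a) := by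
  classical
  have hSF : CharZero (SF k g x i₁) :=
    charZero_of_injective_algebraMap (algebraMap k (SF k g x i₁)).injective
  set A : Subalgebra (SF k g x i₁) K := Algebra.adjoin (SF k g x i₁) (Set.range x ∪ {w}) with hA
  have hFG : A.FG := Subalgebra.fg_def.2
    ⟨_, (Set.finite_range x).union (Set.finite_singleton w), rfl⟩
  have hxA : ∀ P : MvPolynomial σ k, MvPolynomial.aeval x P ∈ A := by
    intro P
    induction P using MvPolynomial.induction_on with
    | C a =>
      rw [MvPolynomial.aeval_C, IsScalarTower.algebraMap_apply k (SF k g x i₁) K]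
      exact A.algebraMap_mem _
    | add p q hp hq => rw [map_add]; exact A.add_mem hp hq
    | mul_X p v hp =>
      rw [map_mul, MvPolynomial.aeval_X]
      exact A.mul_mem hp (Algebra.subset_adjoin (Or.inl ⟨v, rfl⟩))
  have hwA : w ∈ A := Algebra.subset_adjoin (Or.inr rfl)
  have hfrac : IsFractionRing A K := by
    refine IsFractionRing.of_field A K fun z => ?_
    obtain ⟨P, Q, R, hR, hz⟩ := hx.2.2 z
    refine ⟨⟨_, A.add_mem (hxA P) (A.mul_mem (hxA Q) hwA)⟩, ⟨_, hxA R⟩, ?_⟩
    show z = _ / _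
    rw [eq_div_iff]
    · exact hz
    · exact hR
  obtain ⟨r, F₁, h1, h2⟩ := exists_disjoint_embedding (SF k g x i₁) K A hFG hfrac
    {τ | (∀ a : SF k g x i₁, τ (algebraMap (SF k g x i₁) K a) =
        RatFunc.C (algebraMap (SF k g x i₁) K a)) ∧ ∀ a, ∃ b, HasJet (τ a) a b}
    (fun τ hτ => hτ.1) (fun τ hτ => hτ.2) (fun a ha => by
      exact const_of_special k σ ι g F i₀ i₁ hs K x w hx a fun τ h1 h2 => ha τ ⟨h1, h2⟩)
  exact ⟨r, F₁, h1, h2⟩

end Pool.Agent.LibHPQ
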