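import Pool.Agent.LibHPQ.Defs

set_option autoImplicit false

namespace Pool.Agent.LibHPQ

open Polynomial Pool.Agent.LibHP

theorem Q1c_homogenize {κ : Type} [Field κ] (p N M : κ[X]) (n : ℕ) :
    MvPolynomial.aeval ![N, M] (p.homogenize n) =
      ∑ j ∈ Finset.range (n + 1), C (p.coeff j) * N ^ j * M ^ (n - j) := by
  unfold homogenize
  rw [Finset.Nat.sum_antidiagonal_eq_sum_range_succ_mk, map_sum]
  refine Finset.sum_congr rfl fun j _ => ?_
  rw [MvPolynomial.aeval_monomial, Finsupp.prod_fintype _ _ (by intro i; simp),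
    Fin.prod_univ_two]
  simp [Polynomial.C_eq_algebraMap, mul_assoc]

theorem Q1c_eq {κ : Type} [Field κ] (p N M : κ[X]) :
    homP p N M = MvPolynomial.aeval ![N, M] (p.homogenize p.natDegree) := by
  rw [Q1c_homogenize]; rfl

theorem homP_mul {κ : Type} [Field κ] (p q N M : κ[X]) (hp : p ≠ 0) (hq : q ≠ 0) :
    homP (p * q) N M = homP p N M * homP q N M := by
  rw [Q1c_eq, Q1c_eq, Q1c_eq, natDegree_mul hp hq, homogenize_mul p q le_rfl le_rfl, map_mul]

theorem homP_eval {κ K₁ : Type} [Field κ] [Field K₁] (ε : κ →+* K₁) (τ : K₁) (p N M : κ[X])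
    (hM : M.eval₂ ε τ ≠ 0) :
    (homP p N M).eval₂ ε τ =
      (M.eval₂ ε τ) ^ p.natDegree * p.eval₂ ε (N.eval₂ ε τ / M.eval₂ ε τ) := by
  unfold homP
  rw [eval₂_finsetSum, eval₂_eq_sum_range (p := p), Finset.mul_sum]
  refine Finset.sum_congr rfl fun j hj => ?_
  have hj' : j ≤ p.natDegree := Nat.lt_succ_iff.mp (Finset.mem_range.mp hj)
  rw [eval₂_mul, eval₂_mul, eval₂_pow, eval₂_pow, eval₂_C, div_pow]
  obtain ⟨d, hd⟩ := Nat.exists_eq_add_of_le hj'
  rw [hd, Nat.add_sub_cancel_left, pow_add]
  field_simp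

/-- The homogenization is `lc(p) N ^ d` modulo `M`. -/
theorem Q1c_mod {κ : Type} [Field κ] (p N M : κ[X]) :
    ∃ R : κ[X], homP p N M = C p.leadingCoeff * N ^ p.natDegree + R * M := by
  unfold homP
  rw [Finset.sum_range_succ]
  refine ⟨∑ j ∈ Finset.range p.natDegree,
    C (p.coeff j) * N ^ j * M ^ (p.natDegree - j - 1), ?_⟩
  rw [Finset.sum_mul, add_comm]
  congr 1
  · simp
  · refine Finset.sum_congr rfl fun j hj => ?_
    have hj' : j < p.natDegree := Finset.mem_range.mp hj
    have : p.natDegree - j = (p.natDegree - j - 1) + 1 := by omega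
    conv_lhs => rw [this, pow_succ]
    ring

/-- The homogenization is prime to `M`. -/
theorem homP_coprime_right {κ : Type} [Field κ] (p N M : κ[X]) (hp : p ≠ 0)
    (hNM : IsCoprime N M) : IsCoprime (homP p N M) M := by
  obtain ⟨R, hR⟩ := Q1c_mod p N M
  rw [hR]
  refine IsCoprime.add_mul_right_left ?_ R
  have hu : IsUnit (C p.leadingCoeff : κ[X]) :=
    Polynomial.isUnit_C.mpr (isUnit_iff_ne_zero.mpr (leadingCoeff_ne_zero.mpr hp))
  exact (isCoprime_mul_unit_left_left hu _ _).mpr hNM.pow_left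

/-- Homogenizations of coprime polynomials at coprime `N`, `M` are coprime. -/
theorem homP_coprime {κ : Type} [Field κ] (p q N M : κ[X]) (h : IsCoprime p q)
    (hNM : IsCoprime N M) : IsCoprime (homP p N M) (homP q N M) := by
  by_cases hp : p = 0
  · subst hp
    rw [isCoprime_zero_left] at h
    obtain ⟨c, hc, rfl⟩ := Polynomial.isUnit_iff.mp h
    have : homP (C c) N M = C c := by
      unfold homP; simp
    rw [this]
    obtain ⟨u, hu⟩ := isUnit_iff_exists_inv'.mp (Polynomial.isUnit_C.mpr hc)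
    exact ⟨0, u, by rw [hu]; ring⟩
  obtain ⟨a, b, hab⟩ := h
  set n := max (a.natDegree + p.natDegree) (b.natDegree + q.natDegree) with hn
  obtain ⟨s, hs⟩ := Nat.exists_eq_add_of_le (show p.natDegree ≤ n by
    rw [hn]; exact le_trans (Nat.le_add_left _ _) (le_max_left _ _))
  obtain ⟨t, ht⟩ := Nat.exists_eq_add_of_le (show q.natDegree ≤ n by
    rw [hn]; exact le_trans (Nat.le_add_left _ _) (le_max_right _ _))
  have h1 : a.natDegree + p.natDegree ≤ n := by rw [hn]; exact le_max_left _ _
  have h2 : b.natDegree + q.natDegree ≤ n := by rw [hn]; exact le_max_right _ _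
  have has : a.natDegree ≤ s := by omega
  have hbt : b.natDegree ≤ t := by omega
  have key : M ^ n = MvPolynomial.aeval ![N, M] (a.homogenize s) * homP p N M +
      MvPolynomial.aeval ![N, M] (b.homogenize t) * homP q N M := by
    have e := congrArg (fun r : κ[X] => MvPolynomial.aeval ![N, M] (r.homogenize n)) hab
    simp only [homogenize_add, map_add, homogenize_one, map_pow, MvPolynomial.aeval_X] at e
    have e1 : (a * p).homogenize n = a.homogenize s * p.homogenize p.natDegree := by
      rw [← homogenize_mul a p has le_rfl]; congr 1; omega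
    have e2 : (b * q).homogenize n = b.homogenize t * q.homogenize q.natDegree := by
      rw [← homogenize_mul b q hbt le_rfl]; congr 1; omega
    rw [e1, e2, map_mul, map_mul, ← Q1c_eq, ← Q1c_eq] at e
    rw [e]; simp
  obtain ⟨u, v, huv⟩ := (homP_coprime_right p N M hp hNM).pow_right (n := n)
  refine ⟨u + v * MvPolynomial.aeval ![N, M] (a.homogenize s),
    v * MvPolynomial.aeval ![N, M] (b.homogenize t), ?_⟩
  rw [key] at huv
  linear_combination huv

end Pool.Agent.LibHPQ
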