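import Pool.Agent.LibHPQ.Q1b
import Pool.Agent.LibHPQ.Q1c

set_option autoImplicit false

namespace Pool.Agent.LibHPQ

open Polynomial Pool.Agent.LibHP

private theorem Q1e_map {R S : Type} [Field R] [Field S] (φ : R →+* S) (n : ℕ) (G : R[X]) :
    (hasseDeriv n G).map φ = hasseDeriv n (G.map φ) := by
  ext m
  simp [hasseDeriv_coeff]

private theorem Q1e_cc {R S : Type} [Field R] [Field S] (φ : R →+* S) (G : R[X]) :
    cc (G.map φ) = (cc G).map φ := by
  simp only [cc, dl, ← Q1e_map, derivative_map, Polynomial.map_sub, Polynomial.map_mul,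
    Polynomial.map_pow, Polynomial.map_ofNat]

private theorem Q1e_mm {R S : Type} [Field R] [Field S] (φ : R →+* S) (G : R[X]) :
    mm (G.map φ) = (mm G).map φ := by
  simp only [mm, dl, ← Q1e_map, derivative_map, Polynomial.map_sub, Polynomial.map_mul,
    Polynomial.map_pow, Polynomial.map_ofNat]

private theorem Q1e_nn {R S : Type} [Field R] [Field S] (φ : R →+* S) (G : R[X]) :
    nn (G.map φ) = (nn G).map φ := by
  simp only [nn, Q1e_cc, Q1e_mm, Polynomial.map_add, Polynomial.map_mul, Polynomial.map_X,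
    Polynomial.map_ofNat]

private theorem Q1e_hom {R S : Type} [Field R] [Field S] (φ : R →+* S) (p N M : R[X]) :
    homP (p.map φ) (N.map φ) (M.map φ) = (homP p N M).map φ := by
  simp only [homP, natDegree_map, coeff_map, Polynomial.map_sum, Polynomial.map_mul,
    Polynomial.map_pow, Polynomial.map_C]

private theorem Q1e_quart {R S : Type} [Field R] [Field S] (φ : R →+* S) (G : R[X])
    (hG : Quart G) : Quart (G.map φ) :=
  ⟨hG.sep.map, by rw [natDegree_map]; exact hG.le, by rw [natDegree_map]; exact hG.ge⟩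

private theorem Q1e_coeff3 {κ : Type} [Field κ] (a b c d : κ) :
    (C a * X ^ 3 + C b * X ^ 2 + C c * X + C d : κ[X]).coeff 3 = a := by
  simp [coeff_X, coeff_C]

private theorem Q1e_coeff4 {κ : Type} [Field κ] (a b c d e : κ) :
    (C a * X ^ 4 + C b * X ^ 3 + C c * X ^ 2 + C d * X + C e : κ[X]).coeff 4 = a := by
  simp [coeff_X, coeff_C]

/-- The degree of the map is at least three. -/
private theorem Q1e_three {κ : Type} [Field κ] [CharZero κ] (G : κ[X]) (hG : Quart G) :
    3 ≤ max (nn G).natDegree (mm G).natDegree := by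
  have hcc := cc_ne_zero G hG
  have hG0 : G ≠ 0 := hG.sep.ne_zero
  have hlc : G.coeff G.natDegree ≠ 0 := by
    rw [coeff_natDegree]
    exact leadingCoeff_ne_zero.mpr hG0
  have hge := hG.ge
  have hle := hG.le
  have h8 : (8 : κ[X]) = C 8 := (map_ofNat C 8).symm
  obtain h | h | h : G.natDegree = 2 ∨ G.natDegree = 3 ∨ G.natDegree = 4 := by omega
  · -- degree two
    refine le_max_of_le_left (le_natDegree_of_ne_zero ?_)
    rw [h] at hlc
    set g0 := G.coeff 0
    set g1 := G.coeff 1
    set g2 := G.coeff 2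
    have hexp : G = C g0 + C g1 * X + C g2 * X ^ 2 := by
      have h5 : G.natDegree < 3 := by omega
      conv_lhs => rw [as_sum_range_C_mul_X_pow' G h5]
      simp only [Finset.sum_range_succ, Finset.sum_range_zero]
      ring
    have hf1 : derivative G = C g1 + 2 * C g2 * X := by
      rw [hexp]
      simp
      ring
    have hf2 : hasseDeriv 2 G = C g2 := by
      ext m
      rw [hasseDeriv_coeff, coeff_C]
      rcases Nat.eq_zero_or_pos m with rfl | hm
      · simp [g2]
      · rw [coeff_eq_zero_of_natDegree_lt (by omega), if_neg (by omega)]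
        simp
    have hf3 : hasseDeriv 3 G = 0 := hasseDeriv_eq_zero_of_lt_natDegree _ _ (by omega)
    have hf4 : hasseDeriv 4 G = 0 := hasseDeriv_eq_zero_of_lt_natDegree _ _ (by omega)
    have hdl : dl G = C (4 * g0 * g2 - g1 ^ 2) := by
      rw [dl, hf2, hf1]
      conv_lhs => rw [hexp]
      simp only [map_sub, map_mul, map_pow, map_ofNat]
      ring
    have hccE : cc G = -(derivative G) * C (4 * g0 * g2 - g1 ^ 2) := by
      rw [cc, hf3, hdl]
      ring
    have hδ : 4 * g0 * g2 - g1 ^ 2 ≠ 0 := by
      intro h0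
      apply hcc
      rw [hccE, h0]
      simp
    have hnn : nn G = C (-16 * g2 ^ 2 * (4 * g0 * g2 - g1 ^ 2)) * X ^ 3 +
        C (-24 * g1 * g2 * (4 * g0 * g2 - g1 ^ 2)) * X ^ 2 +
        C ((4 * g0 * g2 - g1 ^ 2) ^ 2 - 8 * (4 * g0 * g2 - g1 ^ 2) * (g1 ^ 2 + 2 * g0 * g2)) * X +
        C (-8 * (4 * g0 * g2 - g1 ^ 2) * g0 * g1) := by
      rw [nn, mm, hccE, hdl, hf4, hf1]
      conv_lhs => rw [hexp]
      simp only [map_sub, map_mul, map_pow, map_ofNat, map_add, map_neg]
      ring
    have hco : (nn G).coeff 3 = -16 * g2 ^ 2 * (4 * g0 * g2 - g1 ^ 2) := by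
      rw [hnn, Q1e_coeff3]
    rw [hco]
    exact mul_ne_zero (mul_ne_zero (by norm_num) (pow_ne_zero 2 hlc)) hδ
  · -- degree three
    refine le_max_of_le_right ?_
    rw [h] at hlc
    have hf4 : hasseDeriv 4 G = 0 := hasseDeriv_eq_zero_of_lt_natDegree _ _ (by omega)
    have hmm : mm G = (dl G) ^ 2 := by rw [mm, hf4]; ring
    set g0 := G.coeff 0
    set g1 := G.coeff 1
    set g2 := G.coeff 2
    set g3 := G.coeff 3
    have hexp : G = C g0 + C g1 * X + C g2 * X ^ 2 + C g3 * X ^ 3 := by
      have h5 : G.natDegree < 4 := by omega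
      conv_lhs => rw [as_sum_range_C_mul_X_pow' G h5]
      simp only [Finset.sum_range_succ, Finset.sum_range_zero]
      ring
    have hf1 : derivative G = C g1 + 2 * C g2 * X + 3 * C g3 * X ^ 2 := by
      conv_lhs => rw [hexp]
      simp only [derivative_add, derivative_mul, derivative_C, derivative_X, derivative_X_pow,
        map_natCast]
      push_cast
      ring
    have hf2 : hasseDeriv 2 G = C g2 + 3 * C g3 * X := by
      ext m
      rw [hasseDeriv_coeff]
      have e3 : (3 : κ[X]) * C g3 * X = C (3 * g3) * X := by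
        simp only [map_mul, map_ofNat]
      rw [e3, coeff_add, coeff_C, coeff_C_mul, coeff_X]
      rcases Nat.eq_zero_or_pos m with rfl | hm
      · simp [g2]
      · rcases Nat.eq_or_lt_of_le hm with h1 | h1
        · have : m = 1 := h1.symm
          subst this
          have : Nat.choose 3 2 = 3 := rfl
          simp [g3, this]
        · rw [coeff_eq_zero_of_natDegree_lt (by omega), if_neg (by omega), if_neg (by omega)]
          simp
    have hdlE : dl G = C (3 * g3 ^ 2) * X ^ 4 + C (4 * g2 * g3) * X ^ 3 +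
        C (6 * g1 * g3) * X ^ 2 + C (12 * g0 * g3) * X + C (4 * g0 * g2 - g1 ^ 2) := by
      rw [dl, hf2, hf1]
      conv_lhs => rw [hexp]
      simp only [map_sub, map_mul, map_pow, map_ofNat]
      ring
    have hco : (dl G).coeff 4 = 3 * g3 ^ 2 := by
      rw [hdlE, Q1e_coeff4]
    have h4 : 4 ≤ (dl G).natDegree := le_natDegree_of_ne_zero (by
      rw [hco]
      exact mul_ne_zero (by norm_num) (pow_ne_zero 2 hlc))
    rw [hmm, natDegree_pow]
    omega
  · -- degree four
    have h1 : 8 * G * cc G = nn G - X * mm G := by rw [nn]; ring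
    have h2 : (8 * G * cc G).natDegree = 4 + (cc G).natDegree := by
      rw [h8, natDegree_mul (mul_ne_zero (by rw [Ne, C_eq_zero]; norm_num) hG0) hcc,
        natDegree_C_mul (by norm_num), h]
    have h3 : (nn G - X * mm G).natDegree ≤ max (nn G).natDegree (1 + (mm G).natDegree) := by
      refine (natDegree_sub_le _ _).trans (max_le_max le_rfl ?_)
      refine natDegree_mul_le.trans ?_
      rw [natDegree_X]
    rw [← h1, h2] at h3
    omega

private theorem Q1e_sub {κ : Type} [Field κ] [CharZero κ] (G : κ[X]) (hG : Quart G) (r : κ)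
    (hr : G.eval r ≠ 0) :
    max (nn G).natDegree (mm G).natDegree ≤ (nn G - C r * mm G).natDegree + 1 := by
  set n := max (nn G).natDegree (mm G).natDegree with hn
  set U := nn G - C r * mm G with hU
  have h3 : 3 ≤ n := Q1e_three G hG
  by_contra hcon
  push Not at hcon
  have hUn : U.natDegree < n := by omega
  have hmm0 : mm G ≠ 0 := mm_ne_zero G hG
  have hmn : (mm G).natDegree = n := by
    by_contra hne
    have h1 : (mm G).natDegree < n := lt_of_le_of_ne (le_max_right _ _) hne
    have h2 : (nn G).natDegree = n := by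
      rcases max_choice (nn G).natDegree (mm G).natDegree with h | h
      · rw [hn, h]
      · exact absurd (h ▸ hn.symm) hne
    have h4 : nn G = U + C r * mm G := by rw [hU]; ring
    have h5 : (nn G).natDegree ≤ max U.natDegree (mm G).natDegree := by
      rw [h4]
      exact (natDegree_add_le _ _).trans (max_le_max le_rfl (natDegree_C_mul_le _ _))
    omega
  -- Taylor expansion
  have hexp : ∑ j ∈ Finset.range 5, C (G.coeff j) * (nn G) ^ j * (mm G) ^ (4 - j) =
      C (G.eval r) * mm G ^ 4 + U * (C ((derivative G).eval r) * mm G ^ 3 +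
        C ((hasseDeriv 2 G).eval r) * U * mm G ^ 2 + C ((hasseDeriv 3 G).eval r) * U ^ 2 * mm G +
        C ((hasseDeriv 4 G).eval r) * U ^ 3) := by
    have h5 : G.natDegree < 5 := by have := hG.le; omega
    have e0 : G.eval r = G.coeff 0 + G.coeff 1 * r + G.coeff 2 * r ^ 2 + G.coeff 3 * r ^ 3 +
        G.coeff 4 * r ^ 4 := by
      rw [eval_eq_sum_range' h5]
      simp only [Finset.sum_range_succ, Finset.sum_range_zero]
      ring
    have hd : ∀ i, (hasseDeriv i G).eval r = ∑ j ∈ Finset.range 5,
        ((j + i).choose i : κ) * G.coeff (j + i) * r ^ j := by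
      intro i
      have h6 : (hasseDeriv i G).natDegree < 5 :=
        lt_of_le_of_lt (natDegree_hasseDeriv_le G i) (by omega)
      rw [eval_eq_sum_range' h6]
      simp only [hasseDeriv_coeff]
    have hz : ∀ j, 5 ≤ j → G.coeff j = 0 := fun j hj =>
      coeff_eq_zero_of_natDegree_lt (by omega)
    have e1 : (derivative G).eval r = G.coeff 1 + 2 * G.coeff 2 * r + 3 * G.coeff 3 * r ^ 2 +
        4 * G.coeff 4 * r ^ 3 := by
      rw [← hasseDeriv_one', hd]
      simp only [Finset.sum_range_succ, Finset.sum_range_zero]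
      norm_num [hz]
    have e2 : (hasseDeriv 2 G).eval r = G.coeff 2 + 3 * G.coeff 3 * r + 6 * G.coeff 4 * r ^ 2 := by
      rw [hd]
      simp only [Finset.sum_range_succ, Finset.sum_range_zero]
      norm_num [hz, Nat.choose]
    have e3 : (hasseDeriv 3 G).eval r = G.coeff 3 + 4 * G.coeff 4 * r := by
      rw [hd]
      simp only [Finset.sum_range_succ, Finset.sum_range_zero]
      norm_num [hz, Nat.choose]
    have e4 : (hasseDeriv 4 G).eval r = G.coeff 4 := by
      rw [hd]
      simp only [Finset.sum_range_succ, Finset.sum_range_zero]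
      norm_num [hz, Nat.choose]
    have h4 : nn G = U + C r * mm G := by rw [hU]; ring
    rw [e0, e1, e2, e3, e4, h4]
    simp only [Finset.sum_range_succ, Finset.sum_range_zero, map_add, map_mul, map_pow, map_ofNat]
    ring
  have hdeg : (G * (vv G) ^ 2).natDegree = 4 * n := by
    rw [← sum_eq_vv_sq G hG.le, hexp, natDegree_add_eq_left_of_natDegree_lt]
    · rw [natDegree_C_mul hr, natDegree_pow, hmn]
    · rw [natDegree_C_mul hr, natDegree_pow, hmn]
      have hb : ∀ (c : κ) (a b : ℕ), a + b = 3 →
          (C c * U ^ a * mm G ^ b).natDegree ≤ 3 * n := by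
        intro c a b hab
        refine natDegree_mul_le.trans ?_
        have h1 : (C c * U ^ a).natDegree ≤ a * U.natDegree :=
          (natDegree_C_mul_le _ _).trans natDegree_pow_le
        have h2 : (mm G ^ b).natDegree ≤ b * n := by
          rw [← hmn]; exact natDegree_pow_le
        have h3 : a * U.natDegree ≤ a * n := Nat.mul_le_mul_left _ hUn.le
        calc (C c * U ^ a).natDegree + (mm G ^ b).natDegree ≤ a * n + b * n := by omega
          _ = 3 * n := by rw [← add_mul, hab]
      have hs : (C ((derivative G).eval r) * mm G ^ 3 +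
          C ((hasseDeriv 2 G).eval r) * U * mm G ^ 2 + C ((hasseDeriv 3 G).eval r) * U ^ 2 * mm G +
          C ((hasseDeriv 4 G).eval r) * U ^ 3).natDegree ≤ 3 * n := by
        refine (natDegree_add_le_of_degree_le (natDegree_add_le_of_degree_le
          (natDegree_add_le_of_degree_le ?_ ?_) ?_) ?_)
        · simpa using hb ((derivative G).eval r) 0 3 rfl
        · simpa using hb ((hasseDeriv 2 G).eval r) 1 2 rfl
        · simpa using hb ((hasseDeriv 3 G).eval r) 2 1 rfl
        · simpa using hb ((hasseDeriv 4 G).eval r) 3 0 rfl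
      refine lt_of_le_of_lt natDegree_mul_le ?_
      omega
  have hvv0 : vv G ≠ 0 := by
    intro h0
    rw [h0] at hdeg
    simp at hdeg
    omega
  have hdeg2 : G.natDegree + 2 * (vv G).natDegree = 4 * n := by
    rw [← hdeg, natDegree_mul hG.sep.ne_zero (pow_ne_zero 2 hvv0), natDegree_pow]
  have hvv : (vv G).natDegree ≤ U.natDegree + n - 1 := by
    have h1 := derivative_nn_mm G hG.le
    have h4 : nn G = U + C r * mm G := by rw [hU]; ring
    have h5 : -3 * vv G = derivative U * mm G - U * derivative (mm G) := by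
      rw [← h1, h4]
      simp only [derivative_add, derivative_mul, derivative_C, zero_mul, zero_add]
      ring
    have h6 : (-3 * vv G).natDegree = (vv G).natDegree := by
      have : (-3 : κ[X]) = C (-3) := by
        rw [map_neg, map_ofNat]
      rw [this, natDegree_C_mul (by norm_num)]
    rw [← h6, h5]
    refine (natDegree_sub_le _ _).trans (max_le ?_ ?_)
    · rcases Nat.eq_zero_or_pos U.natDegree with h0 | h0
      · rw [derivative_of_natDegree_zero h0]
        simp
      · refine natDegree_mul_le.trans ?_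
        have := natDegree_derivative_le U
        omega
    · refine natDegree_mul_le.trans ?_
      have := natDegree_derivative_le (mm G)
      omega
  have hle := hG.le
  omega

private theorem Q1e_closed {κ : Type} [Field κ] [CharZero κ] [IsAlgClosed κ] (G : κ[X])
    (hG : Quart G) : ∀ (d : ℕ) (p : κ[X]), p.natDegree = d → p ≠ 0 →
      (∀ r, p.eval r = 0 → G.eval r ≠ 0) →
      homP p (nn G) (mm G) ≠ 0 ∧ 2 * p.natDegree ≤ (homP p (nn G) (mm G)).natDegree := by
  intro d
  induction d with
  | zero =>
    intro p hd hp _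
    rw [eq_C_of_natDegree_eq_zero hd] at hp ⊢
    have h : p.coeff 0 ≠ 0 := fun h => hp (by rw [h, C_0])
    have h2 : homP (C (p.coeff 0)) (nn G) (mm G) = C (p.coeff 0) := by simp [homP]
    rw [h2]
    exact ⟨hp, by simp⟩
  | succ d ih =>
    intro p hd hp hroot
    obtain ⟨r, hr⟩ := IsAlgClosed.exists_root p (by
      intro h0
      have := natDegree_eq_of_degree_eq_some (n := 0) h0
      omega)
    obtain ⟨q, hq⟩ := dvd_iff_isRoot.mpr hr
    have hX : (X - C r : κ[X]) ≠ 0 := X_sub_C_ne_zero r
    have hq0 : q ≠ 0 := by rintro rfl; exact hp (by rw [hq, mul_zero])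
    have hdq : q.natDegree = d := by
      rw [hq, natDegree_mul hX hq0, natDegree_X_sub_C] at hd
      omega
    obtain ⟨h1, h2⟩ := ih q hdq hq0 (fun s hs => hroot s (by rw [hq, eval_mul, hs, mul_zero]))
    have h3 : homP (X - C r) (nn G) (mm G) = nn G - C r * mm G := by
      rw [homP, natDegree_X_sub_C]
      simp only [Finset.sum_range_succ, Finset.sum_range_zero, coeff_sub, coeff_X_zero, coeff_C_zero,
        coeff_X_one]
      have : (C r : κ[X]).coeff 1 = 0 := coeff_C_of_ne_zero (by norm_num)
      rw [this]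
      simp
      ring
    have h4 := Q1e_sub G hG r (hroot r hr)
    have h5 := Q1e_three G hG
    have h6 : nn G - C r * mm G ≠ 0 := by
      intro h0
      rw [h0, natDegree_zero] at h4
      omega
    rw [hq, homP_mul _ _ _ _ hX hq0, h3]
    refine ⟨mul_ne_zero h6 h1, ?_⟩
    rw [natDegree_mul hX hq0, natDegree_mul h6 h1, natDegree_X_sub_C]
    omega

/-- The map `P ↦ 2H - 3P` multiplies the degrees by more than two. -/
theorem natDegree_homP {κ : Type} [Field κ] [CharZero κ] (G : κ[X]) (hG : Quart G) (p : κ[X])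
    (hp : p.Separable) (hpG : IsCoprime p G) :
    2 * p.natDegree ≤ (homP p (nn G) (mm G)).natDegree := by
  let φ := algebraMap κ (AlgebraicClosure κ)
  have : CharZero (AlgebraicClosure κ) := charZero_of_injective_algebraMap φ.injective
  have h1 := (Q1e_closed (G.map φ) (Q1e_quart φ G hG) _ (p.map φ) rfl
    ((Polynomial.map_ne_zero_iff φ.injective).mpr hp.ne_zero) (by
      intro r hr h0
      have h2 := hpG.map (mapRingHom φ)
      obtain ⟨a, b, hab⟩ := h2
      have h3 := congrArg (eval r) hab
      simp only [coe_mapRingHom, eval_add, eval_mul, hr, h0, mul_zero, add_zero, eval_one] at h3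
      exact zero_ne_one h3)).2
  rw [Q1e_nn, Q1e_mm, Q1e_hom, natDegree_map, natDegree_map] at h1
  exact h1

/-- The abscissa of `2H - 3P` is not constant. -/
theorem transcendental_quot {κ K₁ : Type} [Field κ] [CharZero κ] [Field K₁] (ε : κ →+* K₁)
    (τ : K₁) (hτ : ∀ P : κ[X], P.eval₂ ε τ = 0 → P = 0) (G : κ[X]) (hG : Quart G) (P : κ[X])
    (hP : P.eval₂ ε ((nn G).eval₂ ε τ / (mm G).eval₂ ε τ) = 0) : P = 0 := by
  by_contra hP0
  have hmm0 : mm G ≠ 0 := mm_ne_zero G hG
  have hM : (mm G).eval₂ ε τ ≠ 0 := fun h => hmm0 (hτ _ h)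
  have h1 := homP_eval ε τ P (nn G) (mm G) hM
  rw [hP, mul_zero] at h1
  have h2 := hτ _ h1
  have h3 := homP_coprime_right P (nn G) (mm G) hP0 (isCoprime_nn_mm G hG)
  rw [h2] at h3
  have hu := isCoprime_zero_left.mp h3
  have hd : (mm G).natDegree = 0 := natDegree_eq_zero_of_isUnit hu
  have h4 := Q1e_three G hG
  rw [hd, Nat.max_zero] at h4
  obtain ⟨c, hc⟩ : ∃ c, mm G = C c := ⟨_, eq_C_of_natDegree_eq_zero hd⟩
  have hc0 : c ≠ 0 := by
    rintro rfl
    exact hmm0 (by rw [hc, C_0])
  rw [hc, eval₂_C] at hP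
  have h5 : (P.comp (C c⁻¹ * nn G)).eval₂ ε τ = 0 := by
    rw [eval₂_comp, eval₂_mul, eval₂_C, map_inv₀, ← hP, div_eq_inv_mul]
  have h6 := hτ _ h5
  rw [comp_eq_zero_iff] at h6
  rcases h6 with h6 | ⟨_, h6⟩
  · exact hP0 h6
  · have h7 : (C c⁻¹ * nn G).natDegree = 0 := by
      rw [h6, natDegree_C]
    rw [natDegree_C_mul (inv_ne_zero hc0)] at h7
    omega

end Pool.Agent.LibHPQ
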