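import Pool.Agent.LibHPQ.Defs
import Pool.Agent.LibHP2.A4
import Pool.Agent.LibHP2.B3
import Pool.Agent.LibHP2.W8

set_option autoImplicit false

namespace Pool.Agent.LibHPQ

open Polynomial Pool.Agent.LibHP

/-- Elements of the closure are algebraic if the generators are. -/
theorem Q7a_algebraic {Ω : Type} [Field Ω] (F : Subfield Ω) (S : Set Ω)
    (hS : ∀ z ∈ S, IsAlgebraic F z) : ∀ z ∈ Subfield.closure S, IsAlgebraic F z := by
  have h1 : Subfield.closure S ≤ (algebraicClosure F Ω).toSubfield := by
    rw [Subfield.closure_le]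
    intro z hz
    exact mem_algebraicClosure_iff.2 (hS z hz)
  intro z hz
  exact mem_algebraicClosure_iff.1 (h1 hz)

/-- `Ω = L(t)` is generated by `L` and `s(K)`. -/
theorem Q7a_top {K L : Type} [Field K] [Field L] [Algebra K L] {r : ℕ} (s : K →+* RF K r)
    (hgen : Subfield.closure (Set.range (algebraMap K (RF K r)) ∪ Set.range s) = ⊤)
    (C : Subfield (RF L r)) (hL : ∀ a : L, algebraMap L (RF L r) a ∈ C)
    (hs : ∀ a : K, rfmap (algebraMap K L) r (s a) ∈ C) : C = ⊤ := by
  rw [eq_top_iff]
  have h1 : (⊤ : Subfield (RF K r)) ≤ C.comap (rfmap (algebraMap K L) r) := by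
    rw [← hgen, Subfield.closure_le]
    rintro _ (⟨a, rfl⟩ | ⟨a, rfl⟩)
    · change rfmap (algebraMap K L) r (algebraMap K (RF K r) a) ∈ C
      rw [rfmap_const]
      exact hL _
    · exact hs a
  have h2 : ∀ p : MvPolynomial (Fin r) L,
      algebraMap (MvPolynomial (Fin r) L) (RF L r) p ∈ C := by
    intro p
    induction p using MvPolynomial.induction_on with
    | C a =>
      have h3 : algebraMap (MvPolynomial (Fin r) L) (RF L r) (MvPolynomial.C a) =
          algebraMap L (RF L r) a := (IsScalarTower.algebraMap_apply L (MvPolynomial (Fin r) L)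
            (RF L r) a).symm
      rw [h3]
      exact hL a
    | add p q hp hq =>
      rw [map_add]
      exact add_mem hp hq
    | mul_X p i hp =>
      rw [map_mul]
      refine mul_mem hp ?_
      have h3 : algebraMap (MvPolynomial (Fin r) K) (RF K r) (MvPolynomial.X i) ∈
          C.comap (rfmap (algebraMap K L) r) := h1 trivial
      change rfmap (algebraMap K L) r (algebraMap (MvPolynomial (Fin r) K)
        (RF K r) (MvPolynomial.X i)) ∈ C at h3
      rwa [rfmap_algebraMap, MvPolynomial.map_X] at h3
  intro z _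
  obtain ⟨p, q, _, rfl⟩ := IsFractionRing.div_surjective (A := MvPolynomial (Fin r) L) z
  exact div_mem (h2 p) (h2 q)

/-- The quadric move: if `L` is admissible then so is the compositum of `K` and of the algebraic
closure `N` of `M` in `L`. -/
theorem quad_step (k M K L : Type) [Field k] [CharZero k] [Field M] [CharZero M] [Field K]
    [Field L] [Algebra k M] [Algebra k K] [Algebra M K] [IsScalarTower k M K] [Algebra K L]
    [FiniteDimensional K L] (hfg : Algebra.EssFiniteType M K) (n : ℕ) (hn : 2 ≤ n)
    (B : Matrix (Fin (n + 1)) (Fin (n + 1)) M) (hB : B.IsSymm) (hdet : B.det ≠ 0)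
    (y : Fin n → K) (hy : IsGenericQuad B y) (hL : Adm k K L) :
    ∃ (N : Type) (_ : Field N) (_ : Algebra M N) (j₀ : N →+* L), FiniteDimensional M N ∧
      AdmOver k M K N ∧
      (∀ c : M, j₀ (algebraMap M N c) = algebraMap K L (algebraMap M K c)) ∧
      ∀ z : L, (∃ P : M[X], P ≠ 0 ∧ P.eval₂ ((algebraMap K L).comp (algebraMap M K)) z = 0) →
        ∃ a, j₀ a = z := by
  obtain ⟨n₁, ι₁, hcl₁, hconst₁⟩ := hL
  obtain ⟨s, hsM, hsv, hgen⟩ := exists_stereo M K n hn B hB hdet y hy
  obtain ⟨T, hT, hTfree⟩ := exists_free_basis M K n hn B hB hdet y hy s hsM hgen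
  let : Algebra M L := ((algebraMap K L).comp (algebraMap M K)).toAlgebra
  have hMKL : ∀ c : M, algebraMap M L c = algebraMap K L (algebraMap M K c) := fun _ => rfl
  have : IsScalarTower M K L := IsScalarTower.of_algebraMap_eq hMKL
  have : Algebra.EssFiniteType M L := Algebra.EssFiniteType.comp M K L
  have hfin : FiniteDimensional M (algebraicClosure M L) := finiteDimensional_algebraicClosure M L
  have hCL : CharZero L := charZero_of_injective_algebraMap (algebraMap M L).injective
  have hCΩ : CharZero (RF L (n - 1)) :=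
    charZero_of_injective_algebraMap (algebraMap L (RF L (n - 1))).injective
  let M0 : Subfield L := (algebraicClosure M L).toSubfield
  have hM0 : ∀ z : L, z ∈ M0 ↔ IsAlgebraic M z := fun z => mem_algebraicClosure_iff
  let ι : L →+* RF L (n - 1) := algebraMap L (RF L (n - 1))
  let s₁ : K →+* RF L (n - 1) := (rfmap (algebraMap K L) (n - 1)).comp s
  have hs₁ : ∀ a, s₁ a = rfmap (algebraMap K L) (n - 1) (s a) := fun _ => rfl
  have hs₁M : ∀ c : M, s₁ (algebraMap M K c) = ι (algebraMap M L c) := by
    intro c
    rw [hs₁, hsM, rfmap_const, hMKL]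
  set S : Set (RF L (n - 1)) := Set.range s₁ ∪ ι '' M0 with hS
  set K2 : Subfield (RF L (n - 1)) := Subfield.closure S with hK2
  have hsK2 : ∀ a : K, s₁ a ∈ K2 := fun a => Subfield.subset_closure (Or.inl ⟨a, rfl⟩)
  have hιK2 : ∀ a ∈ M0, ι a ∈ K2 := fun a ha => Subfield.subset_closure (Or.inr ⟨a, ha, rfl⟩)
  -- `K2` is algebraically closed in `Ω`
  have hmain : ∀ z : RF L (n - 1), IsAlgebraic K2 z → z ∈ K2 := by
    refine mem_of_algebraic_compositum (RF L (n - 1)) (M0.map ι) ι.fieldRange K2
      ?_ ?_ ?_ (n - 1) (fun i => s₁ (T i)) ?_ ?_ ?_ ?_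
    · rintro _ ⟨z, _, rfl⟩
      exact ⟨z, rfl⟩
    · rintro _ ⟨z, hz, rfl⟩
      exact hιK2 z hz
    · rintro _ ⟨z, rfl⟩ hz
      refine ⟨z, ?_, rfl⟩
      have h1 : IsAlgebraic (algebraicClosure M L) z := by
        let g : algebraicClosure M L →+* (M0.map ι) :=
          (ι.comp (algebraMap (algebraicClosure M L) L)).codRestrict (M0.map ι)
            (fun x => ⟨x, x.2, rfl⟩)
        refine IsAlgebraic.of_ringHom_of_comp_eq (S := M0.map ι) (B := RF L (n - 1)) g ι hz ?_
          ι.injective ?_
        · rintro ⟨_, x, hx, rfl⟩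
          exact ⟨⟨x, hx⟩, rfl⟩
        · ext x
          rfl
      exact (hM0 z).2 (h1.restrictScalars M)
    · intro i
      exact hsK2 _
    · refine Q7a_algebraic _ S ?_
      rintro _ (⟨a, rfl⟩ | ⟨a, ha, rfl⟩)
      · refine B3b_map s₁ (Algebra.adjoin M (Set.range T)) _ Subtype.val_injective ?_
          (hT.isAlgebraic.isAlgebraic a)
        rintro ⟨a, ha⟩
        change s₁ a ∈ _
        induction ha using Algebra.adjoin_induction with
        | mem x hx =>
          obtain ⟨i, rfl⟩ := hx
          exact Subfield.subset_closure (Or.inr ⟨i, rfl⟩)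
        | algebraMap c =>
          rw [hs₁M]
          exact Subfield.subset_closure
            (Or.inl ⟨algebraMap M L c, (hM0 _).2 (isAlgebraic_algebraMap c), rfl⟩)
        | add x y _ _ hx hy =>
          rw [map_add]
          exact add_mem hx hy
        | mul x y _ _ hx hy =>
          rw [map_mul]
          exact mul_mem hx hy
      · have h1 : ι a ∈ Subfield.closure ((M0.map ι : Set (RF L (n - 1))) ∪
            Set.range (fun i => s₁ (T i))) :=
          Subfield.subset_closure (Or.inl ⟨a, ha, rfl⟩)
        exact isAlgebraic_algebraMap (⟨ι a, h1⟩ : Subfield.closure ((M0.map ι :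
          Set (RF L (n - 1))) ∪ Set.range (fun i => s₁ (T i))))
    · have h1 := hTfree T hT
      have h2 : AlgebraicIndependent K ((rfmap (algebraMap K L) (n - 1)) ∘ fun i => s (T i)) := by
        refine h1.ringHom_of_comp_eq (RingHom.id K) (rfmap (algebraMap K L) (n - 1))
          Function.surjective_id (rfmap (algebraMap K L) (n - 1)).injective ?_
        ext a
        change algebraMap K (RF L (n - 1)) a =
          rfmap (algebraMap K L) (n - 1) (algebraMap K (RF K (n - 1)) a)
        rw [rfmap_const, ← IsScalarTower.algebraMap_apply K L]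
      have h3 : AlgebraicIndependent L
          ((rfmap (algebraMap K L) (n - 1)) ∘ fun i => s (T i)) := h2.extendScalars L
      have h4 := h3.ringHom_of_comp_eq (S := ι.fieldRange) (B := RF L (n - 1))
        ι.rangeRestrictField (RingHom.id (RF L (n - 1)))
        ι.rangeRestrictField_bijective.2 Function.injective_id (by ext; rfl)
      exact h4
    · exact Q7a_top s hgen _ (fun a => Subfield.subset_closure (Or.inl ⟨a, rfl⟩))
        (fun a => Subfield.subset_closure (Or.inr (hsK2 a)))
  -- the algebra structure
  let sK : K →+* K2 := s₁.codRestrict K2 hsK2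
  let : Algebra K K2 := sK.toAlgebra
  have hKK2 : ∀ a : K, ((algebraMap K K2 a : K2) : RF L (n - 1)) = s₁ a := fun _ => rfl
  let j : algebraicClosure M L →+* K2 :=
    (ι.comp (algebraMap (algebraicClosure M L) L)).codRestrict K2 (fun x => hιK2 x x.2)
  have hj : ∀ x : algebraicClosure M L, ((j x : K2) : RF L (n - 1)) = ι x := fun _ => rfl
  have hjM : ∀ c : M, j (algebraMap M (algebraicClosure M L) c) =
      algebraMap K K2 (algebraMap M K c) := by
    intro c
    apply Subtype.ext
    rw [hj, hKK2, hs₁M]
    rfl
  have hgen2 : Subfield.closure (Set.range (algebraMap K K2) ∪ Set.range j) = ⊤ := by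
    rw [eq_top_iff]
    intro x _
    have h1 : (Subfield.closure (Set.range (algebraMap K K2) ∪ Set.range j)).map K2.subtype =
        K2 := by
      rw [RingHom.map_field_closure]
      have h2 : K2.subtype '' (Set.range (algebraMap K K2) ∪ Set.range j) = S := by
        rw [Set.image_union, hS]
        congr 1
        · ext z
          constructor
          · rintro ⟨_, ⟨a, rfl⟩, rfl⟩
            exact ⟨a, rfl⟩
          · rintro ⟨a, rfl⟩
            exact ⟨_, ⟨a, rfl⟩, rfl⟩
        · ext z
          constructor
          · rintro ⟨_, ⟨a, rfl⟩, rfl⟩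
            exact ⟨a, a.2, rfl⟩
          · rintro ⟨a, ha, rfl⟩
            exact ⟨_, ⟨⟨a, ha⟩, rfl⟩, rfl⟩
      rw [h2]
    have h3 : (x : RF L (n - 1)) ∈
        (Subfield.closure (Set.range (algebraMap K K2) ∪ Set.range j)).map K2.subtype := by
      rw [h1]; exact x.2
    obtain ⟨y, hy1, hy2⟩ := h3
    have h4 : y = x := Subtype.ext hy2
    rw [← h4]
    exact hy1
  -- finiteness
  have hfin2 : FiniteDimensional K K2 := by
    let b := Module.finBasis M (algebraicClosure M L)
    have hint : ∀ x ∈ Set.range (fun i => j (b i)), IsIntegral K x := by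
      rintro _ ⟨i, rfl⟩
      have h1 : IsIntegral M (b i) := IsIntegral.of_finite M (b i)
      obtain ⟨P, hP, hPe⟩ := h1
      refine ⟨P.map (algebraMap M K), hP.map _, ?_⟩
      rw [Polynomial.eval₂_map]
      have h2 : (algebraMap K K2).comp (algebraMap M K) =
          j.comp (algebraMap M (algebraicClosure M L)) := RingHom.ext fun c => (hjM c).symm
      rw [h2, ← Polynomial.hom_eval₂, hPe, map_zero]
    have h1 : FiniteDimensional K (IntermediateField.adjoin K (Set.range (fun i => j (b i)))) := by
      have : Finite (Set.range (fun i => j (b i))) := Set.finite_range _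
      exact IntermediateField.finiteDimensional_adjoin hint
    have h2 : IntermediateField.adjoin K (Set.range (fun i => j (b i))) = ⊤ := by
      rw [eq_top_iff]
      have h3 : (⊤ : Subfield K2) ≤
          (IntermediateField.adjoin K (Set.range (fun i => j (b i)))).toSubfield := by
        rw [← hgen2, Subfield.closure_le]
        rintro _ (⟨a, rfl⟩ | ⟨a, rfl⟩)
        · exact IntermediateField.algebraMap_mem _ a
        · have h4 : j a = ∑ i, algebraMap K K2 (algebraMap M K (b.repr a i)) * j (b i) := by
            conv_lhs => rw [← b.sum_repr a]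
            rw [map_sum]
            refine Finset.sum_congr rfl fun i _ => ?_
            rw [Algebra.smul_def, map_mul, hjM]
          rw [h4]
          refine sum_mem fun i _ => mul_mem (IntermediateField.algebraMap_mem _ _) ?_
          exact IntermediateField.subset_adjoin K _ ⟨i, rfl⟩
      intro x _
      exact h3 (Subfield.mem_top x)
    rw [h2] at h1
    exact Module.Finite.equiv (IntermediateField.topEquiv (F := K) (E := K2)).toLinearEquiv
  refine ⟨algebraicClosure M L, inferInstance, inferInstance,
    algebraMap (algebraicClosure M L) L, hfin, ?_, fun c => rfl, ?_⟩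
  · refine ⟨K2, inferInstance, inferInstance, j, hfin2, ?_, hjM, hgen2, ?_⟩
    · -- admissibility
      obtain ⟨Φ⟩ := exists_algEquiv_RF k n₁ (n - 1)
      let ι' : K2 →+* RF k (n₁ + (n - 1)) :=
        (Φ.toRingEquiv.toRingHom.comp (rfmap ι₁ (n - 1))).comp K2.subtype
      have hι' : ∀ x : K2, ι' x = Φ (rfmap ι₁ (n - 1) x) := fun _ => rfl
      refine ⟨n₁ + (n - 1), ι', ?_, ?_⟩
      · rintro e ⟨P, hP, hPe⟩
        have h1 : Polynomial.eval₂ ((rfmap ι₁ (n - 1)).comp K2.subtype) (Φ.symm e) P = 0 := by
          have h2 := congrArg Φ.symm.toRingEquiv.toRingHom hPe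
          rw [Polynomial.hom_eval₂, map_zero] at h2
          have h3 : Φ.symm.toRingEquiv.toRingHom.comp ι' = (rfmap ι₁ (n - 1)).comp K2.subtype := by
            ext x
            exact Φ.symm_apply_apply _
          rw [h3] at h2
          exact h2
        rw [← Polynomial.eval₂_map] at h1
        have hP' : P.map K2.subtype ≠ 0 := (Polynomial.map_ne_zero_iff K2.subtype.injective).2 hP
        obtain ⟨g, hg⟩ := mem_range_rfmap ι₁ hcl₁ (n - 1) (Φ.symm e) (P.map K2.subtype) hP' h1
        have h2 : P.eval₂ K2.subtype g = 0 := by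
          apply (rfmap ι₁ (n - 1)).injective
          rw [Polynomial.hom_eval₂, hg, map_zero, ← Polynomial.eval₂_map]
          exact h1
        have h3 : IsAlgebraic K2 g := ⟨P, hP, h2⟩
        refine ⟨⟨g, hmain g h3⟩, ?_⟩
        rw [hι']
        show Φ (rfmap ι₁ (n - 1) g) = e
        rw [hg, AlgEquiv.apply_symm_apply]
      · intro c
        rw [hι', hKK2]
        have h1 : s₁ (algebraMap k K c) = ι (algebraMap K L (algebraMap k K c)) := by
          rw [IsScalarTower.algebraMap_apply k M K, hs₁M, hMKL]
        rw [h1]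
        show Φ (rfmap ι₁ (n - 1) (algebraMap L (RF L (n - 1)) _)) = _
        rw [rfmap_const, hconst₁, ← IsScalarTower.algebraMap_apply k (RF k n₁), AlgEquiv.commutes]
    · rintro z ⟨P, hP, hPe⟩
      have h1 : Polynomial.eval₂ (algebraMap L (RF L (n - 1))) (z : RF L (n - 1))
          (P.map (algebraMap M L)) = 0 := by
        rw [Polynomial.eval₂_map]
        have h2 := congrArg K2.subtype hPe
        rw [Polynomial.hom_eval₂, map_zero] at h2
        have h3 : K2.subtype.comp ((algebraMap K K2).comp (algebraMap M K)) =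
            (algebraMap L (RF L (n - 1))).comp (algebraMap M L) := by
          ext c
          exact hs₁M c
        rw [h3] at h2
        exact h2
      have hP' : P.map (algebraMap M L) ≠ 0 :=
        (Polynomial.map_ne_zero_iff (algebraMap M L).injective).2 hP
      obtain ⟨c, hc⟩ := W8_const L (n - 1) (z : RF L (n - 1)) ⟨_, hP', h1⟩
      have h4 : IsAlgebraic M c := by
        refine ⟨P, hP, ?_⟩
        apply (algebraMap L (RF L (n - 1))).injective
        rw [map_zero, Polynomial.aeval_def, Polynomial.hom_eval₂, hc, ← Polynomial.eval₂_map]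
        exact h1
      refine ⟨⟨c, (hM0 c).2 h4⟩, ?_⟩
      apply Subtype.ext
      rw [hj]
      exact hc
  · rintro z ⟨P, hP, hPe⟩
    exact ⟨⟨z, (hM0 z).2 ⟨P, hP, hPe⟩⟩, rfl⟩

end Pool.Agent.LibHPQ
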