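import Pool.Agent.LibHPQ.Defs
import Pool.Agent.LibHP2.R1

set_option autoImplicit false

namespace Pool.Agent.LibHPQ

open Polynomial Pool.Agent.LibHP

/-- Finite extensions of a field `M` algebraically closed in `K` keep their degree over `K`. -/
theorem finrank_le_of_closed (M K L N : Type) [Field M] [CharZero M] [Field K] [Field L] [Field N]
    [Algebra K L] [FiniteDimensional K L] [Algebra M N] [FiniteDimensional M N] (i : M →+* K)
    (hcl : ∀ c : K, (∃ P : M[X], P ≠ 0 ∧ P.eval₂ i c = 0) → ∃ a, i a = c) (j : N →+* L)
    (hj : ∀ c, j (algebraMap M N c) = algebraMap K L (i c)) :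
    Module.finrank M N ≤ Module.finrank K L ∧
      (Module.finrank K L ≤ Module.finrank M N →
        Subfield.closure (Set.range (algebraMap K L) ∪ Set.range j) = ⊤) := by
  let _ : Algebra M K := i.toAlgebra
  let _ : Algebra M L := ((algebraMap K L).comp i).toAlgebra
  have : IsScalarTower M K L := IsScalarTower.of_algebraMap_eq fun _ => rfl
  let j' : N →ₐ[M] L := { j with commutes' := hj }
  obtain ⟨θ, hθ⟩ := Field.exists_primitive_element M N
  have h1 : (minpoly M θ).natDegree = Module.finrank M N :=
    (Field.primitive_element_iff_minpoly_natDegree_eq M θ).1 hθ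
  have hint : IsIntegral M (j' θ) := (Algebra.IsIntegral.isIntegral (R := M) θ).map j'
  have h2 : (minpoly K (j' θ)).natDegree = Module.finrank M N := by
    rw [R1_natDegree_minpoly M K L ?_ (j' θ) hint, minpoly.algHom_eq j' j'.injective θ, h1]
    rintro c ⟨P, hP, hPc⟩
    exact hcl c ⟨P, hP, hPc⟩
  constructor
  · rw [← h2]
    exact minpoly.natDegree_le _
  · intro hle
    have h3 : (minpoly K (j' θ)).natDegree = Module.finrank K L :=
      le_antisymm (minpoly.natDegree_le _) (by rw [h2]; exact hle)
    have h4 : IntermediateField.adjoin K {j' θ} = ⊤ := by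
      apply IntermediateField.eq_of_le_of_finrank_eq le_top
      rw [IntermediateField.adjoin.finrank (Algebra.IsIntegral.isIntegral _), h3,
        IntermediateField.finrank_top']
    rw [eq_top_iff]
    intro z _
    have h5 : z ∈ IntermediateField.adjoin K {j' θ} := by rw [h4]; trivial
    have h6 : z ∈ Subfield.closure (Set.range (algebraMap K L) ∪ {j' θ}) := h5
    refine Subfield.closure_mono ?_ h6
    apply Set.union_subset_union_right
    rintro _ rfl
    exact ⟨θ, rfl⟩

/-- The degree of a compositum. -/
theorem finrank_le_of_closure (M K L N : Type) [Field M] [Field K] [Field L] [Field N]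
    [Algebra K L] [FiniteDimensional K L] [Algebra M N] [FiniteDimensional M N] (i : M →+* K)
    (j : N →+* L) (hj : ∀ c, j (algebraMap M N c) = algebraMap K L (i c))
    (hgen : Subfield.closure (Set.range (algebraMap K L) ∪ Set.range j) = ⊤) :
    Module.finrank K L ≤ Module.finrank M N := by
  -- the algebra generated by `j N` is everything
  have h1 : IntermediateField.adjoin K (Set.range j) = ⊤ := by
    rw [eq_top_iff]
    intro z _
    have h2 : z ∈ Subfield.closure (Set.range (algebraMap K L) ∪ Set.range j) := by
      rw [hgen]; trivial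
    exact h2
  have h2 : Algebra.adjoin K (Set.range j) = ⊤ := by
    rw [← IntermediateField.adjoin_toSubalgebra_of_isAlgebraic
      (fun x _ => (Algebra.IsAlgebraic.isAlgebraic x)), h1]
    rfl
  have h3 : Submodule.span K (Set.range j) = ⊤ := by
    have h4 : (Submonoid.closure (Set.range j) : Set L) = Set.range j := by
      have h5 : Set.range j = ((MonoidHom.mrange (j : N →* L) : Submonoid L) : Set L) := rfl
      rw [h5, Submonoid.closure_eq]
    have h6 := Algebra.adjoin_eq_span K (Set.range j)
    rw [h4, h2] at h6
    rw [← h6]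
    rfl
  let B := Module.finBasis M N
  have h7 : Submodule.span K (Set.range (fun s => j (B s))) = ⊤ := by
    rw [eq_top_iff, ← h3, Submodule.span_le]
    rintro _ ⟨y, rfl⟩
    have h8 : y = ∑ s, B.repr y s • B s := (B.sum_repr y).symm
    rw [h8, map_sum]
    apply Submodule.sum_mem
    intro s _
    rw [Algebra.smul_def, map_mul, hj, ← Algebra.smul_def]
    exact Submodule.smul_mem _ _ (Submodule.subset_span ⟨s, rfl⟩)
  have h8 := finrank_range_le_card (R := K) (fun s => j (B s))
  rw [Set.finrank, h7, finrank_top, Fintype.card_fin] at h8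
  exact h8

end Pool.Agent.LibHPQ
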