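import Pool.Agent.LibHPQ.Q7d
import Pool.Agent.LibHP2.D3

set_option autoImplicit false

namespace Pool.Agent.LibHPQ

open Polynomial Pool.Agent.LibHP

theorem Q7f_le_iff {L : Type} [Field L] (W : ValuationSubring L) (x y : L) (hy : y ≠ 0) :
    W.valuation x ≤ W.valuation y ↔ x / y ∈ W := by
  rw [← W.valuation_le_one_iff, map_div₀, div_le_one₀]
  exact zero_lt_iff.mpr ((_root_.map_ne_zero _).mpr hy)

theorem Q7f_le_comap {N L : Type} [Field N] [Field L] (f : N →+* L) (W : ValuationSubring L)
    (x y : N) (hy : y ≠ 0) :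
    (W.comap f).valuation x ≤ (W.comap f).valuation y ↔
      W.valuation (f x) ≤ W.valuation (f y) := by
  rw [Q7f_le_iff _ _ _ hy, Q7f_le_iff _ _ _ ((_root_.map_ne_zero f).mpr hy), ← map_div₀]
  rfl

theorem Q7f_lt_comap {N L : Type} [Field N] [Field L] (f : N →+* L) (W : ValuationSubring L)
    (x : N) : (W.comap f).valuation x < 1 ↔ W.valuation (f x) < 1 := by
  by_cases hx : x = 0
  · subst hx; simp
  rw [D3b_val_lt _ hx, D3b_val_lt _ ((_root_.map_ne_zero f).mpr hx), ← map_inv₀]
  rfl

/-- The valuation ring of `M` below `W` is the valuation ring of `π`. -/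
theorem Q7f_valPoly (k : Type) [Field k] [CharZero k] (m : ℕ) (M : Type) [Field M]
    [Algebra (MvPolynomial (Fin m) k) M] [IsFractionRing (MvPolynomial (Fin m) k) M]
    (π : MvPolynomial (Fin m) k) (hπ : Irreducible π) :
    ∃ O' : ValuationSubring M, IsUnif O' (algebraMap (MvPolynomial (Fin m) k) M π) ∧
      ∀ (N : Type) [Field N] (i : M →+* N) (W : ValuationSubring N),
        Above (i.comp (algebraMap (MvPolynomial (Fin m) k) M)) π W → W.comap i = O' := by
  obtain ⟨O', hu, hmem, -⟩ := exists_valPoly k m M π hπ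
  refine ⟨O', hu, ?_⟩
  intro N _ i W hW
  have hval : ∀ q : MvPolynomial (Fin m) k, ¬ π ∣ q →
      W.valuation (i (algebraMap (MvPolynomial (Fin m) k) M q)) = 1 := by
    intro q hq
    have h1 := (W.valuation_le_one_iff _).mpr (hW.1 q)
    have h2 := mt (hW.2 q).mp hq
    exact le_antisymm h1 (not_lt.mp h2)
  ext z
  constructor
  · intro hz
    obtain ⟨n, d, hco, hz'⟩ :=
      IsFractionRing.exists_reduced_fraction (A := MvPolynomial (Fin m) k) z
    have hz2 : z * algebraMap (MvPolynomial (Fin m) k) M (d : MvPolynomial (Fin m) k)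
        = algebraMap (MvPolynomial (Fin m) k) M n := by
      rw [← hz', IsLocalization.mk'_spec]
    rw [hmem]
    refine ⟨n, d, ?_, hz2⟩
    intro hd
    have h1 : W.valuation (i (algebraMap (MvPolynomial (Fin m) k) M
        (d : MvPolynomial (Fin m) k))) < 1 := (hW.2 _).mpr hd
    have h2 : W.valuation (i z) ≤ 1 := (W.valuation_le_one_iff _).mpr hz
    have h3 : W.valuation (i (algebraMap (MvPolynomial (Fin m) k) M n)) < 1 := by
      rw [← hz2, map_mul, map_mul]
      exact lt_of_le_of_lt (mul_le_of_le_one_left' h2) h1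
    have h4 : π ∣ n := (hW.2 n).mp h3
    exact hπ.not_isUnit (hco h4 hd)
  · intro hz
    obtain ⟨p, q, hq, hpq⟩ := (hmem z).mp hz
    show i z ∈ W
    rw [← W.valuation_le_one_iff]
    have h1 := hval q hq
    have h2 := (W.valuation_le_one_iff _).mpr (hW.1 p)
    have h3 : i z * i (algebraMap (MvPolynomial (Fin m) k) M q)
        = i (algebraMap (MvPolynomial (Fin m) k) M p) := by
      rw [← map_mul, hpq]
    have h4 := congrArg W.valuation h3
    rw [map_mul, h1, mul_one] at h4
    rw [h4]
    exact h2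

/-- `unram_of_subfield` for ring homomorphisms. -/
theorem Q7f_R2 (M₂ K L : Type) [Field M₂] [CharZero M₂] [Field K] [Field L] [Algebra K L]
    [FiniteDimensional K L] (i₂ : M₂ →+* K)
    (hgen : Subfield.closure (Set.range (algebraMap K L) ∪
      {z : L | ∃ P : M₂[X], P ≠ 0 ∧ P.eval₂ ((algebraMap K L).comp i₂) z = 0}) = ⊤)
    (O : ValuationSubring K) (π : K) (hπ : IsUnif O π) (hM : ∀ a, i₂ a ∈ O)
    (W : ValuationSubring L) (hW : W.comap (algebraMap K L) = O) :
    Unram W (algebraMap K L π) := by
  let _ : Algebra M₂ K := i₂.toAlgebra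
  let _ : Algebra M₂ L := ((algebraMap K L).comp i₂).toAlgebra
  have : IsScalarTower M₂ K L := IsScalarTower.of_algebraMap_eq (fun _ => rfl)
  exact unram_of_subfield M₂ K L hgen O π hπ hM W hW

/-- `exists_common_valuation` for ring homomorphisms. -/
theorem Q7f_common (M K L N' : Type) [Field M] [CharZero M] [Field K] [Field L] [Field N']
    [Algebra K L] [FiniteDimensional K L] [Algebra M N'] [FiniteDimensional M N']
    (d : M →+* K) (j' : N' →+* L)
    (hj' : ∀ c, j' (algebraMap M N' c) = algebraMap K L (d c))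
    (hcl : ∀ c : K, (∃ P : M[X], P ≠ 0 ∧ P.eval₂ d c = 0) → ∃ a, d a = c)
    (O : ValuationSubring K) (π : M) (hπ : IsUnif O (d π)) (hπ1 : IsUnif (O.comap d) π)
    (W' : ValuationSubring N') (hW' : W'.comap (algebraMap M N') = O.comap d) :
    ∃ W : ValuationSubring L, W.comap (algebraMap K L) = O ∧ W.comap j' = W' := by
  let _ : Algebra M K := d.toAlgebra
  let _ : Algebra M L := ((algebraMap K L).comp d).toAlgebra
  have : IsScalarTower M K L := IsScalarTower.of_algebraMap_eq (fun _ => rfl)
  let f : N' →ₐ[M] L := { j' with commutes' := fun c => hj' c }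
  let e : N' ≃ₐ[M] f.fieldRange := AlgEquiv.ofInjectiveField f
  have he : ∀ x : N', ((e x : f.fieldRange) : L) = j' x := fun x => rfl
  have : FiniteDimensional M f.fieldRange := LinearEquiv.finiteDimensional e.toLinearEquiv
  obtain ⟨W, h1, h2⟩ := exists_common_valuation M K L hcl f.fieldRange O π hπ hπ1
    (W'.comap (e.symm : f.fieldRange →+* N')) (by
      rw [← show W'.comap (algebraMap M N') = O.comap (algebraMap M K) from hW']
      ext x
      simp only [ValuationSubring.mem_comap]
      have h3 : (e.symm : f.fieldRange →+* N') (algebraMap M f.fieldRange x)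
          = algebraMap M N' x := e.symm.commutes x
      rw [h3])
  refine ⟨W, h1, ?_⟩
  ext x
  have h4 : x ∈ W.comap j' ↔ e x ∈ W.comap (algebraMap f.fieldRange L) := Iff.rfl
  rw [h4, h2, ValuationSubring.mem_comap]
  have h5 : (e.symm : f.fieldRange →+* N') (e x) = x := e.symm_apply_apply x
  rw [h5]

/-- two uniformizers -/
theorem Q7f_unif_le {K L : Type} [Field K] [Field L] [Algebra K L] (O : ValuationSubring K)
    (a b : K) (ha : IsUnif O a) (hb : IsUnif O b) (W : ValuationSubring L)
    (hW : W.comap (algebraMap K L) = O) :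
    W.valuation (algebraMap K L b) ≤ W.valuation (algebraMap K L a) := by
  obtain ⟨n, u, hu, hu', hbu⟩ := ha.2.2.2 b hb.1 hb.2.1
  have hOW : ∀ x : K, x ∈ O → algebraMap K L x ∈ W := by
    intro x hx
    rw [← hW] at hx
    exact hx
  have hua : W.valuation (algebraMap K L u) ≤ 1 := (W.valuation_le_one_iff _).mpr (hOW _ hu)
  have haa : W.valuation (algebraMap K L a) ≤ 1 := (W.valuation_le_one_iff _).mpr (hOW _ ha.1)
  rcases n with _ | n
  · exfalso
    rw [pow_zero, mul_one] at hbu
    apply hb.2.2.1
    rw [hbu]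
    exact hu'
  · rw [hbu, map_mul, map_pow, map_mul, map_pow, pow_succ]
    calc W.valuation (algebraMap K L u) *
          (W.valuation (algebraMap K L a) ^ n * W.valuation (algebraMap K L a))
        ≤ 1 * (1 * W.valuation (algebraMap K L a)) := by
          gcongr
          exact pow_le_one' haa n
      _ = W.valuation (algebraMap K L a) := by rw [one_mul, one_mul]

/-- The common valuation is ramified. -/
theorem Q7f_main (k : Type) [Field k] [CharZero k] (m : ℕ) (M : Type) [Field M]
    [Algebra (MvPolynomial (Fin m) k) M] [IsFractionRing (MvPolynomial (Fin m) k) M]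
    (K L N' : Type) [Field K] [Field L] [Field N'] [Algebra K L]
    [FiniteDimensional K L] [Algebra M N']
    [FiniteDimensional M N'] (d : M →+* K) (j' : N' →+* L)
    (hj' : ∀ c, j' (algebraMap M N' c) = algebraMap K L (d c))
    (hcl : ∀ c : K, (∃ P : M[X], P ≠ 0 ∧ P.eval₂ d c = 0) → ∃ a, d a = c)
    (π : MvPolynomial (Fin m) k) (hπ : Irreducible π)
    (hram : RamAt ((algebraMap M N').comp (algebraMap (MvPolynomial (Fin m) k) M)) π)
    (O : ValuationSubring K) (hO : IsUnif O (d (algebraMap (MvPolynomial (Fin m) k) M π)))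
    (hO1 : Above (d.comp (algebraMap (MvPolynomial (Fin m) k) M)) π O) :
    ∃ W : ValuationSubring L, W.comap (algebraMap K L) = O ∧
      ¬ Unram W (algebraMap K L (d (algebraMap (MvPolynomial (Fin m) k) M π))) := by
  have hinj := IsFractionRing.injective (MvPolynomial (Fin m) k) M
  have : CharZero M := charZero_of_injective_algebraMap hinj
  obtain ⟨W', hA, hun⟩ := hram
  obtain ⟨O', hO'u, hO'⟩ := Q7f_valPoly k m M π hπ
  have e1 := hO' N' (algebraMap M N') W' hA
  have e2 := hO' K d O hO1
  obtain ⟨W, h1, h2⟩ := Q7f_common M K L N' d j' hj' hcl O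
    (algebraMap (MvPolynomial (Fin m) k) M π) hO (by rw [e2]; exact hO'u) W' (by rw [e1, e2])
  refine ⟨W, h1, ?_⟩
  intro hU
  apply hun
  intro z hz
  rw [← h2] at hz ⊢
  rw [Q7f_lt_comap] at hz
  have h3 := hU _ hz
  have hπ0 : (algebraMap M N') ((algebraMap (MvPolynomial (Fin m) k) M) π) ≠ 0 := by
    rw [Ne, map_eq_zero]
    exact fun h => hπ.ne_zero (hinj (by rw [h, map_zero]))
  rw [RingHom.comp_apply, Q7f_le_comap _ _ _ _ hπ0, hj']
  exact h3

/-- The core argument: if `N'` is ramified over `π` (with `M` embedded in `K` by `d`) then the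
valuation ring `O` of `K` over `π` lies over a prime `π'` of `M` (embedded by `i`) over which `N` is
ramified. -/
theorem core_step (k : Type) [Field k] [CharZero k] (m : ℕ) (M : Type) [Field M]
    [Algebra (MvPolynomial (Fin m) k) M] [IsFractionRing (MvPolynomial (Fin m) k) M]
    (K L N N' : Type) [Field K] [Field L] [Field N] [Field N'] [Algebra K L]
    [FiniteDimensional K L] [Algebra M N] [FiniteDimensional M N] [Algebra M N']
    [FiniteDimensional M N'] (i d : M →+* K) (j : N →+* L)
    (hj : ∀ c, j (algebraMap M N c) = algebraMap K L (i c))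
    (hgen : Subfield.closure (Set.range (algebraMap K L) ∪ Set.range j) = ⊤) (j' : N' →+* L)
    (hj' : ∀ c, j' (algebraMap M N' c) = algebraMap K L (d c))
    (hcl : ∀ c : K, (∃ P : M[X], P ≠ 0 ∧ P.eval₂ d c = 0) → ∃ a, d a = c)
    (π : MvPolynomial (Fin m) k) (hπ : Irreducible π)
    (hram : RamAt ((algebraMap M N').comp (algebraMap (MvPolynomial (Fin m) k) M)) π)
    (O : ValuationSubring K) (hO : IsUnif O (d (algebraMap (MvPolynomial (Fin m) k) M π)))
    (hO1 : Above (d.comp (algebraMap (MvPolynomial (Fin m) k) M)) π O) :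
    (∃ p : MvPolynomial (Fin m) k, p ≠ 0 ∧
      (i (algebraMap (MvPolynomial (Fin m) k) M p) ∉ O ∨
        O.valuation (i (algebraMap (MvPolynomial (Fin m) k) M p)) < 1)) ∧
    ∀ π' : MvPolynomial (Fin m) k, Irreducible π' →
      IsUnif O (i (algebraMap (MvPolynomial (Fin m) k) M π')) →
      Above (i.comp (algebraMap (MvPolynomial (Fin m) k) M)) π' O →
      RamAt ((algebraMap M N).comp (algebraMap (MvPolynomial (Fin m) k) M)) π' := by
  have hinj := IsFractionRing.injective (MvPolynomial (Fin m) k) M
  have hM0 : CharZero M := charZero_of_injective_algebraMap hinj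
  obtain ⟨W, hW, hun⟩ := Q7f_main k m M K L N' d j' hj' hcl π hπ hram O hO hO1
  constructor
  · by_contra hcon
    have hcon' : ∀ p : MvPolynomial (Fin m) k, p ≠ 0 →
        i (algebraMap (MvPolynomial (Fin m) k) M p) ∈ O ∧
        (i (algebraMap (MvPolynomial (Fin m) k) M p))⁻¹ ∈ O := by
      intro p hp
      have h1 : i (algebraMap (MvPolynomial (Fin m) k) M p) ≠ 0 := by
        rw [Ne, map_eq_zero]
        exact fun h => hp (hinj (by rw [h, map_zero]))
      have h2 : i (algebraMap (MvPolynomial (Fin m) k) M p) ∈ O := by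
        by_contra h
        exact hcon ⟨p, hp, Or.inl h⟩
      have h3 : ¬ O.valuation (i (algebraMap (MvPolynomial (Fin m) k) M p)) < 1 := by
        intro h
        exact hcon ⟨p, hp, Or.inr h⟩
      refine ⟨h2, ?_⟩
      rw [D3b_val_lt _ h1, not_not] at h3
      exact h3
    have hiO : ∀ a : M, i a ∈ O := by
      intro a
      obtain ⟨p, q, hq, rfl⟩ := IsFractionRing.div_surjective (A := MvPolynomial (Fin m) k) a
      rw [map_div₀, div_eq_mul_inv]
      refine O.mul_mem _ _ ?_ (hcon' q (nonZeroDivisors.ne_zero hq)).2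
      by_cases hp : p = 0
      · rw [hp, map_zero, map_zero]; exact O.zero_mem
      · exact (hcon' p hp).1
    apply hun
    refine Q7f_R2 M K L i ?_ O _ hO hiO W hW
    rw [eq_top_iff, ← hgen, Subfield.closure_le]
    rintro z (hz | ⟨n, rfl⟩)
    · exact Subfield.subset_closure (Or.inl hz)
    · apply Subfield.subset_closure
      right
      have hint : IsIntegral M n := Algebra.IsIntegral.isIntegral n
      refine ⟨minpoly M n, minpoly.ne_zero hint, ?_⟩
      have h1 : (algebraMap K L).comp i = j.comp (algebraMap M N) := by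
        apply RingHom.ext
        intro c
        exact (hj c).symm
      rw [h1, ← Polynomial.hom_eval₂]
      have h2 : Polynomial.eval₂ (algebraMap M N) n (minpoly M n) = 0 := minpoly.aeval M n
      rw [h2, map_zero]
  · intro π' hπ' hπ'u hπ'A
    refine ⟨W.comap j, ⟨?_, ?_⟩, ?_⟩
    · intro p
      show j (algebraMap M N (algebraMap (MvPolynomial (Fin m) k) M p)) ∈ W
      rw [hj]
      have h1 := hπ'A.1 p
      rw [← hW] at h1
      exact h1
    · intro p
      rw [RingHom.comp_apply, Q7f_lt_comap, hj, ← Q7f_lt_comap, hW]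
      exact hπ'A.2 p
    · intro hU
      apply hun
      obtain ⟨O', hO'u, hO'⟩ := Q7f_valPoly k m M π' hπ'
      have e2 := hO' K i O hπ'A
      have hU2 := unram_base_change M K L N i j hj hgen O (by
        intro n hn
        have h1 := hO1.1 (MvPolynomial.C ((n : k)⁻¹))
        have h2 : (d.comp (algebraMap (MvPolynomial (Fin m) k) M)) (MvPolynomial.C ((n : k)⁻¹))
            = ((n : K)⁻¹) := by
          have h3 : (MvPolynomial.C ((n : k)⁻¹) : MvPolynomial (Fin m) k) * (n : ℕ) = 1 := by
            have h4 : ((n : ℕ) : MvPolynomial (Fin m) k) = MvPolynomial.C ((n : ℕ) : k) := by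
              rw [map_natCast]
            rw [h4, ← MvPolynomial.C_mul, inv_mul_cancel₀ (Nat.cast_ne_zero.mpr hn),
              MvPolynomial.C_1]
          have h5 := congrArg (d.comp (algebraMap (MvPolynomial (Fin m) k) M)) h3
          rw [map_mul, map_one, map_natCast] at h5
          exact eq_inv_of_mul_eq_one_left h5
        rw [h2] at h1
        exact h1) _ hπ'u (by rw [e2]; exact hO'u) W hW hU
      intro z hz
      exact (hU2 z hz).trans (Q7f_unif_le O _ _ hO hπ'u W hW)

/-- The variant where `O` contains a field `M₂` such that `L` is generated by `K` and elements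
algebraic over `M₂`. -/
theorem core_quad (k : Type) [Field k] [CharZero k] (m : ℕ) (M : Type) [Field M]
    [Algebra (MvPolynomial (Fin m) k) M] [IsFractionRing (MvPolynomial (Fin m) k) M]
    (K L N' M₂ : Type) [Field K] [Field L] [Field N'] [Field M₂] [Algebra K L]
    [FiniteDimensional K L] [Algebra M N'] [FiniteDimensional M N'] (d : M →+* K)
    (j' : N' →+* L) (hj' : ∀ c, j' (algebraMap M N' c) = algebraMap K L (d c))
    (hcl : ∀ c : K, (∃ P : M[X], P ≠ 0 ∧ P.eval₂ d c = 0) → ∃ a, d a = c)
    (π : MvPolynomial (Fin m) k) (hπ : Irreducible π)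
    (hram : RamAt ((algebraMap M N').comp (algebraMap (MvPolynomial (Fin m) k) M)) π)
    (O : ValuationSubring K) (hO : IsUnif O (d (algebraMap (MvPolynomial (Fin m) k) M π)))
    (hO1 : Above (d.comp (algebraMap (MvPolynomial (Fin m) k) M)) π O) (i₂ : M₂ →+* K)
    (hi₂ : ∀ a, i₂ a ∈ O)
    (hgen : Subfield.closure (Set.range (algebraMap K L) ∪
      {z : L | ∃ P : M₂[X], P ≠ 0 ∧ P.eval₂ ((algebraMap K L).comp i₂) z = 0}) = ⊤) : False := by
  have hinj := IsFractionRing.injective (MvPolynomial (Fin m) k) M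
  have hM0 : CharZero M := charZero_of_injective_algebraMap hinj
  have hK0 : CharZero K := charZero_of_injective_ringHom d.injective
  have hM20 : CharZero M₂ := i₂.charZero
  obtain ⟨W, hW, hun⟩ := Q7f_main k m M K L N' d j' hj' hcl π hπ hram O hO hO1
  exact hun (Q7f_R2 M₂ K L i₂ hgen O _ hO hi₂ W hW)

end Pool.Agent.LibHPQ
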