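import Pool.Agent.LibHPQ.Q2d
import Pool.Agent.LibHPQ.Q7a
import Pool.Agent.LibHPQ.Q7c
import Pool.Agent.LibHPQ.Q7f
import Pool.Agent.LibHP2.W1
import Pool.Agent.LibHP2.W2

set_option autoImplicit false

namespace Pool.Agent.LibHPQ

open Polynomial Pool.Agent.LibHP

/-- The field `k(x_v, g v ≠ i)`. -/
abbrev MF (k : Type) {σ ι K : Type} [Field k] [Field K] [Algebra k K] (g : σ → ι) (x : σ → K)
    (i : ι) : Type :=
  IntermediateField.adjoin k (x '' {v | g v ≠ i})

/-- The hypotheses on `F`. -/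
structure Setup {k σ ι : Type} [Field k] [Fintype σ] [DecidableEq σ] [DecidableEq ι] (g : σ → ι)
    (F : MvPolynomial σ k) (i₀ i₁ : ι) : Prop where
  surj : Function.Surjective g
  ne : i₀ ≠ i₁
  quad : ∀ i, i ≠ i₁ → IsQuadraticIn g F i
  quart : IsQuarticIn g F i₁
  nofac : NoFactorFreeOf g F i₀

/-- A finite extension `N` of `M` with admissible compositum, of minimal degree. -/
def MinAdm (k M K N : Type) [Field k] [Field M] [Field K] [Field N] [Algebra k K] [Algebra M K]
    [Algebra M N] : Prop :=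
  FiniteDimensional M N ∧ AdmOver k M K N ∧ ∀ (N' : Type) [Field N'] [Algebra M N'],
    FiniteDimensional M N' → AdmOver k M K N' → Module.finrank M N ≤ Module.finrank M N'

theorem Q8_ess {k σ : Type} [Field k] [Fintype σ] (F : MvPolynomial σ k)
    {K : Type} [Field K] [Algebra k K] (x : σ → K) (w : K) (hx : IsDoublePt F x w)
    (M : IntermediateField k K) : Algebra.EssFiniteType M K := by
  classical
  have hess : Algebra.EssFiniteType k K := by
    rw [← IntermediateField.fg_top_iff]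
    refine ⟨insert w (Finset.univ.image x), ?_⟩
    rw [eq_top_iff]
    intro z _
    obtain ⟨P, Q, R, hR, hz⟩ := hx.2.2 z
    have h1 : ∀ G : MvPolynomial σ k, MvPolynomial.aeval x G ∈
        IntermediateField.adjoin k ((insert w (Finset.univ.image x) : Finset K) : Set K) := by
      intro G
      have h2 : MvPolynomial.aeval x G ∈ Algebra.adjoin k (Set.range x) := by
        rw [Algebra.adjoin_range_eq_range_aeval]
        exact ⟨G, rfl⟩
      apply IntermediateField.algebra_adjoin_le_adjoin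
      refine Algebra.adjoin_mono ?_ h2
      rintro _ ⟨v, rfl⟩
      simp
    have h3 : w ∈ IntermediateField.adjoin k
        ((insert w (Finset.univ.image x) : Finset K) : Set K) :=
      IntermediateField.subset_adjoin k _ (by simp)
    have h4 : z = (MvPolynomial.aeval x P + MvPolynomial.aeval x Q * w) /
        MvPolynomial.aeval x R := by
      rw [← hz, mul_div_cancel_right₀ _ hR]
    rw [h4]
    exact div_mem (add_mem (h1 P) (mul_mem (h1 Q) h3)) (h1 R)
  exact Algebra.EssFiniteType.of_comp k M K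

theorem Q8_eval {M N K L : Type} [Field M] [Field N] [Field K] [Field L] [Algebra M N]
    [Algebra K L] (i : M →+* K) (j : N →+* L)
    (hj : ∀ c : M, j (algebraMap M N c) = algebraMap K L (i c)) (P : M[X]) (a : N) :
    P.eval₂ ((algebraMap K L).comp i) (j a) = j (aeval a P) := by
  rw [aeval_def, Polynomial.hom_eval₂]
  congr 1
  refine RingHom.ext fun c => ?_
  rw [RingHom.comp_apply, RingHom.comp_apply, hj]

/-- For `N` minimal, all the quadric structures give the same extension. -/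
theorem closure_of_minAdm (k σ ι : Type) [Field k] [CharZero k] [Fintype σ] [DecidableEq σ]
    [DecidableEq ι] (g : σ → ι) (F : MvPolynomial σ k) (i₀ i₁ : ι) (hs : Setup g F i₀ i₁)
    (K : Type) [Field K] [Algebra k K] (x : σ → K) (w : K) (hx : IsDoublePt F x w)
    (N : Type) [Field N] [Algebra (MF k g x i₀) N] (hN : MinAdm k (MF k g x i₀) K N)
    (L : Type) [Field L] [Algebra K L] [FiniteDimensional K L] (hL : Adm k K L) (j : N →+* L)
    (hj : ∀ c : MF k g x i₀, j (algebraMap (MF k g x i₀) N c) =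
      algebraMap K L (algebraMap (MF k g x i₀) K c))
    (hgen : Subfield.closure (Set.range (algebraMap K L) ∪ Set.range j) = ⊤)
    (i : ι) (hi : i ≠ i₁) :
    Subfield.closure (Set.range (algebraMap K L) ∪ {z : L | ∃ P : (MF k g x i)[X], P ≠ 0 ∧
      P.eval₂ ((algebraMap K L).comp (algebraMap (MF k g x i) K)) z = 0}) = ⊤ := by
  classical
  have hchar : ∀ i, CharZero (MF k g x i) := fun i =>
    charZero_of_injective_algebraMap (algebraMap k (MF k g x i)).injective
  have hess : ∀ i, Algebra.EssFiniteType (MF k g x i) K := fun i => Q8_ess F x w hx _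
  obtain ⟨hfinN, hadmN, hmin⟩ := hN
  -- the quadric structure `i`
  obtain ⟨n, hn, B, y, hB, hdet, hy⟩ := exists_quad_structure_double k σ ι g F i (hs.surj i)
    (hs.quad i hi).1 (hs.quad i hi).2 K x w hx
  have hcl : ∀ c : K, (∃ P : (MF k g x i)[X], P ≠ 0 ∧ P.eval₂ (algebraMap (MF k g x i) K) c = 0) →
      ∃ a, algebraMap (MF k g x i) K a = c := fun c hc =>
    quad_algClosed _ K n hn B hB hdet y hy c hc
  obtain ⟨Ni, hNi1, hNi2, j₀, hfinNi, hadmNi, hj₀, hclNi⟩ :=
    quad_step k (MF k g x i) K L (hess i) n hn B hB hdet y hy hL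
  obtain ⟨L2, hL21, hL22, j2, hfinL2, hadmL2, hj2, hgen2, -⟩ := hadmNi
  -- the quadric structure `i₀`
  obtain ⟨n', hn', B', y', hB', hdet', hy'⟩ := exists_quad_structure_double k σ ι g F i₀
    (hs.surj i₀) (hs.quad i₀ hs.ne).1 (hs.quad i₀ hs.ne).2 K x w hx
  have hcl' : ∀ c : K, (∃ P : (MF k g x i₀)[X], P ≠ 0 ∧
      P.eval₂ (algebraMap (MF k g x i₀) K) c = 0) → ∃ a, algebraMap (MF k g x i₀) K a = c :=
    fun c hc => quad_algClosed _ K n' hn' B' hB' hdet' y' hy' c hc
  obtain ⟨N2, hN21, hN22, j3, hfinN2, hadmN2, hj3, -⟩ :=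
    quad_step k (MF k g x i₀) K L2 (hess i₀) n' hn' B' hB' hdet' y' hy' hadmL2
  -- degrees
  have d1 : Module.finrank (MF k g x i₀) N ≤ Module.finrank (MF k g x i₀) N2 :=
    hmin N2 hfinN2 hadmN2
  have d2 : Module.finrank (MF k g x i₀) N2 ≤ Module.finrank K L2 :=
    (finrank_le_of_closed (MF k g x i₀) K L2 N2 (algebraMap (MF k g x i₀) K) hcl' j3 hj3).1
  have d3 : Module.finrank K L2 ≤ Module.finrank (MF k g x i) Ni :=
    finrank_le_of_closure (MF k g x i) K L2 Ni (algebraMap (MF k g x i) K) j2 hj2 hgen2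
  have d4 := finrank_le_of_closed (MF k g x i) K L Ni (algebraMap (MF k g x i) K) hcl j₀ hj₀
  have d5 : Module.finrank K L ≤ Module.finrank (MF k g x i₀) N :=
    finrank_le_of_closure (MF k g x i₀) K L N (algebraMap (MF k g x i₀) K) j hj hgen
  have h1 := d4.2 (by omega)
  rw [eq_top_iff, ← h1]
  refine Subfield.closure_mono (Set.union_subset_union_right _ ?_)
  rintro _ ⟨a, rfl⟩
  have hint : IsIntegral (MF k g x i) a := IsIntegral.of_finite (MF k g x i) a
  refine ⟨minpoly (MF k g x i) a, minpoly.ne_zero hint, ?_⟩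
  rw [Q8_eval (algebraMap (MF k g x i) K) j₀ hj₀, minpoly.aeval, map_zero]

/-- For `N` minimal, ramification can only occur over polynomials in the variables of the group
`i₁`. -/
theorem ram_vars (k σ ι : Type) [Field k] [CharZero k] [Fintype σ] [DecidableEq σ]
    [DecidableEq ι] (g : σ → ι) (F : MvPolynomial σ k) (i₀ i₁ : ι) (hs : Setup g F i₀ i₁)
    (K : Type) [Field K] [Algebra k K] (x : σ → K) (w : K) (hx : IsDoublePt F x w)
    (m : ℕ) (e : Fin m → σ) (he : Function.Injective e)
    (hrange : ∀ v, v ∈ Set.range e ↔ g v ≠ i₀)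
    [Algebra (MvPolynomial (Fin m) k) (MF k g x i₀)]
    [IsFractionRing (MvPolynomial (Fin m) k) (MF k g x i₀)]
    (hM : ∀ p : MvPolynomial (Fin m) k, algebraMap (MF k g x i₀) K
      (algebraMap (MvPolynomial (Fin m) k) (MF k g x i₀) p) =
        MvPolynomial.aeval (fun j => x (e j)) p)
    (N : Type) [Field N] [Algebra (MF k g x i₀) N] (hN : MinAdm k (MF k g x i₀) K N)
    (π : MvPolynomial (Fin m) k) (hπ : Irreducible π)
    (hram : RamAt ((algebraMap (MF k g x i₀) N).comp
      (algebraMap (MvPolynomial (Fin m) k) (MF k g x i₀))) π) :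
    ∀ v ∈ π.vars, g (e v) = i₁ := by
  classical
  intro v hv
  by_contra hne
  obtain ⟨L, hL1, hL2, j, hfinL, hadmL, hj, hgen, -⟩ := hN.2.1
  have hfinN : FiniteDimensional (MF k g x i₀) N := hN.1
  have hgen2 := closure_of_minAdm k σ ι g F i₀ i₁ hs K x w hx N hN L hadmL j hj hgen
    (g (e v)) hne
  obtain ⟨n', hn', B', y', hB', hdet', hy'⟩ := exists_quad_structure_double k σ ι g F i₀
    (hs.surj i₀) (hs.quad i₀ hs.ne).1 (hs.quad i₀ hs.ne).2 K x w hx
  have hchar : CharZero (MF k g x i₀) :=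
    charZero_of_injective_algebraMap (algebraMap k (MF k g x i₀)).injective
  have hcl' : ∀ c : K, (∃ P : (MF k g x i₀)[X], P ≠ 0 ∧
      P.eval₂ (algebraMap (MF k g x i₀) K) c = 0) → ∃ a, algebraMap (MF k g x i₀) K a = c :=
    fun c hc => quad_algClosed _ K n' hn' B' hB' hdet' y' hy' c hc
  obtain ⟨O, h1, h2, h3, h4⟩ := exists_valuation_double k σ ι g F i₀ (hs.surj i₀) hs.nofac K x w
    hx m e he hrange (fun h => double_not_square k σ ι g F i₀ (hs.surj i₀)
      (hs.quad i₀ hs.ne).1 (hs.quad i₀ hs.ne).2 h) π hπ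
  refine core_quad k m (MF k g x i₀) K L N (MF k g x (g (e v))) (algebraMap (MF k g x i₀) K) j hj
    hcl' π hπ hram O ?_ ⟨fun p => ?_, fun p => ?_⟩ (algebraMap (MF k g x (g (e v))) K)
    (fun a => ?_) hgen2
  · rw [hM]
    exact h1
  · rw [RingHom.comp_apply, hM]
    exact h2 p
  · rw [RingHom.comp_apply, hM]
    exact h3 p
  · exact h4 {u | g u ≠ g (e v)} ⟨v, hv, fun h => h rfl⟩ a a.2

end Pool.Agent.LibHPQ
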