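import Pool.Agent.LibHPQ.Q2d
import Pool.Agent.LibHPQ.Q1e
import Pool.Agent.LibHPQ.Q8

set_option autoImplicit false

namespace Pool.Agent.LibHPQ

open Polynomial Pool.Agent.LibHP

theorem Q10b_closure {R L : Type} [CommRing R] [Field L] (E : R →+* L) (S : Subring R) {z : L}
    (hz : z ∈ Subfield.closure (E '' (S : Set R))) :
    ∃ a ∈ S, ∃ b ∈ S, E b ≠ 0 ∧ z * E b = E a := by
  rw [Subfield.mem_closure_iff] at hz
  obtain ⟨y, hy, w, hw, rfl⟩ := hz
  have hcl : Subring.closure (E '' (S : Set R)) = S.map E := by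
    rw [← Subring.coe_map, Subring.closure_eq]
  rw [hcl] at hy hw
  obtain ⟨a, ha, rfl⟩ := hy
  obtain ⟨b, hb, rfl⟩ := hw
  by_cases h : E b = 0
  · exact ⟨0, S.zero_mem, 1, S.one_mem, by simp, by simp [h]⟩
  · exact ⟨a, ha, b, hb, h, by field_simp⟩

/-- Polynomials not involving the variable `a`. -/
noncomputable def Q10b_S (R₀ τ : Type) [CommRing R₀] (a : τ) : Subring (MvPolynomial τ R₀) :=
  (MvPolynomial.supported R₀ ({a}ᶜ : Set τ)).toSubring

theorem Q10b_mem_S {R₀ τ : Type} [CommRing R₀] {a : τ} {p : MvPolynomial τ R₀} :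
    p ∈ Q10b_S R₀ τ a ↔ a ∉ p.vars := by
  change p ∈ MvPolynomial.supported R₀ ({a}ᶜ : Set τ) ↔ _
  rw [MvPolynomial.mem_supported]
  constructor
  · intro h ha
    exact h ha rfl
  · intro h v hv hva
    apply h
    rw [Set.mem_singleton_iff] at hva
    rwa [← hva]

theorem Q10b_S_degreeOf {R₀ τ : Type} [CommRing R₀] {a : τ} {p : MvPolynomial τ R₀}
    (hp : p ∈ Q10b_S R₀ τ a) : MvPolynomial.degreeOf a p = 0 := by
  rw [Q10b_mem_S] at hp
  by_contra h
  exact hp (MvPolynomial.mem_vars_iff_degreeOf_ne_zero.2 h)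

theorem Q10b_degreeOf_pos {R₀ τ : Type} [CommRing R₀] {a : τ} {p : MvPolynomial τ R₀}
    (hp : a ∈ p.vars) : MvPolynomial.degreeOf a p ≠ 0 :=
  MvPolynomial.mem_vars_iff_degreeOf_ne_zero.1 hp

/-- Polynomials with coefficients not involving the variable `a`. -/
noncomputable def Q10b_S' (R₀ τ : Type) [CommRing R₀] (a : τ) :
    Subring (MvPolynomial τ R₀)[X] where
  carrier := {P | ∀ n, P.coeff n ∈ Q10b_S R₀ τ a}
  mul_mem' := by
    intro P Q hP hQ n
    rw [coeff_mul]
    exact Subring.sum_mem _ fun x _ => Subring.mul_mem _ (hP _) (hQ _)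
  one_mem' := by
    intro n
    rw [coeff_one]
    split_ifs
    · exact Subring.one_mem _
    · exact Subring.zero_mem _
  add_mem' := by
    intro P Q hP hQ n
    rw [coeff_add]
    exact Subring.add_mem _ (hP n) (hQ n)
  zero_mem' := by
    intro n
    rw [coeff_zero]
    exact Subring.zero_mem _
  neg_mem' := by
    intro P hP n
    rw [coeff_neg]
    exact Subring.neg_mem _ (hP n)

theorem Q10b_C_mem {R₀ τ : Type} [CommRing R₀] {a : τ} {p : MvPolynomial τ R₀}
    (hp : p ∈ Q10b_S R₀ τ a) : C p ∈ Q10b_S' R₀ τ a := by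
  intro n
  rw [coeff_C]
  split_ifs
  · exact hp
  · exact Subring.zero_mem _

theorem Q10b_X_mem {R₀ τ : Type} [CommRing R₀] {a : τ} : (X : (MvPolynomial τ R₀)[X]) ∈
    Q10b_S' R₀ τ a := by
  intro n
  rw [coeff_X]
  split_ifs
  · exact Subring.one_mem _
  · exact Subring.zero_mem _

/-- A divisor of a polynomial not involving the variable `a` does not involve it. -/
theorem Q10b_dvd_free {R₀ τ : Type} [CommRing R₀] [IsDomain R₀] {a : τ}
    {p q : MvPolynomial τ R₀} (hq : q ∈ Q10b_S R₀ τ a) (hq0 : q ≠ 0) (h : p ∣ q) : a ∉ p.vars := by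
  obtain ⟨s, rfl⟩ := h
  intro ha
  have h1 := Q10b_S_degreeOf hq
  rw [MvPolynomial.degreeOf_mul_eq (left_ne_zero_of_mul hq0) (right_ne_zero_of_mul hq0)] at h1
  have h2 := Q10b_degreeOf_pos ha
  omega

theorem Q10b_eval₂_mem {κ L : Type} [Field κ] [Field L] (T : Subfield L) (ε : κ →+* L)
    (hε : ∀ c, ε c ∈ T) {τ : L} (hτ : τ ∈ T) (P : κ[X]) : P.eval₂ ε τ ∈ T := by
  rw [eval₂_eq_sum_range]
  exact sum_mem fun n _ => mul_mem (hε _) (pow_mem hτ _)

/-- A map from a fraction field to a field with values in a subfield on polynomials. -/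
theorem Q10b_frac_mem {k τ L : Type} [Field k] [Field L] (T : Subfield L)
    (ε : FractionRing (MvPolynomial τ k) →+* L)
    (hC : ∀ c : k, ε (algebraMap (MvPolynomial τ k) _ (MvPolynomial.C c)) ∈ T)
    (hX : ∀ v : τ, ε (algebraMap (MvPolynomial τ k) _ (MvPolynomial.X v)) ∈ T)
    (z : FractionRing (MvPolynomial τ k)) : ε z ∈ T := by
  have h1 : ∀ p : MvPolynomial τ k,
      ε (algebraMap (MvPolynomial τ k) (FractionRing (MvPolynomial τ k)) p) ∈ T := by
    intro p
    induction p using MvPolynomial.induction_on with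
    | C c => exact hC c
    | add p q hp hq => rw [map_add, map_add]; exact add_mem hp hq
    | mul_X p v hp => rw [map_mul, map_mul]; exact mul_mem hp (hX v)
  obtain ⟨p, q, _, rfl⟩ := IsFractionRing.div_surjective (A := MvPolynomial τ k) z
  rw [map_div₀]
  exact div_mem (h1 p) (h1 q)

section

variable {k σ ι : Type} [Field k] [DecidableEq ι]

theorem Q10b_coeff_zero (g : σ → ι) (i : ι) (p : MvPolynomial σ k) :
    (psi g i p).coeff 0 = MvPolynomial.rename Sum.inl p := by
  have h : (constantCoeff : (MvPolynomial (σ ⊕ σ) k)[X] →+* _).comp (psi (k := k) g i).toRingHom =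
      (MvPolynomial.rename (Sum.inl : σ → σ ⊕ σ)).toRingHom := by
    apply MvPolynomial.ringHom_ext
    · intro r
      change (psi g i (MvPolynomial.C r)).coeff 0 = MvPolynomial.rename Sum.inl (MvPolynomial.C r)
      rw [MvPolynomial.rename_C, psi, MvPolynomial.aeval_C]
      change (C (MvPolynomial.C r) : (MvPolynomial (σ ⊕ σ) k)[X]).coeff 0 = _
      rw [coeff_C_zero]
    · intro v
      change (psi g i (MvPolynomial.X v)).coeff 0 = MvPolynomial.rename Sum.inl (MvPolynomial.X v)
      rw [MvPolynomial.rename_X, psi, MvPolynomial.aeval_X]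
      split_ifs with hv
      · simp
      · simp
  exact DFunLike.congr_fun h p

theorem Q10b_psi_dvd (g : σ → ι) (i : ι) (π : MvPolynomial σ k) (hπ : Irreducible π)
    (hu : ¬ IsUnit (ell g i π)) (A : (MvPolynomial (σ ⊕ σ) k)[X])
    (hdvd : ell g i π ∣ A.map (algebraMap (MvPolynomial (σ ⊕ σ) k) (KY k σ))) :
    psi g i π ∣ A := by
  have hpr := Q2a_prime_psi g i hπ
  have hdeg : (psi g i π).natDegree ≠ 0 := by
    intro h0
    apply hu
    obtain ⟨a, ha⟩ := natDegree_eq_zero.mp h0
    have ha0 : a ≠ 0 := by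
      rintro rfl
      rw [map_zero] at ha
      exact hpr.ne_zero ha.symm
    rw [Q2a_ell_eq, ← ha, map_C]
    refine (Polynomial.isUnit_C).mpr (IsUnit.mk0 _ ?_)
    rwa [Ne, IsFractionRing.to_map_eq_zero_iff]
  obtain ⟨r, hr⟩ := hdvd
  obtain ⟨b, hb0, hb⟩ := IsLocalization.integerNormalization_spec
    (nonZeroDivisors (MvPolynomial (σ ⊕ σ) k)) r
  set r' := IsLocalization.integerNormalization (nonZeroDivisors (MvPolynomial (σ ⊕ σ) k)) r
    with hr'
  have hb0' : b ≠ 0 := nonZeroDivisors.ne_zero hb0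
  have h1 : C b * A = psi g i π * r' := by
    apply Polynomial.map_injective (algebraMap (MvPolynomial (σ ⊕ σ) k) (KY k σ))
      (IsFractionRing.injective _ _)
    rw [Polynomial.map_mul, Polynomial.map_mul, map_C, hb, ← Q2a_ell_eq, hr,
      Algebra.smul_def]
    rw [Polynomial.algebraMap_apply]
    ring
  have h2 : psi g i π ∣ C b * A := ⟨r', h1⟩
  rcases hpr.dvd_or_dvd h2 with h3 | h3
  · exfalso
    have h4 := natDegree_le_of_dvd h3 (C_ne_zero.mpr hb0')
    rw [natDegree_C] at h4
    omega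
  · exact h3

theorem Q10b_factor (g : σ → ι) (i : ι) (F : MvPolynomial σ k) (hF0 : F ≠ 0)
    (hF : ¬ IsUnit (ell g i F)) :
    ∃ π : MvPolynomial σ k, Irreducible π ∧ π ∣ F ∧ ¬ IsUnit (ell g i π) := by
  induction F using UniqueFactorizationMonoid.induction_on_prime with
  | h₁ => exact absurd rfl hF0
  | h₂ u hu => exact absurd (hu.map (ell g i)) hF
  | h₃ a p ha hp ih =>
    by_cases h : IsUnit (ell g i p)
    · have h2 : ¬ IsUnit (ell g i a) := by
        intro h3
        apply hF
        rw [map_mul]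
        exact h.mul h3
      obtain ⟨π, h4, h5, h6⟩ := ih ha h2
      exact ⟨π, h4, h5.mul_left p, h6⟩
    · exact ⟨p, hp.irreducible, dvd_mul_right p a, h⟩

end

/-- The displacement of `2H - 3P` with respect to `P` depends on the variables of the group
`i₀`. -/
theorem quot_not_mem (k σ ι : Type) [Field k] [CharZero k] [Fintype σ] [DecidableEq σ]
    [DecidableEq ι] (g : σ → ι) (F : MvPolynomial σ k) (i₀ i₁ : ι) (hs : Setup g F i₀ i₁)
    (K : Type) [Field K] [Algebra k K] (x : σ → K) (w : K) (hx : IsDoublePt F x w)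
    (r : ℕ) (ε : KY k σ →+* RF K r) (f : σ → Fin r) (f₀ : Fin r) (hf : Function.Injective f)
    (hf₀ : ∀ v, f v ≠ f₀)
    (h0 : ∀ c : k, ε (algebraMap k (KY k σ) c) = algebraMap K (RF K r) (algebraMap k K c))
    (h1 : ∀ v, ε (algebraMap (MvPolynomial (σ ⊕ σ) k) (KY k σ) (MvPolynomial.X (Sum.inr v))) =
      algebraMap (MvPolynomial (Fin r) K) (RF K r) (MvPolynomial.X (f v)))
    (h2 : ∀ v, ε (algebraMap (MvPolynomial (σ ⊕ σ) k) (KY k σ) (MvPolynomial.X (Sum.inl v))) =
      algebraMap K (RF K r) (x v) - if g v = i₁ then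
        algebraMap (MvPolynomial (Fin r) K) (RF K r) (MvPolynomial.X f₀ * MvPolynomial.X (f v))
        else 0)
    (hG : Quart (ell g i₁ F))
    (h3 : CurveField ε (algebraMap (MvPolynomial (Fin r) K) (RF K r) (MvPolynomial.X f₀))
      (algebraMap K (RF K r) w) (ell g i₁ F))
    (c : RF (MF k g x i₀) r) :
    rfmap (algebraMap (MF k g x i₀) K) r c ≠
      (nn (ell g i₁ F)).eval₂ ε
        (algebraMap (MvPolynomial (Fin r) K) (RF K r) (MvPolynomial.X f₀)) /
      (mm (ell g i₁ F)).eval₂ ε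
        (algebraMap (MvPolynomial (Fin r) K) (RF K r) (MvPolynomial.X f₀)) -
      algebraMap (MvPolynomial (Fin r) K) (RF K r) (MvPolynomial.X f₀) := by
  intro hc
  set τ : RF K r := algebraMap (MvPolynomial (Fin r) K) (RF K r) (MvPolynomial.X f₀) with hτ
  set G := ell g i₁ F with hGdef
  have hKY : CharZero (KY k σ) := charZero_of_injective_algebraMap
    (algebraMap k (KY k σ)).injective
  -- the constants
  have h0' : ∀ c : k, ε (algebraMap (MvPolynomial (σ ⊕ σ) k) (KY k σ) (MvPolynomial.C c)) =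
      algebraMap K (RF K r) (algebraMap k K c) := by
    intro c
    rw [← h0 c]
    rfl
  have hKconst : ∀ c : K, algebraMap K (RF K r) c =
      algebraMap (MvPolynomial (Fin r) K) (RF K r) (MvPolynomial.C c) := fun c => rfl
  -- all the variables are of the form `f v` or `f₀`
  have hvars : ∀ j : Fin r, j = f₀ ∨ ∃ v, f v = j := by
    intro j
    by_contra hcon
    push Not at hcon
    obtain ⟨hj0, hjf⟩ := hcon
    set E₁ : MvPolynomial (Fin r) K →+* RF K r := algebraMap (MvPolynomial (Fin r) K) (RF K r)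
      with hE₁
    set T := Subfield.closure (E₁ '' (Q10b_S K (Fin r) j : Set (MvPolynomial (Fin r) K)))
      with hT
    have hTmem : ∀ p ∈ Q10b_S K (Fin r) j, E₁ p ∈ T := fun p hp =>
      Subfield.subset_closure ⟨p, hp, rfl⟩
    have hTC : ∀ c : K, algebraMap K (RF K r) c ∈ T := by
      intro c
      rw [hKconst]
      apply hTmem
      rw [Q10b_mem_S, MvPolynomial.vars_C]
      exact Finset.notMem_empty _
    have hTX : ∀ i : Fin r, i ≠ j → E₁ (MvPolynomial.X i) ∈ T := by
      intro i hi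
      apply hTmem
      rw [Q10b_mem_S, MvPolynomial.vars_X, Finset.mem_singleton]
      exact fun h => hi h.symm
    have hTε : ∀ z : KY k σ, ε z ∈ T := by
      apply Q10b_frac_mem
      · intro c
        rw [h0']
        exact hTC _
      · rintro (v | v)
        · rw [h2]
          apply sub_mem (hTC _)
          split_ifs
          · rw [map_mul]
            exact mul_mem (hTX _ (fun h => hj0 h.symm)) (hTX _ (hjf v))
          · exact zero_mem _
        · rw [h1]
          exact hTX _ (hjf v)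
    have hTτ : τ ∈ T := hTX _ (fun h => hj0 h.symm)
    have hTall : ∀ z : RF K r, z ∈ T := by
      intro z
      obtain ⟨P, Q, R, hR, hz⟩ := h3.gen z
      have : z = (P.eval₂ ε τ + Q.eval₂ ε τ * algebraMap K (RF K r) w) / R.eval₂ ε τ := by
        rw [eq_div_iff hR, hz]
      rw [this]
      exact div_mem (add_mem (Q10b_eval₂_mem T ε hTε hTτ P)
        (mul_mem (Q10b_eval₂_mem T ε hTε hTτ Q) (hTC w))) (Q10b_eval₂_mem T ε hTε hTτ R)
    obtain ⟨a, ha, b, hb, hb0, hab⟩ := Q10b_closure E₁ _ (hTall (E₁ (MvPolynomial.X j)))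
    have hinj : Function.Injective E₁ := IsFractionRing.injective _ _
    rw [← map_mul] at hab
    have hab' := hinj hab
    have hbne : b ≠ 0 := by rintro rfl; exact hb0 (map_zero _)
    have hane : a ≠ 0 := by
      rw [← hab']
      exact mul_ne_zero (MvPolynomial.X_ne_zero j) hbne
    refine Q10b_dvd_free ha hane (Dvd.intro _ hab') ?_
    rw [MvPolynomial.vars_X]
    exact Finset.mem_singleton_self j
  -- the irreducible factor
  have hF0 : F ≠ 0 := by
    intro h
    have := hG.ge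
    rw [hGdef, h, map_zero, natDegree_zero] at this
    omega
  have hFu : ¬ IsUnit (ell g i₁ F) := by
    intro h
    have h4 : G.natDegree = 0 := natDegree_eq_zero_of_isUnit h
    have := hG.ge
    omega
  obtain ⟨π, hπ, hπF, hπu⟩ := Q10b_factor g i₁ F hF0 hFu
  obtain ⟨a, haπ, hga⟩ : ∃ a ∈ π.vars, g a = i₀ := by
    by_contra hcon
    push Not at hcon
    exact hπ.not_isUnit (hs.nofac π hπF hcon)
  -- the field of the rational functions not involving `y_a`
  set E : (MvPolynomial (σ ⊕ σ) k)[X] →+* RF K r :=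
    eval₂RingHom (ε.comp (algebraMap (MvPolynomial (σ ⊕ σ) k) (KY k σ))) τ with hE
  have hEmap : ∀ P, E P = (P.map (algebraMap (MvPolynomial (σ ⊕ σ) k) (KY k σ))).eval₂ ε τ := by
    intro P
    rw [hE, coe_eval₂RingHom, eval₂_map]
  set T := Subfield.closure (E '' (Q10b_S' k (σ ⊕ σ) (Sum.inl a) :
    Set (MvPolynomial (σ ⊕ σ) k)[X])) with hT
  have hTmem : ∀ p ∈ Q10b_S' k (σ ⊕ σ) (Sum.inl a), E p ∈ T := fun p hp =>
    Subfield.subset_closure ⟨p, hp, rfl⟩
  have hEC : ∀ p, E (C p) = ε (algebraMap (MvPolynomial (σ ⊕ σ) k) (KY k σ) p) := by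
    intro p
    rw [hE, coe_eval₂RingHom, eval₂_C]
    rfl
  have hTk : ∀ c : k, algebraMap K (RF K r) (algebraMap k K c) ∈ T := by
    intro c
    rw [← h0', ← hEC]
    apply hTmem
    apply Q10b_C_mem
    rw [Q10b_mem_S, MvPolynomial.vars_C]
    exact Finset.notMem_empty _
  have hTτ : τ ∈ T := by
    have : E X = τ := by rw [hE, coe_eval₂RingHom, eval₂_X]
    rw [← this]
    exact hTmem _ Q10b_X_mem
  have hTμ : ∀ v, algebraMap (MvPolynomial (Fin r) K) (RF K r) (MvPolynomial.X (f v)) ∈ T := by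
    intro v
    rw [← h1, ← hEC]
    apply hTmem
    apply Q10b_C_mem
    rw [Q10b_mem_S, MvPolynomial.vars_X, Finset.mem_singleton]
    exact fun h => by cases h
  have hTx : ∀ v, g v ≠ i₀ → algebraMap K (RF K r) (x v) ∈ T := by
    intro v hv
    have h4 : algebraMap K (RF K r) (x v) =
        ε (algebraMap (MvPolynomial (σ ⊕ σ) k) (KY k σ) (MvPolynomial.X (Sum.inl v))) +
          if g v = i₁ then algebraMap (MvPolynomial (Fin r) K) (RF K r)
            (MvPolynomial.X f₀ * MvPolynomial.X (f v)) else 0 := by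
      rw [h2]; ring
    rw [h4]
    apply add_mem
    · rw [← hEC]
      apply hTmem
      apply Q10b_C_mem
      rw [Q10b_mem_S, MvPolynomial.vars_X, Finset.mem_singleton]
      intro h
      have h5 : a = v := Sum.inl_injective h
      apply hv
      rw [← h5, hga]
    · split_ifs
      · rw [map_mul]
        exact mul_mem hTτ (hTμ v)
      · exact zero_mem _
  have hTX : ∀ j, algebraMap (MvPolynomial (Fin r) K) (RF K r) (MvPolynomial.X j) ∈ T := by
    intro j
    rcases hvars j with rfl | ⟨v, rfl⟩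
    · exact hTτ
    · exact hTμ v
  have hTM : ∀ m : MF k g x i₀, algebraMap K (RF K r) (algebraMap (MF k g x i₀) K m) ∈ T := by
    intro m
    have hle : IntermediateField.adjoin k (x '' {v | g v ≠ i₀}) ≤
        (T.comap (algebraMap K (RF K r))).toIntermediateField (fun c => hTk c) := by
      rw [IntermediateField.adjoin_le_iff]
      rintro _ ⟨v, hv, rfl⟩
      exact hTx v hv
    exact hle m.2
  have hTρ : rfmap (algebraMap (MF k g x i₀) K) r c ∈ T := by
    apply Q10b_frac_mem
    · intro m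
      rw [rfmap_algebraMap, MvPolynomial.map_C]
      exact hTM m
    · intro j
      rw [rfmap_algebraMap, MvPolynomial.map_X]
      exact hTX j
  -- conclusion
  rw [hc] at hTρ
  obtain ⟨A, hA, B, hB, hB0, hAB⟩ := Q10b_closure E _ hTρ
  have hmm0 : mm G ≠ 0 := mm_ne_zero G hG
  have hmmev : (mm G).eval₂ ε τ ≠ 0 := fun h => hmm0 (h3.tr _ h)
  have hkey : 8 * G * cc G * B.map (algebraMap (MvPolynomial (σ ⊕ σ) k) (KY k σ)) =
      A.map (algebraMap (MvPolynomial (σ ⊕ σ) k) (KY k σ)) * mm G := by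
    rw [← sub_eq_zero]
    apply h3.tr
    have hnn : nn G = X * mm G + 8 * G * cc G := rfl
    rw [hnn, eval₂_add, eval₂_mul, eval₂_X, hEmap, hEmap] at hAB
    rw [eval₂_sub, eval₂_mul (p := 8 * G * cc G), eval₂_mul (q := mm G)]
    rw [← hAB]
    field_simp
    ring
  have hBne : B.map (algebraMap (MvPolynomial (σ ⊕ σ) k) (KY k σ)) ≠ 0 := by
    intro h
    apply hB0
    rw [hEmap, h, eval₂_zero]
  have hG0 : G ≠ 0 := by
    intro h
    have := hG.ge
    rw [h, natDegree_zero] at this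
    omega
  have h8 : (8 : (KY k σ)[X]) ≠ 0 := by norm_num
  have hAne : A ≠ 0 := by
    rintro rfl
    rw [Polynomial.map_zero, zero_mul] at hkey
    exact mul_ne_zero (mul_ne_zero (mul_ne_zero h8 hG0) (cc_ne_zero G hG)) hBne hkey
  have hπG : ell g i₁ π ∣ G := by
    rw [hGdef]
    exact map_dvd (ell g i₁) hπF
  have hcop : IsCoprime (ell g i₁ π) (mm G) :=
    ((isCoprime_mm_self G hG.sep).of_isCoprime_of_dvd_right hπG).symm
  have hdvd : ell g i₁ π ∣ A.map (algebraMap (MvPolynomial (σ ⊕ σ) k) (KY k σ)) := by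
    apply hcop.dvd_of_dvd_mul_right
    rw [← hkey]
    exact ((hπG.mul_left 8).mul_right _).mul_right _
  obtain ⟨Q, hQ⟩ := Q10b_psi_dvd g i₁ π hπ hπu A hdvd
  have hren0 : MvPolynomial.rename (Sum.inl : σ → σ ⊕ σ) π ≠ 0 := by
    intro h
    exact hπ.ne_zero (MvPolynomial.rename_injective _ Sum.inl_injective (by rw [h, map_zero]))
  have htr : A.trailingCoeff = MvPolynomial.rename Sum.inl π * Q.trailingCoeff := by
    rw [hQ, trailingCoeff_mul, trailingCoeff_eq_coeff_zero (p := psi g i₁ π)]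
    · rw [Q10b_coeff_zero]
    · rw [Q10b_coeff_zero]; exact hren0
  have hAt : A.trailingCoeff ∈ Q10b_S k (σ ⊕ σ) (Sum.inl a) := hA _
  have hAt0 : A.trailingCoeff ≠ 0 := by
    rw [Ne, trailingCoeff_eq_zero]; exact hAne
  refine Q10b_dvd_free hAt hAt0 (Dvd.intro _ htr.symm) ?_
  classical
  have h9 := MvPolynomial.degreeOf_rename_of_injective (p := π)
    (Sum.inl_injective : Function.Injective (Sum.inl : σ → σ ⊕ σ)) a
  have h10 := Q10b_degreeOf_pos haπ
  by_contra hcon
  have h11 := Q10b_S_degreeOf (Q10b_mem_S.2 hcon)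
  rw [h9] at h11
  exact h10 h11

end Pool.Agent.LibHPQ
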