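import Pool.Agent.LibHPQ.Q7b

set_option autoImplicit false

namespace Pool.Agent.LibHPQ

open Polynomial Pool.Agent.LibHP

theorem Q10c_functional {K E : Type} [Field K] [Field E] (F : K →+* E) (x : E) (hx : x ≠ 0) :
    ∃ l : E →+ K, l x = 1 ∧ ∀ a y, l (F a * y) = a * l y := by
  obtain ⟨l, hl1, hl⟩ := A1_exists_functional F
  refine ⟨l.comp (AddMonoidHom.mulLeft x⁻¹), ?_, fun a y => ?_⟩
  · simp only [AddMonoidHom.comp_apply, AddMonoidHom.coe_mulLeft]
    rw [inv_mul_cancel₀ hx, hl1]
  · simp only [AddMonoidHom.comp_apply, AddMonoidHom.coe_mulLeft]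
    rw [show x⁻¹ * (F a * y) = F a * (x⁻¹ * y) by ring, hl]

theorem Q10c_supp {K E : Type} [Field K] [Field E] {r : ℕ} (l : E →+ K)
    (P : MvPolynomial (Fin r) E) : (A1_Λ l P).support ⊆ P.support := by
  intro s hs
  rw [MvPolynomial.mem_support_iff, A1_coeff] at hs
  rw [MvPolynomial.mem_support_iff]
  intro h
  rw [h, map_zero] at hs
  exact hs rfl

/-- A relation with minimal support. -/
theorem Q10c_min {K : Type} [Field K] {r : ℕ} (p q : MvPolynomial (Fin r) K) (hq : q ≠ 0) :
    ∃ (P Q : MvPolynomial (Fin r) K) (s : Fin r →₀ ℕ), q * P = p * Q ∧ Q.coeff s = 1 ∧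
      ∀ P' Q' : MvPolynomial (Fin r) K, q * P' = p * Q' → P'.support ⊆ P.support →
        Q'.support ⊆ Q.support → Q'.coeff s = 0 → P' = 0 ∧ Q' = 0 := by
  classical
  let S : Set ℕ := {n | ∃ P Q : MvPolynomial (Fin r) K, Q ≠ 0 ∧ q * P = p * Q ∧
    P.support.card + Q.support.card = n}
  have hS : S.Nonempty := ⟨_, p, q, hq, mul_comm _ _, rfl⟩
  obtain ⟨P, Q, hQ, hPQ, hn⟩ := Nat.sInf_mem hS
  have hmin : ∀ P' Q' : MvPolynomial (Fin r) K, Q' ≠ 0 → q * P' = p * Q' →
      sInf S ≤ P'.support.card + Q'.support.card := fun P' Q' h1 h2 =>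
    Nat.sInf_le ⟨P', Q', h1, h2, rfl⟩
  obtain ⟨s, hs⟩ := MvPolynomial.ne_zero_iff.mp hQ
  set c := Q.coeff s with hc
  have hci : c⁻¹ ≠ 0 := inv_ne_zero hs
  have hsupp : ∀ R : MvPolynomial (Fin r) K, (MvPolynomial.C c⁻¹ * R).support = R.support := by
    intro R
    ext t
    simp [MvPolynomial.mem_support_iff, MvPolynomial.coeff_C_mul, hs]
  refine ⟨MvPolynomial.C c⁻¹ * P, MvPolynomial.C c⁻¹ * Q, s, ?_, ?_, ?_⟩
  · linear_combination MvPolynomial.C c⁻¹ * hPQ
  · rw [MvPolynomial.coeff_C_mul, ← hc, inv_mul_cancel₀ hs]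
  · intro P' Q' h1 h2 h3 h4
    rw [hsupp] at h2 h3
    have hQ' : Q' = 0 := by
      by_contra hne
      have h5 := hmin P' Q' hne h1
      rw [← hn] at h5
      have h6 := Finset.card_le_card h2
      have h7 : Q'.support.card < Q.support.card := by
        apply Finset.card_lt_card
        refine ⟨h3, fun h => ?_⟩
        have h8 : s ∈ Q.support := MvPolynomial.mem_support_iff.mpr hs
        exact (MvPolynomial.mem_support_iff.mp (h h8)) h4
      omega
    refine ⟨?_, hQ'⟩
    rw [hQ', mul_zero] at h1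
    exact (mul_eq_zero.mp h1).resolve_left hq

/-- If `F₁ : K → E` and `G₁ : K → E` only agree on elements of `k'` (in the sense that
`F₁ a = G₁ b` implies `a` in `k'`), the same holds for rational functions. -/
theorem mem_of_rfmap_eq (k' K E : Type) [Field k'] [Field K] [Field E] (i : k' →+* K)
    (F₁ G₁ : K →+* E) (h : ∀ a b, F₁ a = G₁ b → ∃ c, i c = a) (r : ℕ) (f g : RF K r)
    (hfg : rfmap F₁ r f = rfmap G₁ r g) : ∃ c, rfmap i r c = f := by
  classical
  obtain ⟨p, q, hq, e⟩ := IsFractionRing.div_surjective (A := MvPolynomial (Fin r) K) f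
  obtain ⟨p', q', hq', e'⟩ := IsFractionRing.div_surjective (A := MvPolynomial (Fin r) K) g
  have hq0 : q ≠ 0 := nonZeroDivisors.ne_zero hq
  have hq0' : q' ≠ 0 := nonZeroDivisors.ne_zero hq'
  have hinj : ∀ (L : Type) [Field L] (a : MvPolynomial (Fin r) L), a ≠ 0 →
      algebraMap (MvPolynomial (Fin r) L) (RF L r) a ≠ 0 := fun L _ a ha h0 =>
    ha (A1_inj (h0.trans (map_zero _).symm))
  have hq1 := hinj K q hq0
  have hq1' := hinj K q' hq0'
  have e1 : f * algebraMap (MvPolynomial (Fin r) K) (RF K r) q =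
      algebraMap (MvPolynomial (Fin r) K) (RF K r) p := by
    rw [← e, div_mul_cancel₀ _ hq1]
  have e1' : g * algebraMap (MvPolynomial (Fin r) K) (RF K r) q' =
      algebraMap (MvPolynomial (Fin r) K) (RF K r) p' := by
    rw [← e', div_mul_cancel₀ _ hq1']
  obtain ⟨P, Q, s, hPQ, hs, hmin⟩ := Q10c_min p q hq0
  -- over `E`
  have hE : ∀ PE QE : MvPolynomial (Fin r) E,
      MvPolynomial.map F₁ q * PE = MvPolynomial.map F₁ p * QE → PE.support ⊆ P.support →
      QE.support ⊆ Q.support → PE = MvPolynomial.C (QE.coeff s) * MvPolynomial.map F₁ P ∧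
        QE = MvPolynomial.C (QE.coeff s) * MvPolynomial.map F₁ Q := by
    intro PE QE h1 h2 h3
    set ee := QE.coeff s with hee
    have hsub : ∀ (R : MvPolynomial (Fin r) K) (RE : MvPolynomial (Fin r) E), RE.support ⊆ R.support →
        (RE - MvPolynomial.C ee * MvPolynomial.map F₁ R).support ⊆ R.support := by
      intro R RE hR t ht
      rw [MvPolynomial.mem_support_iff] at ht ⊢
      intro h0
      apply ht
      have h5 : RE.coeff t = 0 := by
        by_contra h6
        exact (MvPolynomial.mem_support_iff.mp (hR (MvPolynomial.mem_support_iff.mpr h6))) h0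
      rw [MvPolynomial.coeff_sub, MvPolynomial.coeff_C_mul, MvPolynomial.coeff_map, h0, h5,
        map_zero, mul_zero, sub_zero]
    have heq : MvPolynomial.map F₁ q * (PE - MvPolynomial.C ee * MvPolynomial.map F₁ P) =
        MvPolynomial.map F₁ p * (QE - MvPolynomial.C ee * MvPolynomial.map F₁ Q) := by
      have h4 : MvPolynomial.map F₁ q * MvPolynomial.map F₁ P =
          MvPolynomial.map F₁ p * MvPolynomial.map F₁ Q := by
        rw [← map_mul, ← map_mul, hPQ]
      linear_combination h1 - MvPolynomial.C ee * h4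
    have hcs : (QE - MvPolynomial.C ee * MvPolynomial.map F₁ Q).coeff s = 0 := by
      rw [MvPolynomial.coeff_sub, MvPolynomial.coeff_C_mul, MvPolynomial.coeff_map, hs, map_one,
        mul_one, ← hee, sub_self]
    have hzero : ∀ l : E →+ K, (∀ a y, l (F₁ a * y) = a * l y) →
        A1_Λ l (PE - MvPolynomial.C ee * MvPolynomial.map F₁ P) = 0 ∧
          A1_Λ l (QE - MvPolynomial.C ee * MvPolynomial.map F₁ Q) = 0 := by
      intro l hl
      refine hmin _ _ ?_ ((Q10c_supp l _).trans (hsub P PE h2))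
        ((Q10c_supp l _).trans (hsub Q QE h3)) ?_
      · rw [← A1_Λ_mul F₁ l hl, ← A1_Λ_mul F₁ l hl, heq]
      · rw [A1_coeff, hcs, map_zero]
    constructor
    · rw [← sub_eq_zero]
      ext t
      rw [MvPolynomial.coeff_zero]
      by_contra hne
      obtain ⟨l, hl1, hl⟩ := Q10c_functional F₁ _ hne
      have h6 := (hzero l hl).1
      have h7 := congrArg (MvPolynomial.coeff t) h6
      rw [A1_coeff, hl1, MvPolynomial.coeff_zero] at h7
      exact one_ne_zero h7
    · rw [← sub_eq_zero]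
      ext t
      rw [MvPolynomial.coeff_zero]
      by_contra hne
      obtain ⟨l, hl1, hl⟩ := Q10c_functional F₁ _ hne
      have h6 := (hzero l hl).2
      have h7 := congrArg (MvPolynomial.coeff t) h6
      rw [A1_coeff, hl1, MvPolynomial.coeff_zero] at h7
      exact one_ne_zero h7
  -- `f = P / Q`
  have hQ0 : Q ≠ 0 := by
    intro h0
    rw [h0, MvPolynomial.coeff_zero] at hs
    exact zero_ne_one hs
  have hfPQ : f * algebraMap (MvPolynomial (Fin r) K) (RF K r) Q =
      algebraMap (MvPolynomial (Fin r) K) (RF K r) P := by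
    apply mul_left_cancel₀ hq1
    rw [← map_mul, hPQ, map_mul, ← e1]
    ring
  have hF : algebraMap (MvPolynomial (Fin r) E) (RF E r) (MvPolynomial.map F₁ P) =
      rfmap F₁ r f * algebraMap (MvPolynomial (Fin r) E) (RF E r) (MvPolynomial.map F₁ Q) := by
    rw [← rfmap_algebraMap, ← rfmap_algebraMap, ← map_mul, hfPQ]
  have hG : rfmap G₁ r g * algebraMap (MvPolynomial (Fin r) E) (RF E r) (MvPolynomial.map G₁ q') =
      algebraMap (MvPolynomial (Fin r) E) (RF E r) (MvPolynomial.map G₁ p') := by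
    rw [← rfmap_algebraMap, ← rfmap_algebraMap, ← map_mul, e1']
  have hG' : rfmap F₁ r f * algebraMap (MvPolynomial (Fin r) E) (RF E r) (MvPolynomial.map F₁ q) =
      algebraMap (MvPolynomial (Fin r) E) (RF E r) (MvPolynomial.map F₁ p) := by
    rw [← rfmap_algebraMap, ← rfmap_algebraMap, ← map_mul, e1]
  have e2 : MvPolynomial.map G₁ q' * MvPolynomial.map F₁ P =
      MvPolynomial.map G₁ p' * MvPolynomial.map F₁ Q := by
    apply A1_inj
    rw [map_mul, map_mul, hF, ← hG, hfg]
    ring
  obtain ⟨μ, hμ1, hμ⟩ := A1_exists_functional G₁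
  set u₁ := A1_Λ μ (MvPolynomial.map F₁ P) with hu1
  set u₂ := A1_Λ μ (MvPolynomial.map F₁ Q) with hu2
  have e3 : q' * u₁ = p' * u₂ := by
    rw [hu1, hu2, ← A1_Λ_mul G₁ μ hμ, ← A1_Λ_mul G₁ μ hμ, e2]
  have hGq : algebraMap (MvPolynomial (Fin r) E) (RF E r) (MvPolynomial.map G₁ q') ≠ 0 := by
    apply hinj
    intro h0
    exact hq0' (MvPolynomial.map_injective G₁ G₁.injective (h0.trans (map_zero _).symm))
  have e4 : algebraMap (MvPolynomial (Fin r) E) (RF E r) (MvPolynomial.map G₁ u₁) =
      rfmap F₁ r f * algebraMap (MvPolynomial (Fin r) E) (RF E r) (MvPolynomial.map G₁ u₂) := by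
    apply mul_left_cancel₀ hGq
    rw [← map_mul, ← map_mul, e3, map_mul, map_mul, ← hG, hfg]
    ring
  have e5 : MvPolynomial.map F₁ q * MvPolynomial.map G₁ u₁ =
      MvPolynomial.map F₁ p * MvPolynomial.map G₁ u₂ := by
    apply A1_inj
    rw [map_mul, map_mul, e4, ← hG']
    ring
  have hsm : ∀ (R : MvPolynomial (Fin r) K),
      (MvPolynomial.map G₁ (A1_Λ μ (MvPolynomial.map F₁ R))).support ⊆ R.support := by
    intro R
    refine (MvPolynomial.support_map_subset _ _).trans ((Q10c_supp μ _).trans ?_)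
    exact MvPolynomial.support_map_subset _ _
  obtain ⟨h8, h9⟩ := hE _ _ e5 (hsm P) (hsm Q)
  have hcoef : (MvPolynomial.map G₁ u₂).coeff s = 1 := by
    rw [MvPolynomial.coeff_map, hu2, A1_coeff, MvPolynomial.coeff_map, hs, map_one, hμ1, map_one]
  rw [hcoef, map_one, one_mul] at h8 h9
  have hrange : ∀ (R u : MvPolynomial (Fin r) K),
      MvPolynomial.map G₁ u = MvPolynomial.map F₁ R → R ∈ Set.range (MvPolynomial.map i) := by
    intro R u hR
    rw [MvPolynomial.mem_range_map_iff_coeffs_subset]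
    intro x hx
    obtain ⟨t, -, ht⟩ := MvPolynomial.mem_coeffs_iff.mp hx
    have h10 := congrArg (MvPolynomial.coeff t) hR
    rw [MvPolynomial.coeff_map, MvPolynomial.coeff_map, ← ht] at h10
    exact h x _ h10.symm
  obtain ⟨P', hP'⟩ := hrange P u₁ h8
  obtain ⟨Q', hQ'⟩ := hrange Q u₂ h9
  refine ⟨algebraMap (MvPolynomial (Fin r) k') (RF k' r) P' /
    algebraMap (MvPolynomial (Fin r) k') (RF k' r) Q', ?_⟩
  rw [map_div₀, rfmap_algebraMap, rfmap_algebraMap, hP', hQ', ← hfPQ,
    mul_div_cancel_right₀ _ (hinj K Q hQ0)]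

/-- Points `x + u μ` with `u` outside of `K(μ)` and `K(μ)` algebraically closed are independent. -/
theorem algebraicIndependent_of_shift (K E : Type) [Field K] [CharZero K] [Field E] (i : K →+* E)
    (hcl : ∀ c : E, (∃ P : K[X], P ≠ 0 ∧ P.eval₂ i c = 0) → ∃ a, i a = c) (r : ℕ) (s : Type)
    [Fintype s] (f : s → Fin r) (hf : Function.Injective f) (a : s → K) (u : RF E r)
    (hu : ∀ c : RF K r, rfmap i r c ≠ u) (Q : MvPolynomial s K)
    (hQ : Q.eval₂ ((algebraMap E (RF E r)).comp i) (fun v => algebraMap E (RF E r) (i (a v)) +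
      u * algebraMap (MvPolynomial (Fin r) E) (RF E r) (MvPolynomial.X (f v))) = 0) : Q = 0 := by
  by_contra hne
  -- the polynomial `Q (a + U μ)` in `U`
  set q : (RF K r)[X] := Q.eval₂ (Polynomial.C.comp (algebraMap K (RF K r)))
    (fun v => Polynomial.C (algebraMap K (RF K r) (a v)) +
      Polynomial.X * Polynomial.C (algebraMap (MvPolynomial (Fin r) K) (RF K r) (MvPolynomial.X (f v)))) with hqdef
  have hev : ∀ (R : Type) [CommRing R] (ψ : RF K r →+* R) (w : R), q.eval₂ ψ w =
      Q.eval₂ (ψ.comp (algebraMap K (RF K r))) (fun v => ψ (algebraMap K (RF K r) (a v)) +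
        w * ψ (algebraMap (MvPolynomial (Fin r) K) (RF K r) (MvPolynomial.X (f v)))) := by
    intro R _ ψ w
    rw [hqdef, ← Polynomial.coe_eval₂RingHom, MvPolynomial.hom_eval₂]
    congr 1
    · ext c
      simp
    · funext v
      simp
      ring
  have hq0 : q ≠ 0 := by
    intro h0
    have h1 := hev (RF K r) (RingHom.id _) 1
    rw [h0, Polynomial.eval₂_zero] at h1
    -- evaluate at `U = 1`
    have h2 : algebraMap (MvPolynomial (Fin r) K) (RF K r)
        (Q.eval₂ MvPolynomial.C (fun v => MvPolynomial.C (a v) + MvPolynomial.X (f v))) = 0 := by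
      rw [MvPolynomial.hom_eval₂]
      rw [h1]
      congr 1
      funext v
      simp only [RingHom.id_apply, one_mul, map_add]
      rw [A1_const]
    have h3 : Q.eval₂ MvPolynomial.C (fun v => MvPolynomial.C (a v) + MvPolynomial.X (f v)) =
        (0 : MvPolynomial (Fin r) K) := A1_inj (h2.trans (map_zero _).symm)
    -- substitute back
    have h4 : MvPolynomial.rename f (Q.eval₂ MvPolynomial.C (fun v => MvPolynomial.C (a v) + MvPolynomial.X v)) =
        (0 : MvPolynomial (Fin r) K) := by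
      rw [← h3, ← AlgHom.coe_toRingHom, MvPolynomial.hom_eval₂]
      congr 1
      · ext c; simp
      · funext v; simp
    have h5 : (Q.eval₂ MvPolynomial.C (fun v => MvPolynomial.C (a v) + MvPolynomial.X v)) =
        (0 : MvPolynomial s K) := MvPolynomial.rename_injective f hf (h4.trans (map_zero _).symm)
    have h6 : ((Q.eval₂ MvPolynomial.C (fun v => MvPolynomial.C (a v) + MvPolynomial.X v)) :
        MvPolynomial s K).eval₂ MvPolynomial.C (fun v => MvPolynomial.X v - MvPolynomial.C (a v)) = Q := by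
      rw [← MvPolynomial.coe_eval₂Hom, MvPolynomial.hom_eval₂]
      have : ((MvPolynomial.eval₂Hom MvPolynomial.C (fun v => MvPolynomial.X v - MvPolynomial.C (a v))).comp
          MvPolynomial.C : K →+* MvPolynomial s K) = MvPolynomial.C := by
        ext c; simp
      rw [this]
      have h7 : (fun v => (MvPolynomial.eval₂Hom MvPolynomial.C (fun v => MvPolynomial.X v - MvPolynomial.C (a v)))
          (MvPolynomial.C (a v) + MvPolynomial.X v)) = (MvPolynomial.X : s → MvPolynomial s K) := by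
        funext v; simp
      rw [h7]
      exact MvPolynomial.eval₂_eta Q
    rw [h5] at h6
    apply hne
    rw [← h6]
    simp
  have hqu : q.eval₂ (rfmap i r) u = 0 := by
    rw [hev, ← hQ]
    congr 1
    · ext c
      simp [rfmap_const]
    · funext v
      rw [rfmap_const, rfmap_algebraMap, MvPolynomial.map_X]
  obtain ⟨c, hc⟩ := mem_range_rfmap i hcl r u q hq0 hqu
  exact hu c hc

end Pool.Agent.LibHPQ
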