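import Pool.Agent.LibHPQ.Defs

set_option autoImplicit false

namespace Pool.Agent.LibHPQ

open Polynomial Pool.Agent.LibHP

/-- Rational functions over `k` linearly independent over `k` stay linearly independent over `K` at a
point algebraically independent over `K`. -/
theorem linearIndependent_of_algInd (k K Ω s : Type) [Field k] [Field K] [Field Ω] [Algebra k K]
    [Algebra K Ω] [Fintype s] (x : s → K) (hx : AlgebraicIndependent k x) (Ψ : K →+* Ω)
    (hΨk : ∀ c : k, Ψ (algebraMap k K c) = algebraMap K Ω (algebraMap k K c))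
    (hΨ : ∀ Q : MvPolynomial s K, Q.eval₂ (algebraMap K Ω) (fun v => Ψ (x v)) = 0 → Q = 0)
    (m : ℕ) (c : Fin m → K) (hc : ∀ j, c j ∈ IntermediateField.adjoin k (Set.range x))
    (hlin : LinearIndependent k c) : LinearIndependent K (Ψ ∘ c) := by
  classical
  have h1 : ∀ j, ∃ P R : MvPolynomial s k, MvPolynomial.aeval x R ≠ 0 ∧
      c j * MvPolynomial.aeval x R = MvPolynomial.aeval x P := by
    intro j
    obtain ⟨P, R, hPR⟩ := (IntermediateField.mem_adjoin_range_iff k x (c j)).1 (hc j)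
    have hR : MvPolynomial.aeval x R ≠ 0 := by
      intro h0
      apply hlin.ne_zero j
      rw [hPR, h0, div_zero]
    exact ⟨P, R, hR, by rw [hPR, div_mul_cancel₀ _ hR]⟩
  choose P R hR hPR using h1
  obtain ⟨S, hS⟩ : ∃ S : MvPolynomial s k, S = ∏ j, R j := ⟨_, rfl⟩
  have hS0 : MvPolynomial.aeval x S ≠ 0 := by
    rw [hS, map_prod]
    exact Finset.prod_ne_zero_iff.2 fun j _ => hR j
  obtain ⟨P', hP'⟩ : ∃ P' : Fin m → MvPolynomial s k,
      P' = fun j => P j * ∏ i ∈ Finset.univ.erase j, R i := ⟨_, rfl⟩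
  have hPS : ∀ j, c j * MvPolynomial.aeval x S = MvPolynomial.aeval x (P' j) := by
    intro j
    have h2 : S = R j * ∏ i ∈ Finset.univ.erase j, R i := by
      rw [hS, Finset.mul_prod_erase _ _ (Finset.mem_univ j)]
    rw [h2, hP', map_mul, ← mul_assoc, hPR j, ← map_mul]
  have hev : ∀ Q : MvPolynomial s k, Ψ (MvPolynomial.aeval x Q) =
      (MvPolynomial.map (algebraMap k K) Q).eval₂ (algebraMap K Ω) (fun v => Ψ (x v)) := by
    intro Q
    have h0 : Ψ.comp (algebraMap k K) = (algebraMap K Ω).comp (algebraMap k K) :=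
      RingHom.ext hΨk
    rw [MvPolynomial.eval₂_map, MvPolynomial.aeval_def, MvPolynomial.eval₂_comp_left, h0]
    rfl
  rw [Fintype.linearIndependent_iff]
  intro b hb j
  have hQ : (∑ j, MvPolynomial.C (b j) * MvPolynomial.map (algebraMap k K) (P' j)) = 0 := by
    apply hΨ
    rw [MvPolynomial.eval₂_sum]
    have h3 : ∀ j, (MvPolynomial.C (b j) * MvPolynomial.map (algebraMap k K) (P' j)).eval₂
        (algebraMap K Ω) (fun v => Ψ (x v)) = (b j • (Ψ ∘ c) j) * Ψ (MvPolynomial.aeval x S) := by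
      intro j
      rw [MvPolynomial.eval₂_mul, MvPolynomial.eval₂_C, ← hev, ← hPS j, map_mul, Algebra.smul_def,
        Function.comp_apply]
      ring
    rw [Finset.sum_congr rfl fun j _ => h3 j, ← Finset.sum_mul, hb, zero_mul]
  rw [← Module.forall_dual_apply_eq_zero_iff k]
  intro ℓ
  have h4 : ∑ j, ℓ (b j) • P' j = 0 := by
    ext n
    have h5 := congrArg (fun Q => ℓ (MvPolynomial.coeff n Q)) hQ
    simp only [MvPolynomial.coeff_sum, MvPolynomial.coeff_C_mul, MvPolynomial.coeff_map,
      MvPolynomial.coeff_zero, map_zero, map_sum] at h5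
    rw [MvPolynomial.coeff_sum, MvPolynomial.coeff_zero, ← h5]
    refine Finset.sum_congr rfl fun j _ => ?_
    rw [MvPolynomial.coeff_smul, mul_comm (b j), ← Algebra.smul_def, map_smul, smul_eq_mul,
      smul_eq_mul, mul_comm]
  have h6 := congrArg (MvPolynomial.aeval x) h4
  rw [map_sum, map_zero] at h6
  have h7 : (∑ j, ℓ (b j) • c j) * MvPolynomial.aeval x S = 0 := by
    rw [Finset.sum_mul, ← h6]
    refine Finset.sum_congr rfl fun j _ => ?_
    rw [map_smul, ← hPS j, smul_mul_assoc]
  have h8 := (mul_eq_zero.1 h7).resolve_right hS0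
  exact (Fintype.linearIndependent_iff.1 hlin) _ h8 j

end Pool.Agent.LibHPQ
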