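import Pool.Agent.LibHPQ.Defs
import Pool.Agent.LibHP2.A1

set_option autoImplicit false

namespace Pool.Agent.LibHPQ

open Polynomial Pool.Agent.LibHP

/-- A finite family written in a basis of its span. -/
theorem Q10e_span (k V ι : Type) [Field k] [AddCommGroup V] [Module k V] [Finite ι] (v : ι → V) :
    ∃ (n : ℕ) (e : Fin n → V) (γ : ι → Fin n → k), LinearIndependent k e ∧
      ∀ j, v j = ∑ s, γ j s • e s := by
  have hfin : FiniteDimensional k (Submodule.span k (Set.range v)) :=
    FiniteDimensional.span_of_finite k (Set.finite_range v)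
  let B := Module.finBasis k (Submodule.span k (Set.range v))
  refine ⟨_, fun s => (B s : V), fun j s => B.repr ⟨v j, Submodule.subset_span ⟨j, rfl⟩⟩ s,
    ?_, fun j => ?_⟩
  · exact B.linearIndependent.map' (Submodule.span k (Set.range v)).subtype
      (Submodule.ker_subtype _)
  · have h := B.sum_repr ⟨v j, Submodule.subset_span ⟨j, rfl⟩⟩
    have h2 := congrArg (Submodule.span k (Set.range v)).subtype h
    rw [map_sum] at h2
    simp only [map_smul, Submodule.subtype_apply] at h2
    exact h2.symm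

/-- Linearly independent rational functions stay independent over a bigger field. -/
theorem Q10e_rfmap {K E : Type} [Field K] [Field E] (F : K →+* E) {r n : ℕ} (f : Fin n → RF K r)
    (hf : LinearIndependent K f) : LinearIndependent E (rfmap F r ∘ f) := by
  classical
  have h1 : ∀ j, ∃ p q : MvPolynomial (Fin r) K, q ≠ 0 ∧
      f j * algebraMap (MvPolynomial (Fin r) K) (RF K r) q =
        algebraMap (MvPolynomial (Fin r) K) (RF K r) p := by
    intro j
    obtain ⟨p, q, hq, e⟩ := IsFractionRing.div_surjective (A := MvPolynomial (Fin r) K) (f j)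
    have hq0 : q ≠ 0 := nonZeroDivisors.ne_zero hq
    refine ⟨p, q, hq0, ?_⟩
    have hq1 : algebraMap (MvPolynomial (Fin r) K) (RF K r) q ≠ 0 := by
      intro h0
      exact hq0 (A1_inj (h0.trans (map_zero _).symm))
    rw [← e, div_mul_cancel₀ _ hq1]
  choose P R hR hPR using h1
  obtain ⟨S, hS⟩ : ∃ S : MvPolynomial (Fin r) K, S = ∏ j, R j := ⟨_, rfl⟩
  have hS0 : S ≠ 0 := by
    rw [hS]
    exact Finset.prod_ne_zero_iff.2 fun j _ => hR j
  have hS1 : algebraMap (MvPolynomial (Fin r) K) (RF K r) S ≠ 0 := by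
    intro h0
    exact hS0 (A1_inj (h0.trans (map_zero _).symm))
  obtain ⟨P', hP'⟩ : ∃ P' : Fin n → MvPolynomial (Fin r) K,
      P' = fun j => P j * ∏ i ∈ Finset.univ.erase j, R i := ⟨_, rfl⟩
  have hPS : ∀ j, f j * algebraMap (MvPolynomial (Fin r) K) (RF K r) S =
      algebraMap (MvPolynomial (Fin r) K) (RF K r) (P' j) := by
    intro j
    have h2 : S = R j * ∏ i ∈ Finset.univ.erase j, R i := by
      rw [hS, Finset.mul_prod_erase _ _ (Finset.mem_univ j)]
    rw [h2, hP', map_mul, ← mul_assoc, hPR j, ← map_mul]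
  rw [Fintype.linearIndependent_iff]
  intro β hβ j
  have hQ : (∑ j, MvPolynomial.C (β j) * MvPolynomial.map F (P' j)) = 0 := by
    apply A1_inj
    rw [map_sum, map_zero]
    have h3 : ∀ j, algebraMap (MvPolynomial (Fin r) E) (RF E r)
        (MvPolynomial.C (β j) * MvPolynomial.map F (P' j)) = (β j • (rfmap F r ∘ f) j) *
          rfmap F r (algebraMap (MvPolynomial (Fin r) K) (RF K r) S) := by
      intro j
      rw [map_mul, ← rfmap_algebraMap, ← hPS j, map_mul, Algebra.smul_def, Function.comp_apply,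
        ← A1_const]
      ring
    rw [Finset.sum_congr rfl fun j _ => h3 j, ← Finset.sum_mul, hβ, zero_mul]
  let _ : Algebra K E := F.toAlgebra
  rw [← Module.forall_dual_apply_eq_zero_iff K]
  intro ℓ
  have h4 : ∑ j, MvPolynomial.C (ℓ (β j)) * P' j = 0 := by
    ext m
    have h5 := congrArg (fun Q => ℓ (MvPolynomial.coeff m Q)) hQ
    simp only [MvPolynomial.coeff_sum, MvPolynomial.coeff_C_mul, MvPolynomial.coeff_map,
      MvPolynomial.coeff_zero, map_zero, map_sum] at h5
    rw [MvPolynomial.coeff_sum, MvPolynomial.coeff_zero, ← h5]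
    refine Finset.sum_congr rfl fun j _ => ?_
    have h6 : β j * F (MvPolynomial.coeff m (P' j)) = MvPolynomial.coeff m (P' j) • β j := by
      rw [mul_comm, Algebra.smul_def]
      rfl
    rw [MvPolynomial.coeff_C_mul, h6, map_smul, smul_eq_mul, mul_comm]
  have h6 := congrArg (algebraMap (MvPolynomial (Fin r) K) (RF K r)) h4
  rw [map_sum, map_zero] at h6
  have h7 : (∑ j, ℓ (β j) • f j) * algebraMap (MvPolynomial (Fin r) K) (RF K r) S = 0 := by
    rw [Finset.sum_mul, ← h6]
    refine Finset.sum_congr rfl fun j _ => ?_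
    rw [map_mul, ← hPS j, Algebra.smul_def, A1_const]
    ring
  have h8 := (mul_eq_zero.1 h7).resolve_right hS1
  exact (Fintype.linearIndependent_iff.1 hf) _ h8 j

/-- Composition of disjoint embeddings. -/
theorem disjoint_comp (k k' K Ω : Type) [Field k] [Field k'] [Field K] [Field Ω] [Algebra k k']
    [Algebra k K] [Algebra k' K] [IsScalarTower k k' K] [Algebra K Ω] (r : ℕ)
    (F₁ : K →+* RF K r)
    (hF₁ : ∀ c : k', F₁ (algebraMap k' K c) = algebraMap K (RF K r) (algebraMap k' K c))
    (hdis : ∀ (m : ℕ) (a : Fin m → K), LinearIndependent k' a → LinearIndependent K (F₁ ∘ a))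
    (Ψ : K →+* Ω)
    (hΨk : ∀ c : k, Ψ (algebraMap k K c) = algebraMap K Ω (algebraMap k K c))
    (hΨ : ∀ (m : ℕ) (c : Fin m → k'), LinearIndependent k c →
      LinearIndependent K (fun j => Ψ (algebraMap k' K (c j))))
    (m : ℕ) (a : Fin m → K) (ha : LinearIndependent k a) (b : Fin m → K)
    (hb : ∑ j, algebraMap Ω (RF Ω r) (algebraMap K Ω (b j)) * rfmap Ψ r (F₁ (a j)) = 0) :
    ∀ j, b j = 0 := by
  classical
  obtain ⟨n, e, c, he, hce⟩ := Q10e_span k' K (Fin m) a
  -- first step: the coefficients over `k'`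
  have h1 : ∀ l, ∑ j, algebraMap K Ω (b j) * Ψ (algebraMap k' K (c j l)) = 0 := by
    have h2 := Fintype.linearIndependent_iff.1 (Q10e_rfmap Ψ (F₁ ∘ e) (hdis n e he))
      (fun l => ∑ j, algebraMap K Ω (b j) * Ψ (algebraMap k' K (c j l))) ?_
    · exact h2
    rw [← hb]
    have h3 : ∀ l, (∑ j, algebraMap K Ω (b j) * Ψ (algebraMap k' K (c j l))) •
        (rfmap Ψ r ∘ F₁ ∘ e) l = ∑ j, algebraMap Ω (RF Ω r) (algebraMap K Ω (b j)) *
          (algebraMap Ω (RF Ω r) (Ψ (algebraMap k' K (c j l))) * rfmap Ψ r (F₁ (e l))) := by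
      intro l
      rw [Algebra.smul_def, map_sum, Finset.sum_mul]
      refine Finset.sum_congr rfl fun j _ => ?_
      rw [map_mul, Function.comp_apply, Function.comp_apply]
      ring
    rw [Finset.sum_congr rfl fun l _ => h3 l, Finset.sum_comm]
    refine Finset.sum_congr rfl fun j _ => ?_
    rw [← Finset.mul_sum]
    congr 1
    rw [hce j, map_sum, map_sum]
    refine Finset.sum_congr rfl fun l _ => ?_
    rw [Algebra.smul_def, map_mul, hF₁, map_mul, rfmap_const]
  -- second step: the coefficients over `k`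
  obtain ⟨p, ε, γ, hε, hγ⟩ := Q10e_span k k' (Fin m × Fin n) (fun jl => c jl.1 jl.2)
  have h2 : ∀ l s, ∑ j, γ (j, l) s • b j = 0 := by
    intro l
    have h3 := Fintype.linearIndependent_iff.1 (hΨ p ε hε)
      (fun s => ∑ j, γ (j, l) s • b j) ?_
    · exact h3
    rw [← h1 l]
    have h4 : ∀ s, (∑ j, γ (j, l) s • b j) • Ψ (algebraMap k' K (ε s)) =
        ∑ j, algebraMap K Ω (b j) * (Ψ (algebraMap k K (γ (j, l) s)) *
          Ψ (algebraMap k' K (ε s))) := by
      intro s
      rw [Algebra.smul_def, map_sum, Finset.sum_mul]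
      refine Finset.sum_congr rfl fun j _ => ?_
      rw [Algebra.smul_def, map_mul, ← hΨk]
      ring
    rw [Finset.sum_congr rfl fun s _ => h4 s, Finset.sum_comm]
    refine Finset.sum_congr rfl fun j _ => ?_
    rw [← Finset.mul_sum]
    congr 1
    have h5 := hγ (j, l)
    simp only at h5
    rw [h5, map_sum, map_sum]
    refine Finset.sum_congr rfl fun s _ => ?_
    rw [Algebra.smul_def, map_mul, map_mul, ← IsScalarTower.algebraMap_apply]
  intro j
  rw [← Module.forall_dual_apply_eq_zero_iff k]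
  intro ℓ
  have h3 : ∑ j, ℓ (b j) • a j = 0 := by
    have h4 : ∀ j, ℓ (b j) • a j = ∑ l, (ℓ (b j) • c j l) • e l := by
      intro j
      rw [hce j, Finset.smul_sum]
      refine Finset.sum_congr rfl fun l _ => ?_
      rw [smul_assoc]
    rw [Finset.sum_congr rfl fun j _ => h4 j, Finset.sum_comm]
    refine Finset.sum_eq_zero fun l _ => ?_
    rw [← Finset.sum_smul]
    have h5 : ∑ j, ℓ (b j) • c j l = 0 := by
      have h6 : ∀ j, ℓ (b j) • c j l = ∑ s, (ℓ (b j) * γ (j, l) s) • ε s := by
        intro j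
        have h7 := hγ (j, l)
        simp only at h7
        rw [h7, Finset.smul_sum]
        refine Finset.sum_congr rfl fun s _ => ?_
        rw [smul_smul]
      rw [Finset.sum_congr rfl fun j _ => h6 j, Finset.sum_comm]
      refine Finset.sum_eq_zero fun s _ => ?_
      rw [← Finset.sum_smul]
      have h8 := congrArg ℓ (h2 l s)
      rw [map_sum, map_zero] at h8
      have h9 : ∑ j, ℓ (b j) * γ (j, l) s = 0 := by
        rw [← h8]
        refine Finset.sum_congr rfl fun j _ => ?_
        rw [map_smul, smul_eq_mul, mul_comm]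
      rw [h9, zero_smul]
    rw [h5, zero_smul]
  exact (Fintype.linearIndependent_iff.1 ha) _ h3 j

end Pool.Agent.LibHPQ
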