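import Pool.Agent.LibHPQ.Q1e

set_option autoImplicit false

namespace Pool.Agent.LibHPQ

open Polynomial Pool.Agent.LibHP

/-- `F` is not a square up to squares. -/
private theorem Q4_indep {k σ ι : Type} [Field k] [Fintype σ] [DecidableEq σ] [DecidableEq ι]
    (g : σ → ι) (i : ι) (F : MvPolynomial σ k) (hG : Quart (ell g i F))
    (A B : MvPolynomial σ k) (h : A ^ 2 = B ^ 2 * F) : A = 0 ∧ B = 0 := by
  have hB : B = 0 := by
    by_contra hB
    have h1 : B ^ 2 ∣ A ^ 2 := ⟨F, h⟩
    rw [UniqueFactorizationMonoid.pow_dvd_pow_iff_dvd two_ne_zero] at h1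
    obtain ⟨H, hH⟩ := h1
    have h2 : F = H * H := by
      have h3 : B ^ 2 * (H * H) = B ^ 2 * F := by
        rw [← h, hH]
        ring
      exact (mul_left_cancel₀ (pow_ne_zero 2 hB) h3).symm
    have h4 : ell g i F = ell g i H * ell g i H := by
      rw [h2, map_mul]
    have h5 : IsUnit (ell g i H) := hG.sep.squarefree _ ⟨1, by rw [mul_one, h4]⟩
    have h6 : (ell g i F).natDegree = 0 := by
      rw [h4]
      exact natDegree_eq_zero_of_isUnit (h5.mul h5)
    have := hG.ge
    omega
  refine ⟨?_, hB⟩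
  rw [hB, zero_pow two_ne_zero, zero_mul] at h
  exact pow_eq_zero_iff two_ne_zero |>.1 h

/-- Extension of a homomorphism to the double cover. -/
private theorem Q4_extend {k σ ι : Type} [Field k] [Fintype σ] [DecidableEq σ] [DecidableEq ι]
    (g : σ → ι) (i : ι) (F : MvPolynomial σ k) (hG : Quart (ell g i F))
    (K : Type) [Field K] [Algebra k K] (x : σ → K) (w : K) (hx : IsDoublePt F x w)
    (K₁ : Type) [Field K₁] (φ : MvPolynomial σ k →+* K₁) (hφ : ∀ p, φ p = 0 → p = 0) (w' : K₁)
    (hw' : w' ^ 2 = φ F) :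
    ∃ D : K →+* K₁, ∀ p : MvPolynomial σ k, D (MvPolynomial.aeval x p) = φ p := by
  obtain ⟨hx1, hx2, hx3⟩ := hx
  have hinj : ∀ p : MvPolynomial σ k, MvPolynomial.aeval x p = 0 → p = 0 := fun p hp =>
    hx1 (by rw [hp, map_zero])
  have hind : ∀ A B : MvPolynomial σ k,
      MvPolynomial.aeval x A + MvPolynomial.aeval x B * w = 0 → A = 0 ∧ B = 0 := by
    intro A B h
    refine Q4_indep g i F hG A B ?_
    apply hx1
    change MvPolynomial.aeval x (A ^ 2) = MvPolynomial.aeval x (B ^ 2 * F)
    rw [map_mul, map_pow, map_pow, ← hx2, eq_neg_of_add_eq_zero_left h]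
    ring
  choose P Q R hR hPQ using hx3
  have key : ∀ (z : K) (P' Q' R' : MvPolynomial σ k), MvPolynomial.aeval x R' ≠ 0 →
      z * MvPolynomial.aeval x R' = MvPolynomial.aeval x P' + MvPolynomial.aeval x Q' * w →
      (φ (P z) + φ (Q z) * w') / φ (R z) = (φ P' + φ Q' * w') / φ R' := by
    intro z P' Q' R' hR' h'
    have h1 := hind (P z * R' - P' * R z) (Q z * R' - Q' * R z) (by
      rw [map_sub, map_sub, map_mul, map_mul, map_mul, map_mul]
      linear_combination (-(MvPolynomial.aeval x R')) * hPQ z + MvPolynomial.aeval x (R z) * h')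
    have h2 : φ (R z) ≠ 0 := fun h => hR z (by rw [hφ _ h, map_zero])
    have h3 : φ R' ≠ 0 := fun h => hR' (by rw [hφ _ h, map_zero])
    have h4 := congrArg φ (sub_eq_zero.1 h1.1)
    have h5 := congrArg φ (sub_eq_zero.1 h1.2)
    rw [map_mul, map_mul] at h4 h5
    rw [div_eq_div_iff h2 h3]
    linear_combination h4 + w' * h5
  have hne : ∀ z, φ (R z) ≠ 0 := fun z h => hR z (by rw [hφ _ h, map_zero])
  refine ⟨{ toFun := fun z => (φ (P z) + φ (Q z) * w') / φ (R z)
            map_one' := ?_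
            map_mul' := ?_
            map_zero' := ?_
            map_add' := ?_ }, ?_⟩
  · rw [key 1 1 0 1 (by rw [map_one]; exact one_ne_zero)
      (by rw [map_one, map_zero]; ring)]
    rw [map_one, map_zero]
    ring
  · intro z z'
    have h1 : MvPolynomial.aeval x (R z * R z') ≠ 0 := by
      rw [map_mul]
      exact mul_ne_zero (hR z) (hR z')
    rw [key (z * z') (P z * P z' + Q z * Q z' * F) (P z * Q z' + Q z * P z') (R z * R z') h1 (by
      simp only [map_add, map_mul]
      rw [← hx2]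
      linear_combination (z' * MvPolynomial.aeval x (R z')) * hPQ z +
        (MvPolynomial.aeval x (P z) + MvPolynomial.aeval x (Q z) * w) * hPQ z')]
    simp only [map_add, map_mul]
    rw [← hw', div_mul_div_comm]
    congr 1
    ring
  · rw [key 0 0 0 1 (by rw [map_one]; exact one_ne_zero)
      (by rw [map_one, map_zero]; ring)]
    rw [map_one, map_zero]
    ring
  · intro z z'
    have h1 : MvPolynomial.aeval x (R z * R z') ≠ 0 := by
      rw [map_mul]
      exact mul_ne_zero (hR z) (hR z')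
    rw [key (z + z') (P z * R z' + P z' * R z) (Q z * R z' + Q z' * R z) (R z * R z') h1 (by
      simp only [map_add, map_mul]
      linear_combination (MvPolynomial.aeval x (R z')) * hPQ z +
        MvPolynomial.aeval x (R z) * hPQ z')]
    simp only [map_add, map_mul]
    have h2 := hne z
    have h3 := hne z'
    field_simp
    ring
  · intro p
    change (φ (P _) + φ (Q _) * w') / φ (R _) = φ p
    rw [key (MvPolynomial.aeval x p) p 0 1 (by rw [map_one]; exact one_ne_zero)
      (by rw [map_one, map_zero]; ring)]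
    rw [map_one, map_zero]
    ring

/-- The homomorphism `K → K(μ, τ)` given by the point `2H - 3P` of the double cover of the generic
line through the generic point `P`. -/
theorem exists_hom (k σ ι : Type) [Field k] [CharZero k] [Fintype σ] [DecidableEq σ]
    [DecidableEq ι] (g : σ → ι) (i : ι) (F : MvPolynomial σ k) (hG : Quart (ell g i F))
    (K : Type) [Field K] [Algebra k K] (x : σ → K) (w : K) (hx : IsDoublePt F x w)
    (K₁ : Type) [Field K₁] [Algebra k K₁] (ε : KY k σ →+* K₁) (τ w₁ : K₁)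
    (hε : ∀ c : k, ε (algebraMap k (KY k σ) c) = algebraMap k K₁ c)
    (hinj : ∀ p : MvPolynomial σ k, ell g i p = 0 → p = 0)
    (h : CurveField ε τ w₁ (ell g i F)) :
    ∃ D : K →+* K₁, (∀ c : k, D (algebraMap k K c) = algebraMap k K₁ c) ∧
      ∀ p : MvPolynomial σ k, D (MvPolynomial.aeval x p) = (ell g i p).eval₂ ε
        ((nn (ell g i F)).eval₂ ε τ / (mm (ell g i F)).eval₂ ε τ) := by
  have hchar : CharZero (KY k σ) :=
    charZero_of_injective_algebraMap (algebraMap k (KY k σ)).injective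
  set G := ell g i F with hGdef
  set τ' : K₁ := (nn G).eval₂ ε τ / (mm G).eval₂ ε τ with hτ'
  have hmm : (mm G).eval₂ ε τ ≠ 0 := fun h0 => mm_ne_zero G hG (h.tr _ h0)
  have hsum := congrArg (eval₂ ε τ) (sum_eq_vv_sq G hG.le)
  rw [eval₂_mul, eval₂_pow, eval₂_finset_sum] at hsum
  have hGτ : G.eval₂ ε τ' * (mm G).eval₂ ε τ ^ 4 = G.eval₂ ε τ * (vv G).eval₂ ε τ ^ 2 := by
    rw [← hsum, eval₂_eq_sum_range' ε (show G.natDegree < 5 from Nat.lt_succ_of_le hG.le),
      Finset.sum_mul]
    refine Finset.sum_congr rfl fun j hj => ?_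
    rw [Finset.mem_range] at hj
    rw [eval₂_mul, eval₂_mul, eval₂_C, eval₂_pow, eval₂_pow, hτ', div_pow]
    have h1 : (mm G).eval₂ ε τ ^ 4 = (mm G).eval₂ ε τ ^ j * (mm G).eval₂ ε τ ^ (4 - j) := by
      rw [← pow_add]
      congr 1
      omega
    have h2 := pow_ne_zero j hmm
    rw [h1]
    field_simp
  obtain ⟨D, hD⟩ := Q4_extend g i F hG K x w hx K₁ ((eval₂RingHom ε τ').comp (ell g i))
    (fun p hp => hinj p (transcendental_quot ε τ h.tr G hG _ hp))
    (w₁ * (vv G).eval₂ ε τ / (mm G).eval₂ ε τ ^ 2) (by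
      change _ = G.eval₂ ε τ'
      rw [div_pow, mul_pow, h.eq, ← hGτ]
      have h2 := pow_ne_zero 2 hmm
      field_simp)
  refine ⟨D, fun c => ?_, fun p => hD p⟩
  have h1 := hD (MvPolynomial.C c)
  rw [MvPolynomial.aeval_C] at h1
  rw [h1]
  have h2 : ell g i (MvPolynomial.C c) = C (algebraMap k (KY k σ) c) := by
    rw [ell, RingHom.comp_apply]
    change Polynomial.map _ (psi g i (MvPolynomial.C c)) = _
    rw [psi, MvPolynomial.aeval_C, IsScalarTower.algebraMap_apply k (MvPolynomial (σ ⊕ σ) k)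
      (MvPolynomial (σ ⊕ σ) k)[X], Polynomial.algebraMap_eq, Polynomial.map_C,
      ← IsScalarTower.algebraMap_apply]
  rw [RingHom.comp_apply, h2]
  change (C (algebraMap k (KY k σ) c)).eval₂ ε τ' = _
  rw [eval₂_C, hε]

end Pool.Agent.LibHPQ
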