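import Pool.Agent.LibHPQ.Q3
import Pool.Agent.LibHPQ.Q4
import Pool.Agent.LibHPQ.Q10a
import Pool.Agent.LibHPQ.Q10b
import Pool.Agent.LibHPQ.Q10c
import Pool.Agent.LibHPQ.Q10d
import Pool.Agent.LibHPQ.Q10e

set_option autoImplicit false

namespace Pool.Agent.LibHPQ

open Polynomial Pool.Agent.LibHP

theorem Q10f_rfmap_rfmap {K E L : Type} [Field K] [Field E] [Field L] (F : K →+* E) (G : E →+* L)
    (r : ℕ) (f : RF K r) : rfmap G r (rfmap F r f) = rfmap (G.comp F) r f := by
  obtain ⟨p, q, hq, rfl⟩ := IsFractionRing.div_surjective (A := MvPolynomial (Fin r) K) f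
  rw [map_div₀, map_div₀, map_div₀]
  simp only [rfmap_algebraMap, MvPolynomial.map_map]

/-- A second embedding of `K` over `k`, linearly disjoint from the first one. -/
theorem exists_disjoint (k σ ι : Type) [Field k] [CharZero k] [Fintype σ] [DecidableEq σ]
    [DecidableEq ι] (g : σ → ι) (F : MvPolynomial σ k) (i₀ i₁ : ι) (hs : Setup g F i₀ i₁)
    (K : Type) [Field K] [Algebra k K] (x : σ → K) (w : K) (hx : IsDoublePt F x w) :
    ∃ (r : ℕ) (Φ : K →+* RF K r),
      (∀ c : k, Φ (algebraMap k K c) = algebraMap K (RF K r) (algebraMap k K c)) ∧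
      ∀ (m : ℕ) (a : Fin m → K), LinearIndependent k a → LinearIndependent K (Φ ∘ a) := by
  classical
  have hcharK : CharZero K := charZero_of_injective_algebraMap (algebraMap k K).injective
  have hF2 : Squarefree F := squarefree_of_quadratic k σ ι g F i₀ (hs.surj i₀)
    (hs.quad i₀ hs.ne) hs.nofac
  have hG : Quart (ell g i₁ F) := quart_ell k σ ι g F hF2 i₁ hs.quart
  obtain ⟨r₁, F₁, hF₁, hdis⟩ := exists_disjoint_special k σ ι g F i₀ i₁ hs K x w hx
  obtain ⟨r, ε, f, f₀, hf, hf₀, h1, h2, h3, h4, h5⟩ := exists_line k σ ι g i₁ F K x w hx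
  obtain ⟨D, hDk, hD⟩ := exists_hom k σ ι g i₁ F hG K x w hx (RF K r) ε
    (algebraMap (MvPolynomial (Fin r) K) (RF K r) (MvPolynomial.X f₀))
    (algebraMap K (RF K r) w)
    (fun c => by rw [h3, ← IsScalarTower.algebraMap_apply]) (ell_injective k σ ι g i₁) h5
  set τ : RF K r := algebraMap (MvPolynomial (Fin r) K) (RF K r) (MvPolynomial.X f₀) with hτ
  set τ' : RF K r := (nn (ell g i₁ F)).eval₂ ε τ / (mm (ell g i₁ F)).eval₂ ε τ with hτ'
  let Ψ : K →+* RF (RF K r₁) r := (rfmap F₁ r).comp D
  have hF₁k : ∀ c : k, F₁ (algebraMap k K c) = algebraMap K (RF K r₁) (algebraMap k K c) := by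
    intro c
    have := hF₁ (algebraMap k (SF k g x i₁) c)
    rwa [← IsScalarTower.algebraMap_apply k (SF k g x i₁) K] at this
  have hΨk : ∀ c : k, Ψ (algebraMap k K c) =
      algebraMap K (RF (RF K r₁) r) (algebraMap k K c) := by
    intro c
    change rfmap F₁ r (D (algebraMap k K c)) = _
    rw [hDk, IsScalarTower.algebraMap_apply k K (RF K r), rfmap_const, hF₁k,
      ← IsScalarTower.algebraMap_apply K (RF K r₁) (RF (RF K r₁) r)]
  -- the displacement
  have hu : ∀ c : RF K r, rfmap (algebraMap K (RF K r₁)) r c ≠ rfmap F₁ r (τ' - τ) := by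
    intro c hc
    obtain ⟨c', hc'⟩ := mem_of_rfmap_eq (SF k g x i₁) K (RF K r₁) (algebraMap (SF k g x i₁) K) F₁
      (algebraMap K (RF K r₁)) (by
        intro a b hab
        by_contra hcon
        have hlin : LinearIndependent (SF k g x i₁) ![(1 : K), a] := by
          rw [LinearIndependent.pair_iff]
          intro s t hst
          have ht : t = 0 := by
            by_contra ht
            apply hcon
            refine ⟨-(s / t), ?_⟩
            have hst' : algebraMap (SF k g x i₁) K s + algebraMap (SF k g x i₁) K t * a = 0 := by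
              rw [← hst, Algebra.smul_def, Algebra.smul_def, mul_one]
            have ht' : algebraMap (SF k g x i₁) K t ≠ 0 := by
              rwa [Ne, FaithfulSMul.algebraMap_eq_zero_iff]
            rw [map_neg, map_div₀]
            field_simp
            linear_combination -hst'
          subst ht
          refine ⟨?_, rfl⟩
          rw [zero_smul, add_zero, Algebra.smul_def, mul_one,
            FaithfulSMul.algebraMap_eq_zero_iff] at hst
          exact hst
        have h6 := hdis 2 _ hlin
        rw [Fintype.linearIndependent_iff] at h6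
        have h7 := h6 ![-b, 1] (by
          rw [Fin.sum_univ_two]
          simp only [Matrix.cons_val_zero, Matrix.cons_val_one, Function.comp_apply, map_one]
          rw [hab, Algebra.smul_def, Algebra.smul_def]
          simp) 1
        simp at h7) r (τ' - τ) c hc.symm
    have hle : IntermediateField.adjoin k (x '' {v | g v = i₁}) ≤
        IntermediateField.adjoin k (x '' {v | g v ≠ i₀}) := by
      apply IntermediateField.adjoin.mono
      apply Set.image_mono
      intro v hv h
      exact hs.ne (h.symm.trans hv)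
    let incl : SF k g x i₁ →+* MF k g x i₀ := (IntermediateField.inclusion hle).toRingHom
    apply quot_not_mem k σ ι g F i₀ i₁ hs K x w hx r ε f f₀ hf hf₀ h3 h1 h2 hG h5
      (rfmap incl r c')
    rw [← hτ, ← hτ', ← hc', Q10f_rfmap_rfmap]
    rfl
  have hshift : ∀ v, g v = i₁ → Ψ (x v) = algebraMap (RF K r₁) (RF (RF K r₁) r)
      (algebraMap K (RF K r₁) (x v)) + rfmap F₁ r (τ' - τ) *
        algebraMap (MvPolynomial (Fin r) (RF K r₁)) (RF (RF K r₁) r) (MvPolynomial.X (f v)) := by
    intro v hv
    have hDx : D (x v) = algebraMap K (RF K r) (x v) + (τ' - τ) *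
        algebraMap (MvPolynomial (Fin r) K) (RF K r) (MvPolynomial.X (f v)) := by
      have h6 := hD (MvPolynomial.X v)
      rw [MvPolynomial.aeval_X] at h6
      rw [h6]
      have h7 : ell g i₁ (MvPolynomial.X v : MvPolynomial σ k) =
          C (algebraMap (MvPolynomial (σ ⊕ σ) k) (KY k σ) (MvPolynomial.X (Sum.inl v))) +
            X * C (algebraMap (MvPolynomial (σ ⊕ σ) k) (KY k σ) (MvPolynomial.X (Sum.inr v))) := by
        simp [ell, psi, hv]
      rw [h7]
      simp only [eval₂_add, eval₂_mul, eval₂_C, eval₂_X]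
      rw [h1, h2, if_pos hv, map_mul]
      ring
    change rfmap F₁ r (D (x v)) = _
    have hxv : F₁ (x v) = algebraMap K (RF K r₁) (x v) :=
      hF₁ ⟨x v, IntermediateField.subset_adjoin k _ ⟨v, hv, rfl⟩⟩
    rw [hDx, map_add, map_mul, rfmap_const, hxv, rfmap_algebraMap, MvPolynomial.map_X]
  have hΨ : ∀ (m : ℕ) (c : Fin m → SF k g x i₁), LinearIndependent k c →
      LinearIndependent K (fun j => Ψ (algebraMap (SF k g x i₁) K (c j))) := by
    intro m c hc
    have h6 := linearIndependent_of_algInd k K (RF (RF K r₁) r) {v : σ // g v = i₁}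
      (fun v => x v.1) (hx.1.comp _ Subtype.val_injective) Ψ hΨk (by
        intro Q hQ
        refine algebraicIndependent_of_shift K (RF K r₁) (algebraMap K (RF K r₁)) (by
          intro c hc
          exact closed_RF K K (RingHom.id K) (fun c hc => ⟨c, rfl⟩) r₁ c (by
            rwa [RingHom.comp_id])) r {v : σ // g v = i₁} (fun v => f v.1)
            (hf.comp Subtype.val_injective) (fun v => x v.1) (rfmap F₁ r (τ' - τ)) hu Q ?_
        rw [← hQ]
        congr 1
        funext v
        exact (hshift v.1 v.2).symm) m (fun j => algebraMap (SF k g x i₁) K (c j)) (by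
        intro j
        have h7 : (c j : K) ∈ IntermediateField.adjoin k (x '' {v | g v = i₁}) := (c j).2
        have h8 : Set.range (fun v : {v : σ // g v = i₁} => x v.1) = x '' {v | g v = i₁} := by
          ext z
          constructor
          · rintro ⟨v, rfl⟩
            exact ⟨v.1, v.2, rfl⟩
          · rintro ⟨v, hv, rfl⟩
            exact ⟨⟨v, hv⟩, rfl⟩
        rw [h8]
        exact h7) (by
        exact hc.map' (IsScalarTower.toAlgHom k (SF k g x i₁) K).toLinearMap
          (LinearMap.ker_eq_bot.2 (algebraMap (SF k g x i₁) K).injective))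
    exact h6
  obtain ⟨E₁⟩ := exists_algEquiv_RF K r₁ r
  obtain ⟨E₂⟩ := exists_algEquiv_RF K (r₁ + r) r₁
  refine ⟨r₁ + r + r₁, ((E₂ : RF (RF K (r₁ + r)) r₁ →+* RF K (r₁ + r + r₁)).comp
    (rfmap (E₁ : RF (RF K r₁) r →+* RF K (r₁ + r)) r₁)).comp ((rfmap Ψ r₁).comp F₁), ?_, ?_⟩
  · intro c
    simp only [RingHom.comp_apply]
    rw [hF₁k, rfmap_const, hΨk, rfmap_const]
    change E₂ (algebraMap (RF K (r₁ + r)) (RF (RF K (r₁ + r)) r₁)
      (E₁ (algebraMap K (RF (RF K r₁) r) (algebraMap k K c)))) = _
    rw [E₁.commutes, ← IsScalarTower.algebraMap_apply K (RF K (r₁ + r))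
      (RF (RF K (r₁ + r)) r₁), E₂.commutes]
  · intro m a ha
    rw [Fintype.linearIndependent_iff]
    intro b hb
    refine disjoint_comp k (SF k g x i₁) K (RF (RF K r₁) r) r₁ F₁ hF₁ hdis Ψ hΨk hΨ m a ha b ?_
    apply ((E₂ : RF (RF K (r₁ + r)) r₁ →+* RF K (r₁ + r + r₁)).comp
      (rfmap (E₁ : RF (RF K r₁) r →+* RF K (r₁ + r)) r₁)).injective
    rw [map_zero, ← hb, map_sum]
    refine Finset.sum_congr rfl fun j _ => ?_
    rw [map_mul, Algebra.smul_def]
    congr 1
    simp only [RingHom.comp_apply]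
    rw [rfmap_const]
    change E₂ (algebraMap (RF K (r₁ + r)) (RF (RF K (r₁ + r)) r₁)
      (E₁ (algebraMap K (RF (RF K r₁) r) (b j)))) = _
    rw [E₁.commutes, ← IsScalarTower.algebraMap_apply K (RF K (r₁ + r))
      (RF (RF K (r₁ + r)) r₁), E₂.commutes]

end Pool.Agent.LibHPQ
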