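import Pool.Agent.LibHPQ.Q9d
import Pool.Agent.LibHPQ.Q10f
import Pool.Agent.LibHP2.W8

set_option autoImplicit false

open AlgebraicGeometry CategoryTheory

namespace Pool.Agent.LibHPQ

open Pool.Agent.LibHP

/-- Unirationality from density and a disjoint second embedding. -/
theorem exists_unirational_of_disjoint (k : Type) [Field k] [CharZero k] {X : Scheme}
    (f : X ⟶ Spec (CommRingCat.of k)) [IsIntegral X] [Smooth f] [IsSeparated f] [QuasiCompact f]
    (hdense : Dense {x : X | ∃ s : Spec (CommRingCat.of k) ⟶ X, s ≫ f = 𝟙 _ ∧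
      x ∈ Set.range s.base}) [Algebra k X.functionField]
    (halg : ∀ c : k, algebraMap k X.functionField c = toStalk f (genericPoint X) c)
    (r : ℕ) (Φ : X.functionField →+* RF X.functionField r)
    (hΦ : ∀ c : k, Φ (algebraMap k X.functionField c) =
      algebraMap X.functionField (RF X.functionField r) (algebraMap k X.functionField c))
    (hdis : ∀ (m : ℕ) (a : Fin m → X.functionField), LinearIndependent k a →
      LinearIndependent X.functionField (Φ ∘ a)) :
    ∃ (n0 : ℕ) (F0 : X.functionField →+* RF k n0),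
      ∀ c : k, F0 (toStalk f (genericPoint X) c) = algebraMap k (RF k n0) c := by
  obtain ⟨U, hU, b0, hUne, -, -⟩ := exists_isUnit_germ_eq X 1 one_ne_zero
  have hgen : genericPoint X ∈ U :=
    ((genericPoint_spec X).mem_open_set_iff U.isOpen).mpr (by simpa using hUne)
  let algU : Algebra k Γ(X, U) := (kapU f U).toAlgebra
  have tower : IsScalarTower k Γ(X, U) X.functionField :=
    IsScalarTower.of_algebraMap_eq (fun c => by
      rw [halg]
      exact (germ_kapU f U (genericPoint X) hgen c).symm)
  have hfrac : IsFractionRing Γ(X, U) X.functionField :=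
    functionField_isFractionRing_of_isAffineOpen X U hU
  let ι : Γ(X, U) →ₐ[k] X.functionField := IsScalarTower.toAlgHom k _ _
  have hinj : Function.Injective ι := Scheme.germToFunctionField_injective X U
  let e : Γ(X, U) ≃ₐ[k] ι.range := AlgEquiv.ofInjective ι hinj
  have hft : Algebra.FiniteType k Γ(X, U) := kapU_finiteType f U hU
  have hA : ι.range.FG := by
    rw [← Algebra.map_top]
    exact hft.out.map ι
  have hfracA : IsFractionRing ι.range X.functionField := by
    refine IsFractionRing.of_ringEquiv_left e.symm.toRingEquiv (fun x => ?_)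
    have h1 : ι (e.symm x) = x := by
      have := congrArg Subtype.val (e.apply_symm_apply x)
      exact this
    exact h1.symm
  obtain ⟨g, hg0, hg⟩ := exists_hom_of_disjoint k X.functionField ι.range hA hfracA r Φ hΦ hdis
  obtain ⟨φ, hφk, hφg⟩ := exists_pt f hdense U (e.symm g) (by
    intro h
    apply hg0
    rw [← e.apply_symm_apply g, h, map_zero])
  let φ' : Γ(X, U) →ₐ[k] k := { φ with commutes' := hφk }
  obtain ⟨G⟩ := hg (φ'.comp e.symm.toAlgHom) hφg
  exact ⟨r, G.toRingHom, fun c => by rw [← halg]; exact G.commutes c⟩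

/-- The main theorem. -/
theorem main_quartic (k : Type) [Field k] [NumberField k] (σ ι : Type) [Fintype σ]
    [DecidableEq σ] [DecidableEq ι] (g : σ → ι) (F : MvPolynomial σ k) (i₀ i₁ : ι)
    (hs : Setup g F i₀ i₁) (X : Scheme) [IsIntegral X] (f : X ⟶ Spec (CommRingCat.of k))
    (hsm : Smooth f) (hsep : IsSeparated f) (hqc : QuasiCompact f) (hX : IsDoubleCoverModel f F)
    (hdense : Dense {x : X | ∃ s : Spec (CommRingCat.of k) ⟶ X, s ≫ f = 𝟙 _ ∧
      x ∈ Set.range s.base}) : HilbertProp f := by
  let algK : Algebra k X.functionField := (toStalk f (genericPoint X)).toAlgebra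
  obtain ⟨x, w, h1, h2, h3⟩ := hX
  have hx : IsDoublePt F x w := by
    refine ⟨?_, h2, h3⟩
    rw [algebraicIndependent_iff]
    exact h1
  obtain ⟨r, Φ, hΦ, hdis⟩ := exists_disjoint k σ ι g F i₀ i₁ hs X.functionField x w hx
  obtain ⟨n0, F0, hF0⟩ := exists_unirational_of_disjoint k f hdense (fun c => rfl) r Φ hΦ hdis
  let F1 : X.functionField →ₐ[k] RF k n0 := { toRingHom := F0, commutes' := hF0 }
  obtain ⟨L, _, hA, n, j, hfd, hcl, hjk, -⟩ := exists_liftable_multi k X.functionField n0 F1
  obtain ⟨n', ι', h4, h5⟩ := adm_self k σ ι g F i₀ i₁ hs X.functionField x w hx L ⟨n, j, hcl, hjk⟩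
  exact hilbertProp_of_embedding k f n' ι' h5 h4

end Pool.Agent.LibHPQ
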