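import Pool.Agent.LibHPQ.Defs

set_option autoImplicit false

namespace Pool.Agent.LibHPQ

open Polynomial Pool.Agent.LibHP

private theorem Q1a_deriv_one {κ : Type} [Field κ] (G : κ[X]) :
    derivative (derivative G) = 2 * hasseDeriv 2 G := by
  have h := congrArg (fun f => f G) (hasseDeriv_comp (R := κ) 1 1)
  simp only [LinearMap.comp_apply, hasseDeriv_one, LinearMap.smul_apply] at h
  rw [h]
  norm_num

private theorem Q1a_deriv_hasse {κ : Type} [Field κ] (G : κ[X]) (k : ℕ) :
    derivative (hasseDeriv k G) = (k + 1 : ℕ) * hasseDeriv (k + 1) G := by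
  have h := congrArg (fun f => f G) (hasseDeriv_comp (R := κ) 1 k)
  simp only [LinearMap.comp_apply, hasseDeriv_one, LinearMap.smul_apply] at h
  rw [h, nsmul_eq_mul, Nat.choose_one_right, add_comm 1 k]

private theorem Q1a_deriv_four {κ : Type} [Field κ] (G : κ[X]) (hG : G.natDegree ≤ 4) :
    derivative (hasseDeriv 4 G) = 0 := by
  rw [Q1a_deriv_hasse, hasseDeriv_eq_zero_of_lt_natDegree _ _ (by omega), mul_zero]

private theorem Q1a_taylor {κ : Type} [Field κ] (G : κ[X]) (hG : G.natDegree ≤ 4) (M A : κ[X]) :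
    ∑ j ∈ Finset.range 5, C (G.coeff j) * (X * M + A) ^ j * M ^ (4 - j) =
      G * M ^ 4 + derivative G * A * M ^ 3 + hasseDeriv 2 G * A ^ 2 * M ^ 2 +
        hasseDeriv 3 G * A ^ 3 * M + hasseDeriv 4 G * A ^ 4 := by
  have h0 : G = ∑ i ∈ Finset.range 5, monomial i (G.coeff i) := G.as_sum_range' 5 (by omega)
  generalize G.coeff = g at h0 ⊢
  subst h0
  simp only [Finset.sum_range_succ, Finset.sum_range_zero, zero_add, map_add,
    hasseDeriv_monomial, derivative_monomial]
  simp only [← C_mul_X_pow_eq_monomial]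
  simp [Nat.choose]
  have c2 : (C (2 : κ) : κ[X]) = 2 := map_ofNat C 2
  have c3 : (C (3 : κ) : κ[X]) = 3 := map_ofNat C 3
  have c4 : (C (4 : κ) : κ[X]) = 4 := map_ofNat C 4
  have c6 : (C (6 : κ) : κ[X]) = 6 := map_ofNat C 6
  rw [c2, c3, c4, c6]
  ring

private theorem Q1a_ident {R : Type} [CommRing R] (f0 f1 f2 f3 f4 d c m : R)
    (hd : d = 4 * f0 * f2 - f1 ^ 2) (hc : c = 8 * f0 ^ 2 * f3 - f1 * d)
    (hm : m = d ^ 2 - 64 * f0 ^ 3 * f4) :
    f0 * m ^ 4 + f1 * (8 * f0 * c) * m ^ 3 + f2 * (8 * f0 * c) ^ 2 * m ^ 2 +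
      f3 * (8 * f0 * c) ^ 3 * m + f4 * (8 * f0 * c) ^ 4 =
    f0 * (m ^ 2 + 4 * f1 * c * m + 8 * d * c ^ 2) ^ 2 := by
  subst hm hc hd
  ring

/-- The point `2H - 3P` lies on the curve. -/
theorem sum_eq_vv_sq {κ : Type} [Field κ] [CharZero κ] (G : κ[X]) (hG : G.natDegree ≤ 4) :
    ∑ j ∈ Finset.range 5, C (G.coeff j) * (nn G) ^ j * (mm G) ^ (4 - j) = G * (vv G) ^ 2 := by
  have h1 := Q1a_taylor G hG (mm G) (8 * G * cc G)
  have h2 := Q1a_ident G (derivative G) (hasseDeriv 2 G) (hasseDeriv 3 G) (hasseDeriv 4 G)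
    (dl G) (cc G) (mm G) rfl rfl rfl
  rw [nn, h1, h2, vv]

private theorem Q1a_ident2 {R : Type} [CommRing R] (f0 f1 f2 f3 f4 d c m d' c' m' x : R)
    (hd : d = 4 * f0 * f2 - f1 ^ 2) (hc : c = 8 * f0 ^ 2 * f3 - f1 * d)
    (hm : m = d ^ 2 - 64 * f0 ^ 3 * f4) (hd' : d' = 12 * f0 * f3)
    (hc' : c' = 16 * f0 * f1 * f3 + 32 * f0 ^ 2 * f4 - 2 * f2 * d - f1 * d')
    (hm' : m' = 2 * d * d' - 192 * f0 ^ 2 * f1 * f4) :
    (m + x * m' + (8 * f1 * c + 8 * f0 * c')) * m - (x * m + 8 * f0 * c) * m' =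
      -3 * (m ^ 2 + 4 * f1 * c * m + 8 * d * c ^ 2) := by
  subst hm' hc' hd' hm hc hd
  ring

/-- The map `P ↦ 2H - 3P` multiplies the invariant differential by `-3`. -/
theorem derivative_nn_mm {κ : Type} [Field κ] [CharZero κ] (G : κ[X]) (hG : G.natDegree ≤ 4) :
    derivative (nn G) * mm G - nn G * derivative (mm G) = -3 * vv G := by
  have e1 := Q1a_deriv_one G
  have e2 : derivative (hasseDeriv 2 G) = 3 * hasseDeriv 3 G := by
    rw [Q1a_deriv_hasse]
    norm_num
  have e3 : derivative (hasseDeriv 3 G) = 4 * hasseDeriv 4 G := by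
    rw [Q1a_deriv_hasse]
    norm_num
  have e4 := Q1a_deriv_four G hG
  have n4 : derivative (4 : κ[X]) = 0 := by
    exact derivative_natCast (R := κ) (n := 4)
  have n8 : derivative (8 : κ[X]) = 0 := by
    exact derivative_natCast (R := κ) (n := 8)
  have n64 : derivative (64 : κ[X]) = 0 := by
    exact derivative_natCast (R := κ) (n := 64)
  have hd' : derivative (dl G) = 12 * G * hasseDeriv 3 G := by
    rw [dl, derivative_sub, derivative_mul, derivative_mul, derivative_pow, n4, e1, e2]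
    simp only [Nat.cast_ofNat, map_ofNat]
    ring
  have hc' : derivative (cc G) = 16 * G * derivative G * hasseDeriv 3 G +
      32 * G ^ 2 * hasseDeriv 4 G - 2 * hasseDeriv 2 G * dl G -
        derivative G * derivative (dl G) := by
    rw [cc, derivative_sub, derivative_mul, derivative_mul, derivative_mul, derivative_pow, n8,
      e1, e3]
    simp only [Nat.cast_ofNat, map_ofNat]
    ring
  have hm' : derivative (mm G) = 2 * dl G * derivative (dl G) -
      192 * G ^ 2 * derivative G * hasseDeriv 4 G := by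
    rw [mm, derivative_sub, derivative_mul, derivative_mul, derivative_pow, derivative_pow, n64,
      e4]
    simp only [Nat.cast_ofNat, map_ofNat]
    ring
  have hn' : derivative (nn G) = mm G + X * derivative (mm G) +
      (8 * derivative G * cc G + 8 * G * derivative (cc G)) := by
    rw [nn, derivative_add, derivative_mul, derivative_mul, derivative_mul, derivative_X, n8]
    ring
  rw [hn', nn, vv]
  exact Q1a_ident2 G (derivative G) (hasseDeriv 2 G) (hasseDeriv 3 G) (hasseDeriv 4 G)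
    (dl G) (cc G) (mm G) (derivative (dl G)) (derivative (cc G)) (derivative (mm G)) X
    rfl rfl rfl hd' hc' hm'

end Pool.Agent.LibHPQ
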