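import Pool.Agent.LibHPQ.Q1a

set_option autoImplicit false

namespace Pool.Agent.LibHPQ

open Polynomial Pool.Agent.LibHP

private theorem Q1b_map {R S : Type} [Field R] [Field S] (φ : R →+* S) (n : ℕ) (G : R[X]) :
    (hasseDeriv n G).map φ = hasseDeriv n (G.map φ) := by
  ext m
  simp [hasseDeriv_coeff]

private theorem Q1b_mm_eq {κ : Type} [Field κ] (G : κ[X]) :
    mm G = (derivative G) ^ 4 + G * (16 * G * (hasseDeriv 2 G) ^ 2 -
      8 * hasseDeriv 2 G * (derivative G) ^ 2 - 64 * G ^ 2 * hasseDeriv 4 G) := by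
  simp only [mm, dl]
  ring

theorem isCoprime_mm_self {κ : Type} [Field κ] [CharZero κ] (G : κ[X]) (hG : G.Separable) :
    IsCoprime (mm G) G := by
  rw [Q1b_mm_eq]
  have h : IsCoprime ((derivative G) ^ 4) G := (IsCoprime.pow_right hG).symm
  exact h.add_mul_left_left _

private theorem Q1b_not_unit {κ : Type} [Field κ] (G : κ[X]) (hG : Quart G) : ¬ IsUnit G := by
  intro h
  have h1 := natDegree_eq_zero_of_isUnit h
  have h2 := hG.ge
  omega

private theorem Q1b_mm_ne_zero {κ : Type} [Field κ] [CharZero κ] (G : κ[X]) (hG : Quart G) :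
    mm G ≠ 0 := by
  intro h
  have h1 := isCoprime_mm_self G hG.sep
  rw [h] at h1
  exact Q1b_not_unit G hG (isCoprime_zero_left.mp h1)

private theorem Q1b_key {E : Type} [Field E] [CharZero E] (GE : E[X]) (a : E)
    (hsep : GE.Separable) (hle : GE.natDegree ≤ 4) (hge : 2 ≤ GE.natDegree)
    (h0 : GE.eval a ≠ 0) (hcc : (cc GE).eval a = 0) (hmm : (mm GE).eval a = 0) : False := by
  have hT : taylor a GE = C (GE.eval a) + C ((derivative GE).eval a) * X +
      C ((hasseDeriv 2 GE).eval a) * X ^ 2 + C ((hasseDeriv 3 GE).eval a) * X ^ 3 +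
      C ((hasseDeriv 4 GE).eval a) * X ^ 4 := by
    have h5 : (taylor a GE).natDegree < 5 := by rw [natDegree_taylor]; omega
    rw [as_sum_range_C_mul_X_pow' (taylor a GE) h5]
    simp only [Finset.sum_range_succ, Finset.sum_range_zero, taylor_coeff, hasseDeriv_zero',
      hasseDeriv_one']
    ring
  set f0 := GE.eval a with hf0
  set f1 := (derivative GE).eval a with hf1
  set f2 := (hasseDeriv 2 GE).eval a with hf2
  set f3 := (hasseDeriv 3 GE).eval a with hf3
  set f4 := (hasseDeriv 4 GE).eval a with hf4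
  have hdl : (dl GE).eval a = 4 * f0 * f2 - f1 ^ 2 := by
    simp [dl, hf0, hf1, hf2]
  have hcc' : 8 * f0 ^ 2 * f3 - f1 * (4 * f0 * f2 - f1 ^ 2) = 0 := by
    rw [← hcc, cc, ← hdl]
    simp [hf0, hf1, hf3]
  have hmm' : (4 * f0 * f2 - f1 ^ 2) ^ 2 - 64 * f0 ^ 3 * f4 = 0 := by
    rw [← hmm, mm, ← hdl]
    simp [hf0, hf4]
  set S : E[X] := C (8 * f0 ^ 2) + C (4 * f0 * f1) * X + C (4 * f0 * f2 - f1 ^ 2) * X ^ 2 with hS
  have hid : C (64 * f0 ^ 3) * taylor a GE = S ^ 2 := by
    rw [hT, hS]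
    have h1 := congrArg (C : E →+* E[X]) hcc'
    have h2 := congrArg (C : E →+* E[X]) hmm'
    simp only [map_sub, map_mul, map_pow, map_zero, map_ofNat] at h1 h2 ⊢
    linear_combination (8 * C f0 * X ^ 3) * h1 - X ^ 4 * h2
  have hid2 : C (64 * f0 ^ 3) * GE = (taylor (-a) S) ^ 2 := by
    have h1 := congrArg (taylor (-a)) hid
    rw [taylor_mul, taylor_C, taylor_taylor, neg_add_cancel, taylor_zero, taylor_pow] at h1
    exact h1
  have hu : (64 * f0 ^ 3 : E) ≠ 0 := mul_ne_zero (by norm_num) (pow_ne_zero 3 h0)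
  have hG2 : GE = C ((64 * f0 ^ 3)⁻¹) * (taylor (-a) S) ^ 2 := by
    rw [← hid2, ← mul_assoc, ← C_mul, inv_mul_cancel₀ hu, C_1, one_mul]
  have hunit : IsUnit (taylor (-a) S) := by
    apply hsep.squarefree
    rw [hG2]
    exact ⟨C ((64 * f0 ^ 3)⁻¹), by ring⟩
  have hdeg : (taylor (-a) S).natDegree = 0 := natDegree_eq_zero_of_isUnit hunit
  have h3 : GE.natDegree = 0 := by
    rw [hG2, natDegree_C_mul (inv_ne_zero hu), natDegree_pow, hdeg]
  omega

theorem isCoprime_nn_mm {κ : Type} [Field κ] [CharZero κ] (G : κ[X]) (hG : Quart G) :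
    IsCoprime (nn G) (mm G) := by
  refine isCoprime_of_irreducible_dvd (fun h => Q1b_mm_ne_zero G hG h.2) fun h hirr h1 h2 => ?_
  have hnG : ¬ h ∣ G := fun h3 => hirr.not_isUnit ((isCoprime_mm_self G hG.sep).isUnit_of_dvd' h2 h3)
  have hcc : h ∣ cc G := by
    have h3 : h ∣ 8 * G * cc G := by
      have h4 : 8 * G * cc G = nn G - X * mm G := by rw [nn]; ring
      rw [h4]
      exact dvd_sub h1 (Dvd.dvd.mul_left h2 _)
    rcases hirr.prime.dvd_or_dvd h3 with h5 | h5
    · rcases hirr.prime.dvd_or_dvd h5 with h6 | h6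
      · exfalso
        apply hirr.not_isUnit
        refine isUnit_of_dvd_unit h6 ?_
        have : (8 : κ[X]) = C 8 := (map_ofNat C 8).symm
        rw [this]
        exact isUnit_C.mpr (by norm_num)
      · exact absurd h6 hnG
    · exact h5
  have := Fact.mk hirr
  have : CharZero (AdjoinRoot h) := charZero_of_injective_algebraMap
    (algebraMap κ (AdjoinRoot h)).injective
  have hev : ∀ q : κ[X], (q.map (AdjoinRoot.of h)).eval (AdjoinRoot.root h) = AdjoinRoot.mk h q := by
    intro q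
    rw [eval_map]
    exact AdjoinRoot.aeval_eq q
  have hder : (derivative (G.map (AdjoinRoot.of h))) = (derivative G).map (AdjoinRoot.of h) :=
    derivative_map G _
  have hcc2 : cc (G.map (AdjoinRoot.of h)) = (cc G).map (AdjoinRoot.of h) := by
    simp only [cc, dl, ← Q1b_map, hder, Polynomial.map_sub, Polynomial.map_mul, Polynomial.map_pow,
      Polynomial.map_ofNat]
  have hmm2 : mm (G.map (AdjoinRoot.of h)) = (mm G).map (AdjoinRoot.of h) := by
    simp only [mm, dl, ← Q1b_map, hder, Polynomial.map_sub, Polynomial.map_mul, Polynomial.map_pow,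
      Polynomial.map_ofNat]
  refine Q1b_key (G.map (AdjoinRoot.of h)) (AdjoinRoot.root h) hG.sep.map ?_ ?_ ?_ ?_ ?_
  · rw [natDegree_map]; exact hG.le
  · rw [natDegree_map]; exact hG.ge
  · rw [hev, Ne, AdjoinRoot.mk_eq_zero]; exact hnG
  · rw [hcc2, hev, AdjoinRoot.mk_eq_zero]; exact hcc
  · rw [hmm2, hev, AdjoinRoot.mk_eq_zero]; exact h2

theorem mm_ne_zero {κ : Type} [Field κ] [CharZero κ] (G : κ[X]) (hG : Quart G) : mm G ≠ 0 :=
  Q1b_mm_ne_zero G hG

theorem cc_ne_zero {κ : Type} [Field κ] [CharZero κ] (G : κ[X]) (hG : Quart G) : cc G ≠ 0 := by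
  intro h
  have h1 := derivative_nn_mm G hG.le
  have h2 : nn G = X * mm G := by rw [nn, h]; ring
  have h3 : vv G = (mm G) ^ 2 := by rw [vv, h]; ring
  rw [h2, h3] at h1
  simp only [derivative_mul, derivative_X, one_mul] at h1
  have h4 : (4 : κ[X]) * (mm G) ^ 2 = 0 := by linear_combination h1
  have h5 : (4 : κ[X]) ≠ 0 := by
    have : (4 : κ[X]) = C 4 := (map_ofNat C 4).symm
    rw [this, Ne, C_eq_zero]
    norm_num
  rcases mul_eq_zero.mp h4 with h6 | h6
  · exact h5 h6
  · exact Q1b_mm_ne_zero G hG (pow_eq_zero_iff (two_ne_zero) |>.mp h6)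

end Pool.Agent.LibHPQ
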