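import Pool.Agent.LibHPQ.Q1b
import Pool.Agent.LibHPQ.Q1c

set_option autoImplicit false

namespace Pool.Agent.LibHPQ

open Polynomial Pool.Agent.LibHP

/-- `M Π' = d M' Π + Π₁ (N' M - N M')`. -/
private theorem Q1d_deriv {κ : Type} [Field κ] [CharZero κ] (p N M : κ[X])
    (hd : 1 ≤ p.natDegree) :
    M * derivative (homP p N M) = (p.natDegree : κ[X]) * derivative M * homP p N M +
      homP (derivative p) N M * (derivative N * M - N * derivative M) := by
  obtain ⟨d, hd'⟩ : ∃ d, p.natDegree = d + 1 := ⟨p.natDegree - 1, by omega⟩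
  have h1 : (derivative p).natDegree = d := by
    rw [natDegree_derivative, hd', Nat.add_sub_cancel]
  have e1 : homP (derivative p) N M = ∑ j ∈ Finset.range (d + 1),
      C (p.coeff (j + 1)) * (((j : κ[X]) + 1) * N ^ j * M ^ (d - j)) := by
    rw [homP, h1]
    refine Finset.sum_congr rfl fun j _ => ?_
    rw [coeff_derivative, map_mul]
    simp only [map_add, map_natCast, map_one]
    ring
  have e2 : M * derivative (homP p N M) =
      ∑ j ∈ Finset.range (d + 2), (C (p.coeff j) * ((j : κ[X]) * N ^ (j - 1) * derivative N *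
        M ^ (d + 1 - j) * M + ((d + 1 - j : ℕ) : κ[X]) * N ^ j * M ^ (d + 1 - j - 1) * M *
          derivative M)) := by
    rw [homP, hd', derivative_sum, Finset.mul_sum]
    refine Finset.sum_congr rfl fun j _ => ?_
    rw [derivative_mul, derivative_mul, derivative_C, derivative_pow, derivative_pow]
    simp only [map_natCast]
    ring
  have e3 : (p.natDegree : κ[X]) * derivative M * homP p N M =
      ∑ j ∈ Finset.range (d + 2), C (p.coeff j) * (((d : κ[X]) + 1) * derivative M * (N ^ j *
        M ^ (d + 1 - j))) := by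
    rw [homP, hd', Finset.mul_sum]
    refine Finset.sum_congr rfl fun j _ => ?_
    push_cast
    ring
  rw [e2, e3, e1, Finset.sum_mul, Finset.sum_range_succ' _ (d + 1),
    Finset.sum_range_succ' (fun j => C (p.coeff j) * (((d : κ[X]) + 1) * derivative M * (N ^ j *
        M ^ (d + 1 - j)))) (d + 1)]
  have e4 : ∀ j ∈ Finset.range (d + 1), C (p.coeff (j + 1)) * (((j + 1 : ℕ) : κ[X]) *
      N ^ (j + 1 - 1) * derivative N * M ^ (d + 1 - (j + 1)) * M +
      ((d + 1 - (j + 1) : ℕ) : κ[X]) * N ^ (j + 1) * M ^ (d + 1 - (j + 1) - 1) * M *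
        derivative M) =
      C (p.coeff (j + 1)) * (((d : κ[X]) + 1) * derivative M * (N ^ (j + 1) *
        M ^ (d + 1 - (j + 1)))) + C (p.coeff (j + 1)) * (((j : κ[X]) + 1) * N ^ j * M ^ (d - j)) *
        (derivative N * M - N * derivative M) := by
    intro j hj
    have hj' : j ≤ d := by simpa [Nat.lt_succ_iff] using hj
    obtain ⟨l, rfl⟩ := Nat.exists_eq_add_of_le hj'
    have h2 : j + l + 1 - (j + 1) = l := by omega
    have h3 : j + l - j = l := by omega
    rw [h2, h3, Nat.add_sub_cancel]
    rcases Nat.eq_zero_or_pos l with rfl | hl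
    · push_cast
      ring
    · obtain ⟨m, rfl⟩ : ∃ m, l = m + 1 := ⟨l - 1, by omega⟩
      rw [Nat.add_sub_cancel]
      push_cast
      ring
  rw [Finset.sum_congr rfl e4, Finset.sum_add_distrib]
  simp only [Nat.sub_zero, Nat.add_sub_cancel, Nat.cast_zero]
  push_cast
  ring

private theorem Q1d_unit {κ : Type} [Field κ] (p N M : κ[X]) (hp : p ≠ 0)
    (hd : p.natDegree = 0) : IsUnit (homP p N M) := by
  rw [eq_C_of_natDegree_eq_zero hd] at hp ⊢
  have h : p.coeff 0 ≠ 0 := fun h => hp (by rw [h, C_0])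
  have : homP (C (p.coeff 0)) N M = C (p.coeff 0) := by
    simp [homP]
  rw [this]
  exact isUnit_C.mpr h.isUnit

private theorem Q1d_sum {κ : Type} [Field κ] (G N M : κ[X]) (hG : G.natDegree ≤ 4) :
    ∑ j ∈ Finset.range 5, C (G.coeff j) * N ^ j * M ^ (4 - j) =
      M ^ (4 - G.natDegree) * homP G N M := by
  rw [homP, Finset.mul_sum]
  have h1 : Finset.range (G.natDegree + 1) ⊆ Finset.range 5 := by
    intro x hx
    simp only [Finset.mem_range] at hx ⊢
    omega
  rw [← Finset.sum_subset h1]
  · refine Finset.sum_congr rfl fun j hj => ?_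
    have hj' : j ≤ G.natDegree := by simpa [Nat.lt_succ_iff] using hj
    have h2 : 4 - j = (4 - G.natDegree) + (G.natDegree - j) := by omega
    rw [h2, pow_add]
    ring
  · intro j _ hj
    have hj' : G.natDegree < j := by simpa [Nat.lt_succ_iff] using hj
    rw [coeff_eq_zero_of_natDegree_lt hj']
    simp

/-- The map `P ↦ 2H - 3P` is etale above `p = 0` if `p` is prime to `G`. -/
theorem separable_homP {κ : Type} [Field κ] [CharZero κ] (G : κ[X]) (hG : Quart G) (p : κ[X])
    (hp : p.Separable) (hpG : IsCoprime p G) : (homP p (nn G) (mm G)).Separable := by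
  have hp0 : p ≠ 0 := hp.ne_zero
  rcases Nat.eq_zero_or_pos p.natDegree with hd | hd
  · have hu := Q1d_unit p (nn G) (mm G) hp0 hd
    exact (isCoprime_of_irreducible_dvd (fun h => hu.ne_zero h.1)
      fun h hirr h1 _ => hirr.not_isUnit (isUnit_of_dvd_unit h1 hu))
  · have hNM := isCoprime_nn_mm G hG
    have hright := homP_coprime_right p (nn G) (mm G) hp0 hNM
    have hP0 : homP p (nn G) (mm G) ≠ 0 := by
      intro h
      have h1 := homP_coprime p (derivative p) (nn G) (mm G) hp hNM
      rw [h] at h1 hright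
      have hu := isCoprime_zero_left.mp hright
      -- `mm G` is a unit
      have h2 := isCoprime_mm_self G hG.sep
      have h3 := homP_coprime p G (nn G) (mm G) hpG hNM
      rw [h] at h3
      have hu2 := isCoprime_zero_left.mp h3
      have h4 := sum_eq_vv_sq G hG.le
      rw [Q1d_sum G _ _ hG.le] at h4
      have h5 : IsUnit (G * (vv G) ^ 2) := by
        rw [← h4]
        exact (hu.pow _).mul hu2
      have h6 : IsUnit G := isUnit_of_mul_isUnit_left h5
      have h7 := natDegree_eq_zero_of_isUnit h6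
      have h8 := hG.ge
      omega
    refine isCoprime_of_irreducible_dvd (fun h => hP0 h.1) fun h hirr h1 h2 => ?_
    have h3 := Q1d_deriv p (nn G) (mm G) hd
    rw [derivative_nn_mm G hG.le] at h3
    have h4 : h ∣ homP (derivative p) (nn G) (mm G) * (3 * vv G) := by
      have h5 : homP (derivative p) (nn G) (mm G) * (3 * vv G) =
          (p.natDegree : κ[X]) * derivative (mm G) * homP p (nn G) (mm G) -
            mm G * derivative (homP p (nn G) (mm G)) := by
        rw [h3]; ring
      rw [h5]
      exact dvd_sub (Dvd.dvd.mul_left h1 _) (Dvd.dvd.mul_left h2 _)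
    rcases hirr.prime.dvd_or_dvd h4 with h5 | h5
    · exact hirr.not_isUnit ((homP_coprime p (derivative p) (nn G) (mm G) hp hNM).isUnit_of_dvd' h1 h5)
    · rcases hirr.prime.dvd_or_dvd h5 with h6 | h6
      · apply hirr.not_isUnit
        refine isUnit_of_dvd_unit h6 ?_
        have : (3 : κ[X]) = C 3 := (map_ofNat C 3).symm
        rw [this]
        exact isUnit_C.mpr (by norm_num)
      · have h7 : h ∣ mm G ^ (4 - G.natDegree) * homP G (nn G) (mm G) := by
          rw [← Q1d_sum G _ _ hG.le, sum_eq_vv_sq G hG.le, pow_two]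
          exact Dvd.dvd.mul_left (Dvd.dvd.mul_left h6 _) _
        rcases hirr.prime.dvd_or_dvd h7 with h8 | h8
        · exact hirr.not_isUnit (hright.isUnit_of_dvd' h1 (hirr.prime.dvd_of_dvd_pow h8))
        · exact hirr.not_isUnit
            ((homP_coprime p G (nn G) (mm G) hpG hNM).isUnit_of_dvd' h1 h8)

theorem isCoprime_homP_self {κ : Type} [Field κ] [CharZero κ] (G : κ[X]) (hG : Quart G) (p : κ[X])
    (hp : p.Separable) (hpG : IsCoprime p G) : IsCoprime (homP p (nn G) (mm G)) G := by
  have h1 : G ∣ homP p (nn G) (mm G) - mm G ^ p.natDegree * p := by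
    have h2 : mm G ^ p.natDegree * p = ∑ j ∈ Finset.range (p.natDegree + 1),
        C (p.coeff j) * (X * mm G) ^ j * mm G ^ (p.natDegree - j) := by
      conv_lhs => arg 2; rw [p.as_sum_range_C_mul_X_pow]
      rw [Finset.mul_sum]
      refine Finset.sum_congr rfl fun j hj => ?_
      have hj' : j ≤ p.natDegree := by simpa [Nat.lt_succ_iff] using hj
      obtain ⟨l, hl⟩ := Nat.exists_eq_add_of_le hj'
      rw [hl, Nat.add_sub_cancel_left, pow_add, mul_pow]
      ring
    rw [h2, homP, ← Finset.sum_sub_distrib]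
    refine Finset.dvd_sum fun j _ => ?_
    have h3 : C (p.coeff j) * nn G ^ j * mm G ^ (p.natDegree - j) -
        C (p.coeff j) * (X * mm G) ^ j * mm G ^ (p.natDegree - j) =
        (C (p.coeff j) * mm G ^ (p.natDegree - j)) * (nn G ^ j - (X * mm G) ^ j) := by ring
    rw [h3]
    refine Dvd.dvd.mul_left ((?_ : G ∣ nn G - X * mm G).trans (sub_dvd_pow_sub_pow _ _ j)) _
    refine ⟨8 * cc G, ?_⟩
    rw [nn]; ring
  obtain ⟨r, hr⟩ := h1
  have h4 : homP p (nn G) (mm G) = mm G ^ p.natDegree * p + G * r := by rw [← hr]; ring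
  rw [h4]
  have h5 : IsCoprime (mm G ^ p.natDegree * p) G :=
    ((isCoprime_mm_self G hG.sep).pow_left).mul_left hpG
  exact h5.add_mul_left_left _

end Pool.Agent.LibHPQ
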