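import Pool.Agent.LibHPQ.Defs

set_option autoImplicit false

namespace Pool.Agent.LibHPQ

open Polynomial Pool.Agent.LibHP

section Q2a

variable {k σ ι : Type} [Field k] [DecidableEq ι]

/-- The coefficients of the automorphism. -/
noncomputable def Q2a_beta (g : σ → ι) (i : ι) (c : k) :
    MvPolynomial (σ ⊕ σ) k →ₐ[k] (MvPolynomial (σ ⊕ σ) k)[X] :=
  MvPolynomial.aeval (Sum.elim
    (fun v => C (MvPolynomial.X (Sum.inl v)) +
      if g v = i then C (MvPolynomial.C c) * (X * C (MvPolynomial.X (Sum.inr v))) else 0)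
    (fun v => C (MvPolynomial.X (Sum.inr v))))

/-- The automorphism. -/
noncomputable def Q2a_alpha (g : σ → ι) (i : ι) (c : k) :
    (MvPolynomial (σ ⊕ σ) k)[X] →+* (MvPolynomial (σ ⊕ σ) k)[X] :=
  eval₂RingHom (Q2a_beta g i c).toRingHom X

theorem Q2a_alpha_C (g : σ → ι) (i : ι) (c : k) (a : MvPolynomial (σ ⊕ σ) k) :
    Q2a_alpha g i c (C a) = Q2a_beta g i c a := by
  unfold Q2a_alpha
  rw [coe_eval₂RingHom, eval₂_C]
  rfl

theorem Q2a_alpha_X (g : σ → ι) (i : ι) (c : k) : Q2a_alpha g i c X = X := by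
  unfold Q2a_alpha
  rw [coe_eval₂RingHom, eval₂_X]

theorem Q2a_beta_C (g : σ → ι) (i : ι) (c d : k) :
    Q2a_beta g i c (MvPolynomial.C d) = C (MvPolynomial.C d) := by
  unfold Q2a_beta
  rw [MvPolynomial.aeval_C]
  rfl

theorem Q2a_beta_inl (g : σ → ι) (i : ι) (c : k) (v : σ) :
    Q2a_beta g i c (MvPolynomial.X (Sum.inl v)) = C (MvPolynomial.X (Sum.inl v)) +
      if g v = i then C (MvPolynomial.C c) * (X * C (MvPolynomial.X (Sum.inr v))) else 0 := by
  unfold Q2a_beta
  rw [MvPolynomial.aeval_X]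
  rfl

theorem Q2a_beta_inr (g : σ → ι) (i : ι) (c : k) (v : σ) :
    Q2a_beta g i c (MvPolynomial.X (Sum.inr v)) = C (MvPolynomial.X (Sum.inr v)) := by
  unfold Q2a_beta
  rw [MvPolynomial.aeval_X]
  rfl

theorem Q2a_comp (g : σ → ι) (i : ι) (c d : k) (hcd : c + d = 0) :
    (Q2a_alpha g i c).comp (Q2a_alpha g i d) = RingHom.id _ := by
  apply Polynomial.ringHom_ext'
  · apply MvPolynomial.ringHom_ext
    · intro r
      simp only [RingHom.comp_apply, RingHom.id_apply]
      rw [Q2a_alpha_C, Q2a_beta_C, Q2a_alpha_C, Q2a_beta_C]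
    · rintro (v | v)
      · simp only [RingHom.comp_apply, RingHom.id_apply]
        rw [Q2a_alpha_C, Q2a_beta_inl, map_add, Q2a_alpha_C, Q2a_beta_inl]
        split_ifs with hv
        · rw [map_mul, map_mul, Q2a_alpha_C, Q2a_beta_C, Q2a_alpha_X, Q2a_alpha_C,
            Q2a_beta_inr, add_assoc, ← add_mul, ← map_add, ← map_add, hcd, map_zero, map_zero,
            zero_mul, add_zero]
        · rw [map_zero, add_zero, add_zero]
      · simp only [RingHom.comp_apply, RingHom.id_apply]
        rw [Q2a_alpha_C, Q2a_beta_inr, Q2a_alpha_C, Q2a_beta_inr]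
  · simp only [RingHom.comp_apply, RingHom.id_apply]
    rw [Q2a_alpha_X, Q2a_alpha_X]

/-- The automorphism as an equivalence. -/
noncomputable def Q2a_equiv (g : σ → ι) (i : ι) :
    (MvPolynomial (σ ⊕ σ) k)[X] ≃+* (MvPolynomial (σ ⊕ σ) k)[X] :=
  RingEquiv.ofRingHom (Q2a_alpha g i 1) (Q2a_alpha g i (-1))
    (Q2a_comp g i 1 (-1) (by ring)) (Q2a_comp g i (-1) 1 (by ring))

theorem Q2a_psi_eq (g : σ → ι) (i : ι) (p : MvPolynomial σ k) :
    psi g i p = Q2a_equiv g i (C (MvPolynomial.rename Sum.inl p)) := by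
  have h : (psi (k := k) g i).toRingHom =
      ((Q2a_alpha g i 1).comp C).comp (MvPolynomial.rename (Sum.inl : σ → σ ⊕ σ)).toRingHom := by
    apply MvPolynomial.ringHom_ext
    · intro r
      change psi g i (MvPolynomial.C r) =
        Q2a_alpha g i 1 (C (MvPolynomial.rename Sum.inl (MvPolynomial.C r)))
      rw [MvPolynomial.rename_C, Q2a_alpha_C, Q2a_beta_C, psi, MvPolynomial.aeval_C]
      rfl
    · intro v
      change psi g i (MvPolynomial.X v) =
        Q2a_alpha g i 1 (C (MvPolynomial.rename Sum.inl (MvPolynomial.X v)))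
      rw [MvPolynomial.rename_X, Q2a_alpha_C, Q2a_beta_inl, psi, MvPolynomial.aeval_X]
      simp
  exact DFunLike.congr_fun h p

theorem Q2a_prime_rename {p : MvPolynomial σ k} (hp : Prime p) :
    Prime (MvPolynomial.rename (Sum.inl : σ → σ ⊕ σ) p) := by
  let E : MvPolynomial (σ ⊕ σ) k ≃ₐ[k] MvPolynomial σ (MvPolynomial σ k) :=
    (MvPolynomial.renameEquiv k (Equiv.sumComm σ σ)).trans (MvPolynomial.sumAlgEquiv k σ σ)
  have h : E (MvPolynomial.rename Sum.inl p) = MvPolynomial.C p := by
    have h1 : (E.toAlgHom.comp (MvPolynomial.rename (Sum.inl : σ → σ ⊕ σ))).toRingHom =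
        (MvPolynomial.C : MvPolynomial σ k →+* MvPolynomial σ (MvPolynomial σ k)) := by
      apply MvPolynomial.ringHom_ext
      · intro r
        change E (MvPolynomial.rename Sum.inl (MvPolynomial.C r)) = _
        rw [MvPolynomial.rename_C]
        change (MvPolynomial.sumAlgEquiv k σ σ)
          (MvPolynomial.rename _ (MvPolynomial.C r)) = _
        rw [MvPolynomial.rename_C]
        simp
      · intro v
        change E (MvPolynomial.rename Sum.inl (MvPolynomial.X v)) = _
        rw [MvPolynomial.rename_X]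
        change (MvPolynomial.sumAlgEquiv k σ σ)
          (MvPolynomial.rename _ (MvPolynomial.X (Sum.inl v))) = _
        rw [MvPolynomial.rename_X]
        simp
    exact DFunLike.congr_fun h1 p
  have h2 : Prime (E (MvPolynomial.rename Sum.inl p)) := by
    rw [h]
    exact (MvPolynomial.prime_C_iff σ).mpr hp
  exact (MulEquiv.prime_iff E).mp h2

theorem Q2a_prime_psi (g : σ → ι) (i : ι) {p : MvPolynomial σ k} (hp : Irreducible p) :
    Prime (psi g i p) := by
  rw [Q2a_psi_eq]
  refine (MulEquiv.prime_iff (Q2a_equiv (k := k) g i)).mpr ?_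
  exact Polynomial.prime_C_iff.mpr (Q2a_prime_rename hp.prime)

/-- A left inverse of `psi`. -/
noncomputable def Q2a_lam : (MvPolynomial (σ ⊕ σ) k)[X] →+* MvPolynomial σ k :=
  eval₂RingHom (MvPolynomial.aeval (R := k)
    (Sum.elim MvPolynomial.X (fun _ => 0) : σ ⊕ σ → MvPolynomial σ k)).toRingHom 0

theorem Q2a_lam_psi (g : σ → ι) (i : ι) (p : MvPolynomial σ k) : Q2a_lam (psi g i p) = p := by
  have h : (Q2a_lam).comp (psi (k := k) g i).toRingHom = RingHom.id (MvPolynomial σ k) := by
    apply MvPolynomial.ringHom_ext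
    · intro r
      change Q2a_lam (psi g i (MvPolynomial.C r)) = _
      rw [psi, MvPolynomial.aeval_C]
      change Q2a_lam (C (MvPolynomial.C r)) = _
      unfold Q2a_lam
      rw [coe_eval₂RingHom, eval₂_C]
      simp
    · intro v
      change Q2a_lam (psi g i (MvPolynomial.X v)) = _
      rw [psi, MvPolynomial.aeval_X]
      unfold Q2a_lam
      rw [coe_eval₂RingHom, eval₂_add, eval₂_C]
      split_ifs with hv
      · simp
      · simp
  exact DFunLike.congr_fun h p

theorem Q2a_ell_eq (g : σ → ι) (i : ι) (p : MvPolynomial σ k) :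
    ell g i p = (psi g i p).map (algebraMap (MvPolynomial (σ ⊕ σ) k) (KY k σ)) := rfl

end Q2a

/-- Restriction to the generic line of a family: irreducible polynomials stay irreducible or
become constants. -/
theorem ell_irreducible (k σ ι : Type) [Field k] [Fintype σ] [DecidableEq σ] [DecidableEq ι]
    (g : σ → ι) (i : ι) (π : MvPolynomial σ k) (hπ : Irreducible π) :
    IsUnit (ell g i π) ∨ Irreducible (ell g i π) := by
  have hpr := Q2a_prime_psi g i hπ
  rw [Q2a_ell_eq]
  by_cases hdeg : (psi g i π).natDegree = 0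
  · left
    obtain ⟨a, ha⟩ := natDegree_eq_zero.mp hdeg
    have ha0 : a ≠ 0 := by
      rintro rfl
      rw [map_zero] at ha
      exact hpr.ne_zero ha.symm
    rw [← ha, map_C]
    refine (Polynomial.isUnit_C).mpr (IsUnit.mk0 _ ?_)
    rwa [Ne, IsFractionRing.to_map_eq_zero_iff]
  · right
    have hprim : (psi g i π).IsPrimitive := hpr.irreducible.isPrimitive hdeg
    exact (hprim.irreducible_iff_irreducible_map_fraction_map (K := KY k σ)).mp hpr.irreducible

theorem ell_isCoprime (k σ ι : Type) [Field k] [Fintype σ] [DecidableEq σ] [DecidableEq ι]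
    (g : σ → ι) (i : ι) (π q : MvPolynomial σ k) (hπ : Irreducible π) (hq : ¬ π ∣ q) :
    IsCoprime (ell g i π) (ell g i q) := by
  rcases ell_irreducible k σ ι g i π hπ with h | h
  · obtain ⟨u, hu⟩ := h
    refine ⟨((u⁻¹ : (KY k σ)[X]ˣ) : (KY k σ)[X]), 0, ?_⟩
    rw [← hu, Units.inv_mul, zero_mul, add_zero]
  · rw [h.coprime_iff_not_dvd]
    intro hdvd
    apply hq
    have hpr := Q2a_prime_psi g i hπ
    have hdeg : (psi g i π).natDegree ≠ 0 := by
      intro h0
      apply h.not_isUnit
      obtain ⟨a, ha⟩ := natDegree_eq_zero.mp h0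
      have ha0 : a ≠ 0 := by
        rintro rfl
        rw [map_zero] at ha
        exact hpr.ne_zero ha.symm
      rw [Q2a_ell_eq, ← ha, map_C]
      refine (Polynomial.isUnit_C).mpr (IsUnit.mk0 _ ?_)
      rwa [Ne, IsFractionRing.to_map_eq_zero_iff]
    obtain ⟨r, hr⟩ := hdvd
    obtain ⟨b, hb0, hb⟩ := IsLocalization.integerNormalization_spec
      (nonZeroDivisors (MvPolynomial (σ ⊕ σ) k)) r
    set r' := IsLocalization.integerNormalization (nonZeroDivisors (MvPolynomial (σ ⊕ σ) k)) r
      with hr'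
    have hb0' : b ≠ 0 := nonZeroDivisors.ne_zero hb0
    have h1 : C b * psi g i q = psi g i π * r' := by
      apply Polynomial.map_injective (algebraMap (MvPolynomial (σ ⊕ σ) k) (KY k σ))
        (IsFractionRing.injective _ _)
      rw [Polynomial.map_mul, Polynomial.map_mul, map_C, hb, ← Q2a_ell_eq, ← Q2a_ell_eq, hr,
        Algebra.smul_def]
      rw [Polynomial.algebraMap_apply]
      ring
    have h2 : psi g i π ∣ C b * psi g i q := ⟨r', h1⟩
    rcases hpr.dvd_or_dvd h2 with h3 | h3
    · exfalso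
      have h4 := natDegree_le_of_dvd h3 (C_ne_zero.mpr hb0')
      rw [natDegree_C] at h4
      omega
    · have h5 := map_dvd (Q2a_lam (k := k) (σ := σ)) h3
      rwa [Q2a_lam_psi, Q2a_lam_psi] at h5

theorem ell_injective (k σ ι : Type) [Field k] [DecidableEq ι] (g : σ → ι) (i : ι)
    (p : MvPolynomial σ k) (hp : ell g i p = 0) : p = 0 := by
  rw [Q2a_ell_eq] at hp
  have h1 : psi g i p = 0 := by
    apply Polynomial.map_injective (algebraMap (MvPolynomial (σ ⊕ σ) k) (KY k σ))
      (IsFractionRing.injective _ _)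
    rw [hp, Polynomial.map_zero]
  rw [← Q2a_lam_psi g i p, h1, map_zero]

end Pool.Agent.LibHPQ
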