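import Pool.Agent.LibHPQ.Q2a

set_option autoImplicit false

namespace Pool.Agent.LibHPQ

open Polynomial Pool.Agent.LibHP

theorem irreducible_rename (k σ : Type) [Field k] (m : ℕ) (e : Fin m → σ)
    (he : Function.Injective e) (π : MvPolynomial (Fin m) k) (hπ : Irreducible π) :
    Irreducible (MvPolynomial.rename e π) := by
  have h1 : Prime π := UniqueFactorizationMonoid.irreducible_iff_prime.1 hπ
  have h2 : Prime (MvPolynomial.rename (Equiv.ofInjective e he) π) :=
    (MulEquiv.prime_iff (MvPolynomial.renameEquiv k (Equiv.ofInjective e he))).2 h1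
  have h3 : Prime (MvPolynomial.rename ((↑) : Set.range e → σ)
      (MvPolynomial.rename (Equiv.ofInjective e he) π)) :=
    (MvPolynomial.prime_rename_iff (Set.range e)).2 h2
  rw [MvPolynomial.rename_rename] at h3
  exact h3.irreducible

theorem rename_dvd_iff (k σ : Type) [Field k] (m : ℕ) (e : Fin m → σ)
    (he : Function.Injective e) (π q : MvPolynomial (Fin m) k) :
    MvPolynomial.rename e π ∣ MvPolynomial.rename e q ↔ π ∣ q := by
  constructor
  · rintro ⟨c, hc⟩
    refine ⟨MvPolynomial.killCompl he c, ?_⟩
    have h := congrArg (MvPolynomial.killCompl he) hc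
    rw [map_mul, MvPolynomial.killCompl_rename_app, MvPolynomial.killCompl_rename_app] at h
    exact h
  · exact fun h => map_dvd _ h

theorem lineHom_rename (k σ ι : Type) [Field k] [Fintype σ] [DecidableEq σ] [DecidableEq ι]
    (g : σ → ι) (i : ι) (m : ℕ) (e : Fin m → σ) (he : Function.Injective e) :
    LineHom ((ell g i).comp (MvPolynomial.rename e : MvPolynomial (Fin m) k →ₐ[k]
      MvPolynomial σ k).toRingHom) := by
  refine ⟨fun p hp => ?_, fun p q hp hpq => ?_⟩
  · exact ell_irreducible k σ ι g i _ (irreducible_rename k σ m e he p hp)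
  · refine ell_isCoprime k σ ι g i _ _ (irreducible_rename k σ m e he p hp) ?_
    intro h
    exact hpq ((rename_dvd_iff k σ m e he p q).1 h)

end Pool.Agent.LibHPQ
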