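import Pool.Agent.LibHPQ.Q2a

set_option autoImplicit false

namespace Pool.Agent.LibHPQ

open Polynomial Pool.Agent.LibHP

/-- The variables of the group `i` are multiplied by `T`. -/
noncomputable def Q2c_theta {k σ ι : Type} [Field k] [DecidableEq ι] (g : σ → ι) (i : ι) :
    MvPolynomial σ k →ₐ[k] (MvPolynomial σ k)[X] :=
  MvPolynomial.aeval (fun v => C (MvPolynomial.X v) * if g v = i then X else 1)

/-- The specialization of the coefficients. -/
noncomputable def Q2c_f {k σ ι : Type} [Field k] [DecidableEq ι] (g : σ → ι) (i : ι) :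
    MvPolynomial (σ ⊕ σ) k →ₐ[k] MvPolynomial σ k :=
  MvPolynomial.aeval (Sum.elim (fun v => if g v = i then 0 else MvPolynomial.X v)
    (fun v => MvPolynomial.X v))

theorem Q2c_comp {k σ ι : Type} [Field k] [DecidableEq ι] (g : σ → ι) (i : ι)
    (F : MvPolynomial σ k) :
    Polynomial.map (Q2c_f (k := k) g i).toRingHom (psi (k := k) g i F) = Q2c_theta g i F := by
  have h : ((Polynomial.mapAlgHom (Q2c_f (k := k) g i)).comp (psi (k := k) g i)) =
      Q2c_theta (k := k) g i := by
    apply MvPolynomial.algHom_ext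
    intro v
    simp only [AlgHom.comp_apply, psi, Q2c_theta, MvPolynomial.aeval_X]
    by_cases hv : g v = i
    · simp [hv, Q2c_f]
    · simp [hv, Q2c_f]
  have h2 := congrArg (fun φ : MvPolynomial σ k →ₐ[k] (MvPolynomial σ k)[X] => φ F) h
  exact h2

theorem Q2c_theta_monomial {k σ ι : Type} [Field k] [Fintype σ] [DecidableEq ι] (g : σ → ι) (i : ι)
    (s : σ →₀ ℕ) (c : k) :
    Q2c_theta g i (MvPolynomial.monomial s c) =
      C (MvPolynomial.monomial s c) * X ^ (∑ v with g v = i, s v) := by
  classical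
  rw [Q2c_theta, MvPolynomial.aeval_monomial, Finsupp.prod_fintype _ _ (fun _ => pow_zero _)]
  have e1 : (∏ v, (C (MvPolynomial.X v : MvPolynomial σ k) * if g v = i then (X : (MvPolynomial σ k)[X])
      else 1) ^ s v) = C (∏ v, (MvPolynomial.X v : MvPolynomial σ k) ^ s v) *
        X ^ (∑ v with g v = i, s v) := by
    simp only [mul_pow, Finset.prod_mul_distrib]
    congr 1
    · rw [map_prod]
      simp only [map_pow]
    · rw [← Finset.prod_pow_eq_pow_sum, Finset.prod_filter]
      refine Finset.prod_congr rfl fun v _ => ?_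
      split_ifs <;> simp
  rw [e1, ← mul_assoc]
  congr 1
  rw [MvPolynomial.monomial_eq, Finsupp.prod_fintype _ _ (fun _ => pow_zero _), C_mul]
  rfl

theorem Q2c_coeff {k σ ι : Type} [Field k] [Fintype σ] [DecidableEq ι] (g : σ → ι) (i : ι)
    (F : MvPolynomial σ k) (n : ℕ) (s : σ →₀ ℕ) :
    ((Q2c_theta g i F).coeff n).coeff s = if ∑ v with g v = i, s v = n then F.coeff s else 0 := by
  classical
  induction F using MvPolynomial.induction_on' with
  | monomial u a =>
    rw [Q2c_theta_monomial, Polynomial.coeff_C_mul, Polynomial.coeff_X_pow]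
    by_cases hu : u = s
    · subst hu
      by_cases hn : ∑ v with g v = i, u v = n
      · simp [hn]
      · rw [if_neg (fun h => hn h.symm), if_neg hn]
        simp
    · have h1 : (MvPolynomial.monomial u a).coeff s = 0 := by
        rw [MvPolynomial.coeff_monomial, if_neg hu]
      split_ifs <;> simp [h1]
  | add p q hp hq =>
    rw [map_add, Polynomial.coeff_add, MvPolynomial.coeff_add, hp, hq, MvPolynomial.coeff_add]
    split_ifs <;> simp

/-- The degree of the restriction to a line. -/
theorem natDegree_ell_le (k σ ι : Type) [Field k] [Fintype σ] [DecidableEq σ] [DecidableEq ι]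
    (g : σ → ι) (i : ι) (F : MvPolynomial σ k) (d : ℕ)
    (hF : ∀ s ∈ F.support, ∑ v with g v = i, s v ≤ d) : (ell g i F).natDegree ≤ d := by
  have h0 : (ell g i F).natDegree ≤ (psi (k := k) g i F).natDegree := natDegree_map_le
  refine h0.trans ?_
  conv_lhs => rw [F.as_sum, map_sum]
  refine natDegree_sum_le_of_forall_le _ _ fun s hs => ?_
  refine le_trans ?_ (hF s hs)
  rw [psi, MvPolynomial.aeval_monomial, Finsupp.prod_fintype _ _ (fun _ => pow_zero _)]
  refine natDegree_mul_le.trans ?_
  rw [Polynomial.algebraMap_apply, natDegree_C, zero_add]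
  refine (natDegree_prod_le _ _).trans ?_
  rw [Finset.sum_filter]
  refine Finset.sum_le_sum fun v _ => ?_
  refine natDegree_pow_le.trans ?_
  by_cases hv : g v = i
  · rw [if_pos hv, if_pos hv]
    have h1 : (C (MvPolynomial.X (Sum.inl v) : MvPolynomial (σ ⊕ σ) k) +
        X * C (MvPolynomial.X (Sum.inr v) : MvPolynomial (σ ⊕ σ) k)).natDegree ≤ 1 := by
      refine (natDegree_add_le _ _).trans (max_le ?_ ?_)
      · rw [natDegree_C]; exact Nat.zero_le _
      · refine natDegree_mul_le.trans ?_
        rw [natDegree_C, natDegree_X]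
    calc _ ≤ s v * 1 := Nat.mul_le_mul_left _ h1
      _ = s v := mul_one _
  · rw [if_neg hv, if_neg hv, add_zero, natDegree_C, mul_zero]

theorem le_natDegree_ell (k σ ι : Type) [Field k] [Fintype σ] [DecidableEq σ] [DecidableEq ι]
    (g : σ → ι) (i : ι) (F : MvPolynomial σ k) (d : ℕ)
    (hF : ∃ s ∈ F.support, d ≤ ∑ v with g v = i, s v) : d ≤ (ell g i F).natDegree := by
  obtain ⟨s, hs, hd⟩ := hF
  have h0 : (ell g i F).natDegree = (psi (k := k) g i F).natDegree :=
    natDegree_map_eq_of_injective (IsFractionRing.injective (MvPolynomial (σ ⊕ σ) k) (KY k σ)) _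
  have h1 : (Q2c_theta g i F).natDegree ≤ (psi (k := k) g i F).natDegree := by
    rw [← Q2c_comp]
    exact natDegree_map_le
  rw [h0]
  refine hd.trans (le_trans ?_ h1)
  refine le_natDegree_of_ne_zero fun h2 => ?_
  have h3 := Q2c_coeff g i F (∑ v with g v = i, s v) s
  rw [h2, if_pos rfl, MvPolynomial.coeff_zero] at h3
  exact (MvPolynomial.mem_support_iff.1 hs) h3.symm

/-- The restriction to a line of a polynomial involving a variable of the group `i` is not
constant. -/
theorem ell_not_isUnit (k σ ι : Type) [Field k] [Fintype σ] [DecidableEq σ] [DecidableEq ι]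
    (g : σ → ι) (i : ι) (π : MvPolynomial σ k) (v : σ) (hv : v ∈ π.vars) (hgv : g v = i) :
    ¬ IsUnit (ell g i π) := by
  intro hu
  have h0 := natDegree_eq_zero_of_isUnit hu
  obtain ⟨s, hs, hsv⟩ := MvPolynomial.mem_vars v |>.1 hv
  have h1 : 1 ≤ (ell g i π).natDegree := by
    refine le_natDegree_ell k σ ι g i π 1 ⟨s, hs, ?_⟩
    have h2 : s v ≤ ∑ v with g v = i, s v :=
      Finset.single_le_sum (f := fun v => s v) (fun _ _ => Nat.zero_le _)
        (Finset.mem_filter.2 ⟨Finset.mem_univ v, hgv⟩)
    have h3 : s v ≠ 0 := Finsupp.mem_support_iff.1 hsv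
    omega
  omega

end Pool.Agent.LibHPQ
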