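import Pool.Agent.LibHPQ.Q2b
import Pool.Agent.LibHPQ.Q2c

set_option autoImplicit false

set_option linter.unusedSectionVars false

namespace Pool.Agent.LibHPQ

open Polynomial Pool.Agent.LibHP

section Q2d

variable {k σ ι : Type} [Field k] [Fintype σ] [DecidableEq σ] [DecidableEq ι]

/-- the degree of a monomial in the group `i` -/
private def Q2d_D (g : σ → ι) (i : ι) (s : σ →₀ ℕ) : ℕ := ∑ v with g v = i, s v

private lemma Q2d_D_zero (g : σ → ι) (i : ι) (s : σ →₀ ℕ) (h : Q2d_D g i s = 0) (v : σ)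
    (hv : g v = i) : s v = 0 := by
  unfold Q2d_D at h
  rw [Finset.sum_eq_zero_iff] at h
  exact h v (Finset.mem_filter.2 ⟨Finset.mem_univ v, hv⟩)

private lemma Q2d_le_D (g : σ → ι) (i : ι) (s : σ →₀ ℕ) (v : σ) (hv : g v = i) :
    s v ≤ Q2d_D g i s := by
  unfold Q2d_D
  exact Finset.single_le_sum (f := fun v => s v) (fun _ _ => Nat.zero_le _)
    (Finset.mem_filter.2 ⟨Finset.mem_univ v, hv⟩)

private lemma Q2d_D_sub (g : σ → ι) (i : ι) (s : σ →₀ ℕ) (v : σ) (hv : g v = i) (h : s v ≠ 0) :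
    Q2d_D g i (s - Finsupp.single v 1) + 1 = Q2d_D g i s := by
  unfold Q2d_D
  have hmem : v ∈ Finset.univ.filter (fun v => g v = i) :=
    Finset.mem_filter.2 ⟨Finset.mem_univ v, hv⟩
  rw [← Finset.add_sum_erase _ _ hmem, ← Finset.add_sum_erase _ (fun v => s v) hmem]
  have h1 : ∑ x ∈ (Finset.univ.filter (fun v => g v = i)).erase v,
      (s - Finsupp.single v 1 : σ →₀ ℕ) x =
      ∑ x ∈ (Finset.univ.filter (fun v => g v = i)).erase v, s x := by
    refine Finset.sum_congr rfl fun u hu => ?_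
    have : u ≠ v := (Finset.mem_erase.1 hu).1
    simp [Finsupp.single_eq_of_ne this]
  rw [h1]
  have h2 : (s - Finsupp.single v 1 : σ →₀ ℕ) v = s v - 1 := by simp
  rw [h2]
  omega

/-- separation of the degree in the group `i` -/
private noncomputable def Q2d_tau (k : Type) [Field k] {σ ι : Type} [DecidableEq ι] (g : σ → ι)
    (i : ι) : MvPolynomial σ k →ₐ[k] Polynomial (MvPolynomial σ k) :=
  MvPolynomial.aeval fun v =>
    Polynomial.C (MvPolynomial.X v) * Polynomial.X ^ (if g v = i then 1 else 0)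

private lemma Q2d_tau_monomial (g : σ → ι) (i : ι) (s : σ →₀ ℕ) (c : k) :
    Q2d_tau k g i (MvPolynomial.monomial s c) =
      Polynomial.C (MvPolynomial.monomial s c) * Polynomial.X ^ Q2d_D g i s := by
  unfold Q2d_tau
  rw [MvPolynomial.aeval_monomial, Finsupp.prod_fintype _ _ (fun v => by simp)]
  have h1 : ∀ v, (Polynomial.C (MvPolynomial.X v : MvPolynomial σ k) *
      Polynomial.X ^ (if g v = i then 1 else 0)) ^ s v
      = Polynomial.C (MvPolynomial.X v ^ s v) * Polynomial.X ^ (if g v = i then s v else 0) := by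
    intro v
    by_cases hv : g v = i
    · simp [hv, mul_pow]
    · simp [hv]
  simp only [h1]
  rw [Finset.prod_mul_distrib, Finset.prod_pow_eq_pow_sum, ← map_prod, ← mul_assoc]
  have h2 : algebraMap k (Polynomial (MvPolynomial σ k)) c
      = Polynomial.C (MvPolynomial.C c) := rfl
  rw [h2, ← map_mul]
  congr 2
  · rw [MvPolynomial.monomial_eq, Finsupp.prod_fintype _ _ (fun v => by simp)]
  · unfold Q2d_D
    rw [Finset.sum_filter]

private lemma Q2d_tau_eq (g : σ → ι) (i : ι) (F : MvPolynomial σ k) :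
    Q2d_tau k g i F = ∑ s ∈ F.support,
        Polynomial.C (MvPolynomial.monomial s (F.coeff s)) * Polynomial.X ^ Q2d_D g i s := by
  conv_lhs => rw [F.as_sum]
  rw [map_sum]
  exact Finset.sum_congr rfl fun s _ => Q2d_tau_monomial g i s _

private lemma Q2d_natDegree_le (g : σ → ι) (i : ι) (F : MvPolynomial σ k) (d : ℕ)
    (hdeg : ∀ s ∈ F.support, ∑ v with g v = i, s v ≤ d) : (Q2d_tau k g i F).natDegree ≤ d := by
  rw [Q2d_tau_eq]
  refine Polynomial.natDegree_sum_le_of_forall_le _ _ fun s hs => ?_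
  exact (Polynomial.natDegree_C_mul_X_pow_le _ _).trans (hdeg s hs)

private lemma Q2d_D_le (g : σ → ι) (i : ι) (h : MvPolynomial σ k) :
    ∀ s ∈ h.support, Q2d_D g i s ≤ (Q2d_tau k g i h).natDegree := by
  intro s hs
  by_contra hcon
  push Not at hcon
  have h3 : (Q2d_tau k g i h).coeff (Q2d_D g i s) = 0 :=
    Polynomial.coeff_eq_zero_of_natDegree_lt hcon
  rw [Q2d_tau_eq, Polynomial.finsetSum_coeff] at h3
  have h4 := congrArg (MvPolynomial.coeff s) h3
  rw [MvPolynomial.coeff_sum, MvPolynomial.coeff_zero, Finset.sum_eq_single s] at h4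
  · rw [Polynomial.coeff_C_mul, Polynomial.coeff_X_pow, if_pos rfl, mul_one,
      MvPolynomial.coeff_monomial, if_pos rfl] at h4
    exact (MvPolynomial.mem_support_iff.1 hs) h4
  · intro t _ hts
    rw [Polynomial.coeff_C_mul, Polynomial.coeff_X_pow]
    by_cases hD : Q2d_D g i s = Q2d_D g i t
    · rw [if_pos hD, mul_one, MvPolynomial.coeff_monomial, if_neg hts]
    · rw [if_neg hD, mul_zero, MvPolynomial.coeff_zero]
  · intro hns
    exact absurd hs hns

private lemma Q2d_tau_injective (g : σ → ι) (i : ι) (h : MvPolynomial σ k) (hh : h ≠ 0) :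
    Q2d_tau k g i h ≠ 0 := by
  intro h0
  apply hh
  have h1 : ((Polynomial.aeval (1 : MvPolynomial σ k)).restrictScalars k).comp (Q2d_tau k g i) =
      AlgHom.id k (MvPolynomial σ k) := by
    apply MvPolynomial.algHom_ext
    intro v
    simp only [Q2d_tau, AlgHom.comp_apply, MvPolynomial.aeval_X, AlgHom.restrictScalars_apply,
      AlgHom.id_apply]
    split_ifs <;> simp
  have h2 := DFunLike.congr_fun h1 h
  rw [AlgHom.comp_apply, h0, map_zero, AlgHom.id_apply] at h2
  exact h2.symm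

private lemma Q2d_pderiv (g : σ → ι) (i : ι) (h : MvPolynomial σ k)
    (hh : ∀ s ∈ h.support, Q2d_D g i s = 0) (v : σ) (hv : g v = i) :
    MvPolynomial.pderiv v h = 0 := by
  rw [h.as_sum, map_sum]
  refine Finset.sum_eq_zero fun s hs => ?_
  rw [MvPolynomial.pderiv_monomial, Q2d_D_zero g i s (hh s hs) v hv]
  simp

private lemma Q2d_pderiv_pderiv (g : σ → ι) (i : ι) (h : MvPolynomial σ k)
    (hh : ∀ s ∈ h.support, Q2d_D g i s ≤ 1) (v u : σ) (hv : g v = i) (hu : g u = i) :
    MvPolynomial.pderiv v (MvPolynomial.pderiv u h) = 0 := by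
  rw [h.as_sum, map_sum, map_sum]
  refine Finset.sum_eq_zero fun s hs => ?_
  rw [MvPolynomial.pderiv_monomial, MvPolynomial.pderiv_monomial]
  by_cases hsu : s u = 0
  · simp [hsu]
  · have h1 := Q2d_D_sub g i s u hu hsu
    have h2 := hh s hs
    have h3 := Q2d_D_zero g i (s - Finsupp.single u 1) (by omega) v hv
    rw [h3]
    simp

end Q2d

theorem squarefree_of_quadratic (k σ ι : Type) [Field k] [CharZero k] [Fintype σ] [DecidableEq σ]
    [DecidableEq ι] (g : σ → ι) (F : MvPolynomial σ k) (i₀ : ι) (hv : ∃ v, g v = i₀)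
    (hF : IsQuadraticIn g F i₀) (hi₀ : NoFactorFreeOf g F i₀) : Squarefree F := by
  intro q hq
  by_contra hqu
  obtain ⟨hdeg, hdet⟩ := hF
  obtain ⟨v0, hv0⟩ := hv
  have : Nontrivial (Option {v : σ // g v = i₀}) :=
    ⟨⟨none, some ⟨v0, hv0⟩, by simp⟩⟩
  have hF0 : F ≠ 0 := by
    rintro rfl
    apply hdet
    have : gramGroup g (0 : MvPolynomial σ k) i₀ = 0 := by
      ext1 a b
      rcases a with _ | a <;> rcases b with _ | b <;> simp [gramGroup]
    rw [this]
    exact Matrix.det_zero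
  obtain ⟨h, rfl⟩ := hq
  have hq0 : q ≠ 0 := by
    rintro rfl
    simp at hF0
  have hh0 : h ≠ 0 := by
    rintro rfl
    simp at hF0
  -- `q` involves a variable of the group
  have hqv : ∃ v ∈ q.vars, g v = i₀ := by
    by_contra hcon
    push Not at hcon
    exact hqu (hi₀ q ⟨q * h, by ring⟩ hcon)
  obtain ⟨v, hvq, hvi⟩ := hqv
  obtain ⟨s, hs, hsv⟩ := (MvPolynomial.mem_vars_iff_mem_support v).1 hvq
  have hq1 : 1 ≤ (Q2d_tau k g i₀ q).natDegree := by
    have h1 := Q2d_D_le g i₀ q s hs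
    have h2 := Q2d_le_D g i₀ s v hvi
    have h3 : s v ≠ 0 := Finsupp.mem_support_iff.1 hsv
    omega
  have htau := Q2d_natDegree_le g i₀ (q * q * h) 2 hdeg
  rw [map_mul, map_mul, Polynomial.natDegree_mul (mul_ne_zero (Q2d_tau_injective g i₀ q hq0)
    (Q2d_tau_injective g i₀ q hq0)) (Q2d_tau_injective g i₀ h hh0),
    Polynomial.natDegree_mul (Q2d_tau_injective g i₀ q hq0)
    (Q2d_tau_injective g i₀ q hq0)] at htau
  have hqD : ∀ s ∈ q.support, Q2d_D g i₀ s ≤ 1 := fun s hs => by
    have := Q2d_D_le g i₀ q s hs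
    omega
  have hhD : ∀ s ∈ h.support, Q2d_D g i₀ s = 0 := fun s hs => by
    have := Q2d_D_le g i₀ h s hs
    omega
  apply hdet
  set c : Option {v : σ // g v = i₀} → MvPolynomial σ k := fun a =>
    a.elim (setZero g i₀ q) fun v => setZero g i₀ (MvPolynomial.pderiv v.1 q) with hc
  have hgram : gramGroup g (q * q * h) i₀ =
      Matrix.vecMulVec (fun a => 2 * setZero g i₀ h * c a) c := by
    ext1 a b
    rw [Matrix.vecMulVec_apply]
    rcases a with _ | a <;> rcases b with _ | b
    · simp only [gramGroup, hc, map_mul, Option.elim]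
      ring
    · simp only [gramGroup, hc, Option.elim, Derivation.leibniz, map_add, smul_eq_mul,
        map_mul, Q2d_pderiv g i₀ h hhD b.1 b.2, mul_zero, zero_add]
      ring
    · simp only [gramGroup, hc, Option.elim, Derivation.leibniz, map_add, smul_eq_mul,
        map_mul, Q2d_pderiv g i₀ h hhD a.1 a.2, mul_zero, zero_add]
      ring
    · simp only [gramGroup, hc, Option.elim, Derivation.leibniz, map_add, smul_eq_mul,
        map_mul, Q2d_pderiv g i₀ h hhD a.1 a.2, Q2d_pderiv g i₀ h hhD b.1 b.2,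
        Q2d_pderiv_pderiv g i₀ q hqD a.1 b.1 a.2 b.2, map_zero, mul_zero, zero_add]
      ring
  rw [hgram]
  exact Matrix.det_vecMulVec _ _

theorem squarefree_ell (k σ ι : Type) [Field k] [Fintype σ] [DecidableEq σ] [DecidableEq ι]
    (g : σ → ι) (i : ι) (F : MvPolynomial σ k) (hF : Squarefree F) : Squarefree (ell g i F) := by
  have hF0 : F ≠ 0 := hF.ne_zero
  have hl0 : ell g i F ≠ 0 := fun h => hF0 (ell_injective k σ ι g i F h)
  rw [squarefree_iff_irreducible_sq_not_dvd_of_ne_zero hl0]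
  intro h hh hhF
  have hp : Prime h := hh.prime
  -- an irreducible factor
  have hex : ∃ π, Irreducible π ∧ π ∣ F ∧ h ∣ ell g i π := by
    have h1 : h ∣ ell g i F := (Dvd.intro _ rfl).trans hhF
    have h2 : Associated ((UniqueFactorizationMonoid.factors F).map (ell g i)).prod
        (ell g i F) := by
      rw [← map_multiset_prod]
      exact (UniqueFactorizationMonoid.factors_prod hF0).map (ell g i)
    have h3 : h ∣ ((UniqueFactorizationMonoid.factors F).map (ell g i)).prod :=
      h1.trans h2.symm.dvd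
    obtain ⟨π, hπ, hd⟩ := hp.exists_mem_multiset_map_dvd h3
    exact ⟨π, UniqueFactorizationMonoid.irreducible_of_factor π hπ,
      UniqueFactorizationMonoid.dvd_of_mem_factors hπ, hd⟩
  obtain ⟨π, hπ, ⟨G, hG⟩, hd⟩ := hex
  have hπG : ¬ π ∣ G := by
    rintro ⟨G', rfl⟩
    exact hπ.not_isUnit (hF π ⟨G', by rw [hG]; ring⟩)
  have hco := ell_isCoprime k σ ι g i π G hπ hπG
  have hirr : Irreducible (ell g i π) := by
    rcases ell_irreducible k σ ι g i π hπ with hu | hu
    · exact absurd (isUnit_of_dvd_unit hd hu) hh.not_isUnit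
    · exact hu
  obtain ⟨u, hu⟩ := hd
  have huu : IsUnit u := (hirr.isUnit_or_isUnit hu).resolve_left hh.not_isUnit
  have h4 : h ∣ ell g i G := by
    have h5 : h * h ∣ h * (u * ell g i G) := by
      have : h * (u * ell g i G) = ell g i F := by
        rw [hG, map_mul, hu]
        ring
      rw [this]
      exact hhF
    have h6 : h ∣ u * ell g i G := (mul_dvd_mul_iff_left hh.ne_zero).1 h5
    exact huu.dvd_mul_left.1 h6
  exact hh.not_isUnit (hco.isUnit_of_dvd' ⟨u, hu⟩ h4)

/-- The restriction of `F` to a line satisfies the conditions. -/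
theorem quart_ell (k σ ι : Type) [Field k] [CharZero k] [Fintype σ] [DecidableEq σ]
    [DecidableEq ι] (g : σ → ι) (F : MvPolynomial σ k) (hF : Squarefree F) (i₁ : ι)
    (hi₁ : IsQuarticIn g F i₁) : Quart (ell g i₁ F) := by
  have : CharZero (KY k σ) := by
    have h1 : CharZero (MvPolynomial (σ ⊕ σ) k) := inferInstance
    exact IsFractionRing.charZero (MvPolynomial (σ ⊕ σ) k)
  refine ⟨?_, natDegree_ell_le k σ ι g i₁ F 4 hi₁.1, le_natDegree_ell k σ ι g i₁ F 2 hi₁.2⟩
  rw [PerfectField.separable_iff_squarefree]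
  exact squarefree_ell k σ ι g i₁ F hF

/-- `F` has no factor in `k[x_{e 1}, ..., x_{e m}]`. -/
theorem isCoprime_ell_F (k σ ι : Type) [Field k] [Fintype σ] [DecidableEq σ] [DecidableEq ι]
    (g : σ → ι) (F : MvPolynomial σ k) (i₀ i₁ : ι) (hi₀ : NoFactorFreeOf g F i₀) (m : ℕ)
    (e : Fin m → σ) (he : Function.Injective e) (hrange : ∀ j, g (e j) ≠ i₀)
    (π : MvPolynomial (Fin m) k) (hπ : Irreducible π) :
    IsCoprime (ell g i₁ (MvPolynomial.rename e π)) (ell g i₁ F) := by
  have h1 := irreducible_rename k σ m e he π hπ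
  refine ell_isCoprime k σ ι g i₁ _ F h1 fun hd => ?_
  refine h1.not_isUnit (hi₀ _ hd fun v hv => ?_)
  obtain ⟨j, -, rfl⟩ := Finset.mem_image.1 (MvPolynomial.vars_rename e π hv)
  exact hrange j

end Pool.Agent.LibHPQ
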