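import Pool.Agent.LibHPQ.Defs

set_option autoImplicit false

namespace Pool.Agent.LibHPQ

open Polynomial Pool.Agent.LibHP

section Q3

variable {k σ ι : Type} [Field k] [Fintype σ] [DecidableEq σ] [DecidableEq ι]
  {K : Type} [Field K] [Algebra k K]

/-- `(y, μ) ↦ (x - X₀ X, X)`. -/
noncomputable def Q3_eps (g : σ → ι) (i : ι) (x : σ → K) {N : ℕ} (e : σ → Fin N) :
    MvPolynomial (σ ⊕ σ) k →+* MvPolynomial (Fin (N + 1)) K :=
  MvPolynomial.eval₂Hom (MvPolynomial.C.comp (algebraMap k K))
    (Sum.elim (fun v => MvPolynomial.C (x v) -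
        if g v = i then MvPolynomial.X 0 * MvPolynomial.X (e v).succ else 0)
      (fun v => MvPolynomial.X (e v).succ))

/-- `(y, μ) ↦ (x, X)`. -/
noncomputable def Q3_eps1 (x : σ → K) {N : ℕ} (e : σ → Fin N) :
    MvPolynomial (σ ⊕ σ) k →+* MvPolynomial (Fin N) K :=
  MvPolynomial.eval₂Hom (MvPolynomial.C.comp (algebraMap k K))
    (Sum.elim (fun v => MvPolynomial.C (x v)) (fun v => MvPolynomial.X (e v)))

/-- `y ↦ y + s X μ`. -/
noncomputable def Q3_al (k : Type) [Field k] (g : σ → ι) (i : ι)
    (s : (MvPolynomial (σ ⊕ σ) k)[X]) :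
    (MvPolynomial (σ ⊕ σ) k)[X] →+* (MvPolynomial (σ ⊕ σ) k)[X] :=
  eval₂RingHom (MvPolynomial.eval₂Hom (C.comp MvPolynomial.C)
    (Sum.elim (fun v => C (MvPolynomial.X (Sum.inl v)) +
        if g v = i then s * (X * C (MvPolynomial.X (Sum.inr v))) else 0)
      (fun v => C (MvPolynomial.X (Sum.inr v))))) X

omit [Fintype σ] [DecidableEq σ] in
theorem Q3_al_C (g : σ → ι) (i : ι) (s : (MvPolynomial (σ ⊕ σ) k)[X]) (c : k) :
    Q3_al k g i s (C (MvPolynomial.C c)) = C (MvPolynomial.C c) := by
  simp [Q3_al]

omit [Fintype σ] [DecidableEq σ] in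
theorem Q3_al_X (g : σ → ι) (i : ι) (s : (MvPolynomial (σ ⊕ σ) k)[X]) :
    Q3_al k g i s X = X := by
  simp [Q3_al]

omit [Fintype σ] [DecidableEq σ] in
theorem Q3_al_inl (g : σ → ι) (i : ι) (s : (MvPolynomial (σ ⊕ σ) k)[X]) (v : σ) :
    Q3_al k g i s (C (MvPolynomial.X (Sum.inl v))) = C (MvPolynomial.X (Sum.inl v)) +
        if g v = i then s * (X * C (MvPolynomial.X (Sum.inr v))) else 0 := by
  simp [Q3_al]

omit [Fintype σ] [DecidableEq σ] in
theorem Q3_al_inr (g : σ → ι) (i : ι) (s : (MvPolynomial (σ ⊕ σ) k)[X]) (v : σ) :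
    Q3_al k g i s (C (MvPolynomial.X (Sum.inr v))) = C (MvPolynomial.X (Sum.inr v)) := by
  simp [Q3_al]

omit [Fintype σ] [DecidableEq σ] in
theorem Q3_al_inj (g : σ → ι) (i : ι) : Function.Injective (Q3_al k g i (-1)) := by
  have h : (Q3_al k g i 1).comp (Q3_al k g i (-1)) = RingHom.id _ := by
    refine Polynomial.ringHom_ext' (MvPolynomial.ringHom_ext (fun c => ?_) fun v => ?_) ?_
    · simp only [RingHom.comp_apply, Q3_al_C, RingHom.id_apply]
    · cases v with
      | inl v =>
        simp only [RingHom.comp_apply, Q3_al_inl, RingHom.id_apply, map_add]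
        split_ifs with h
        · rw [map_mul, map_mul, map_neg, map_one, Q3_al_X, Q3_al_inr]
          ring
        · simp
      | inr v => simp only [RingHom.comp_apply, Q3_al_inr, RingHom.id_apply]
    · simp only [RingHom.comp_apply, Q3_al_X, RingHom.id_apply]
  intro a b hab
  have := congrArg (Q3_al k g i 1) hab
  rw [← RingHom.comp_apply, ← RingHom.comp_apply, h] at this
  exact this

omit [Fintype σ] [DecidableEq σ] in
theorem Q3_eps1_inj (x : σ → K) (hx : AlgebraicIndependent k x) {N : ℕ} (e : σ → Fin N)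
    (he : Function.Injective e) : Function.Injective (Q3_eps1 (k := k) x e) := by
  have h : Q3_eps1 (k := k) x e = (((MvPolynomial.rename e : MvPolynomial σ K →ₐ[K]
      MvPolynomial (Fin N) K).toRingHom.comp (MvPolynomial.map
        (MvPolynomial.aeval x : MvPolynomial σ k →ₐ[k] K).toRingHom)).comp
      (MvPolynomial.sumAlgEquiv k σ σ).toAlgHom.toRingHom).comp
        (MvPolynomial.rename Sum.swap :
          MvPolynomial (σ ⊕ σ) k →ₐ[k] MvPolynomial (σ ⊕ σ) k).toRingHom := by
    refine MvPolynomial.ringHom_ext (fun c => ?_) fun v => ?_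
    · simp [Q3_eps1]
    · cases v with
      | inl v => simp [Q3_eps1]
      | inr v => simp [Q3_eps1]
  rw [h]
  have h1 : Function.Injective (MvPolynomial.rename Sum.swap :
      MvPolynomial (σ ⊕ σ) k → MvPolynomial (σ ⊕ σ) k) :=
    MvPolynomial.rename_injective _ Sum.swap_leftInverse.injective
  have h2 : Function.Injective (MvPolynomial.map (σ := σ)
      (MvPolynomial.aeval x : MvPolynomial σ k →ₐ[k] K).toRingHom) :=
    MvPolynomial.map_injective _ hx
  have h3 : Function.Injective (MvPolynomial.rename e : MvPolynomial σ K →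
      MvPolynomial (Fin N) K) := MvPolynomial.rename_injective _ he
  exact ((h3.comp h2).comp (MvPolynomial.sumAlgEquiv k σ σ).injective).comp h1

omit [Fintype σ] [DecidableEq σ] in
theorem Q3_indep (g : σ → ι) (i : ι) (x : σ → K) (hx : AlgebraicIndependent k x) {N : ℕ}
    (e : σ → Fin N) (he : Function.Injective e) (P : (MvPolynomial (σ ⊕ σ) k)[X])
    (hP : P.eval₂ (Q3_eps g i x e) (MvPolynomial.X 0) = 0) : P = 0 := by
  have h : ((MvPolynomial.finSuccEquiv K N).toAlgHom.toRingHom.comp
      (eval₂RingHom (Q3_eps (k := k) g i x e) (MvPolynomial.X 0))) =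
        (mapRingHom (Q3_eps1 (k := k) x e)).comp (Q3_al k g i (-1)) := by
    refine Polynomial.ringHom_ext' (MvPolynomial.ringHom_ext (fun c => ?_) fun v => ?_) ?_
    · simp only [RingHom.comp_apply, Q3_al_C]
      simp [Q3_eps, Q3_eps1, MvPolynomial.finSuccEquiv_apply]
    · cases v with
      | inl v =>
        simp only [RingHom.comp_apply, Q3_al_inl]
        split_ifs with h
        · simp [Q3_eps, Q3_eps1, h, MvPolynomial.finSuccEquiv_apply, sub_eq_add_neg]
          ring
        · simp [Q3_eps, Q3_eps1, h, MvPolynomial.finSuccEquiv_apply]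
      | inr v =>
        simp only [RingHom.comp_apply, Q3_al_inr]
        simp [Q3_eps, Q3_eps1, MvPolynomial.finSuccEquiv_apply]
    · simp only [RingHom.comp_apply, Q3_al_X]
      simp [Q3_eps, Q3_eps1, MvPolynomial.finSuccEquiv_apply]
  have h1 : (mapRingHom (Q3_eps1 (k := k) x e)).comp (Q3_al k g i (-1)) P = 0 := by
    rw [← h, RingHom.comp_apply, coe_eval₂RingHom, hP, map_zero]
  have h2 : Function.Injective ((mapRingHom (Q3_eps1 (k := k) x e)).comp (Q3_al k g i (-1))) :=
    (Polynomial.map_injective _ (Q3_eps1_inj x hx e he)).comp (Q3_al_inj g i)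
  exact h2 (h1.trans (map_zero _).symm)

end Q3

/-- The generic line through the generic point of `K`, in the directions of the group `i`: the field
`K(μ, τ)` is `κ(τ)(w)`, where `κ = k(y, μ)`, `y_v = x_v - τ μ_v` for `v` in the group `i` and
`y_v = x_v` otherwise. -/
theorem exists_line (k σ ι : Type) [Field k] [Fintype σ] [DecidableEq σ] [DecidableEq ι]
    (g : σ → ι) (i : ι) (F : MvPolynomial σ k) (K : Type) [Field K] [Algebra k K] (x : σ → K)
    (w : K) (hx : IsDoublePt F x w) :
    ∃ (r : ℕ) (ε : KY k σ →+* RF K r) (f : σ → Fin r) (f₀ : Fin r), Function.Injective f ∧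
      (∀ v, f v ≠ f₀) ∧
      (∀ v, ε (algebraMap (MvPolynomial (σ ⊕ σ) k) (KY k σ) (MvPolynomial.X (Sum.inr v))) =
        algebraMap (MvPolynomial (Fin r) K) (RF K r) (MvPolynomial.X (f v))) ∧
      (∀ v, ε (algebraMap (MvPolynomial (σ ⊕ σ) k) (KY k σ) (MvPolynomial.X (Sum.inl v))) =
        algebraMap K (RF K r) (x v) - if g v = i then
          algebraMap (MvPolynomial (Fin r) K) (RF K r) (MvPolynomial.X f₀ * MvPolynomial.X (f v))
          else 0) ∧
      (∀ c : k, ε (algebraMap k (KY k σ) c) = algebraMap K (RF K r) (algebraMap k K c)) ∧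
      (∀ p : MvPolynomial σ k, (ell g i p).eval₂ ε
        (algebraMap (MvPolynomial (Fin r) K) (RF K r) (MvPolynomial.X f₀)) =
          algebraMap K (RF K r) (MvPolynomial.aeval x p)) ∧
      CurveField ε (algebraMap (MvPolynomial (Fin r) K) (RF K r) (MvPolynomial.X f₀))
        (algebraMap K (RF K r) w) (ell g i F) := by
  obtain ⟨hx1, hx2, hx3⟩ := hx
  set N := Fintype.card σ with hN
  let e : σ ≃ Fin N := Fintype.equivFin σ
  have hconst : ∀ a : K, algebraMap K (RF K (N + 1)) a =
      algebraMap (MvPolynomial (Fin (N + 1)) K) (RF K (N + 1)) (MvPolynomial.C a) := fun a =>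
    IsScalarTower.algebraMap_apply K (MvPolynomial (Fin (N + 1)) K) (RF K (N + 1)) a
  have hinjR : Function.Injective
      (algebraMap (MvPolynomial (Fin (N + 1)) K) (RF K (N + 1))) :=
    IsFractionRing.injective (MvPolynomial (Fin (N + 1)) K) (RF K (N + 1))
  -- the embedding of the coefficients
  let eps0 : MvPolynomial (σ ⊕ σ) k →+* RF K (N + 1) :=
    (algebraMap (MvPolynomial (Fin (N + 1)) K) (RF K (N + 1))).comp (Q3_eps g i x e)
  have hindep : ∀ P : (MvPolynomial (σ ⊕ σ) k)[X],
      P.eval₂ eps0 (algebraMap (MvPolynomial (Fin (N + 1)) K) (RF K (N + 1))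
        (MvPolynomial.X 0)) = 0 → P = 0 := by
    intro P hP
    refine Q3_indep g i x hx1 e e.injective P ?_
    apply hinjR
    rw [map_zero, ← hP]
    rw [Polynomial.hom_eval₂]
  have hinj0 : Function.Injective eps0 := by
    rw [injective_iff_map_eq_zero]
    intro p hp
    have := hindep (C p) (by rw [eval₂_C]; exact hp)
    exact C_eq_zero.1 this
  let ε : KY k σ →+* RF K (N + 1) := IsFractionRing.lift (A := MvPolynomial (σ ⊕ σ) k)
    (K := KY k σ) hinj0
  have hε : ∀ p, ε (algebraMap (MvPolynomial (σ ⊕ σ) k) (KY k σ) p) = eps0 p := fun p =>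
    IsFractionRing.lift_algebraMap hinj0 p
  have h3 : ∀ v, ε (algebraMap (MvPolynomial (σ ⊕ σ) k) (KY k σ) (MvPolynomial.X (Sum.inr v))) =
      algebraMap (MvPolynomial (Fin (N + 1)) K) (RF K (N + 1)) (MvPolynomial.X (e v).succ) := by
    intro v
    rw [hε]
    show algebraMap _ _ (Q3_eps g i x e _) = _
    simp [Q3_eps]
  have h4 : ∀ v, ε (algebraMap (MvPolynomial (σ ⊕ σ) k) (KY k σ) (MvPolynomial.X (Sum.inl v))) =
      algebraMap K (RF K (N + 1)) (x v) - if g v = i then
        algebraMap (MvPolynomial (Fin (N + 1)) K) (RF K (N + 1))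
          (MvPolynomial.X 0 * MvPolynomial.X (e v).succ) else 0 := by
    intro v
    rw [hε, hconst]
    show algebraMap _ _ (Q3_eps g i x e _) = _
    unfold Q3_eps
    rw [MvPolynomial.eval₂Hom_X', Sum.elim_inl, map_sub]
    split_ifs with h
    · rfl
    · rw [map_zero]
  have h5 : ∀ c : k, ε (algebraMap k (KY k σ) c) =
      algebraMap K (RF K (N + 1)) (algebraMap k K c) := by
    intro c
    rw [IsScalarTower.algebraMap_apply k (MvPolynomial (σ ⊕ σ) k) (KY k σ), hε, hconst]
    show algebraMap _ _ (Q3_eps g i x e _) = _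
    unfold Q3_eps
    rw [MvPolynomial.algebraMap_eq, MvPolynomial.eval₂Hom_C]
    rfl
  set τ := algebraMap (MvPolynomial (Fin (N + 1)) K) (RF K (N + 1)) (MvPolynomial.X 0) with hτ
  have h6 : ∀ p : MvPolynomial σ k, (ell g i p).eval₂ ε τ =
      algebraMap K (RF K (N + 1)) (MvPolynomial.aeval x p) := by
    intro p
    have h : (eval₂RingHom ε τ).comp (ell (k := k) g i) =
        (algebraMap K (RF K (N + 1))).comp
          (MvPolynomial.aeval x : MvPolynomial σ k →ₐ[k] K).toRingHom := by
      refine MvPolynomial.ringHom_ext (fun c => ?_) fun v => ?_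
      · have h7 : ell (k := k) g i (MvPolynomial.C c) =
            C (algebraMap (MvPolynomial (σ ⊕ σ) k) (KY k σ) (MvPolynomial.C c)) := by
          simp only [ell, psi, RingHom.comp_apply, AlgHom.toRingHom_eq_coe, RingHom.coe_coe,
            MvPolynomial.algHom_C, coe_mapRingHom, Polynomial.algebraMap_apply,
            Polynomial.map_C, MvPolynomial.algebraMap_eq]
        rw [RingHom.comp_apply, h7, coe_eval₂RingHom, eval₂_C]
        have h8 := h5 c
        rw [IsScalarTower.algebraMap_apply k (MvPolynomial (σ ⊕ σ) k) (KY k σ),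
          MvPolynomial.algebraMap_eq] at h8
        rw [h8]
        simp
      · have h7 : ell (k := k) g i (MvPolynomial.X v) =
            C (algebraMap (MvPolynomial (σ ⊕ σ) k) (KY k σ) (MvPolynomial.X (Sum.inl v))) +
              if g v = i then X * C (algebraMap (MvPolynomial (σ ⊕ σ) k) (KY k σ)
                (MvPolynomial.X (Sum.inr v))) else 0 := by
          unfold ell psi
          rw [RingHom.comp_apply]
          show mapRingHom _ (MvPolynomial.aeval _ (MvPolynomial.X v)) = _
          rw [MvPolynomial.aeval_X, map_add]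
          split_ifs with h
          · simp
          · simp
        rw [RingHom.comp_apply, h7, coe_eval₂RingHom, eval₂_add, eval₂_C, h4]
        split_ifs with h
        · rw [eval₂_mul, eval₂_X, eval₂_C, h3, map_mul, ← hτ]
          simp
        · simp
    have := congrArg (fun φ : MvPolynomial σ k →+* RF K (N + 1) => φ p) h
    simpa using this
  refine ⟨N + 1, ε, fun v => (e v).succ, 0, fun a b hab => e.injective (Fin.succ_injective _ hab),
    fun v => Fin.succ_ne_zero _, h3, h4, h5, h6, ?_, ?_, ?_⟩
  · -- transcendence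
    intro P hP
    obtain ⟨b, hbM, hb⟩ := IsLocalization.integerNormalization_spec
      (nonZeroDivisors (MvPolynomial (σ ⊕ σ) k)) P
    set P0 := IsLocalization.integerNormalization (nonZeroDivisors (MvPolynomial (σ ⊕ σ) k)) P
      with hP0
    have h10 : P0.map (algebraMap (MvPolynomial (σ ⊕ σ) k) (KY k σ)) =
        C (algebraMap (MvPolynomial (σ ⊕ σ) k) (KY k σ) b) * P := by
      refine hb.trans ?_
      ext n
      rw [coeff_smul, coeff_C_mul, Algebra.smul_def]
    have h8 : P0.eval₂ eps0 τ = 0 := by
      have h9 : P0.eval₂ eps0 τ =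
          (P0.map (algebraMap (MvPolynomial (σ ⊕ σ) k) (KY k σ))).eval₂ ε τ := by
        rw [eval₂_map]
        congr 1
        refine RingHom.ext fun p => ?_
        exact (hε p).symm
      rw [h9, h10, eval₂_mul, hP, mul_zero]
    have h9 : P0 = 0 := hindep P0 h8
    rw [h9, Polynomial.map_zero] at h10
    rcases mul_eq_zero.1 h10.symm with h11 | h11
    · exfalso
      have h12 := C_eq_zero.1 h11
      have h13 : (b : MvPolynomial (σ ⊕ σ) k) = 0 :=
        IsFractionRing.injective (MvPolynomial (σ ⊕ σ) k) (KY k σ) (h12.trans (map_zero _).symm)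
      exact nonZeroDivisors.ne_zero hbM h13
    · exact h11
  · -- the equation
    rw [h6, ← hx2, map_pow]
  · -- generation
    set E : (KY k σ)[X] →+* RF K (N + 1) := eval₂RingHom ε τ with hE
    set w' := algebraMap K (RF K (N + 1)) w with hw'
    have hww : w' * w' = E (ell g i F) := by
      rw [hE, coe_eval₂RingHom, h6, ← hx2, map_pow, sq]
    let Good : RF K (N + 1) → Prop := fun z => ∃ P Q R : (KY k σ)[X], E R ≠ 0 ∧
      z * E R = E P + E Q * w'
    have gE : ∀ P, Good (E P) := fun P => ⟨P, 0, 1, by rw [map_one]; exact one_ne_zero,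
      by rw [map_one, map_zero]; ring⟩
    have gadd : ∀ a b, Good a → Good b → Good (a + b) := by
      rintro a b ⟨P, Q, R, h1, h2⟩ ⟨P', Q', R', h1', h2'⟩
      refine ⟨P * R' + P' * R, Q * R' + Q' * R, R * R', ?_, ?_⟩
      · rw [map_mul]; exact mul_ne_zero h1 h1'
      · simp only [map_mul, map_add]
        linear_combination (E R') * h2 + (E R) * h2'
    have gmul : ∀ a b, Good a → Good b → Good (a * b) := by
      rintro a b ⟨P, Q, R, h1, h2⟩ ⟨P', Q', R', h1', h2'⟩
      refine ⟨P * P' + Q * Q' * ell g i F, P * Q' + P' * Q, R * R', ?_, ?_⟩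
      · rw [map_mul]; exact mul_ne_zero h1 h1'
      · simp only [map_mul, map_add]
        linear_combination (b * E R') * h2 + (E P + E Q * w') * h2' + E Q * E Q' * hww
    have ginv : ∀ a, Good a → Good a⁻¹ := by
      rintro a ⟨P, Q, R, h1, h2⟩
      by_cases ha : a = 0
      · rw [ha, inv_zero]
        have := gE 0
        rwa [map_zero] at this
      have hne : E P + E Q * w' ≠ 0 := by
        rw [← h2]
        exact mul_ne_zero ha h1
      by_cases hn : E (P * P - Q * Q * ell g i F) = 0
      · have h7 : (E P + E Q * w') * (E P - E Q * w') = 0 := by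
          rw [← hn]
          simp only [map_mul, map_sub]
          linear_combination - (E Q * E Q) * hww
        have h8 : E P = E Q * w' := by
          rcases mul_eq_zero.1 h7 with h | h
          · exact absurd h hne
          · exact sub_eq_zero.1 h
        refine ⟨R, 0, P + P, ?_, ?_⟩
        · rw [map_add]
          intro h
          exact hne (by rw [← h8]; exact h)
        · rw [map_zero, map_add]
          have h9 : a * E R = E P + E P := by rw [h2, ← h8]
          rw [← h9]
          field_simp
          ring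
      · refine ⟨R * P, - (R * Q), P * P - Q * Q * ell g i F, hn, ?_⟩
        simp only [map_mul, map_sub, map_neg]
        have h7 : E P * E P - E Q * E Q * E (ell g i F) =
            a * E R * (E P - E Q * w') := by
          rw [h2, ← hww]
          ring
        rw [h7]
        field_simp
        ring
    have gK : ∀ a : K, Good (algebraMap K (RF K (N + 1)) a) := by
      intro a
      obtain ⟨P, Q, R, h1, h2⟩ := hx3 a
      refine ⟨ell g i P, ell g i Q, ell g i R, ?_, ?_⟩
      · rw [hE, coe_eval₂RingHom, h6]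
        intro h
        exact h1 ((algebraMap K (RF K (N + 1))).injective (h.trans (map_zero _).symm))
      · rw [hE, coe_eval₂RingHom, h6, h6, h6, ← map_mul, h2, map_add, map_mul]
    have gX : ∀ j : Fin (N + 1), Good (algebraMap (MvPolynomial (Fin (N + 1)) K)
        (RF K (N + 1)) (MvPolynomial.X j)) := by
      intro j
      refine Fin.cases ?_ (fun j => ?_) j
      · have := gE X
        rw [hE, coe_eval₂RingHom, eval₂_X] at this
        exact this
      · obtain ⟨v, rfl⟩ := e.surjective j
        rw [← h3 v]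
        have := gE (C (algebraMap (MvPolynomial (σ ⊕ σ) k) (KY k σ)
          (MvPolynomial.X (Sum.inr v))))
        rw [hE, coe_eval₂RingHom, eval₂_C] at this
        exact this
    have gR : ∀ p : MvPolynomial (Fin (N + 1)) K, Good (algebraMap _ (RF K (N + 1)) p) := by
      intro p
      induction p using MvPolynomial.induction_on with
      | C a =>
        rw [← hconst]
        exact gK a
      | add p q hp hq =>
        rw [map_add]
        exact gadd _ _ hp hq
      | mul_X p j hp =>
        rw [map_mul]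
        exact gmul _ _ hp (gX j)
    intro z
    obtain ⟨p, q, hq, hz⟩ := IsFractionRing.div_surjective
      (A := MvPolynomial (Fin (N + 1)) K) z
    have : Good z := by
      rw [← hz, div_eq_mul_inv]
      exact gmul _ _ (gR p) (ginv _ (gR q))
    exact this

end Pool.Agent.LibHPQ
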