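import Pool.Agent.LibHPQ.Q1d
import Pool.Agent.LibHPQ.Q1e
import Pool.Agent.LibHP2.G9
import Pool.Agent.LibHP2.W2

set_option autoImplicit false

namespace Pool.Agent.LibHPQ

open Polynomial Pool.Agent.LibHP

/-- Polynomials in `τ` as polynomials in `τ, w`. -/
noncomputable def Q5_emb (κ : Type) [Field κ] : κ[X] →ₐ[κ] MvPolynomial (Fin 1 ⊕ Fin 1) κ :=
  Polynomial.aeval (MvPolynomial.X (Sum.inl 0))

noncomputable def Q5_fwd (κ : Type) [Field κ] : MvPolynomial (Fin 1 ⊕ Fin 1) κ →ₐ[κ] κ[X][X] :=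
  MvPolynomial.aeval (Sum.elim (fun _ => C X) (fun _ => X))

noncomputable def Q5_bwd (κ : Type) [Field κ] : κ[X][X] →ₐ[κ] MvPolynomial (Fin 1 ⊕ Fin 1) κ :=
  Polynomial.eval₂AlgHom (Q5_emb κ) (MvPolynomial.X (Sum.inr 0)) (fun _ => Commute.all _ _)

theorem Q5_bwd_C (κ : Type) [Field κ] (p : κ[X]) : Q5_bwd κ (C p) = Q5_emb κ p := by
  simp [Q5_bwd]

theorem Q5_bwd_X (κ : Type) [Field κ] : Q5_bwd κ X = MvPolynomial.X (Sum.inr 0) := by
  simp [Q5_bwd]

theorem Q5_fwd_emb (κ : Type) [Field κ] (p : κ[X]) : Q5_fwd κ (Q5_emb κ p) = C p := by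
  have h : (Q5_fwd κ).comp (Q5_emb κ) = (CAlgHom : κ[X] →ₐ[κ] κ[X][X]) := by
    apply Polynomial.algHom_ext
    simp [Q5_fwd, Q5_emb]
  exact congrArg (fun φ : κ[X] →ₐ[κ] κ[X][X] => φ p) h

/-- Polynomials in `τ, w` as polynomials in `w` over `κ[τ]`. -/
noncomputable def Q5_W (κ : Type) [Field κ] : MvPolynomial (Fin 1 ⊕ Fin 1) κ ≃ₐ[κ] κ[X][X] :=
  AlgEquiv.ofAlgHom (Q5_fwd κ) (Q5_bwd κ)
    (by
      apply Polynomial.algHom_ext'
      · apply Polynomial.algHom_ext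
        simp [Q5_bwd_C, Q5_fwd_emb]
      · simp [Q5_bwd_X, Q5_fwd])
    (by
      apply MvPolynomial.algHom_ext
      rintro (i | i)
      · rw [Subsingleton.elim i 0]
        simp [Q5_fwd, Q5_bwd_C, Q5_emb]
      · rw [Subsingleton.elim i 0]
        simp [Q5_fwd, Q5_bwd_X])

theorem Q5_W_apply (κ : Type) [Field κ] (P : MvPolynomial (Fin 1 ⊕ Fin 1) κ) :
    Q5_W κ P = Q5_fwd κ P := rfl

theorem Q5_W_bwd (κ : Type) [Field κ] (P : κ[X][X]) : Q5_W κ (Q5_bwd κ P) = P :=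
  (Q5_W κ).apply_symm_apply P

/-- The irreducible polynomials `X ^ 2 - G`. -/
theorem Q5_generic {B K : Type} [CommRing B] [IsDomain B] [IsIntegrallyClosed B] [Field K]
    (φ : B →+* K) (hφ : Function.Injective φ) (F : B) (w : K) (hw : w ^ 2 = φ F)
    (hsq : ∀ h : B, F ≠ h ^ 2) (Q : B[X]) :
    Polynomial.eval₂ φ w Q = 0 ↔ (X ^ 2 - C F) ∣ Q := by
  have hD : (X ^ 2 - C F : B[X]).Monic := Polynomial.monic_X_pow_sub_C F two_ne_zero
  have hD0 : Polynomial.eval₂ φ w (X ^ 2 - C F) = 0 := by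
    rw [Polynomial.eval₂_sub, Polynomial.eval₂_pow, Polynomial.eval₂_X, Polynomial.eval₂_C]
    exact sub_eq_zero.2 hw
  constructor
  · intro hQ
    have h1 := Polynomial.modByMonic_add_div Q (X ^ 2 - C F)
    have hdeg := Polynomial.degree_modByMonic_lt Q hD
    set r := Q %ₘ (X ^ 2 - C F) with hr
    rw [Polynomial.degree_X_pow_sub_C (by norm_num : 0 < 2)] at hdeg
    have hr1 : r.degree ≤ 1 := by
      have : r.degree < ((1 + 1 : ℕ) : WithBot ℕ) := hdeg
      exact Order.le_of_lt_succ this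
    have hr2 := Polynomial.eq_X_add_C_of_degree_le_one hr1
    have hr0 : Polynomial.eval₂ φ w r = 0 := by
      rw [← h1, Polynomial.eval₂_add, Polynomial.eval₂_mul, hD0, zero_mul, add_zero] at hQ
      exact hQ
    rw [hr2, Polynomial.eval₂_add, Polynomial.eval₂_mul, Polynomial.eval₂_C, Polynomial.eval₂_C,
      Polynomial.eval₂_X] at hr0
    set a := r.coeff 1 with ha
    set b := r.coeff 0 with hb
    have h2 : a ^ 2 * F = b ^ 2 := by
      apply hφ
      rw [map_mul, map_pow, map_pow, ← hw]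
      linear_combination (φ a * w - φ b) * hr0
    have ha0 : a = 0 := by
      by_contra ha0
      have h3 : a ^ 2 ∣ b ^ 2 := ⟨F, h2.symm⟩
      rw [IsIntegrallyClosed.pow_dvd_pow_iff two_ne_zero] at h3
      obtain ⟨c, hc⟩ := h3
      apply hsq c
      apply mul_left_cancel₀ (pow_ne_zero 2 ha0)
      rw [h2, hc]
      ring
    have hb0 : b = 0 := by
      rw [ha0] at h2
      have : b ^ 2 = 0 := by rw [← h2]; ring
      exact pow_eq_zero_iff two_ne_zero |>.1 this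
    have hr3 : r = 0 := by
      rw [hr2, ha0, hb0]; simp
    rw [← h1, hr3, zero_add]
    exact dvd_mul_right _ _
  · rintro ⟨q, rfl⟩
    rw [Polynomial.eval₂_mul, hD0, zero_mul]

/-- The general construction. -/
theorem Q5_main (κ K₁ : Type) [Field κ] [Field K₁] (ε : κ →+* K₁)
    (τ w : K₁) (htr : ∀ P : κ[X], P.eval₂ ε τ = 0 → P = 0)
    (hgen : ∀ z : K₁, ∃ P Q R : κ[X], R.eval₂ ε τ ≠ 0 ∧
      z * R.eval₂ ε τ = P.eval₂ ε τ + Q.eval₂ ε τ * w)
    (D : κ[X][X]) (hD : ∀ Q : κ[X][X], Q.eval₂ (Polynomial.eval₂RingHom ε τ) w = 0 ↔ D ∣ Q)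
    (q : κ[X]) (hq : Irreducible q) (h : (AdjoinRoot q)[X]) (hirr : Irreducible h)
    (h1 : h ∣ D.map (AdjoinRoot.mk q)) (h2 : ¬ h ^ 2 ∣ D.map (AdjoinRoot.mk q)) :
    ∃ O : ValuationSubring K₁, IsUnif O (q.eval₂ ε τ) ∧ (∀ P : κ[X], P.eval₂ ε τ ∈ O) ∧
      ∀ P : κ[X], O.valuation (P.eval₂ ε τ) < 1 ↔ q ∣ P := by
  letI := ε.toAlgebra
  haveI : Fact (Irreducible q) := ⟨hq⟩
  let z : Fin 1 ⊕ Fin 1 → K₁ := Sum.elim (fun _ => τ) (fun _ => w)
  let e : MvPolynomial (Fin 1) κ ≃ₐ[κ] κ[X] := MvPolynomial.uniqueAlgEquiv κ (Fin 1)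
  let e' : MvPolynomial (Fin 1) (AdjoinRoot q) ≃ₐ[AdjoinRoot q] (AdjoinRoot q)[X] :=
    MvPolynomial.uniqueAlgEquiv (AdjoinRoot q) (Fin 1)
  -- evaluation
  have hz : ∀ P : MvPolynomial (Fin 1 ⊕ Fin 1) κ, MvPolynomial.aeval z P =
      (Q5_W κ P).eval₂ (Polynomial.eval₂RingHom ε τ) w := by
    intro P
    rw [Q5_W_apply]
    induction P using MvPolynomial.induction_on with
    | C a =>
      have e1 : (MvPolynomial.C a : MvPolynomial (Fin 1 ⊕ Fin 1) κ) = algebraMap κ _ a := rfl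
      have e2 : (algebraMap κ κ[X][X] a) = C (C a) := rfl
      rw [e1, AlgHom.commutes, AlgHom.commutes, e2, Polynomial.eval₂_C]
      simp only [Polynomial.coe_eval₂RingHom, Polynomial.eval₂_C]
      rfl
    | add p r hp hr => rw [map_add, hp, hr, map_add, Polynomial.eval₂_add]
    | mul_X p i hp =>
      rw [map_mul, hp, map_mul, Polynomial.eval₂_mul, MvPolynomial.aeval_X]
      congr 1
      rcases i with i | i
      · simp [z, Q5_fwd]
      · simp [z, Q5_fwd]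
  have hz' : ∀ P : κ[X], MvPolynomial.aeval z (Q5_emb κ P) = P.eval₂ ε τ := by
    intro P
    rw [hz, Q5_W_apply, Q5_fwd_emb, Polynomial.eval₂_C]
    rfl
  let G : MvPolynomial (Fin 1 ⊕ Fin 1) κ := Q5_bwd κ D
  have hG : ∀ P : MvPolynomial (Fin 1 ⊕ Fin 1) κ, MvPolynomial.aeval z P = 0 ↔ G ∣ P := by
    intro P
    rw [hz, hD, ← Q5_W_bwd κ D]
    exact map_dvd_iff (Q5_W κ)
  have hgen' : ∀ a : K₁, ∃ P Q : MvPolynomial (Fin 1 ⊕ Fin 1) κ, MvPolynomial.aeval z Q ≠ 0 ∧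
      a * MvPolynomial.aeval z Q = MvPolynomial.aeval z P := by
    intro a
    obtain ⟨P, Q, R, hR, h3⟩ := hgen a
    refine ⟨Q5_emb κ P + Q5_emb κ Q * MvPolynomial.X (Sum.inr 0), Q5_emb κ R, ?_, ?_⟩
    · rw [hz']; exact hR
    · rw [map_add, map_mul, hz', hz', hz', MvPolynomial.aeval_X, h3]
      rfl
  let π : MvPolynomial (Fin 1) κ := e.symm q
  have hπ : Irreducible π := (MulEquiv.irreducible_iff e.symm).2 hq
  let ξ : Fin 1 → AdjoinRoot q := fun _ => AdjoinRoot.root q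
  have hξe : ∀ p : MvPolynomial (Fin 1) κ, MvPolynomial.aeval ξ p = AdjoinRoot.mk q (e p) := by
    intro p
    have e1 : MvPolynomial.aeval ξ = ((AdjoinRoot.mkₐ q).comp
        (e : MvPolynomial (Fin 1) κ →ₐ[κ] κ[X])) := by
      apply MvPolynomial.algHom_ext
      intro i
      rw [MvPolynomial.aeval_X]
      simp [e, ξ]
    rw [e1]
    rfl
  have hξ : ∀ p : MvPolynomial (Fin 1) κ, MvPolynomial.aeval ξ p = 0 ↔ π ∣ p := by
    intro p
    rw [hξe, AdjoinRoot.mk_eq_zero]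
    have e1 : q = e π := (e.apply_symm_apply q).symm
    conv_lhs => rw [e1]
    exact map_dvd_iff e
  have hξgen : ∀ a : AdjoinRoot q, ∃ p r : MvPolynomial (Fin 1) κ, MvPolynomial.aeval ξ r ≠ 0 ∧
      a * MvPolynomial.aeval ξ r = MvPolynomial.aeval ξ p := by
    intro a
    obtain ⟨p, rfl⟩ := AdjoinRoot.mk_surjective a
    refine ⟨e.symm p, 1, by rw [map_one]; exact one_ne_zero, ?_⟩
    rw [map_one, mul_one, hξe, AlgEquiv.apply_symm_apply]
  -- the specialization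
  have hsp : ∀ P : MvPolynomial (Fin 1 ⊕ Fin 1) κ,
      e' (specX ξ P) = (Q5_W κ P).map (AdjoinRoot.mk q) := by
    intro P
    rw [Q5_W_apply]
    induction P using MvPolynomial.induction_on with
    | C a =>
      have e1 : (MvPolynomial.C a : MvPolynomial (Fin 1 ⊕ Fin 1) κ) = algebraMap κ _ a := rfl
      have e2 : (algebraMap κ κ[X][X] a) = C (C a) := rfl
      have e3 : (algebraMap κ (MvPolynomial (Fin 1) (AdjoinRoot q)) a) =
        algebraMap (AdjoinRoot q) _ (algebraMap κ (AdjoinRoot q) a) := rfl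
      rw [e1, AlgHom.commutes, AlgHom.commutes, e2, e3, AlgEquiv.commutes, Polynomial.map_C]
      rfl
    | add p r hp hr => rw [map_add, map_add, hp, hr, map_add, Polynomial.map_add]
    | mul_X p i hp =>
      rw [map_mul, map_mul, hp, map_mul, Polynomial.map_mul]
      congr 1
      rcases i with i | i
      · simp [specX, Q5_fwd, e', ξ]
      · simp [specX, Q5_fwd, e']
  let h' : MvPolynomial (Fin 1) (AdjoinRoot q) := e'.symm h
  have hh' : e' h' = h := e'.apply_symm_apply h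
  have hirr' : Irreducible h' := (MulEquiv.irreducible_iff e'.symm).2 hirr
  have hdvd : ∀ (r : MvPolynomial (Fin 1) (AdjoinRoot q)) (P : MvPolynomial (Fin 1 ⊕ Fin 1) κ),
      r ∣ specX ξ P ↔ e' r ∣ (Q5_W κ P).map (AdjoinRoot.mk q) := by
    intro r P
    rw [← hsp]
    exact (map_dvd_iff e').symm
  obtain ⟨O, hO1, hO2, hO3⟩ := exists_valuation κ 1 1 K₁ z G hG hgen' π hπ (AdjoinRoot q) ξ hξ hξgen
    h' hirr' (by rw [hdvd, hh', Q5_W_bwd]; exact h1)
    (by rw [hdvd, map_pow, hh', Q5_W_bwd]; exact h2)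
  refine ⟨O, ?_, fun P => ?_, fun P => ?_⟩
  · have e1 : MvPolynomial.aeval (fun i => z (Sum.inl i)) π = q.eval₂ ε τ := by
      have e2 : MvPolynomial.aeval (fun i => z (Sum.inl i)) = (Polynomial.aeval τ : κ[X] →ₐ[κ] K₁).comp
          (e : MvPolynomial (Fin 1) κ →ₐ[κ] κ[X]) := by
        apply MvPolynomial.algHom_ext
        intro i
        rw [MvPolynomial.aeval_X]
        simp [e, z]
      rw [e2]
      show Polynomial.aeval τ (e (e.symm q)) = _
      rw [AlgEquiv.apply_symm_apply]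
      rfl
    rw [← e1]
    exact hO1
  · rw [← hz']
    exact hO2 _
  · have h6 : q ∣ P ↔ AdjoinRoot.mk q P = 0 := AdjoinRoot.mk_eq_zero.symm
    rw [← hz', hO3, hdvd, hh', Q5_W_apply, Q5_fwd_emb, Polynomial.map_C, h6]
    constructor
    · intro h3
      by_contra h4
      have h5 : IsUnit (C (AdjoinRoot.mk q P) : (AdjoinRoot q)[X]) :=
        Polynomial.isUnit_C.2 (IsUnit.mk0 _ h4)
      exact hirr.not_isUnit (isUnit_of_dvd_unit h3 h5)
    · intro h3
      rw [h3, C_0]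
      exact dvd_zero _

/-- The discrete valuation rings of the field `κ(τ)(w)` over the primes of `κ[τ]` prime to `G`. -/
theorem exists_valuation_curve (κ K₁ : Type) [Field κ] [CharZero κ] [Field K₁] (ε : κ →+* K₁)
    (τ w : K₁) (G : κ[X]) (h : CurveField ε τ w G) (hG : G ≠ 0) (q : κ[X]) (hq : Irreducible q)
    (hqG : ¬ q ∣ G) :
    ∃ O : ValuationSubring K₁, IsUnif O (q.eval₂ ε τ) ∧ (∀ P : κ[X], P.eval₂ ε τ ∈ O) ∧
      ∀ P : κ[X], O.valuation (P.eval₂ ε τ) < 1 ↔ q ∣ P := by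
  haveI : Fact (Irreducible q) := ⟨hq⟩
  haveI : CharZero (AdjoinRoot q) :=
    charZero_of_injective_algebraMap (algebraMap κ (AdjoinRoot q)).injective
  have hinj : Function.Injective (Polynomial.eval₂RingHom ε τ) := by
    rw [injective_iff_map_eq_zero]
    exact h.tr
  by_cases hsq : ∃ S : κ[X], G = S ^ 2
  · obtain ⟨S₀, hS₀⟩ := hsq
    obtain ⟨S, hS⟩ : ∃ S : κ[X], w = Polynomial.eval₂RingHom ε τ S := by
      have h3 : w ^ 2 = (Polynomial.eval₂RingHom ε τ S₀) ^ 2 := by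
        rw [h.eq, hS₀, ← map_pow]
        rfl
      rcases sq_eq_sq_iff_eq_or_eq_neg.1 h3 with h4 | h4
      · exact ⟨S₀, h4⟩
      · exact ⟨-S₀, by rw [map_neg]; exact h4⟩
    have hirr : Irreducible (X - C (AdjoinRoot.mk q S) : (AdjoinRoot q)[X]) :=
      Polynomial.irreducible_X_sub_C _
    refine Q5_main κ K₁ ε τ w h.tr h.gen (X - C S) ?_ q hq (X - C (AdjoinRoot.mk q S)) hirr ?_ ?_
    · intro Q
      rw [hS, Polynomial.eval₂_at_apply, map_eq_zero_iff _ hinj, Polynomial.dvd_iff_isRoot]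
      rfl
    · rw [Polynomial.map_sub, Polynomial.map_X, Polynomial.map_C]
    · rw [Polynomial.map_sub, Polynomial.map_X, Polynomial.map_C]
      rintro ⟨c, hc⟩
      apply hirr.not_isUnit
      have h3 : (X - C (AdjoinRoot.mk q S)) * 1 =
          (X - C (AdjoinRoot.mk q S)) * ((X - C (AdjoinRoot.mk q S)) * c) := by
        rw [mul_one, ← mul_assoc, ← pow_two]
        exact hc
      exact IsUnit.of_mul_eq_one _ (mul_left_cancel₀ hirr.ne_zero h3).symm
  · push Not at hsq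
    have hc : AdjoinRoot.mk q G ≠ 0 := by
      rw [Ne, AdjoinRoot.mk_eq_zero]
      exact hqG
    have hmap : (X ^ 2 - C G : κ[X][X]).map (AdjoinRoot.mk q) =
        X ^ 2 - C (AdjoinRoot.mk q G) := by
      rw [Polynomial.map_sub, Polynomial.map_pow, Polynomial.map_X, Polynomial.map_C]
    have hnu : ¬ IsUnit (X ^ 2 - C (AdjoinRoot.mk q G) : (AdjoinRoot q)[X]) := by
      intro hu
      have h3 := natDegree_eq_zero_of_isUnit hu
      rw [Polynomial.natDegree_X_pow_sub_C] at h3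
      omega
    have hne : (X ^ 2 - C (AdjoinRoot.mk q G) : (AdjoinRoot q)[X]) ≠ 0 :=
      (Polynomial.monic_X_pow_sub_C _ two_ne_zero).ne_zero
    obtain ⟨r, hr, hrd⟩ := WfDvdMonoid.exists_irreducible_factor hnu hne
    obtain ⟨-, h4⟩ := W2_poly (B := AdjoinRoot q) two_ne_zero _ hc r hr.not_isUnit hrd
    refine Q5_main κ K₁ ε τ w h.tr h.gen (X ^ 2 - C G)
      (Q5_generic _ hinj G w h.eq hsq) q hq r hr ?_ ?_
    · rw [hmap]; exact hrd
    · rw [hmap]; exact h4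

end Pool.Agent.LibHPQ
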