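import Pool.Agent.LibHPQ.Q5

set_option autoImplicit false

namespace Pool.Agent.LibHPQ

open Polynomial Pool.Agent.LibHP

private lemma Q5b_homP_C {κ : Type} [Field κ] (c : κ) (N M : κ[X]) : homP (C c) N M = C c := by
  simp [homP]

private lemma Q5b_isUnif {K : Type} [Field K] (O : ValuationSubring K) (p u : K)
    (hp : IsUnif O p) (hu : u ∈ O) (hu' : u⁻¹ ∈ O) (hu0 : u ≠ 0) : IsUnif O (p * u) := by
  obtain ⟨h1, h2, h3, h4⟩ := hp
  refine ⟨mul_mem h1 hu, mul_ne_zero h2 hu0, fun h => h3 ?_, fun a ha ha0 => ?_⟩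
  · have : p⁻¹ = u * (p * u)⁻¹ := by
      field_simp
    rw [this]
    exact mul_mem hu h
  · obtain ⟨n, v, hv, hv', hav⟩ := h4 a ha ha0
    refine ⟨n, v * (u⁻¹) ^ n, mul_mem hv (pow_mem hu' n), ?_, ?_⟩
    · rw [mul_inv, ← inv_pow, inv_inv]
      exact mul_mem hv' (pow_mem hu n)
    · rw [hav, mul_pow, inv_pow]
      have : u ^ n ≠ 0 := pow_ne_zero n hu0
      field_simp

private lemma Q5b_eval_mem {κ K : Type} [Field κ] [Field K] (O : ValuationSubring K)
    (ε : κ →+* K) (hε : ∀ c, ε c ∈ O) (t : K) (ht : t ∈ O) (P : κ[X]) : P.eval₂ ε t ∈ O := by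
  rw [Polynomial.eval₂_eq_sum_range]
  exact sum_mem fun i _ => mul_mem (hε _) (pow_mem ht i)

/-- The discrete valuation ring of a component `q` of the inverse image of `π = 0` by the map
`P ↦ 2H - 3P`. -/
theorem exists_valuation_hom (k κ K₁ : Type) [Field k] [Field κ] [CharZero κ] [Field K₁] (m : ℕ)
    (l : MvPolynomial (Fin m) k →+* κ[X]) (hl : LineHom l) (ε : κ →+* K₁) (τ w : K₁) (G : κ[X])
    (hG : Quart G) (h : CurveField ε τ w G) (π : MvPolynomial (Fin m) k) (hπ : Irreducible π)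
    (hπG : IsCoprime (l π) G) (q : κ[X]) (hq : Irreducible q)
    (hqd : q ∣ homP (l π) (nn G) (mm G)) :
    ∃ O : ValuationSubring K₁, IsUnif O (q.eval₂ ε τ) ∧ (∀ P : κ[X], P.eval₂ ε τ ∈ O) ∧
      (∀ P : κ[X], O.valuation (P.eval₂ ε τ) < 1 ↔ q ∣ P) ∧
      IsUnif O ((l π).eval₂ ε ((nn G).eval₂ ε τ / (mm G).eval₂ ε τ)) ∧
      (∀ p, (l p).eval₂ ε ((nn G).eval₂ ε τ / (mm G).eval₂ ε τ) ∈ O) ∧
      ∀ p, O.valuation ((l p).eval₂ ε ((nn G).eval₂ ε τ / (mm G).eval₂ ε τ)) < 1 ↔ π ∣ p := by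
  have hirr : Irreducible (l π) := by
    rcases hl.irr π hπ with hu | hu
    · exfalso
      obtain ⟨c, hc, hc'⟩ := Polynomial.isUnit_iff.1 hu
      rw [← hc', Q5b_homP_C] at hqd
      exact hq.not_isUnit (isUnit_of_dvd_unit hqd (Polynomial.isUnit_C.2 hc))
    · exact hu
  have hsep : (l π).Separable := hirr.separable
  have hPsep := separable_homP G hG (l π) hsep hπG
  have hPG := isCoprime_homP_self G hG (l π) hsep hπG
  have hPM := homP_coprime_right (l π) (nn G) (mm G) hirr.ne_zero (isCoprime_nn_mm G hG)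
  have hqG : ¬ q ∣ G := fun hd => hq.not_isUnit (hPG.isUnit_of_dvd' hqd hd)
  have hqM : ¬ q ∣ mm G := fun hd => hq.not_isUnit (hPM.isUnit_of_dvd' hqd hd)
  obtain ⟨P', hP'⟩ := hqd
  have hqP' : ¬ q ∣ P' := by
    rintro ⟨r, rfl⟩
    exact hq.not_isUnit (hPsep.squarefree q ⟨r, by rw [hP']; ring⟩)
  have hG0 : G ≠ 0 := by
    rintro rfl
    have := hG.ge
    simp at this
  obtain ⟨O, hO1, hO2, hO3⟩ := exists_valuation_curve κ K₁ ε τ w G h hG0 q hq hqG
  have hmm0 : (mm G).eval₂ ε τ ≠ 0 := fun h0 => mm_ne_zero G hG (h.tr _ h0)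
  have hval : ∀ P : κ[X], ¬ q ∣ P → O.valuation (P.eval₂ ε τ) = 1 := by
    intro P hP
    refine le_antisymm ((O.valuation_le_one_iff _).2 (hO2 P)) ?_
    by_contra hlt
    exact hP ((hO3 P).1 (not_le.1 hlt))
  have hinv : ∀ x : K₁, O.valuation x = 1 → x⁻¹ ∈ O := by
    intro x hx
    rw [← O.valuation_le_one_iff, map_inv₀, hx, inv_one]
  have hmmv := hval (mm G) hqM
  set T : K₁ := (nn G).eval₂ ε τ / (mm G).eval₂ ε τ with hT
  have hTO : T ∈ O := by
    rw [hT, div_eq_mul_inv]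
    exact mul_mem (hO2 _) (hinv _ hmmv)
  have hεO : ∀ c, ε c ∈ O := by
    intro c
    have := hO2 (C c)
    rwa [Polynomial.eval₂_C] at this
  have hev : ∀ P : κ[X], P.eval₂ ε T ∈ O := Q5b_eval_mem O ε hεO T hTO
  -- the value of `l π`
  set u : K₁ := P'.eval₂ ε τ * (((mm G).eval₂ ε τ)⁻¹) ^ (l π).natDegree with hu
  have hP'v := hval P' hqP'
  have huv : O.valuation u = 1 := by
    rw [hu, map_mul, map_pow, map_inv₀, hP'v, hmmv, inv_one, one_pow, one_mul]
  have hu0 : u ≠ 0 := by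
    intro h0
    rw [h0, map_zero] at huv
    exact zero_ne_one huv
  have hlπ : (l π).eval₂ ε T = q.eval₂ ε τ * u := by
    have h1 := homP_eval ε τ (l π) (nn G) (mm G) hmm0
    rw [hP', Polynomial.eval₂_mul, ← hT] at h1
    have h2 : ((mm G).eval₂ ε τ) ^ (l π).natDegree ≠ 0 := pow_ne_zero _ hmm0
    rw [hu, ← mul_assoc, h1, inv_pow]
    field_simp
  have hunif : IsUnif O ((l π).eval₂ ε T) := by
    rw [hlπ]
    exact Q5b_isUnif O _ u hO1 ((O.valuation_le_one_iff _).1 huv.le) (hinv u huv) hu0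
  have hlt : O.valuation ((l π).eval₂ ε T) < 1 := by
    rw [hlπ, map_mul, huv, mul_one]
    exact (hO3 q).2 dvd_rfl
  refine ⟨O, hO1, hO2, hO3, hunif, fun p => hev _, fun p => ⟨fun hp => ?_, ?_⟩⟩
  · by_contra hd
    obtain ⟨a, b, hab⟩ := hl.cop π p hπ hd
    have h1 := congrArg (fun P : κ[X] => P.eval₂ ε T) hab
    simp only [Polynomial.eval₂_add, Polynomial.eval₂_mul, Polynomial.eval₂_one] at h1
    have h2 : O.valuation (a.eval₂ ε T * (l π).eval₂ ε T) < 1 := by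
      rw [map_mul]
      exact mul_lt_one_of_nonneg_of_lt_one_right ((O.valuation_le_one_iff _).2 (hev a))
        zero_le hlt
    have h3 : O.valuation (b.eval₂ ε T * (l p).eval₂ ε T) < 1 := by
      rw [map_mul]
      exact mul_lt_one_of_nonneg_of_lt_one_right ((O.valuation_le_one_iff _).2 (hev b))
        zero_le hp
    have h4 := O.valuation.map_add_lt h2 h3
    rw [h1, map_one] at h4
    exact lt_irrefl _ h4
  · rintro ⟨r, rfl⟩
    rw [map_mul, Polynomial.eval₂_mul, map_mul, mul_comm]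
    exact mul_lt_one_of_nonneg_of_lt_one_right ((O.valuation_le_one_iff _).2 (hev (l r)))
      zero_le hlt

end Pool.Agent.LibHPQ
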