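import Pool.Agent.LibHPQ.Q1b
import Pool.Agent.LibHP2.G9

set_option autoImplicit false

namespace Pool.Agent.LibHPQ

open Polynomial Pool.Agent.LibHP

section Q6a

variable {κ : Type} [Field κ]

/-- Polynomials in one variable as polynomials in `MvPolynomial (Fin 1) κ`. -/
noncomputable def Q6a_U : κ[X] →ₐ[κ] MvPolynomial (Fin 1) κ :=
  Polynomial.aeval (MvPolynomial.X 0)

/-- The inverse. -/
noncomputable def Q6a_V : MvPolynomial (Fin 1) κ →ₐ[κ] κ[X] :=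
  MvPolynomial.aeval (fun _ => X)

theorem Q6a_VU (A : κ[X]) : Q6a_V (Q6a_U A) = A := by
  have h : (Q6a_V.comp Q6a_U : κ[X] →ₐ[κ] κ[X]) = AlgHom.id κ κ[X] := by
    apply Polynomial.algHom_ext
    simp [Q6a_V, Q6a_U]
  exact DFunLike.congr_fun h A

theorem Q6a_UV (A : MvPolynomial (Fin 1) κ) : Q6a_U (Q6a_V A) = A := by
  have h : (Q6a_U.comp Q6a_V : MvPolynomial (Fin 1) κ →ₐ[κ] MvPolynomial (Fin 1) κ) =
      AlgHom.id κ _ := by
    apply MvPolynomial.algHom_ext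
    intro i
    have hi : i = 0 := Subsingleton.elim _ _
    subst hi
    simp [Q6a_V, Q6a_U]
  exact DFunLike.congr_fun h A

/-- The equivalence. -/
noncomputable def Q6a_E : κ[X] ≃+* MvPolynomial (Fin 1) κ :=
  RingEquiv.ofRingHom Q6a_U.toRingHom Q6a_V.toRingHom
    (RingHom.ext fun A => Q6a_UV A) (RingHom.ext fun A => Q6a_VU A)

theorem Q6a_E_apply (A : κ[X]) : Q6a_E A = Q6a_U A := rfl

theorem Q6a_U_dvd (A B : κ[X]) : Q6a_U A ∣ Q6a_U B ↔ A ∣ B := by
  constructor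
  · intro h
    have h1 := map_dvd Q6a_V h
    rwa [Q6a_VU, Q6a_VU] at h1
  · intro h
    exact map_dvd Q6a_U h

theorem Q6a_eval (p : MvPolynomial (Fin 1) κ) :
    MvPolynomial.aeval (fun _ => 0 : Fin 1 → κ) p = 0 ↔ MvPolynomial.X 0 ∣ p := by
  have h1 : MvPolynomial.aeval (fun _ => 0 : Fin 1 → κ) p = (Q6a_V p).coeff 0 := by
    have h2 : (MvPolynomial.aeval (fun _ => 0 : Fin 1 → κ) : MvPolynomial (Fin 1) κ →ₐ[κ] κ) =
        (Polynomial.aeval (0 : κ)).comp (Q6a_V (κ := κ)) := by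
      apply MvPolynomial.algHom_ext
      intro i
      simp [Q6a_V]
    rw [h2, AlgHom.comp_apply, Polynomial.coe_aeval_eq_eval, Polynomial.coeff_zero_eq_eval_zero]
  rw [h1, ← Polynomial.X_dvd_iff, ← Q6a_U_dvd, Q6a_UV]
  simp [Q6a_U]

/-- Polynomials in the second variable. -/
noncomputable def Q6a_T : κ[X] →ₐ[κ] MvPolynomial (Fin 1 ⊕ Fin 1) κ :=
  Polynomial.aeval (MvPolynomial.X (Sum.inr 0))

theorem Q6a_div (G : κ[X]) (P : MvPolynomial (Fin 1 ⊕ Fin 1) κ) :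
    ∃ (A B : κ[X]) (S : MvPolynomial (Fin 1 ⊕ Fin 1) κ),
      P = Q6a_T A + Q6a_T B * MvPolynomial.X (Sum.inl 0) +
        ((MvPolynomial.X (Sum.inl 0)) ^ 2 - Q6a_T G) * S := by
  induction P using MvPolynomial.induction_on with
  | C a =>
    refine ⟨C a, 0, 0, ?_⟩
    have : Q6a_T (C a) = (MvPolynomial.C a : MvPolynomial (Fin 1 ⊕ Fin 1) κ) := by
      simp [Q6a_T]
    rw [this]
    simp
  | add p q hp hq =>
    obtain ⟨A, B, S, h1⟩ := hp
    obtain ⟨A', B', S', h2⟩ := hq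
    refine ⟨A + A', B + B', S + S', ?_⟩
    rw [h1, h2, map_add, map_add]
    ring
  | mul_X p i hp =>
    obtain ⟨A, B, S, h1⟩ := hp
    rcases i with i | i
    · have hi : i = 0 := Subsingleton.elim _ _
      subst hi
      refine ⟨B * G, A, S * MvPolynomial.X (Sum.inl 0) + Q6a_T B, ?_⟩
      rw [h1, map_mul]
      ring
    · have hi : i = 0 := Subsingleton.elim _ _
      subst hi
      have hX : Q6a_T (X : κ[X]) = MvPolynomial.X (Sum.inr 0) := by simp [Q6a_T]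
      refine ⟨A * X, B * X, S * MvPolynomial.X (Sum.inr 0), ?_⟩
      rw [h1, map_mul, map_mul, hX]
      ring

theorem Q6a_spec_T (A : κ[X]) :
    specX (fun _ => 0 : Fin 1 → κ) (Q6a_T A : MvPolynomial (Fin 1 ⊕ Fin 1) κ) = Q6a_U A := by
  have h : (specX (fun _ => 0 : Fin 1 → κ)).comp Q6a_T = (Q6a_U : κ[X] →ₐ[κ] _) := by
    apply Polynomial.algHom_ext
    simp [Q6a_T, Q6a_U, specX]
  exact DFunLike.congr_fun h A

/-- In a squarefree situation `A ^ 2 = B ^ 2 * G` is impossible unless `A = B = 0`. -/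
theorem Q6a_sq (q G : κ[X]) (hq : Irreducible q) (hqG : q ∣ G) (hq2 : ¬ q ^ 2 ∣ G)
    (A B : κ[X]) (h : A ^ 2 = B ^ 2 * G) : B = 0 := by
  by_contra hB
  have hG0 : G ≠ 0 := by rintro rfl; exact hq2 (dvd_zero _)
  obtain ⟨G1, hG1⟩ := hqG
  have hqG1 : ¬ q ∣ G1 := by
    rintro ⟨c, hc⟩
    exact hq2 ⟨c, by rw [hG1, hc]; ring⟩
  have hp := hq.prime
  have hfin : FiniteMultiplicity q B := FiniteMultiplicity.of_prime_left hp hB
  obtain ⟨B1, hB1, hB2⟩ := hfin.exists_eq_pow_mul_and_not_dvd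
  set n := multiplicity q B with hn
  have hA0 : A ≠ 0 := by
    rintro rfl
    rw [zero_pow two_ne_zero] at h
    exact (mul_ne_zero (pow_ne_zero 2 hB) hG0) h.symm
  have hfinA : FiniteMultiplicity q A := FiniteMultiplicity.of_prime_left hp hA0
  obtain ⟨A1, hA1, hA2⟩ := hfinA.exists_eq_pow_mul_and_not_dvd
  set m := multiplicity q A with hm
  rw [hA1, hB1, hG1] at h
  have h1 : q ^ (2 * m) * A1 ^ 2 = q ^ (2 * n + 1) * (B1 ^ 2 * G1) := by
    rw [pow_add, pow_one]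
    linear_combination h
  have hnA : ¬ q ∣ A1 ^ 2 := fun hd => hA2 (hp.dvd_of_dvd_pow hd)
  have hnB : ¬ q ∣ B1 ^ 2 * G1 := by
    intro hd
    rcases hp.dvd_or_dvd hd with h3 | h3
    · exact hB2 (hp.dvd_of_dvd_pow h3)
    · exact hqG1 h3
  rcases Nat.lt_or_ge (2 * m) (2 * n + 1) with hlt | hge
  · obtain ⟨d, hd⟩ := Nat.exists_eq_add_of_lt hlt
    have h2 : A1 ^ 2 = q * (q ^ d * (B1 ^ 2 * G1)) := by
      apply mul_left_cancel₀ (pow_ne_zero (2 * m) hq.ne_zero)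
      rw [h1, hd]
      ring
    exact hnA ⟨_, h2⟩
  · obtain ⟨d, hd⟩ := Nat.exists_eq_add_of_le hge
    have hd1 : d ≠ 0 := by omega
    obtain ⟨d', rfl⟩ := Nat.exists_eq_succ_of_ne_zero hd1
    have h2 : B1 ^ 2 * G1 = q * (q ^ d' * A1 ^ 2) := by
      apply mul_left_cancel₀ (pow_ne_zero (2 * n + 1) hq.ne_zero)
      rw [← h1, hd, Nat.succ_eq_add_one]
      ring
    exact hnB ⟨_, h2⟩

end Q6a

/-- The discrete valuation ring of the ramification divisor `w = 0` (component `q`). -/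
theorem exists_valuation_ram (κ K₁ : Type) [Field κ] [CharZero κ] [Field K₁] (ε : κ →+* K₁)
    (τ w : K₁) (G : κ[X]) (h : CurveField ε τ w G) (hG : G.Separable) (q : κ[X])
    (hq : Irreducible q) (hqG : q ∣ G) :
    ∃ O : ValuationSubring K₁, IsUnif O w ∧ (∀ P : κ[X], P.eval₂ ε τ ∈ O) ∧
      ∀ P : κ[X], O.valuation (P.eval₂ ε τ) < 1 ↔ q ∣ P := by
  let _ : Algebra κ K₁ := ε.toAlgebra
  have halg : algebraMap κ K₁ = ε := rfl
  have hq2 : ¬ q ^ 2 ∣ G := by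
    intro hd
    apply hq.not_isUnit
    exact hG.squarefree q (by rwa [← sq])
  set z : Fin 1 ⊕ Fin 1 → K₁ := Sum.elim (fun _ => w) (fun _ => τ) with hz
  have hT : ∀ A : κ[X], MvPolynomial.aeval z (Q6a_T A) = A.eval₂ ε τ := by
    intro A
    have h1 : (MvPolynomial.aeval z).comp Q6a_T = (Polynomial.aeval τ : κ[X] →ₐ[κ] K₁) := by
      apply Polynomial.algHom_ext
      simp [Q6a_T, hz]
    have h2 := DFunLike.congr_fun h1 A
    rw [AlgHom.comp_apply] at h2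
    rw [h2]
    rfl
  have hzl : MvPolynomial.aeval z (MvPolynomial.X (R := κ) (Sum.inl 0)) = w := by
    simp [hz]
  have hG1 : ∀ P : MvPolynomial (Fin 1 ⊕ Fin 1) κ, MvPolynomial.aeval z P = 0 ↔
      ((MvPolynomial.X (Sum.inl 0)) ^ 2 - Q6a_T G) ∣ P := by
    intro P
    constructor
    · intro hP
      obtain ⟨A, B, S, hS⟩ := Q6a_div G P
      rw [hS, map_add, map_add, map_mul, map_mul, map_sub, map_pow, hT, hT, hT, hzl, h.eq,
        sub_self, zero_mul, add_zero] at hP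
      have hAB : A ^ 2 = B ^ 2 * G := by
        rw [← sub_eq_zero]
        apply h.tr
        rw [eval₂_sub, eval₂_pow, eval₂_mul, eval₂_pow, ← h.eq]
        linear_combination (A.eval₂ ε τ - B.eval₂ ε τ * w) * hP
      have hB := Q6a_sq q G hq hqG hq2 A B hAB
      subst hB
      have hA : A = 0 := by
        rw [zero_pow two_ne_zero, zero_mul] at hAB
        exact pow_eq_zero_iff two_ne_zero |>.mp hAB
      subst hA
      rw [hS]
      simp
    · rintro ⟨S, rfl⟩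
      rw [map_mul, map_sub, map_pow, hT, hzl, h.eq, sub_self, zero_mul]
  have hgen : ∀ a : K₁, ∃ P Q : MvPolynomial (Fin 1 ⊕ Fin 1) κ, MvPolynomial.aeval z Q ≠ 0 ∧
      a * MvPolynomial.aeval z Q = MvPolynomial.aeval z P := by
    intro a
    obtain ⟨P, Q, R, hR, hPQ⟩ := h.gen a
    refine ⟨Q6a_T P + Q6a_T Q * MvPolynomial.X (Sum.inl 0), Q6a_T R, ?_, ?_⟩
    · rwa [hT]
    · rw [hT, map_add, map_mul, hT, hT, hzl, hPQ]
  have hkgen : ∀ a : κ, ∃ p q : MvPolynomial (Fin 1) κ,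
      MvPolynomial.aeval (fun _ => 0 : Fin 1 → κ) q ≠ 0 ∧
      a * MvPolynomial.aeval (fun _ => 0 : Fin 1 → κ) q =
        MvPolynomial.aeval (fun _ => 0 : Fin 1 → κ) p := by
    intro a
    refine ⟨MvPolynomial.C a, 1, ?_, ?_⟩
    · rw [map_one]; exact one_ne_zero
    · simp
  have hs0 : specX (fun _ => 0 : Fin 1 → κ) ((MvPolynomial.X (Sum.inl 0)) ^ 2 - Q6a_T G :
      MvPolynomial (Fin 1 ⊕ Fin 1) κ) = - Q6a_U G := by
    rw [map_sub, Q6a_spec_T, map_pow]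
    have : specX (fun _ => 0 : Fin 1 → κ) (MvPolynomial.X (Sum.inl 0) :
        MvPolynomial (Fin 1 ⊕ Fin 1) κ) = 0 := by simp [specX]
    rw [this, zero_pow two_ne_zero, zero_sub]
  obtain ⟨O, h1, h2, h3⟩ := exists_valuation κ 1 1 K₁ z
    ((MvPolynomial.X (Sum.inl 0)) ^ 2 - Q6a_T G) hG1 hgen (MvPolynomial.X 0)
    (MvPolynomial.X_prime).irreducible κ (fun _ => 0) (fun p => Q6a_eval p) hkgen
    (Q6a_U q) ((MulEquiv.irreducible_iff (Q6a_E (κ := κ))).mpr hq)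
    (by rw [hs0, dvd_neg, Q6a_U_dvd]; exact hqG)
    (by rw [hs0, dvd_neg, ← map_pow, Q6a_U_dvd]; exact hq2)
  refine ⟨O, ?_, ?_, ?_⟩
  · have : MvPolynomial.aeval (fun i => z (Sum.inl i)) (MvPolynomial.X (R := κ) (0 : Fin 1)) =
        w := by
      simp [hz]
    rwa [this] at h1
  · intro P
    rw [← hT]
    exact h2 _
  · intro P
    rw [← hT, h3, Q6a_spec_T, Q6a_U_dvd]

end Pool.Agent.LibHPQ
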