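import Pool.Agent.LibHPQ.Q6a

set_option autoImplicit false

namespace Pool.Agent.LibHPQ

open Polynomial Pool.Agent.LibHP

/-- The value of `q(τ)` is twice the value of `w`. -/
private theorem Q6b_val_q {κ K₁ : Type} [Field κ] [Field K₁] (ε : κ →+* K₁) (τ w : K₁) (G : κ[X])
    (h : CurveField ε τ w G) (hG : G.Separable) (q : κ[X]) (hq : Irreducible q) (hqG : q ∣ G)
    (O : ValuationSubring K₁) (hO1 : ∀ P : κ[X], P.eval₂ ε τ ∈ O)
    (hO2 : ∀ P : κ[X], O.valuation (P.eval₂ ε τ) < 1 ↔ q ∣ P) :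
    O.valuation (q.eval₂ ε τ) = O.valuation w ^ 2 := by
  obtain ⟨G₁, hG₁⟩ := hqG
  have h1 : ¬ q ∣ G₁ := by
    intro h1
    obtain ⟨G₂, hG₂⟩ := h1
    refine hq.not_isUnit (hG.squarefree q ⟨G₂, ?_⟩)
    rw [hG₁, hG₂, mul_assoc]
  have h2 : O.valuation (G₁.eval₂ ε τ) = 1 := by
    refine le_antisymm ((O.valuation_le_one_iff _).2 (hO1 _)) (not_lt.1 fun h3 => h1 ?_)
    exact (hO2 _).1 h3
  rw [← map_pow, h.eq, hG₁, eval₂_mul, map_mul, h2, mul_one]

/-- Elements of `O` are quotients of polynomials in `τ` modulo the maximal ideal. -/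
private theorem Q6b_residue {κ K₁ : Type} [Field κ] [Field K₁] (ε : κ →+* K₁) (τ w : K₁)
    (G : κ[X]) (h : CurveField ε τ w G) (hG : G.Separable) (q : κ[X]) (hq : Irreducible q)
    (hqG : q ∣ G) (O : ValuationSubring K₁) (hw : IsUnif O w)
    (hO1 : ∀ P : κ[X], P.eval₂ ε τ ∈ O)
    (hO2 : ∀ P : κ[X], O.valuation (P.eval₂ ε τ) < 1 ↔ q ∣ P) (c : K₁) (hc : c ∈ O) (n : ℕ) :
    ∀ A B R : κ[X], R.natDegree ≤ n → R.eval₂ ε τ ≠ 0 →
      c * R.eval₂ ε τ = A.eval₂ ε τ + B.eval₂ ε τ * w →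
      ∃ A' R' : κ[X], ¬ q ∣ R' ∧ O.valuation (c * R'.eval₂ ε τ - A'.eval₂ ε τ) < 1 := by
  have hwv : O.valuation w < 1 := by
    have h1 : O.valuation w ≤ 1 := (O.valuation_le_one_iff _).2 hw.1
    refine lt_of_le_of_ne h1 fun h2 => hw.2.2.1 ?_
    rw [← O.valuation_le_one_iff, map_inv₀, h2, inv_one]
  have hw0 : O.valuation w ≠ 0 := (Valuation.ne_zero_iff _).2 hw.2.1
  have hqv := Q6b_val_q ε τ w G h hG q hq hqG O hO1 hO2
  have hq0 : q.eval₂ ε τ ≠ 0 := fun h1 => hq.ne_zero (h.tr q h1)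
  induction n with
  | zero =>
    intro A B R hR hR0 hcR
    refine ⟨A, R, fun hqR => ?_, ?_⟩
    · have h1 := natDegree_le_of_dvd hqR (fun h2 => hR0 (by rw [h2, eval₂_zero]))
      have h2 := hq.natDegree_pos
      omega
    · rw [hcR, add_sub_cancel_left, map_mul]
      have h1 : O.valuation (B.eval₂ ε τ) ≤ 1 := (O.valuation_le_one_iff _).2 (hO1 _)
      exact (mul_le_mul_left h1 _).trans_lt (by rwa [one_mul])
  | succ n ih =>
    intro A B R hR hR0 hcR
    by_cases hqR : q ∣ R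
    · obtain ⟨R₁, hR₁⟩ := hqR
      have hR10 : R₁.eval₂ ε τ ≠ 0 := by
        intro h1
        rw [hR₁, eval₂_mul, h1, mul_zero] at hR0
        exact hR0 rfl
      have hv1 : O.valuation (A.eval₂ ε τ + B.eval₂ ε τ * w) ≤ O.valuation w ^ 2 := by
        rw [← hcR, hR₁, eval₂_mul, ← hqv, map_mul, map_mul]
        have h1 : O.valuation c ≤ 1 := (O.valuation_le_one_iff _).2 hc
        have h2 : O.valuation (R₁.eval₂ ε τ) ≤ 1 := (O.valuation_le_one_iff _).2 (hO1 _)
        calc O.valuation c * (O.valuation (q.eval₂ ε τ) * O.valuation (R₁.eval₂ ε τ))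
            ≤ 1 * (O.valuation (q.eval₂ ε τ) * 1) := mul_le_mul' h1 (mul_le_mul' le_rfl h2)
          _ = O.valuation (q.eval₂ ε τ) := by rw [one_mul, mul_one]
      have hw2 : O.valuation w ^ 2 ≤ O.valuation w := by
        rw [pow_two]
        exact mul_le_of_le_one_left' hwv.le
      have hB1 : O.valuation (B.eval₂ ε τ * w) ≤ O.valuation w := by
        rw [map_mul]
        exact mul_le_of_le_one_left' ((O.valuation_le_one_iff _).2 (hO1 _))
      have hA1 : O.valuation (A.eval₂ ε τ) < 1 := by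
        have h1 : A.eval₂ ε τ = (A.eval₂ ε τ + B.eval₂ ε τ * w) - B.eval₂ ε τ * w := by ring
        rw [h1]
        exact (O.valuation.map_sub_le (hv1.trans hw2) hB1).trans_lt hwv
      obtain ⟨A₁, hA₁⟩ := (hO2 A).1 hA1
      have hA2 : O.valuation (A.eval₂ ε τ) ≤ O.valuation w ^ 2 := by
        rw [hA₁, eval₂_mul, map_mul, hqv]
        exact mul_le_of_le_one_right' ((O.valuation_le_one_iff _).2 (hO1 _))
      have hB2 : O.valuation (B.eval₂ ε τ * w) ≤ O.valuation w ^ 2 := by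
        have h1 : B.eval₂ ε τ * w = (A.eval₂ ε τ + B.eval₂ ε τ * w) - A.eval₂ ε τ := by ring
        rw [h1]
        exact O.valuation.map_sub_le hv1 hA2
      have hB3 : O.valuation (B.eval₂ ε τ) < 1 := by
        rw [map_mul, pow_two] at hB2
        exact (le_of_mul_le_mul_right hB2 (zero_lt_iff.2 hw0)).trans_lt hwv
      obtain ⟨B₁, hB₁⟩ := (hO2 B).1 hB3
      refine ih A₁ B₁ R₁ ?_ hR10 ?_
      · have h1 : R.natDegree = q.natDegree + R₁.natDegree := by
          rw [hR₁, natDegree_mul hq.ne_zero fun h2 => hR10 (by rw [h2, eval₂_zero])]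
        have h2 := hq.natDegree_pos
        omega
      · rw [hR₁, hA₁, hB₁, eval₂_mul, eval₂_mul, eval₂_mul] at hcR
        refine mul_left_cancel₀ hq0 ?_
        linear_combination hcR
    · refine ⟨A, R, hqR, ?_⟩
      rw [hcR, add_sub_cancel_left, map_mul]
      have h1 : O.valuation (B.eval₂ ε τ) ≤ 1 := (O.valuation_le_one_iff _).2 (hO1 _)
      exact (mul_le_mul_left h1 _).trans_lt (by rwa [one_mul])

/-- The residue homomorphism. -/
private theorem Q6b_res {κ K₁ κ₀ : Type} [Field κ] [CharZero κ] [Field K₁] [Field κ₀]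
    (ε : κ →+* K₁) (τ w : K₁) (G : κ[X]) (h : CurveField ε τ w G) (hG : G.Separable) (q : κ[X])
    (hq : Irreducible q) (hqG : q ∣ G) (ρ : κ[X] →+* κ₀) (hρ : ∀ P, ρ P = 0 ↔ q ∣ P) :
    ∃ (O : ValuationSubring K₁) (hO : ∀ P : κ[X], P.eval₂ ε τ ∈ O) (r : O →+* κ₀),
      ∀ P : κ[X], r ⟨P.eval₂ ε τ, hO P⟩ = ρ P := by
  obtain ⟨O, hw, hO1, hO2⟩ := exists_valuation_ram κ K₁ ε τ w G h hG q hq hqG
  obtain ⟨θ, hθ⟩ : ∃ θ : κ[X] →+* O, ∀ P, (θ P : K₁) = P.eval₂ ε τ :=
    ⟨(eval₂RingHom ε τ).codRestrict O hO1, fun _ => rfl⟩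
  have hv : ∀ x : O, IsLocalRing.residue O x = 0 ↔ O.valuation (x : K₁) < 1 := by
    intro x
    rw [IsLocalRing.residue_eq_zero_iff, O.valuation_lt_one_iff]
  have hψ0 : ∀ P, (IsLocalRing.residue O).comp θ P = 0 ↔ q ∣ P := by
    intro P
    rw [RingHom.comp_apply, hv, hθ, hO2]
  have hψs : Function.Surjective ((IsLocalRing.residue O).comp θ) := by
    intro r
    obtain ⟨c, rfl⟩ := IsLocalRing.residue_surjective r
    obtain ⟨A, B, R, hR, hcR⟩ := h.gen (c : K₁)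
    obtain ⟨A', R', hqR', hv'⟩ := Q6b_residue ε τ w G h hG q hq hqG O hw hO1 hO2 (c : K₁) c.2
      R.natDegree A B R le_rfl hR hcR
    have h1 : IsLocalRing.residue O (c * θ R' - θ A') = 0 := by
      rw [hv]
      change O.valuation ((c : K₁) * (θ R' : K₁) - (θ A' : K₁)) < 1
      rw [hθ, hθ]
      exact hv'
    rw [map_sub, map_mul, sub_eq_zero] at h1
    obtain ⟨U, V, hUV⟩ := (hq.coprime_iff_not_dvd).2 hqR'
    refine ⟨A' * V, ?_⟩
    have h2 : (IsLocalRing.residue O).comp θ (U * q + V * R') = 1 := by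
      rw [hUV, map_one]
    rw [map_add, map_mul, map_mul, (hψ0 q).2 dvd_rfl, mul_zero, zero_add] at h2
    rw [map_mul]
    change IsLocalRing.residue O (θ A') * IsLocalRing.residue O (θ V) = _
    rw [← h1]
    change IsLocalRing.residue O (θ V) * IsLocalRing.residue O (θ R') = 1 at h2
    linear_combination IsLocalRing.residue O c * h2
  have hker : RingHom.ker ((IsLocalRing.residue O).comp θ) ≤ RingHom.ker ρ := by
    intro P hP
    rw [RingHom.mem_ker] at hP ⊢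
    exact (hρ P).2 ((hψ0 P).1 hP)
  refine ⟨O, hO1, (RingHom.liftOfSurjective _ hψs ⟨ρ, hker⟩).comp (IsLocalRing.residue O), ?_⟩
  intro P
  have h1 : (⟨P.eval₂ ε τ, hO1 P⟩ : O) = θ P := Subtype.ext (hθ P).symm
  rw [h1]
  exact RingHom.liftOfRightInverse_comp_apply _ _ (Function.rightInverse_surjInv hψs) ⟨ρ, hker⟩ P

/-- The point `2H - 3P` specializes to `P` on the ramification divisor: an element of `κ(τ)(w)`
algebraic over the field `d(M)` of the coordinates of `2H - 3P` gives a root of the same polynomial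
in the residue field. -/
theorem exists_root_residue (k κ K₁ : Type) [Field k] [Field κ] [CharZero κ] [Field K₁] (m : ℕ)
    (l : MvPolynomial (Fin m) k →+* κ[X]) (M : Type) [Field M]
    [Algebra (MvPolynomial (Fin m) k) M] [IsFractionRing (MvPolynomial (Fin m) k) M]
    (ε : κ →+* K₁) (τ w : K₁) (G : κ[X]) (hG : Quart G) (h : CurveField ε τ w G)
    (d : M →+* K₁)
    (hd : ∀ p : MvPolynomial (Fin m) k, d (algebraMap (MvPolynomial (Fin m) k) M p) =
      (l p).eval₂ ε ((nn G).eval₂ ε τ / (mm G).eval₂ ε τ))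
    (κ₀ : Type) [Field κ₀] (q : κ[X]) (hq : Irreducible q) (hqG : q ∣ G) (ρ : κ[X] →+* κ₀)
    (hρ : ∀ P, ρ P = 0 ↔ q ∣ P) (hρs : ∀ a : κ₀, ∃ P, ρ P = a) (ε₀ : M →+* κ₀)
    (hε₀ : ∀ p : MvPolynomial (Fin m) k, ε₀ (algebraMap (MvPolynomial (Fin m) k) M p) = ρ (l p))
    (c : K₁) (P : M[X]) (hP : P ≠ 0) (hPc : P.eval₂ d c = 0) : ∃ a : κ₀, P.eval₂ ε₀ a = 0 := by
  obtain ⟨O, hO, r, hr⟩ := Q6b_res ε τ w G h hG.sep q hq hqG ρ hρ
  -- units of `O`
  have hunit : ∀ y : O, r y ≠ 0 → ((y : K₁))⁻¹ ∈ O := by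
    intro y hy
    by_contra hcon
    have h1 : ¬ IsUnit y := by
      intro hu
      obtain ⟨y', hy'⟩ := hu.exists_right_inv
      have h2 : (y : K₁) * (y' : K₁) = 1 := congrArg Subtype.val hy'
      rw [inv_eq_of_mul_eq_one_right h2] at hcon
      exact hcon y'.2
    have h3 : y ∈ IsLocalRing.maximalIdeal O := (IsLocalRing.mem_maximalIdeal y).2 h1
    have h4 : RingHom.ker r = IsLocalRing.maximalIdeal O := by
      have h5 : (RingHom.ker r).IsMaximal := by
        refine RingHom.ker_isMaximal_of_surjective r fun a => ?_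
        obtain ⟨P, hP⟩ := hρs a
        exact ⟨_, (hr P).trans hP⟩
      exact IsLocalRing.eq_maximalIdeal h5
    rw [← h4] at h3
    exact hy h3
  have hmm0 : ρ (mm G) ≠ 0 := by
    intro h1
    have h2 := (hρ _).1 h1
    obtain ⟨U, V, hUV⟩ := isCoprime_mm_self G hG.sep
    refine hq.not_isUnit (isUnit_of_dvd_one ?_)
    rw [← hUV]
    exact dvd_add (h2.mul_left U) (hqG.mul_left V)
  have hmmi : ((mm G).eval₂ ε τ)⁻¹ ∈ O := hunit ⟨_, hO (mm G)⟩ (by rw [hr]; exact hmm0)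
  have hmmne : (mm G).eval₂ ε τ ≠ 0 := fun h1 =>
    hmm0 (by
      have h2 := hr (mm G)
      rw [← h2]
      have h3 : (⟨(mm G).eval₂ ε τ, hO (mm G)⟩ : O) = 0 := Subtype.ext h1
      rw [h3, map_zero])
  have hτO : (nn G).eval₂ ε τ / (mm G).eval₂ ε τ ∈ O := by
    rw [div_eq_mul_inv]
    exact mul_mem (hO _) hmmi
  obtain ⟨t, ht⟩ : ∃ t : O, (t : K₁) = (nn G).eval₂ ε τ / (mm G).eval₂ ε τ := ⟨⟨_, hτO⟩, rfl⟩
  have hrt : r t = ρ X := by
    have h1 : t * ⟨(mm G).eval₂ ε τ, hO (mm G)⟩ = ⟨(nn G).eval₂ ε τ, hO (nn G)⟩ := by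
      apply Subtype.ext
      change (t : K₁) * (mm G).eval₂ ε τ = (nn G).eval₂ ε τ
      rw [ht, div_mul_cancel₀ _ hmmne]
    have h2 := congrArg r h1
    rw [map_mul, hr, hr] at h2
    have h3 : ρ (nn G) = ρ X * ρ (mm G) := by
      rw [nn, map_add, map_mul, map_mul, map_mul, (hρ G).2 hqG]
      ring
    rw [h3] at h2
    exact mul_right_cancel₀ hmm0 h2
  -- the coefficients
  obtain ⟨ε', hε'⟩ : ∃ ε' : κ →+* O, ∀ a, (ε' a : K₁) = ε a :=
    ⟨ε.codRestrict O fun a => by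
      have := hO (C a)
      rwa [eval₂_C] at this, fun _ => rfl⟩
  have hrε : ∀ a, r (ε' a) = ρ (C a) := by
    intro a
    rw [← hr (C a)]
    congr 1
    apply Subtype.ext
    change (ε' a : K₁) = (C a).eval₂ ε τ
    rw [hε', eval₂_C]
  have hrP : ∀ P : κ[X], r (P.eval₂ ε' t) = ρ P := by
    intro P
    have h1 : r.comp (eval₂RingHom ε' t) = ρ := by
      refine Polynomial.ringHom_ext (fun a => ?_) ?_
      · rw [RingHom.comp_apply, coe_eval₂RingHom, eval₂_C, hrε]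
      · rw [RingHom.comp_apply, coe_eval₂RingHom, eval₂_X, hrt]
    rw [← h1]
    rfl
  have hcoe : ∀ P : κ[X], ((P.eval₂ ε' t : O) : K₁) =
      P.eval₂ ε ((nn G).eval₂ ε τ / (mm G).eval₂ ε τ) := by
    intro P
    have h1 := hom_eval₂ P ε' O.subtype t
    rw [← ht]
    refine h1.trans ?_
    congr 1
    exact RingHom.ext fun a => hε' a
  have hdp : ∀ p : MvPolynomial (Fin m) k,
      d (algebraMap (MvPolynomial (Fin m) k) M p) = (((l p).eval₂ ε' t : O) : K₁) := by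
    intro p
    rw [hd, hcoe]
  have hdM : ∀ a : M, d a ∈ O := by
    intro a
    obtain ⟨p, s, hs, rfl⟩ := IsFractionRing.div_surjective (A := MvPolynomial (Fin m) k) a
    rw [map_div₀, hdp, hdp, div_eq_mul_inv]
    refine mul_mem (Subtype.property _) (hunit _ ?_)
    rw [hrP, ← hε₀]
    intro h1
    have h2 : algebraMap (MvPolynomial (Fin m) k) M s = 0 := by
      rwa [map_eq_zero] at h1
    exact nonZeroDivisors.ne_zero hs
      ((IsFractionRing.injective (MvPolynomial (Fin m) k) M) (by rw [h2, map_zero]))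
  obtain ⟨d', hd'⟩ : ∃ d' : M →+* O, ∀ a, (d' a : K₁) = d a :=
    ⟨d.codRestrict O hdM, fun _ => rfl⟩
  have hrd : r.comp d' = ε₀ := by
    refine IsLocalization.ringHom_ext (nonZeroDivisors (MvPolynomial (Fin m) k)) ?_
    refine RingHom.ext fun p => ?_
    rw [RingHom.comp_apply, RingHom.comp_apply, RingHom.comp_apply, hε₀, ← hrP]
    congr 1
    apply Subtype.ext
    rw [hd', hdp]
  -- `c` is integral
  have hlc : P.leadingCoeff ≠ 0 := leadingCoeff_ne_zero.2 hP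
  have hcint : IsIntegral O c := by
    refine ⟨(P * C P.leadingCoeff⁻¹).map d', (monic_mul_leadingCoeff_inv hP).map d', ?_⟩
    rw [eval₂_map]
    have h1 : (algebraMap O K₁).comp d' = d := RingHom.ext fun a => hd' a
    rw [h1, eval₂_mul, hPc, zero_mul]
  obtain ⟨c', hc'⟩ := IsIntegrallyClosed.isIntegral_iff.1 hcint
  refine ⟨r c', ?_⟩
  have h1 : P.eval₂ d' c' = 0 := by
    apply Subtype.ext
    have h2 := hom_eval₂ P d' (algebraMap O K₁) c'
    have h3 : (algebraMap O K₁).comp d' = d := RingHom.ext fun a => hd' a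
    rw [h3, hc', hPc] at h2
    exact h2
  have h2 := hom_eval₂ P d' r c'
  rw [h1, map_zero, hrd] at h2
  exact h2.symm

end Pool.Agent.LibHPQ
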