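import Pool.Agent.LibHPQ.Q2d
import Pool.Agent.LibHP2.C1a

set_option autoImplicit false

namespace Pool.Agent.LibHPQ

open Polynomial Pool.Agent.LibHP

/-- `Ω = N(y)` with `[N(y) : N] ≤ 2` -/
private lemma Q6c_deg (k Ω J : Type) [Field k] [Field Ω] [Algebra k Ω]
    (z : J → Ω) (y : Ω)
    (htop : IntermediateField.adjoin k (insert y (Set.range z)) = ⊤)
    (R : (IntermediateField.adjoin k (Set.range z))[X]) (hR0 : R ≠ 0) (hR2 : R.natDegree ≤ 2)
    (hRy : aeval y R = 0) (a : Ω) :
    IsIntegral (IntermediateField.adjoin k (Set.range z)) a ∧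
      (minpoly (IntermediateField.adjoin k (Set.range z)) a).natDegree ≤ 2 := by
  have hy : IsIntegral (IntermediateField.adjoin k (Set.range z)) y :=
    (show IsAlgebraic (IntermediateField.adjoin k (Set.range z)) y from
      ⟨R, hR0, hRy⟩).isIntegral
  have hyd : (minpoly (IntermediateField.adjoin k (Set.range z)) y).natDegree ≤ 2 :=
    (Polynomial.natDegree_le_of_dvd (minpoly.dvd _ y hRy) hR0).trans hR2
  clear hRy hR2 hR0 R
  set N := IntermediateField.adjoin k (Set.range z) with hN
  have htopN : IntermediateField.adjoin N {y} = ⊤ := by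
    rw [eq_top_iff]
    have h1 : (⊤ : IntermediateField k Ω) ≤
        (IntermediateField.adjoin N {y}).restrictScalars k := by
      rw [← htop, IntermediateField.adjoin_le_iff]
      intro x hx
      rcases Set.mem_insert_iff.1 hx with rfl | ⟨i, rfl⟩
      · exact IntermediateField.mem_adjoin_simple_self N x
      · have h2 : z i ∈ N := IntermediateField.subset_adjoin k _ ⟨i, rfl⟩
        exact (IntermediateField.adjoin N {y}).algebraMap_mem (⟨z i, h2⟩ : N)
    intro x _
    exact h1 (IntermediateField.mem_top (x := x))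
  have hfd : FiniteDimensional N (IntermediateField.adjoin N {y}) :=
    IntermediateField.adjoin.finiteDimensional hy
  have hfr : Module.finrank N Ω ≤ 2 := by
    have h1 := IntermediateField.adjoin.finrank hy
    rw [htopN, IntermediateField.finrank_top'] at h1
    rw [h1]
    exact hyd
  have hfdΩ : FiniteDimensional N Ω := by
    rw [htopN] at hfd
    exact Module.Finite.equiv (IntermediateField.topEquiv (F := N) (E := Ω)).toLinearEquiv
  exact ⟨IsIntegral.of_finite N a, (minpoly.natDegree_le a).trans hfr⟩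

open scoped IntermediateField.algebraAdjoinAdjoin in
private lemma Q6c_extend (k Ω J : Type) [Field k] [Field Ω] [Algebra k Ω]
    (z : J → Ω) (S : Set J) (hz : AlgebraicIndependent k z) :
    AlgebraicIndependent (IntermediateField.adjoin k (z '' S)) (fun i : (Sᶜ : Set J) => z i) := by
  have h1 : AlgebraicIndependent (Algebra.adjoin k (z '' S)) (fun i : (Sᶜ : Set J) => z i) :=
    hz.adjoin_of_disjoint (s := S) (t := Sᶜ) disjoint_compl_right
  exact h1.extendScalars (IntermediateField.adjoin k (z '' S))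

private lemma Q6c_frac (k Ω J : Type) [Field k] [Field Ω] [Algebra k Ω]
    (z : J → Ω) (S : Set J) (x : Ω) (hx : x ∈ IntermediateField.adjoin k (Set.range z)) :
    ∃ D E : MvPolynomial (Sᶜ : Set J) (IntermediateField.adjoin k (z '' S)),
      MvPolynomial.aeval (fun i : (Sᶜ : Set J) => z i) E ≠ 0 ∧
      x * MvPolynomial.aeval (fun i : (Sᶜ : Set J) => z i) E =
        MvPolynomial.aeval (fun i : (Sᶜ : Set J) => z i) D := by
  classical
  induction hx using IntermediateField.adjoin_induction with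
  | mem x hx =>
    obtain ⟨i, rfl⟩ := hx
    by_cases hi : i ∈ S
    · refine ⟨MvPolynomial.C ⟨z i, IntermediateField.subset_adjoin k _ ⟨i, hi, rfl⟩⟩, 1, ?_, ?_⟩
      · simp
      · rw [map_one, mul_one, MvPolynomial.aeval_C]
        rfl
    · refine ⟨MvPolynomial.X ⟨i, hi⟩, 1, ?_, ?_⟩
      · simp
      · rw [map_one, mul_one, MvPolynomial.aeval_X]
  | algebraMap c =>
    refine ⟨MvPolynomial.C (algebraMap k _ c), 1, ?_, ?_⟩
    · simp
    · rw [map_one, mul_one, MvPolynomial.aeval_C]
      rfl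
  | add x y _ _ hx hy =>
    obtain ⟨D1, E1, h1, h2⟩ := hx
    obtain ⟨D2, E2, h3, h4⟩ := hy
    refine ⟨D1 * E2 + D2 * E1, E1 * E2, ?_, ?_⟩
    · rw [map_mul]; exact mul_ne_zero h1 h3
    · rw [map_mul, map_add, map_mul, map_mul, ← h2, ← h4]; ring
  | inv x _ hx =>
    obtain ⟨D1, E1, h1, h2⟩ := hx
    by_cases hx0 : x = 0
    · refine ⟨0, 1, ?_, ?_⟩
      · simp
      · rw [hx0]; simp
    · refine ⟨E1, D1, ?_, ?_⟩
      · rw [← h2]; exact mul_ne_zero hx0 h1
      · rw [← h2]; field_simp
  | mul x y _ _ hx hy =>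
    obtain ⟨D1, E1, h1, h2⟩ := hx
    obtain ⟨D2, E2, h3, h4⟩ := hy
    refine ⟨D1 * D2, E1 * E2, ?_, ?_⟩
    · rw [map_mul]; exact mul_ne_zero h1 h3
    · rw [map_mul, map_mul, ← h2, ← h4]; ring

private lemma Q6c_core (k Ω J : Type) [Field k] [Field Ω] [Algebra k Ω]
    (z : J → Ω) (y : Ω) (S : Set J) (hz : AlgebraicIndependent k z)
    (htop : IntermediateField.adjoin k (insert y (Set.range z)) = ⊤)
    (R : (IntermediateField.adjoin k (Set.range z))[X]) (hR0 : R ≠ 0) (hR2 : R.natDegree ≤ 2)
    (hRy : aeval y R = 0) (a : Ω)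
    (ha : IsAlgebraic (IntermediateField.adjoin k (z '' S)) a) :
    ∃ R : (IntermediateField.adjoin k (z '' S))[X], R ≠ 0 ∧ R.natDegree ≤ 2 ∧ aeval a R = 0 := by
  classical
  obtain ⟨hint, hdeg⟩ := Q6c_deg k Ω J z y htop R hR0 hR2 hRy a
  clear hRy hR2 hR0 R
  set N := IntermediateField.adjoin k (Set.range z) with hN
  set M0 := IntermediateField.adjoin k (z '' S) with hM0
  set P := minpoly N a with hP
  -- the coefficients as fractions
  have hfr := fun j : ℕ => Q6c_frac k Ω J z S (P.coeff j : Ω) (P.coeff j).2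
  choose D E hE hDE using hfr
  set zT : (Sᶜ : Set J) → Ω := fun i => z i with hzT
  set D' : ℕ → MvPolynomial (Sᶜ : Set J) M0 := fun j =>
    D j * ∏ i ∈ (Finset.range 3).erase j, E i with hD'
  have hD'1 : ∀ j ∈ Finset.range 3, MvPolynomial.aeval zT (D' j) =
      (P.coeff j : Ω) * ∏ i ∈ Finset.range 3, MvPolynomial.aeval zT (E i) := by
    intro j hj
    rw [hD', map_mul, map_prod, ← hDE j, mul_assoc,
      Finset.mul_prod_erase (Finset.range 3) (fun i => MvPolynomial.aeval zT (E i)) hj]
  have hEprod : ∏ i ∈ Finset.range 3, MvPolynomial.aeval zT (E i) ≠ 0 :=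
    Finset.prod_ne_zero_iff.2 fun i _ => hE i
  have hPmonic : P.Monic := minpoly.monic hint
  have hPa : ∑ j ∈ Finset.range 3, (P.coeff j : Ω) * a ^ j = 0 := by
    have h1 := minpoly.aeval N a
    rw [← hP, Polynomial.aeval_eq_sum_range' (n := 3) (by omega)] at h1
    rw [← h1]
    refine Finset.sum_congr rfl fun j _ => ?_
    rw [Algebra.smul_def]
    rfl
  have hrel : ∑ j ∈ Finset.range 3, MvPolynomial.aeval zT (D' j) * a ^ j = 0 := by
    have : ∀ j ∈ Finset.range 3, MvPolynomial.aeval zT (D' j) * a ^ j =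
        (∏ i ∈ Finset.range 3, MvPolynomial.aeval zT (E i)) * ((P.coeff j : Ω) * a ^ j) := by
      intro j hj
      rw [hD'1 j hj]; ring
    rw [Finset.sum_congr rfl this, ← Finset.mul_sum, hPa, mul_zero]
  -- independence over `M0(a)`
  set M' := IntermediateField.adjoin M0 {a} with hM'
  have halg : Algebra.IsAlgebraic M0 M' :=
    IntermediateField.isAlgebraic_adjoin_simple ha.isIntegral
  have hT : AlgebraicIndependent M' zT := (Q6c_extend k Ω J z S hz).extendScalars M'
  set a' : M' := ⟨a, IntermediateField.mem_adjoin_simple_self M0 a⟩ with ha'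
  have hQ : ∑ j ∈ Finset.range 3, MvPolynomial.C (a' ^ j) *
      MvPolynomial.map (algebraMap M0 M') (D' j) = 0 := by
    apply hT
    rw [map_zero, map_sum, ← hrel]
    refine Finset.sum_congr rfl fun j _ => ?_
    rw [map_mul, MvPolynomial.aeval_C, MvPolynomial.aeval_map_algebraMap, mul_comm]
    rfl
  -- choose a monomial
  have hn : P.natDegree ∈ Finset.range 3 := Finset.mem_range.2 (by omega)
  have hD'n : D' P.natDegree ≠ 0 := by
    intro h0
    have h1 := hD'1 _ hn
    rw [h0, map_zero, Polynomial.coeff_natDegree, hPmonic.leadingCoeff] at h1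
    apply hEprod
    rw [← one_mul (∏ i ∈ Finset.range 3, MvPolynomial.aeval zT (E i))]
    exact h1.symm
  obtain ⟨s, hs⟩ := MvPolynomial.exists_coeff_ne_zero hD'n
  refine ⟨∑ j ∈ Finset.range 3, C ((D' j).coeff s) * X ^ j, ?_, ?_, ?_⟩
  · intro h0
    have h1 := congrArg (fun p : M0[X] => p.coeff P.natDegree) h0
    simp only [Polynomial.finsetSum_coeff, Polynomial.coeff_C_mul, Polynomial.coeff_X_pow,
      Polynomial.coeff_zero] at h1
    rw [Finset.sum_eq_single P.natDegree] at h1
    · rw [if_pos rfl, mul_one] at h1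
      exact hs h1
    · intro j _ hj
      rw [if_neg (Ne.symm hj), mul_zero]
    · intro h2
      exact absurd hn h2
  · refine Polynomial.natDegree_sum_le_of_forall_le _ _ fun j hj => ?_
    have := Finset.mem_range.1 hj
    exact (Polynomial.natDegree_C_mul_X_pow_le _ _).trans (by omega)
  · have h1 := congrArg (MvPolynomial.coeff s) hQ
    rw [MvPolynomial.coeff_sum, MvPolynomial.coeff_zero] at h1
    have h2 := congrArg (fun t : M' => (t : Ω)) h1
    simp only [MvPolynomial.coeff_C_mul, MvPolynomial.coeff_map] at h2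
    rw [map_sum]
    have h3 : ((∑ j ∈ Finset.range 3, a' ^ j * algebraMap M0 M' ((D' j).coeff s) : M') : Ω) =
        ∑ j ∈ Finset.range 3, a ^ j * (((D' j).coeff s : M0) : Ω) := by
      rw [← IntermediateField.algebraMap_apply, map_sum]
      refine Finset.sum_congr rfl fun j _ => ?_
      rw [map_mul, map_pow]
      rfl
    rw [h3] at h2
    have h4 : ((0 : M') : Ω) = 0 := rfl
    rw [h4] at h2
    rw [← h2]
    refine Finset.sum_congr rfl fun j _ => ?_
    rw [map_mul, aeval_C, map_pow, aeval_X, mul_comm]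
    rfl


open scoped IntermediateField.algebraAdjoinAdjoin in
private lemma Q6c_alg (k Ω J : Type) [Field k] [Field Ω] [Algebra k Ω] (z : J → Ω)
    (h : ∀ a : Ω, IsIntegral (IntermediateField.adjoin k (Set.range z)) a) :
    Algebra.IsAlgebraic (Algebra.adjoin k (Set.range z)) Ω := by
  have : Algebra.IsAlgebraic (IntermediateField.adjoin k (Set.range z)) Ω :=
    ⟨fun a => (h a).isAlgebraic⟩
  exact Algebra.IsAlgebraic.trans (Algebra.adjoin k (Set.range z))
    (IntermediateField.adjoin k (Set.range z)) Ω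

/-- descent of the relation to `M` -/
private lemma Q6c_final (k Ω M J : Type) [Field k] [Field Ω] [Algebra k Ω] [Field M]
    (ε₀ : M →+* Ω) (z : J → Ω) (y : Ω) (S : Set J) (hz : AlgebraicIndependent k z)
    (htop : IntermediateField.adjoin k (insert y (Set.range z)) = ⊤)
    (R : (IntermediateField.adjoin k (Set.range z))[X]) (hR0 : R ≠ 0) (hR2 : R.natDegree ≤ 2)
    (hRy : aeval y R = 0) (hM1 : ∀ x : M, ε₀ x ∈ IntermediateField.adjoin k (z '' S))
    (hM2 : ∀ y ∈ IntermediateField.adjoin k (z '' S), ∃ x : M, ε₀ x = y)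
    (P : M[X]) (hP : Irreducible P) (a : Ω) (hPa : P.eval₂ ε₀ a = 0) : P.natDegree ≤ 2 := by
  set ε : M →+* IntermediateField.adjoin k (z '' S) :=
    ε₀.codRestrict (IntermediateField.adjoin k (z '' S)) hM1 with hε
  have hcomp : (algebraMap (IntermediateField.adjoin k (z '' S)) Ω).comp ε = ε₀ := by
    ext x
    rfl
  have hεs : Function.Surjective ε := by
    intro y
    obtain ⟨x, hx⟩ := hM2 y.1 y.2
    exact ⟨x, Subtype.ext hx⟩
  have hev : ∀ T : M[X], aeval a (T.map ε) = T.eval₂ ε₀ a := by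
    intro T
    rw [aeval_def, eval₂_map, hcomp]
  have ha : IsAlgebraic (IntermediateField.adjoin k (z '' S)) a := by
    refine ⟨P.map ε, ?_, by rw [hev, hPa]⟩
    exact (Polynomial.map_ne_zero_iff ε.injective).2 hP.ne_zero
  obtain ⟨T, hT0, hT2, hTa⟩ := Q6c_core k Ω J z y S hz htop R hR0 hR2 hRy a ha
  obtain ⟨T', rfl⟩ := Polynomial.map_surjective ε hεs T
  rw [hev] at hTa
  rw [Polynomial.natDegree_map] at hT2
  have hT'0 : T' ≠ 0 := by
    rintro rfl
    exact hT0 (Polynomial.map_zero ε)
  have hdvd : P ∣ T' := by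
    by_contra hnd
    obtain ⟨u, v, huv⟩ := (hP.coprime_iff_not_dvd).2 hnd
    have h1 := congrArg (fun p : M[X] => p.eval₂ ε₀ a) huv
    simp only [eval₂_add, eval₂_mul, eval₂_one, hPa, hTa, mul_zero, add_zero] at h1
    exact zero_ne_one h1
  exact (Polynomial.natDegree_le_of_dvd hdvd hT'0).trans hT2

private lemma Q6c_exists_factor (k σ ι : Type) [Field k] [Fintype σ] [DecidableEq σ]
    [DecidableEq ι] (g : σ → ι) (F : MvPolynomial σ k) (i₁ : ι) (hF0 : F ≠ 0)
    (hG : 2 ≤ (ell g i₁ F).natDegree) :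
    ∃ F0, Irreducible F0 ∧ F0 ∣ F ∧ Irreducible (ell g i₁ F0) := by
  have hne : ell g i₁ F ≠ 0 := by
    intro h0
    rw [h0] at hG
    simp at hG
  have hnu : ¬ IsUnit (ell g i₁ F) := by
    intro h0
    have := Polynomial.natDegree_eq_zero_of_isUnit h0
    omega
  obtain ⟨h, hh, h1⟩ := WfDvdMonoid.exists_irreducible_factor hnu hne
  have h2 : Associated ((UniqueFactorizationMonoid.factors F).map (ell g i₁)).prod
      (ell g i₁ F) := by
    rw [← map_multiset_prod]
    exact (UniqueFactorizationMonoid.factors_prod hF0).map (ell g i₁)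
  have h3 : h ∣ ((UniqueFactorizationMonoid.factors F).map (ell g i₁)).prod :=
    h1.trans h2.symm.dvd
  obtain ⟨π, hπ, hd⟩ := hh.prime.exists_mem_multiset_map_dvd h3
  have hπi := UniqueFactorizationMonoid.irreducible_of_factor π hπ
  refine ⟨π, hπi, UniqueFactorizationMonoid.dvd_of_mem_factors hπ, ?_⟩
  rcases ell_irreducible k σ ι g i₁ π hπi with hu | hu
  · exact absurd (isUnit_of_dvd_unit hd hu) hh.not_isUnit
  · exact hu

/-- separation of the variable `a` -/
private noncomputable def Q6c_psi (k : Type) [Field k] {σ : Type} [DecidableEq σ] (a : σ) :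
    MvPolynomial σ k →ₐ[k] (MvPolynomial {v : σ // v ≠ a} k)[X] :=
  MvPolynomial.aeval fun v => if h : v = a then X else C (MvPolynomial.X ⟨v, h⟩)

private lemma Q6c_psi_back (k : Type) [Field k] {σ : Type} [DecidableEq σ] (a : σ)
    (p : MvPolynomial σ k) :
    (Q6c_psi k a p).eval₂ (MvPolynomial.rename (Subtype.val : {v : σ // v ≠ a} → σ) :
      MvPolynomial {v : σ // v ≠ a} k →ₐ[k] MvPolynomial σ k).toRingHom (MvPolynomial.X a) = p := by
  have h : (Polynomial.eval₂RingHom (MvPolynomial.rename (Subtype.val : {v : σ // v ≠ a} → σ) :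
      MvPolynomial {v : σ // v ≠ a} k →ₐ[k] MvPolynomial σ k).toRingHom
      (MvPolynomial.X a)).comp (Q6c_psi k a).toRingHom = RingHom.id _ := by
    apply MvPolynomial.ringHom_ext
    · intro r
      simp [Q6c_psi]
    · intro v
      by_cases hv : v = a
      · subst hv
        simp [Q6c_psi]
      · simp [Q6c_psi, hv]
  exact DFunLike.congr_fun h p

private lemma Q6c_psi_ne (k : Type) [Field k] {σ : Type} [DecidableEq σ] (a : σ)
    (p : MvPolynomial σ k) (hp : p ≠ 0) : Q6c_psi k a p ≠ 0 := by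
  intro h0
  apply hp
  have := Q6c_psi_back k a p
  rw [h0, Polynomial.eval₂_zero] at this
  exact this.symm

private lemma Q6c_psi_natDegree (k : Type) [Field k] {σ : Type} [Fintype σ] [DecidableEq σ]
    (a : σ) (p : MvPolynomial σ k) (d : ℕ) (hp : ∀ s ∈ p.support, s a ≤ d) :
    (Q6c_psi k a p).natDegree ≤ d := by
  conv_lhs => rw [p.as_sum]
  rw [map_sum]
  refine Polynomial.natDegree_sum_le_of_forall_le _ _ fun s hs => ?_
  rw [Q6c_psi, MvPolynomial.aeval_monomial, Finsupp.prod_fintype _ _ (fun v => by simp)]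
  refine (Polynomial.natDegree_C_mul_le _ _).trans ?_
  refine (Polynomial.natDegree_prod_le _ _).trans ?_
  have h1 : ∀ v ∈ Finset.univ, ((if h : v = a then (X : (MvPolynomial {v : σ // v ≠ a} k)[X])
      else C (MvPolynomial.X ⟨v, h⟩)) ^ s v).natDegree ≤ if v = a then s v else 0 := by
    intro v _
    by_cases hv : v = a
    · simp [hv]
    · simp only [hv, dite_false, if_false, ← map_pow, Polynomial.natDegree_C, le_refl]
  refine (Finset.sum_le_sum h1).trans ?_
  rw [Finset.sum_ite_eq' Finset.univ a]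
  simpa using hp s hs

/-- The field `k(x_v, g v ≠ i₀)` is, up to quadratic extensions, algebraically closed in the
function field of the branch divisor (times an affine space). -/
theorem natDegree_le_two (k σ ι : Type) [Field k] [CharZero k] [Fintype σ] [DecidableEq σ]
    [DecidableEq ι] (g : σ → ι) (F : MvPolynomial σ k) (i₀ i₁ : ι) (hne : i₀ ≠ i₁)
    (hF : IsQuadraticIn g F i₀) (hi₀ : NoFactorFreeOf g F i₀) (hG : Quart (ell g i₁ F))
    (m : ℕ) (e : Fin m → σ) (he : Function.Injective e)
    (hrange : ∀ v, v ∈ Set.range e ↔ g v ≠ i₀) (M : Type) [Field M]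
    [Algebra (MvPolynomial (Fin m) k) M] [IsFractionRing (MvPolynomial (Fin m) k) M] :
    ∃ (κ₀ : Type) (_ : Field κ₀) (q : (KY k σ)[X]) (ρ : (KY k σ)[X] →+* κ₀) (ε₀ : M →+* κ₀),
      Irreducible q ∧ q ∣ ell g i₁ F ∧ (∀ P, ρ P = 0 ↔ q ∣ P) ∧ (∀ a : κ₀, ∃ P, ρ P = a) ∧
      (∀ p : MvPolynomial (Fin m) k, ε₀ (algebraMap (MvPolynomial (Fin m) k) M p) =
        ρ (ell g i₁ (MvPolynomial.rename e p))) ∧
      ∀ P : M[X], Irreducible P → (∃ a : κ₀, P.eval₂ ε₀ a = 0) → P.natDegree ≤ 2 := by
  classical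
  have hF0 : F ≠ 0 := by
    rintro rfl
    have := hG.ge
    rw [map_zero] at this
    simp at this
  obtain ⟨F0, hF0i, hF0F, hq⟩ := Q6c_exists_factor k σ ι g F i₁ hF0 hG.ge
  -- a variable
  have hex : ∃ a ∈ F0.vars, g a = i₀ := by
    by_contra hcon
    push Not at hcon
    exact hF0i.not_isUnit (hi₀ F0 hF0F hcon)
  obtain ⟨a0, ha0, hga0⟩ := hex
  have hdeg0 : F0.degreeOf a0 ≠ 0 := MvPolynomial.mem_vars_iff_degreeOf_ne_zero.1 ha0
  -- polynomials which do not involve `a0`
  have hndvd : ∀ p : MvPolynomial σ k, p ≠ 0 → p.degreeOf a0 = 0 → ¬ F0 ∣ p := by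
    rintro p hp hpd ⟨r, rfl⟩
    have hr : r ≠ 0 := right_ne_zero_of_mul hp
    rw [MvPolynomial.degreeOf_mul_eq hF0i.ne_zero hr] at hpd
    omega
  set q := ell g i₁ F0 with hqdef
  have : Fact (Irreducible q) := ⟨hq⟩
  set ρ : (KY k σ)[X] →+* AdjoinRoot q := AdjoinRoot.mk q with hρ
  have hρ0 : ∀ P, ρ P = 0 ↔ q ∣ P := fun P => AdjoinRoot.mk_eq_zero
  have hρs : Function.Surjective ρ := AdjoinRoot.mk_surjective
  have hnz : ∀ p : MvPolynomial σ k, ¬ F0 ∣ p → ρ (ell g i₁ p) ≠ 0 := by
    intro p hp h0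
    have h1 := ell_isCoprime k σ ι g i₁ F0 p hF0i hp
    exact hq.not_isUnit (h1.isUnit_of_dvd' dvd_rfl ((hρ0 _).1 h0))
  -- the embedding of `M`
  have hrd : ∀ p : MvPolynomial (Fin m) k, (MvPolynomial.rename e p).degreeOf a0 = 0 := by
    intro p
    by_contra h
    have h1 := MvPolynomial.mem_vars_iff_degreeOf_ne_zero.2 h
    obtain ⟨j, -, hj⟩ := Finset.mem_image.1 (MvPolynomial.vars_rename e p h1)
    exact (hrange a0).1 ⟨j, hj⟩ hga0
  set f0 : MvPolynomial (Fin m) k →+* AdjoinRoot q :=
    (ρ.comp (ell g i₁)).comp (MvPolynomial.rename e : MvPolynomial (Fin m) k →ₐ[k]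
      MvPolynomial σ k).toRingHom with hf0
  have hf0inj : Function.Injective f0 := by
    rw [injective_iff_map_eq_zero]
    intro p hp
    by_contra hp0
    have h1 : MvPolynomial.rename e p ≠ 0 := by
      intro h
      exact hp0 (MvPolynomial.rename_injective e he (by rw [h, map_zero]))
    exact hnz _ (hndvd _ h1 (hrd p)) hp
  set ε₀ : M →+* AdjoinRoot q := IsFractionRing.lift hf0inj with hε₀
  have hε₀p : ∀ p : MvPolynomial (Fin m) k, ε₀ (algebraMap (MvPolynomial (Fin m) k) M p) =
      ρ (ell g i₁ (MvPolynomial.rename e p)) := fun p => IsFractionRing.lift_algebraMap hf0inj p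
  refine ⟨AdjoinRoot q, inferInstance, q, ρ, ε₀, hq, ?_, hρ0, hρs, hε₀p, ?_⟩
  · exact (map_dvd (ell g i₁) hF0F)
  rintro P hP ⟨a, hPa⟩
  -- the generators
  set yy : σ → AdjoinRoot q := fun v => algebraMap (KY k σ) (AdjoinRoot q)
    (algebraMap (MvPolynomial (σ ⊕ σ) k) (KY k σ) (MvPolynomial.X (Sum.inl v))) with hyy
  set μ : σ → AdjoinRoot q := fun v => algebraMap (KY k σ) (AdjoinRoot q)
    (algebraMap (MvPolynomial (σ ⊕ σ) k) (KY k σ) (MvPolynomial.X (Sum.inr v))) with hμ
  set θ : AdjoinRoot q := ρ X with hθ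
  set XX : σ → AdjoinRoot q := fun v => ρ (ell g i₁ (MvPolynomial.X v)) with hXX
  have hρC : ∀ c, ρ (C c) = algebraMap (KY k σ) (AdjoinRoot q) c := fun c => by
    rw [AdjoinRoot.algebraMap_eq]
    exact AdjoinRoot.mk_C c
  have hXXv : ∀ v, XX v = yy v + if g v = i₁ then θ * μ v else 0 := by
    intro v
    have h1 : ell g i₁ (MvPolynomial.X v : MvPolynomial σ k) =
        C (algebraMap (MvPolynomial (σ ⊕ σ) k) (KY k σ) (MvPolynomial.X (Sum.inl v))) +
        if g v = i₁ then X * C (algebraMap (MvPolynomial (σ ⊕ σ) k) (KY k σ)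
          (MvPolynomial.X (Sum.inr v))) else 0 := by
      rw [ell, RingHom.comp_apply]
      have : (psi (k := k) g i₁).toRingHom (MvPolynomial.X v) =
          C (MvPolynomial.X (Sum.inl v)) +
            if g v = i₁ then X * C (MvPolynomial.X (Sum.inr v)) else 0 := by
        change psi g i₁ (MvPolynomial.X v) = _
        rw [psi, MvPolynomial.aeval_X]
      rw [this, Polynomial.coe_mapRingHom, Polynomial.map_add, Polynomial.map_C]
      split_ifs
      · rw [Polynomial.map_mul, Polynomial.map_X, Polynomial.map_C]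
      · rw [Polynomial.map_zero]
    change ρ (ell g i₁ (MvPolynomial.X v)) = _
    rw [h1, map_add, hρC]
    split_ifs
    · rw [map_mul, hρC]
    · rw [map_zero]
  have hXXp : ∀ p : MvPolynomial σ k, ρ (ell g i₁ p) = MvPolynomial.aeval XX p := by
    intro p
    have h : ρ.comp (ell g i₁) = (MvPolynomial.aeval XX : MvPolynomial σ k →ₐ[k]
        AdjoinRoot q).toRingHom := by
      apply MvPolynomial.ringHom_ext
      · intro r
        have h1 : ell g i₁ (MvPolynomial.C r : MvPolynomial σ k) =
            C (algebraMap (MvPolynomial (σ ⊕ σ) k) (KY k σ) (MvPolynomial.C r)) := by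
          rw [ell, RingHom.comp_apply]
          have : (psi (k := k) g i₁).toRingHom (MvPolynomial.C r) = C (MvPolynomial.C r) := by
            change psi g i₁ (MvPolynomial.C r) = _
            rw [psi, MvPolynomial.aeval_C]
            rfl
          rw [this, Polynomial.coe_mapRingHom, Polynomial.map_C]
        rw [RingHom.comp_apply, h1, hρC]
        change _ = MvPolynomial.aeval XX (MvPolynomial.C r)
        rw [MvPolynomial.aeval_C, IsScalarTower.algebraMap_apply k (KY k σ) (AdjoinRoot q),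
          IsScalarTower.algebraMap_apply k (MvPolynomial (σ ⊕ σ) k) (KY k σ)]
        rfl
      · intro v
        change ρ (ell g i₁ (MvPolynomial.X v)) = MvPolynomial.aeval XX (MvPolynomial.X v)
        rw [MvPolynomial.aeval_X]
    exact DFunLike.congr_fun h p
  set z : {v : σ // v ≠ a0} ⊕ Option σ → AdjoinRoot q :=
    Sum.elim (fun v => XX v.1) (fun o => o.elim θ μ) with hz
  -- everything is generated
  have htop : IntermediateField.adjoin k (insert (XX a0) (Set.range z)) = ⊤ := by
    rw [eq_top_iff]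
    intro x _
    set E := IntermediateField.adjoin k (insert (XX a0) (Set.range z)) with hE
    have hXE : ∀ v, XX v ∈ E := by
      intro v
      by_cases hv : v = a0
      · rw [hv]
        exact IntermediateField.subset_adjoin k _ (Set.mem_insert _ _)
      · exact IntermediateField.subset_adjoin k _ (Set.mem_insert_of_mem _ ⟨Sum.inl ⟨v, hv⟩, rfl⟩)
    have hμE : ∀ v, μ v ∈ E := fun v =>
      IntermediateField.subset_adjoin k _ (Set.mem_insert_of_mem _ ⟨Sum.inr (some v), rfl⟩)
    have hθE : θ ∈ E :=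
      IntermediateField.subset_adjoin k _ (Set.mem_insert_of_mem _ ⟨Sum.inr none, rfl⟩)
    have hyE : ∀ v, yy v ∈ E := by
      intro v
      have h1 : yy v = XX v - if g v = i₁ then θ * μ v else 0 := by
        rw [hXXv v]; ring
      rw [h1]
      refine sub_mem (hXE v) ?_
      split_ifs
      · exact mul_mem hθE (hμE v)
      · exact zero_mem _
    have hpE : ∀ p : MvPolynomial (σ ⊕ σ) k, algebraMap (KY k σ) (AdjoinRoot q)
        (algebraMap (MvPolynomial (σ ⊕ σ) k) (KY k σ) p) ∈ E := by
      intro p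
      induction p using MvPolynomial.induction_on with
      | C c =>
        have h1 : algebraMap (KY k σ) (AdjoinRoot q)
            (algebraMap (MvPolynomial (σ ⊕ σ) k) (KY k σ) (MvPolynomial.C c)) =
            algebraMap k (AdjoinRoot q) c := by
          rw [IsScalarTower.algebraMap_apply k (KY k σ) (AdjoinRoot q),
            IsScalarTower.algebraMap_apply k (MvPolynomial (σ ⊕ σ) k) (KY k σ)]
          rfl
        rw [h1]
        exact E.algebraMap_mem c
      | add p q hp hq =>
        rw [map_add, map_add]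
        exact add_mem hp hq
      | mul_X p j hp =>
        rw [map_mul, map_mul]
        refine mul_mem hp ?_
        rcases j with v | v
        · exact hyE v
        · exact hμE v
    have hcE : ∀ c : KY k σ, algebraMap (KY k σ) (AdjoinRoot q) c ∈ E := by
      intro c
      obtain ⟨u, v, _, rfl⟩ := IsFractionRing.div_surjective (MvPolynomial (σ ⊕ σ) k) c
      rw [map_div₀]
      exact div_mem (hpE u) (hpE v)
    obtain ⟨Q, rfl⟩ := hρs x
    rw [Polynomial.as_sum_range_C_mul_X_pow Q, map_sum]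
    refine sum_mem fun j _ => ?_
    rw [map_mul, map_pow, hρC]
    exact mul_mem (hcE _) (pow_mem hθE j)
  -- the quadratic equation
  set f := Q6c_psi k a0 F0 with hf
  have hf0' : f ≠ 0 := Q6c_psi_ne k a0 F0 hF0i.ne_zero
  have hfd : f.natDegree ≤ 2 := by
    obtain ⟨r, hr⟩ := hF0F
    have hr0 : r ≠ 0 := by
      rintro rfl
      rw [mul_zero] at hr
      exact hF0 hr
    have h1 : (Q6c_psi k a0 F).natDegree ≤ 2 := by
      refine Q6c_psi_natDegree k a0 F 2 fun s hs => ?_
      refine le_trans ?_ (hF.1 s hs)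
      exact Finset.single_le_sum (f := fun v => s v) (fun _ _ => Nat.zero_le _)
        (Finset.mem_filter.2 ⟨Finset.mem_univ a0, hga0⟩)
    rw [hr, map_mul, Polynomial.natDegree_mul hf0' (Q6c_psi_ne k a0 r hr0)] at h1
    omega
  have hzN : ∀ v : {v : σ // v ≠ a0}, XX v.1 ∈ IntermediateField.adjoin k (Set.range z) :=
    fun v => IntermediateField.subset_adjoin k _ ⟨Sum.inl v, rfl⟩
  set φN : MvPolynomial {v : σ // v ≠ a0} k →ₐ[k] IntermediateField.adjoin k (Set.range z) :=
    MvPolynomial.aeval (fun v => ⟨XX v.1, hzN v⟩) with hφN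
  have hφ : ∀ p, ((φN p : IntermediateField.adjoin k (Set.range z)) : AdjoinRoot q) =
      ρ (ell g i₁ (MvPolynomial.rename Subtype.val p)) := by
    intro p
    rw [hXXp, MvPolynomial.aeval_rename]
    have h : (IntermediateField.val _).comp φN = MvPolynomial.aeval (XX ∘ Subtype.val) := by
      apply MvPolynomial.algHom_ext
      intro v
      rw [AlgHom.comp_apply, hφN, MvPolynomial.aeval_X, MvPolynomial.aeval_X]
      rfl
    exact DFunLike.congr_fun h p
  have hR0 : f.map φN.toRingHom ≠ 0 := by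
    intro h0
    have h1 := congrArg (fun p => p.coeff f.natDegree) h0
    simp only [Polynomial.coeff_map, Polynomial.coeff_zero, Polynomial.coeff_natDegree] at h1
    have h2 : ρ (ell g i₁ (MvPolynomial.rename Subtype.val f.leadingCoeff)) = 0 := by
      rw [← hφ]
      change (((φN.toRingHom f.leadingCoeff) : IntermediateField.adjoin k (Set.range z)) :
        AdjoinRoot q) = 0
      rw [h1]
      rfl
    refine hnz _ (hndvd _ ?_ ?_) h2
    · intro h3
      have h4 : f.leadingCoeff = 0 :=
        MvPolynomial.rename_injective _ Subtype.val_injective (by rw [h3, map_zero])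
      exact hf0' (Polynomial.leadingCoeff_eq_zero.1 h4)
    · by_contra h
      have h1 := MvPolynomial.mem_vars_iff_degreeOf_ne_zero.2 h
      obtain ⟨j, -, hj⟩ := Finset.mem_image.1 (MvPolynomial.vars_rename Subtype.val _ h1)
      exact j.2 hj
  have hRy : aeval (XX a0) (f.map φN.toRingHom) = 0 := by
    have h : ((Polynomial.aeval (XX a0) : (IntermediateField.adjoin k (Set.range z))[X]
        →ₐ[IntermediateField.adjoin k (Set.range z)] AdjoinRoot q).toRingHom.comp
        (Polynomial.mapRingHom φN.toRingHom)).comp (Q6c_psi k a0).toRingHom =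
        ρ.comp (ell g i₁) := by
      apply MvPolynomial.ringHom_ext
      · intro r
        have h1 : (Q6c_psi k a0).toRingHom (MvPolynomial.C r) = C (MvPolynomial.C r) := by
          change Q6c_psi k a0 (MvPolynomial.C r) = _
          rw [Q6c_psi, MvPolynomial.aeval_C]
          rfl
        rw [RingHom.comp_apply, h1, RingHom.comp_apply, Polynomial.coe_mapRingHom,
          Polynomial.map_C, RingHom.comp_apply, hXXp, MvPolynomial.aeval_C]
        change aeval (XX a0) (C (φN (MvPolynomial.C r))) = _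
        rw [aeval_C, hφN, MvPolynomial.aeval_C]
        rfl
      · intro v
        have h1 : (Q6c_psi k a0).toRingHom (MvPolynomial.X v) =
            if h : v = a0 then X else C (MvPolynomial.X ⟨v, h⟩) := by
          change Q6c_psi k a0 (MvPolynomial.X v) = _
          rw [Q6c_psi, MvPolynomial.aeval_X]
        rw [RingHom.comp_apply, h1, RingHom.comp_apply, Polynomial.coe_mapRingHom]
        by_cases hv : v = a0
        · subst hv
          rw [dif_pos rfl, Polynomial.map_X]
          change aeval (XX v) X = _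
          rw [aeval_X]
          rfl
        · rw [dif_neg hv, Polynomial.map_C]
          change aeval (XX a0) (C (φN (MvPolynomial.X ⟨v, hv⟩))) = _
          rw [aeval_C, hφN, MvPolynomial.aeval_X]
          rfl
    have h2 := DFunLike.congr_fun h F0
    have h3 : ρ (ell g i₁ F0) = 0 := (hρ0 _).2 dvd_rfl
    rw [RingHom.comp_apply ρ, h3] at h2
    exact h2
  have hR2 : (f.map φN.toRingHom).natDegree ≤ 2 := Polynomial.natDegree_map_le.trans hfd
  -- independence
  have hzind : AlgebraicIndependent k z := by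
    have halg1 : Algebra.IsAlgebraic (MvPolynomial (σ ⊕ σ) k) (KY k σ) := by
      refine ⟨fun c => ?_⟩
      obtain ⟨u, v, _, rfl⟩ := IsFractionRing.div_surjective (MvPolynomial (σ ⊕ σ) k) c
      rw [div_eq_mul_inv]
      exact (isAlgebraic_algebraMap u).mul (isAlgebraic_algebraMap v).inv
    have hfin : FiniteDimensional (KY k σ) (AdjoinRoot q) :=
      (AdjoinRoot.powerBasis hq.ne_zero).finite
    have hb1 := (IsTranscendenceBasis.mvPolynomial (σ ⊕ σ) k).algebraMap_comp
      (A := KY k σ)
    have hb2 := hb1.algebraMap_comp (A := AdjoinRoot q)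
    have hcard := hb2.cardinalMk_eq_trdeg
    have halg2 : Algebra.IsAlgebraic (Algebra.adjoin k (Set.range z)) (AdjoinRoot q) :=
      Q6c_alg k (AdjoinRoot q) _ z fun b =>
        (Q6c_deg k (AdjoinRoot q) _ z (XX a0) htop (f.map φN.toRingHom) hR0 hR2 hRy b).1
    refine (Algebra.IsAlgebraic.isTranscendenceBasis_of_le_trdeg_of_finite k z ?_).1
    rw [← hcard, Cardinal.mk_fintype, Cardinal.mk_fintype, Nat.cast_le]
    have h1 : Fintype.card (Option {v : σ // v ≠ a0}) = Fintype.card σ :=
      Fintype.card_congr (Equiv.optionSubtypeNe a0)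
    rw [Fintype.card_option] at h1
    rw [Fintype.card_sum, Fintype.card_sum, Fintype.card_option]
    omega
  -- the field `M`
  have hea0 : ∀ j, e j ≠ a0 := fun j h => (hrange a0).1 ⟨j, h⟩ hga0
  refine Q6c_final k (AdjoinRoot q) M _ ε₀ z (XX a0)
    {j | ∃ v : {v : σ // v ≠ a0}, j = Sum.inl v ∧ g v.1 ≠ i₀} hzind htop
    (f.map φN.toRingHom) hR0 hR2 hRy ?_ ?_ P hP a hPa
  · set M0 := IntermediateField.adjoin k
      (z '' {j | ∃ v : {v : σ // v ≠ a0}, j = Sum.inl v ∧ g v.1 ≠ i₀}) with hM0
    have h1 : ∀ p : MvPolynomial (Fin m) k,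
        ε₀ (algebraMap (MvPolynomial (Fin m) k) M p) ∈ M0 := by
      intro p
      rw [hε₀p, hXXp, MvPolynomial.aeval_rename]
      induction p using MvPolynomial.induction_on with
      | C c =>
        rw [MvPolynomial.aeval_C]
        exact M0.algebraMap_mem c
      | add p q hp hq =>
        rw [map_add]
        exact add_mem hp hq
      | mul_X p j hp =>
        rw [map_mul, MvPolynomial.aeval_X]
        refine mul_mem hp (IntermediateField.subset_adjoin k _
          ⟨Sum.inl ⟨e j, hea0 j⟩, ⟨⟨e j, hea0 j⟩, rfl, (hrange _).1 ⟨j, rfl⟩⟩, rfl⟩)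
    intro x
    obtain ⟨u, v, _, rfl⟩ := IsFractionRing.div_surjective (MvPolynomial (Fin m) k) x
    rw [map_div₀]
    exact div_mem (h1 u) (h1 v)
  · intro y hy
    induction hy using IntermediateField.adjoin_induction with
    | mem y hy =>
      obtain ⟨j, ⟨v, rfl, hv⟩, rfl⟩ := hy
      obtain ⟨i, hi⟩ := (hrange v.1).2 hv
      refine ⟨algebraMap (MvPolynomial (Fin m) k) M (MvPolynomial.X i), ?_⟩
      rw [hε₀p, MvPolynomial.rename_X, hi]
      rfl
    | algebraMap c =>
      refine ⟨algebraMap (MvPolynomial (Fin m) k) M (MvPolynomial.C c), ?_⟩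
      rw [hε₀p, hXXp, MvPolynomial.rename_C, MvPolynomial.aeval_C]
    | add x y _ _ hx hy =>
      obtain ⟨u, rfl⟩ := hx
      obtain ⟨v, rfl⟩ := hy
      exact ⟨u + v, map_add _ _ _⟩
    | inv x _ hx =>
      obtain ⟨u, rfl⟩ := hx
      exact ⟨u⁻¹, map_inv₀ _ _⟩
    | mul x y _ _ hx hy =>
      obtain ⟨u, rfl⟩ := hx
      obtain ⟨v, rfl⟩ := hy
      exact ⟨u * v, map_mul _ _ _⟩

end Pool.Agent.LibHPQ
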