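import Pool.Agent.LibHPQ.Q5b
import Pool.Agent.LibHPQ.Q6b

set_option autoImplicit false

namespace Pool.Agent.LibHPQ

open Polynomial Pool.Agent.LibHP

/-- A uniformizer times a unit is not a square. -/
theorem Q6d_parity {K : Type} [Field K] (O : ValuationSubring K) (ϖ v c : K) (hϖ : IsUnif O ϖ)
    (hv : v ∈ O) (hv' : v⁻¹ ∈ O) (hv0 : v ≠ 0) (h : c ^ 2 = ϖ * v) : False := by
  obtain ⟨h1, h2, h3, h4⟩ := hϖ
  have hc0 : c ≠ 0 := by
    rintro rfl
    have : ϖ * v = 0 := by rw [← h]; ring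
    rcases mul_eq_zero.mp this with h' | h'
    · exact h2 h'
    · exact hv0 h'
  have hcO : c ∈ O := by
    rcases O.mem_or_inv_mem c with hc | hc
    · exact hc
    · exfalso
      apply h3
      have e : ϖ⁻¹ = v * (c⁻¹) ^ 2 := by
        field_simp
        linear_combination h
      rw [e]
      exact O.mul_mem _ _ hv (pow_mem hc 2)
  obtain ⟨n, u, hu, hu', e⟩ := h4 c hcO hc0
  have hu0 : u ≠ 0 := by
    rintro rfl
    apply hc0; rw [e]; ring
  rcases Nat.eq_zero_or_pos n with rfl | hn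
  · apply h3
    have e' : ϖ⁻¹ = v * (u⁻¹) ^ 2 := by
      rw [pow_zero, mul_one] at e
      subst e
      field_simp
      linear_combination h
    rw [e']
    exact O.mul_mem _ _ hv (pow_mem hu' 2)
  · apply h3
    obtain ⟨m, rfl⟩ := Nat.exists_eq_add_of_le' hn
    have e' : ϖ⁻¹ = u ^ 2 * ϖ ^ (2 * m) * v⁻¹ := by
      have h5 : ϖ * v = ϖ * (ϖ * (u ^ 2 * ϖ ^ (2 * m))) := by
        rw [← h, e]; ring
      have h6 : v = ϖ * (u ^ 2 * ϖ ^ (2 * m)) := mul_left_cancel₀ h2 h5
      field_simp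
      linear_combination h6
    rw [e']
    exact O.mul_mem _ _ (O.mul_mem _ _ (pow_mem hu 2) (pow_mem h1 _)) hv'

theorem Q6d_unit {k κ : Type} [Field k] [Field κ] {m : ℕ}
    (l : MvPolynomial (Fin m) k →+* κ[X]) (E : MvPolynomial (Fin m) k) :
    E ≠ 0 → (∀ π, Irreducible π → π ∣ E → IsUnit (l π)) → IsUnit (l E) := by
  refine WfDvdMonoid.induction_on_irreducible (motive := fun E => E ≠ 0 →
    (∀ π, Irreducible π → π ∣ E → IsUnit (l π)) → IsUnit (l E)) E ?_ ?_ ?_
  · intro h; exact absurd rfl h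
  · intro u hu _ _
    exact hu.map l
  · intro a π ha hπ ih _ hdiv
    rw [map_mul]
    exact (hdiv π hπ (dvd_mul_right _ _)).mul
      (ih ha fun π' hπ' h' => hdiv π' hπ' (h'.trans (dvd_mul_left _ _)))

/-- An element of `M` which becomes a square in `K₁` under `d` is a square. -/
theorem Q6d_square (k κ K₁ : Type) [Field k] [Field κ] [CharZero κ] [Field K₁] (m : ℕ)
    (l : MvPolynomial (Fin m) k →+* κ[X]) (hl : LineHom l) (M : Type) [Field M]
    [Algebra (MvPolynomial (Fin m) k) M] [IsFractionRing (MvPolynomial (Fin m) k) M]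
    (ε : κ →+* K₁) (τ w : K₁) (G : κ[X]) (hG : Quart G) (h : CurveField ε τ w G)
    (hlG : ∀ π, Irreducible π → IsCoprime (l π) G) (i d : M →+* K₁)
    (hi : ∀ p : MvPolynomial (Fin m) k, i (algebraMap (MvPolynomial (Fin m) k) M p) =
      (l p).eval₂ ε τ)
    (hd : ∀ p : MvPolynomial (Fin m) k, d (algebraMap (MvPolynomial (Fin m) k) M p) =
      (l p).eval₂ ε ((nn G).eval₂ ε τ / (mm G).eval₂ ε τ))
    (hcl : ∀ c : K₁, (∃ P : M[X], P ≠ 0 ∧ P.eval₂ i c = 0) → ∃ a, i a = c)
    (E : MvPolynomial (Fin m) k) :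
    E ≠ 0 → ∀ c : K₁, c ^ 2 = d (algebraMap _ M E) → ∃ e : M, e ^ 2 = algebraMap _ M E := by
  refine IsWellFounded.induction (motive := fun E : MvPolynomial (Fin m) k =>
    E ≠ 0 → ∀ c : K₁, c ^ 2 = d (algebraMap _ M E) → ∃ e : M, e ^ 2 = algebraMap _ M E)
    DvdNotUnit E ?_
  intro E ih hE c hc
  have hinj : Function.Injective (algebraMap (MvPolynomial (Fin m) k) M) :=
    IsFractionRing.injective _ _
  by_cases hex : ∃ π, Irreducible π ∧ π ∣ E ∧ ¬ IsUnit (l π)
  · obtain ⟨π, hπ, ⟨E', rfl⟩, hu⟩ := hex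
    have hE'0 : E' ≠ 0 := right_ne_zero_of_mul hE
    by_cases hdiv : π ∣ E'
    · obtain ⟨E'', rfl⟩ := hdiv
      have hE''0 : E'' ≠ 0 := right_ne_zero_of_mul hE'0
      have hdπ : d (algebraMap _ M π) ≠ 0 := by
        rw [Ne, map_eq_zero, map_eq_zero_iff _ hinj]
        exact hπ.ne_zero
      obtain ⟨e, he⟩ := ih E'' ⟨hE''0, π * π, fun hu' => hπ.not_isUnit
        (isUnit_of_mul_isUnit_left hu'), by ring⟩ hE''0 (c / d (algebraMap _ M π)) (by
          rw [div_pow, hc, map_mul, map_mul, map_mul, map_mul]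
          field_simp)
      refine ⟨algebraMap _ M π * e, ?_⟩
      rw [mul_pow, he, map_mul, map_mul]
      ring
    · exfalso
      have hirr : Irreducible (l π) := (hl.irr π hπ).resolve_left hu
      have hsep : (l π).Separable := hirr.separable
      have hdeg1 : 1 ≤ (l π).natDegree := hirr.natDegree_pos
      have hdeg := natDegree_homP G hG (l π) hsep (hlG π hπ)
      have hnu : ¬ IsUnit (homP (l π) (nn G) (mm G)) := by
        intro hu'
        have := natDegree_eq_zero_of_isUnit hu'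
        omega
      have hne : homP (l π) (nn G) (mm G) ≠ 0 := by
        intro h0
        rw [h0, natDegree_zero] at hdeg
        omega
      obtain ⟨q, hq, hqd⟩ := WfDvdMonoid.exists_irreducible_factor hnu hne
      obtain ⟨O, -, -, -, hO1, hO2, hO3⟩ := exists_valuation_hom k κ K₁ m l hl ε τ w G hG h π hπ
        (hlG π hπ) q hq hqd
      have hv1 : d (algebraMap _ M E') ∈ O := by rw [hd]; exact hO2 E'
      have hv2 : O.valuation (d (algebraMap _ M E')) = 1 := by
        refine le_antisymm ((O.valuation_le_one_iff _).mpr hv1) (not_lt.mp fun hlt => hdiv ?_)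
        rw [hd] at hlt
        exact (hO3 E').mp hlt
      have hv3 : (d (algebraMap _ M E'))⁻¹ ∈ O := by
        rw [← O.valuation_le_one_iff, map_inv₀, hv2, inv_one]
      have hv0 : d (algebraMap _ M E') ≠ 0 := by
        rw [Ne, map_eq_zero, map_eq_zero_iff _ hinj]
        exact hE'0
      refine Q6d_parity O _ _ c hO1 hv1 hv3 hv0 ?_
      rw [hc, map_mul, map_mul, hd π]
  · push Not at hex
    have hu : IsUnit (l E) := Q6d_unit l E hE hex
    obtain ⟨a, ha, hla⟩ := Polynomial.isUnit_iff.mp hu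
    have e1 : d (algebraMap _ M E) = ε a := by rw [hd, ← hla, eval₂_C]
    have e2 : i (algebraMap _ M E) = ε a := by rw [hi, ← hla, eval₂_C]
    obtain ⟨e, he⟩ := hcl c ⟨X ^ 2 - C (algebraMap _ M E),
      X_pow_sub_C_ne_zero (by norm_num) _, by
        rw [eval₂_sub, eval₂_pow, eval₂_X, eval₂_C, hc, e1, e2, sub_self]⟩
    refine ⟨e, i.injective ?_⟩
    rw [map_pow, he, hc, e1, e2]

/-- The field `d(M)` of the coordinates of `2H - 3P` is algebraically closed in `κ(τ)(w)`. -/
theorem closed_hom (k κ K₁ : Type) [Field k] [CharZero k] [Field κ] [CharZero κ] [Field K₁] (m : ℕ)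
    (l : MvPolynomial (Fin m) k →+* κ[X]) (hl : LineHom l) (M : Type) [Field M]
    [Algebra (MvPolynomial (Fin m) k) M] [IsFractionRing (MvPolynomial (Fin m) k) M]
    (ε : κ →+* K₁) (τ w : K₁) (G : κ[X]) (hG : Quart G) (h : CurveField ε τ w G)
    (hlG : ∀ π, Irreducible π → IsCoprime (l π) G) (i d : M →+* K₁)
    (hi : ∀ p : MvPolynomial (Fin m) k, i (algebraMap (MvPolynomial (Fin m) k) M p) =
      (l p).eval₂ ε τ)
    (hd : ∀ p : MvPolynomial (Fin m) k, d (algebraMap (MvPolynomial (Fin m) k) M p) =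
      (l p).eval₂ ε ((nn G).eval₂ ε τ / (mm G).eval₂ ε τ))
    (hcl : ∀ c : K₁, (∃ P : M[X], P ≠ 0 ∧ P.eval₂ i c = 0) → ∃ a, i a = c)
    (κ₀ : Type) [Field κ₀] (q : κ[X]) (hq : Irreducible q) (hqG : q ∣ G) (ρ : κ[X] →+* κ₀)
    (hρ : ∀ P, ρ P = 0 ↔ q ∣ P) (hρs : ∀ a : κ₀, ∃ P, ρ P = a) (ε₀ : M →+* κ₀)
    (hε₀ : ∀ p : MvPolynomial (Fin m) k, ε₀ (algebraMap (MvPolynomial (Fin m) k) M p) = ρ (l p))
    (h2 : ∀ P : M[X], Irreducible P → (∃ a : κ₀, P.eval₂ ε₀ a = 0) → P.natDegree ≤ 2)
    (c : K₁) (hc : ∃ P : M[X], P ≠ 0 ∧ P.eval₂ d c = 0) : ∃ a, d a = c := by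
  let _ := d.toAlgebra
  obtain ⟨P₀, hP₀, hP₀c⟩ := hc
  have hint : IsIntegral M c := isAlgebraic_iff_isIntegral.mp ⟨P₀, hP₀, hP₀c⟩
  have hirr := minpoly.irreducible hint
  have hroot : (minpoly M c).eval₂ d c = 0 := minpoly.aeval M c
  obtain ⟨a, ha⟩ := exists_root_residue k κ K₁ m l M ε τ w G hG h d hd κ₀ q hq hqG ρ hρ hρs ε₀ hε₀
    c (minpoly M c) hirr.ne_zero hroot
  have hdeg := h2 _ hirr ⟨a, ha⟩
  have hpos := minpoly.natDegree_pos hint
  have hcases : (minpoly M c).natDegree = 1 ∨ (minpoly M c).natDegree = 2 := by omega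
  rcases hcases with h1 | h1
  · exact minpoly.natDegree_eq_one_iff.mp h1
  · have hmon : (minpoly M c).coeff 2 = 1 := by
      have := minpoly.monic hint
      rw [Monic, leadingCoeff, h1] at this
      exact this
    set b := (minpoly M c).coeff 1 with hb
    set c0 := (minpoly M c).coeff 0 with hc0
    have hquad : c ^ 2 + d b * c + d c0 = 0 := by
      have := hroot
      rw [eval₂_eq_sum_range, h1, Finset.sum_range_succ, Finset.sum_range_succ,
        Finset.sum_range_succ, Finset.sum_range_zero, hmon, ← hb, ← hc0, map_one] at this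
      linear_combination this
    have htwo : (2 : K₁) ≠ 0 := by
      have : (2 : K₁) = ε 2 := (map_ofNat ε 2).symm
      rw [this, Ne, map_eq_zero]
      norm_num
    have hsq : ∃ e : M, e ^ 2 = b ^ 2 - 4 * c0 := by
      obtain ⟨r, s, hs, hrs⟩ := IsFractionRing.div_surjective (A := MvPolynomial (Fin m) k)
        (b ^ 2 - 4 * c0)
      have hs0 : algebraMap _ M s ≠ 0 := by
        rw [Ne, map_eq_zero_iff _ (IsFractionRing.injective _ _)]
        exact nonZeroDivisors.ne_zero hs
      by_cases hr : r = 0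
      · refine ⟨0, ?_⟩
        rw [← hrs, hr, map_zero, zero_div]
        ring
      · obtain ⟨e, he⟩ := Q6d_square k κ K₁ m l hl M ε τ w G hG h hlG i d hi hd hcl (r * s)
          (mul_ne_zero hr (nonZeroDivisors.ne_zero hs)) ((2 * c + d b) * d (algebraMap _ M s)) (by
            have e1 : (2 * c + d b) ^ 2 = d (b ^ 2 - 4 * c0) := by
              rw [map_sub, map_pow, map_mul]
              have : d 4 = 4 := map_ofNat d 4
              rw [this]
              linear_combination 4 * hquad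
            rw [mul_pow, e1, ← hrs, ← map_pow, ← map_mul, map_mul (algebraMap _ M) r s]
            congr 1
            field_simp)
        refine ⟨e / algebraMap _ M s, ?_⟩
        rw [div_pow, he, map_mul, ← hrs]
        field_simp
    obtain ⟨e, he⟩ := hsq
    have hfac : (2 * c + d b - d e) * (2 * c + d b + d e) = 0 := by
      have e1 : d e ^ 2 = d b ^ 2 - 4 * d c0 := by
        rw [← map_pow, he, map_sub, map_pow, map_mul]
        have : d 4 = 4 := map_ofNat d 4
        rw [this]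
      linear_combination 4 * hquad - e1
    have hd2 : d 2 = 2 := map_ofNat d 2
    rcases mul_eq_zero.mp hfac with h' | h'
    · refine ⟨(e - b) / 2, ?_⟩
      rw [map_div₀, map_sub, hd2]
      field_simp
      linear_combination -h'
    · refine ⟨(-e - b) / 2, ?_⟩
      rw [map_div₀, map_sub, map_neg, hd2]
      field_simp
      linear_combination -h'

end Pool.Agent.LibHPQ
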