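import Pool.Agent.LibHPQ.Defs
import Pool.Agent.LibHP2.A4

set_option autoImplicit false

namespace Pool.Agent.LibHPQ

open Polynomial Pool.Agent.LibHP

/-- The relative algebraic closure of `K` in `E`, through `g`. -/
theorem Q7b_closure (k K E : Type) [Field k] [Field K] [Field E] [Algebra k K] [Algebra k E]
    [Algebra.EssFiniteType k E] (g : K →+* E)
    (hg : ∀ c : k, g (algebraMap k K c) = algebraMap k E c) :
    ∃ (L' : Type) (_ : Field L') (_ : Algebra K L') (j : L' →+* E), FiniteDimensional K L' ∧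
      (∀ a : K, j (algebraMap K L' a) = g a) ∧
      ∀ z : E, (∃ P : K[X], P ≠ 0 ∧ P.eval₂ g z = 0) → ∃ a, j a = z := by
  let _ : Algebra K E := g.toAlgebra
  have : IsScalarTower k K E := IsScalarTower.of_algebraMap_eq fun c => (hg c).symm
  have : Algebra.EssFiniteType K E := Algebra.EssFiniteType.of_comp k K E
  have hfd : FiniteDimensional K (algebraicClosure K E) :=
    finiteDimensional_algebraicClosure K E
  refine ⟨algebraicClosure K E, inferInstance, inferInstance,
    algebraMap (algebraicClosure K E) E, hfd, ?_, ?_⟩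
  · intro a
    rfl
  · rintro z ⟨P, hP, hz⟩
    have h2 : IsAlgebraic K z := ⟨P, hP, hz⟩
    exact ⟨⟨z, mem_algebraicClosure_iff.mpr h2⟩, rfl⟩

theorem Q7b_trans (K L' E : Type) [Field K] [Field L'] [Field E] [Algebra K L']
    [FiniteDimensional K L'] (j : L' →+* E) (z : E) (P : L'[X]) (hP : P ≠ 0)
    (h : P.eval₂ j z = 0) :
    ∃ P0 : K[X], P0 ≠ 0 ∧ P0.eval₂ (j.comp (algebraMap K L')) z = 0 := by
  let _ : Algebra L' E := j.toAlgebra
  let _ : Algebra K E := (j.comp (algebraMap K L')).toAlgebra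
  have : IsScalarTower K L' E := IsScalarTower.of_algebraMap_eq fun _ => rfl
  have h1 : IsAlgebraic L' z := ⟨P, hP, h⟩
  obtain ⟨P0, hP0, h0⟩ := h1.restrictScalars K
  exact ⟨P0, hP0, h0⟩

/-- If `L / K` is admissible then so is the algebraic closure of `D(K)` in `L(t_1, ..., t_r)`, for
every homomorphism `D : K → K(t_1, ..., t_r)`. -/
theorem hom_step (k K L : Type) [Field k] [CharZero k] [Field K] [Field L] [Algebra k K]
    [Algebra K L] [FiniteDimensional K L] (hfg : Algebra.EssFiniteType k K) (hL : Adm k K L)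
    (r : ℕ) (D : K →+* RF K r)
    (hD : ∀ c : k, D (algebraMap k K c) = algebraMap K (RF K r) (algebraMap k K c)) :
    ∃ (L' : Type) (_ : Field L') (_ : Algebra K L') (j : L' →+* RF L r),
      FiniteDimensional K L' ∧ Adm k K L' ∧
      (∀ a : K, j (algebraMap K L' a) = rfmap (algebraMap K L) r (D a)) ∧
      ∀ z : RF L r, (∃ P : K[X], P ≠ 0 ∧ P.eval₂ ((rfmap (algebraMap K L) r).comp D) z = 0) →
        ∃ a, j a = z := by
  obtain ⟨n, ι, hcl, hιk⟩ := hL
  let _ : Algebra k L := ((algebraMap K L).comp (algebraMap k K)).toAlgebra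
  have hkL : ∀ c : k, algebraMap k L c = algebraMap K L (algebraMap k K c) := fun _ => rfl
  have : IsScalarTower k K L := IsScalarTower.of_algebraMap_eq fun _ => rfl
  have : Algebra.EssFiniteType k L := Algebra.EssFiniteType.comp k K L
  have : Algebra.EssFiniteType L (RF L r) := inferInstance
  have : Algebra.EssFiniteType k (RF L r) := Algebra.EssFiniteType.comp k L (RF L r)
  have : CharZero L := charZero_of_injective_algebraMap (algebraMap k L).injective
  have hg : ∀ c : k, ((rfmap (algebraMap K L) r).comp D) (algebraMap k K c) =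
      algebraMap k (RF L r) c := by
    intro c
    rw [RingHom.comp_apply, hD, rfmap_const, ← hkL, ← IsScalarTower.algebraMap_apply k L (RF L r)]
  obtain ⟨L', _, _, j, hfd, hj, hjcl⟩ := Q7b_closure k K (RF L r)
    ((rfmap (algebraMap K L) r).comp D) hg
  obtain ⟨Φ⟩ := exists_algEquiv_RF k n r
  refine ⟨L', inferInstance, inferInstance, j, hfd, ⟨n + r,
    ((Φ : RF (RF k n) r →+* RF k (n + r)).comp (rfmap ι r)).comp j, ?_, ?_⟩, hj, hjcl⟩
  · rintro e ⟨P, hP, he⟩
    have he1 : P.eval₂ ((rfmap ι r).comp j) (Φ.symm e) = 0 := by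
      apply Φ.injective
      rw [map_zero]
      have h1 := Polynomial.hom_eval₂ P ((rfmap ι r).comp j)
        (Φ : RF (RF k n) r →+* RF k (n + r)) (Φ.symm e)
      have h2 : (Φ : RF (RF k n) r →+* RF k (n + r)) (Φ.symm e) = e := Φ.apply_symm_apply e
      rw [h2, ← RingHom.comp_assoc, he] at h1
      exact h1
    have hP' : P.map j ≠ 0 := (Polynomial.map_ne_zero_iff j.injective).mpr hP
    obtain ⟨z, hz⟩ := mem_range_rfmap ι hcl r (Φ.symm e) (P.map j) hP' (by
      rw [Polynomial.eval₂_map]; exact he1)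
    have hz0 : P.eval₂ j z = 0 := by
      apply (rfmap ι r).injective
      rw [Polynomial.hom_eval₂, hz, map_zero]
      exact he1
    obtain ⟨P0, hP0, h0⟩ := Q7b_trans K L' (RF L r) j z P hP hz0
    have hjc : j.comp (algebraMap K L') = (rfmap (algebraMap K L) r).comp D := RingHom.ext hj
    rw [hjc] at h0
    obtain ⟨a, ha⟩ := hjcl z ⟨P0, hP0, h0⟩
    refine ⟨a, ?_⟩
    change Φ (rfmap ι r (j a)) = e
    rw [ha, hz]
    exact Φ.apply_symm_apply e
  · intro c
    change Φ (rfmap ι r (j (algebraMap K L' (algebraMap k K c)))) = _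
    rw [hj, hg, IsScalarTower.algebraMap_apply k L (RF L r), rfmap_const, hkL, hιk,
      ← IsScalarTower.algebraMap_apply k (RF k n) (RF (RF k n) r)]
    exact Φ.commutes c

/-- The field `k` is algebraically closed in `k(x_1, ..., x_n)`. -/
theorem Q7b_const (k : Type) [Field k] [CharZero k] (n : ℕ) (e : RF k n)
    (he : ∃ P : Polynomial k, P ≠ 0 ∧ P.eval₂ (algebraMap k (RF k n)) e = 0) :
    ∃ c : k, algebraMap k (RF k n) c = e := by
  classical
  obtain ⟨P, hP, hPe⟩ := he
  have h1 : IsAlgebraic k e := ⟨P, hP, hPe⟩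
  have h2 : IsIntegral (MvPolynomial (Fin n) k) e := h1.isIntegral.tower_top
  obtain ⟨p, hp⟩ := (IsIntegrallyClosed.isIntegral_iff (K := RF k n)).1 h2
  have h3 : P.eval₂ (algebraMap k (MvPolynomial (Fin n) k)) p = 0 := by
    apply IsFractionRing.injective (MvPolynomial (Fin n) k) (RF k n)
    rw [Polynomial.hom_eval₂, map_zero, hp, ← IsScalarTower.algebraMap_eq]
    exact hPe
  have h4 : ∀ a : Fin n → k, MvPolynomial.eval a p ∈ P.roots.toFinset := by
    intro a
    rw [Multiset.mem_toFinset, Polynomial.mem_roots hP, Polynomial.IsRoot]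
    have h5 := congrArg (MvPolynomial.eval a) h3
    rw [Polynomial.hom_eval₂, map_zero] at h5
    have h6 : (MvPolynomial.eval a).comp (algebraMap k (MvPolynomial (Fin n) k)) =
        RingHom.id k := by
      ext c
      simp
    rw [h6] at h5
    simpa using h5
  have h7 : ∏ c ∈ P.roots.toFinset, (p - MvPolynomial.C c) = 0 := by
    apply MvPolynomial.funext
    intro a
    rw [map_prod, map_zero]
    refine Finset.prod_eq_zero (h4 a) ?_
    rw [map_sub, MvPolynomial.eval_C, sub_self]
  obtain ⟨c, -, hc⟩ := Finset.prod_eq_zero_iff.1 h7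
  refine ⟨c, ?_⟩
  rw [← hp, sub_eq_zero.1 hc, IsScalarTower.algebraMap_apply k (MvPolynomial (Fin n) k) (RF k n)]
  rfl

/-- `K(t)` is algebraically closed in no proper... : a field algebraically closed in `K` is
algebraically closed in `K(t_1, ..., t_r)`. -/
theorem closed_RF (M K : Type) [Field M] [Field K] [CharZero K] (i : M →+* K)
    (hcl : ∀ c : K, (∃ P : M[X], P ≠ 0 ∧ P.eval₂ i c = 0) → ∃ a, i a = c) (r : ℕ)
    (c : RF K r) (hc : ∃ P : M[X], P ≠ 0 ∧ P.eval₂ ((algebraMap K (RF K r)).comp i) c = 0) :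
    ∃ a, algebraMap K (RF K r) (i a) = c := by
  obtain ⟨P, hP, hPc⟩ := hc
  obtain ⟨d, hd⟩ := Q7b_const K r c ⟨P.map i, (Polynomial.map_ne_zero_iff i.injective).mpr hP, by
    rw [Polynomial.eval₂_map]; exact hPc⟩
  obtain ⟨a, ha⟩ := hcl d ⟨P, hP, by
    apply (algebraMap K (RF K r)).injective
    rw [Polynomial.hom_eval₂, hd, map_zero]
    exact hPc⟩
  exact ⟨a, by rw [ha, hd]⟩

/-- `[L(t) : K(t)] ≤ [L : K]`, and `L(t)` is generated by `K(t)` and `L`. -/
theorem finrank_RF (K L : Type) [Field K] [Field L] [Algebra K L] [FiniteDimensional K L]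
    (r : ℕ) [Algebra (RF K r) (RF L r)]
    (h : ∀ z, algebraMap (RF K r) (RF L r) z = rfmap (algebraMap K L) r z) :
    FiniteDimensional (RF K r) (RF L r) ∧
      Module.finrank (RF K r) (RF L r) ≤ Module.finrank K L ∧
      Subfield.closure (Set.range (algebraMap (RF K r) (RF L r)) ∪
        Set.range (algebraMap L (RF L r))) = ⊤ := by
  have hKL : ∀ a : K, algebraMap K (RF L r) a = algebraMap L (RF L r) (algebraMap K L a) :=
    fun a => IsScalarTower.algebraMap_apply K L (RF L r) a
  have : IsScalarTower K (RF K r) (RF L r) := IsScalarTower.of_algebraMap_eq fun a => by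
    rw [h, rfmap_const, hKL]
  -- the values on polynomials
  have hpoly : ∀ (S : Set (RF L r)) (hadd : ∀ x ∈ S, ∀ y ∈ S, x + y ∈ S)
      (hmul : ∀ x ∈ S, ∀ y ∈ S, x * y ∈ S)
      (h1 : ∀ z, algebraMap (RF K r) (RF L r) z ∈ S) (h2 : ∀ z, algebraMap L (RF L r) z ∈ S)
      (p : MvPolynomial (Fin r) L), algebraMap (MvPolynomial (Fin r) L) (RF L r) p ∈ S := by
    intro S hadd hmul h1 h2 p
    induction p using MvPolynomial.induction_on with
    | C a =>
      have h3 : algebraMap (MvPolynomial (Fin r) L) (RF L r) (MvPolynomial.C a) =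
          algebraMap L (RF L r) a :=
        (IsScalarTower.algebraMap_apply L (MvPolynomial (Fin r) L) (RF L r) a).symm
      rw [h3]
      exact h2 _
    | add p q hp hq =>
      rw [map_add]
      exact hadd _ hp _ hq
    | mul_X p i hp =>
      rw [map_mul]
      refine hmul _ hp _ ?_
      have h3 := h1 (algebraMap (MvPolynomial (Fin r) K) (RF K r) (MvPolynomial.X i))
      rwa [h, rfmap_algebraMap, MvPolynomial.map_X] at h3
  let Ψ : TensorProduct K (RF K r) L →ₐ[RF K r] RF L r :=
    Algebra.TensorProduct.lift (Algebra.ofId (RF K r) (RF L r))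
      (IsScalarTower.toAlgHom K L (RF L r)) (fun _ _ => Commute.all _ _)
  have hΨ : ∀ a : L, Ψ (1 ⊗ₜ a) = algebraMap L (RF L r) a := by
    intro a
    change Algebra.TensorProduct.lift _ _ _ _ = _
    rw [Algebra.TensorProduct.lift_tmul, map_one, one_mul]
    rfl
  have hfin : Module.Finite (RF K r) (TensorProduct K (RF K r) L) := inferInstance
  have hT : Module.Finite (RF K r) Ψ.range :=
    Module.Finite.of_surjective Ψ.rangeRestrict.toLinearMap Ψ.rangeRestrict_surjective
  have hint : ∀ x ∈ Ψ.range, IsAlgebraic (RF K r) x := by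
    intro x hx
    have h1 : IsIntegral (RF K r) (⟨x, hx⟩ : Ψ.range) := Algebra.IsIntegral.isIntegral _
    exact (h1.map Ψ.range.val).isAlgebraic
  have htop : ∀ z, z ∈ Ψ.range := by
    intro z
    have hp := hpoly (Ψ.range : Set (RF L r)) (fun x hx y hy => add_mem hx hy)
      (fun x hx y hy => mul_mem hx hy) (fun z => Ψ.range.algebraMap_mem z)
      (fun a => ⟨1 ⊗ₜ a, hΨ a⟩)
    obtain ⟨p, q, _, rfl⟩ := IsFractionRing.div_surjective (A := MvPolynomial (Fin r) L) z
    rw [div_eq_mul_inv]
    refine mul_mem (hp p) ?_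
    exact Ψ.range.inv_mem_of_algebraic (x := ⟨_, hp q⟩) (hint _ (hp q))
  have hsurj : Function.Surjective Ψ.toLinearMap := fun z => htop z
  have hfd : FiniteDimensional (RF K r) (RF L r) := Module.Finite.of_surjective _ hsurj
  refine ⟨hfd, ?_, ?_⟩
  · have h1 := LinearMap.finrank_le_finrank_of_surjective hsurj
    rwa [Module.finrank_baseChange] at h1
  · rw [eq_top_iff]
    intro z _
    have hp := hpoly (Subfield.closure (Set.range (algebraMap (RF K r) (RF L r)) ∪
        Set.range (algebraMap L (RF L r))) : Set (RF L r)) (fun x hx y hy => add_mem hx hy)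
      (fun x hx y hy => mul_mem hx hy)
      (fun z => Subfield.subset_closure (Or.inl ⟨z, rfl⟩))
      (fun a => Subfield.subset_closure (Or.inr ⟨a, rfl⟩))
    obtain ⟨p, q, _, rfl⟩ := IsFractionRing.div_surjective (A := MvPolynomial (Fin r) L) z
    exact div_mem (hp p) (hp q)

end Pool.Agent.LibHPQ
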