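import Pool.Agent.LibHPQ.Defs
import Pool.Agent.LibHP2.R1
import Pool.Agent.LibHP2.R2

set_option autoImplicit false

namespace Pool.Agent.LibHPQ

open Polynomial Pool.Agent.LibHP

section abs

variable {kA kO kN : Type} [Field kA] [CharZero kA] [Field kO] [Field kN] {Rb : Type} [CommRing Rb]
  (σO : kA →+* kO) (σN : kA →+* kN) (ρO : kO →+* Rb) (ρN : kN →+* Rb)

/-- Elements of the form `A(t)`. -/
def Q7d_Good (x : Rb) : Prop := ∃ (t : kN) (A : kO[X]), x = A.eval₂ ρO (ρN t)

variable {ρO ρN}

theorem Q7d_merge (hc : ∀ c, ρO (σO c) = ρN (σN c))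
    (halg : ∀ t : kN, ∃ P : kA[X], P ≠ 0 ∧ P.eval₂ σN t = 0) {x y : Rb}
    (hx : Q7d_Good ρO ρN x) (hy : Q7d_Good ρO ρN y) :
    ∃ (t : kN) (A B : kO[X]), x = A.eval₂ ρO (ρN t) ∧ y = B.eval₂ ρO (ρN t) := by
  let _ : Algebra kA kN := σN.toAlgebra
  obtain ⟨t1, A1, h1⟩ := hx
  obtain ⟨t2, A2, h2⟩ := hy
  have ha : ∀ t : kN, IsAlgebraic kA t := by
    intro t
    obtain ⟨P, hP, hP0⟩ := halg t
    exact ⟨P, hP, hP0⟩
  obtain ⟨t, -, ht1, ht2⟩ := R2_prim kA kN t1 t2 (ha t1) (ha t2)
  rw [Algebra.adjoin_singleton_eq_range_aeval] at ht1 ht2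
  obtain ⟨p1, hp1⟩ := ht1
  obtain ⟨p2, hp2⟩ := ht2
  have key : ∀ (p : kA[X]) (s : kN) (A : kO[X]), aeval t p = s →
      A.eval₂ ρO (ρN s) = (A.comp (p.map σO)).eval₂ ρO (ρN t) := by
    intro p s A hs
    rw [Polynomial.eval₂_comp, Polynomial.eval₂_map]
    congr 1
    rw [← hs, Polynomial.aeval_def, Polynomial.hom_eval₂]
    congr 1
    ext c
    exact (hc c).symm
  exact ⟨t, A1.comp (p1.map σO), A2.comp (p2.map σO), by rw [h1]; exact key p1 t1 A1 hp1,
    by rw [h2]; exact key p2 t2 A2 hp2⟩

theorem Q7d_split (hc : ∀ c, ρO (σO c) = ρN (σN c))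
    (halg : ∀ t : kN, ∃ P : kA[X], P ≠ 0 ∧ P.eval₂ σN t = 0) {x : Rb}
    (hx : Q7d_Good ρO ρN x) : ∃ e u w : Rb, e * x = 0 ∧ u * x + w * e = 1 := by
  classical
  let _ : Algebra kA kN := σN.toAlgebra
  obtain ⟨t, A, hA⟩ := hx
  have ha : IsAlgebraic kA t := by
    obtain ⟨P, hP, hP0⟩ := halg t
    exact ⟨P, hP, hP0⟩
  set f : kO[X] := (minpoly kA t).map σO with hf
  have hsep : f.Separable := by
    rw [hf]
    exact (minpoly.irreducible ha.isIntegral).separable.map
  have hf0 : f.eval₂ ρO (ρN t) = 0 := by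
    rw [hf, Polynomial.eval₂_map]
    have h1 : ρO.comp σO = ρN.comp (algebraMap kA kN) := by
      ext c; exact hc c
    rw [h1, ← Polynomial.hom_eval₂]
    have h2 : (minpoly kA t).eval₂ (algebraMap kA kN) t = 0 := minpoly.aeval kA t
    rw [h2, map_zero]
  obtain ⟨e, he⟩ := EuclideanDomain.gcd_dvd_right A f
  obtain ⟨s, hs⟩ := EuclideanDomain.gcd_dvd_left A f
  have hbz := EuclideanDomain.gcd_eq_gcd_ab A f
  generalize EuclideanDomain.gcd A f = d at he hs hbz
  have hcop : IsCoprime d e := by
    apply Polynomial.Separable.isCoprime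
    rw [← he]; exact hsep
  obtain ⟨a, b, hab⟩ := hcop
  let ev : kO[X] →+* Rb := Polynomial.eval₂RingHom ρO (ρN t)
  have hev : ∀ p : kO[X], ev p = p.eval₂ ρO (ρN t) := fun p => rfl
  refine ⟨ev e, ev (a * EuclideanDomain.gcdA A f), ev b, ?_, ?_⟩
  · rw [hA, ← hev, ← map_mul]
    have : e * A = s * f := by rw [he]; nth_rewrite 1 [hs]; ring
    rw [this, map_mul, hev f, hf0, mul_zero]
  · rw [hA, ← hev, ← map_mul, ← map_mul, ← map_add]
    have : a * EuclideanDomain.gcdA A f * A + b * e = 1 - a * (f * EuclideanDomain.gcdB A f) := by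
      linear_combination hab - a * hbz
    rw [this, map_sub, map_one, map_mul, map_mul, hev f, hf0]
    ring

end abs

/-- The map of a valuation ring to a valuation ring above it. -/
noncomputable def Q7d_hom {K1 K2 : Type} [Field K1] [Field K2] (O1 : ValuationSubring K1)
    (O2 : ValuationSubring K2) (f : K1 →+* K2) (h : ∀ x, f x ∈ O2 ↔ x ∈ O1) : O1 →+* O2 :=
  (f.comp O1.subtype).codRestrict O2 (fun x => (h x).mpr x.2)

theorem Q7d_hom_coe {K1 K2 : Type} [Field K1] [Field K2] (O1 : ValuationSubring K1)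
    (O2 : ValuationSubring K2) (f : K1 →+* K2) (h : ∀ x, f x ∈ O2 ↔ x ∈ O1) (x : O1) :
    ((Q7d_hom O1 O2 f h x : O2) : K2) = f x := rfl

theorem Q7d_local {K1 K2 : Type} [Field K1] [Field K2] (O1 : ValuationSubring K1)
    (O2 : ValuationSubring K2) (f : K1 →+* K2) (h : ∀ x, f x ∈ O2 ↔ x ∈ O1) :
    IsLocalHom (Q7d_hom O1 O2 f h) := by
  constructor
  intro a ha
  rw [R1_isUnit_iff] at ha ⊢
  rw [Q7d_hom_coe, ← map_inv₀, h] at ha
  exact ⟨ha.1, fun h0 => ha.2 (by rw [h0, map_zero])⟩

/-- A power of the uniformizer clears the denominator. -/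
theorem Q7d_clear {K : Type} [Field K] (O : ValuationSubring K) (π : K) (hπ : IsUnif O π) (a : K) :
    ∃ m : ℕ, π ^ m * a ∈ O := by
  by_cases ha : a ∈ O
  · exact ⟨0, by simpa using ha⟩
  · have ha' : a⁻¹ ∈ O := (O.mem_or_inv_mem a).resolve_left ha
    have ha0 : a ≠ 0 := by
      rintro rfl
      exact ha O.zero_mem
    obtain ⟨m, u, hu, hui, hau⟩ := hπ.2.2.2 a⁻¹ ha' (inv_ne_zero ha0)
    refine ⟨m, ?_⟩
    have hu0 : u ≠ 0 := by
      rintro rfl
      rw [zero_mul] at hau
      exact ha0 (by simpa using hau)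
    have h1 : π ^ m * a = u⁻¹ := by
      have h2 : a⁻¹ * a = 1 := inv_mul_cancel₀ ha0
      rw [hau] at h2
      field_simp
      linear_combination h2
    rw [h1]; exact hui

/-- The residue field of a valuation ring of a finite extension is algebraic over the residue
field below. -/
theorem Q7d_alg {M N : Type} [Field M] [Field N] [Algebra M N] [FiniteDimensional M N]
    (A : ValuationSubring M) (B : ValuationSubring N) (h : ∀ x, algebraMap M N x ∈ B ↔ x ∈ A)
    (σ : IsLocalRing.ResidueField A →+* IsLocalRing.ResidueField B)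
    (hσ : ∀ a, σ (IsLocalRing.residue A a) =
      IsLocalRing.residue B (Q7d_hom A B (algebraMap M N) h a))
    (t : IsLocalRing.ResidueField B) :
    ∃ P : (IsLocalRing.ResidueField A)[X], P ≠ 0 ∧ P.eval₂ σ t = 0 := by
  classical
  obtain ⟨n, rfl⟩ := IsLocalRing.residue_surjective t
  have hint : IsIntegral M (n : N) := Algebra.IsIntegral.isIntegral _
  set F := minpoly M (n : N) with hF
  have hF0 : F ≠ 0 := minpoly.ne_zero hint
  have hne : F.support.Nonempty := Polynomial.nonempty_support_iff.mpr hF0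
  obtain ⟨k, hk, hmax⟩ := Finset.exists_max_image F.support (fun i => A.valuation (F.coeff i)) hne
  have hk0 : F.coeff k ≠ 0 := Polynomial.mem_support_iff.mp hk
  have hmem : ∀ i, F.coeff i / F.coeff k ∈ A := by
    intro i
    rw [← A.valuation_le_one_iff, map_div₀]
    by_cases hi : F.coeff i = 0
    · rw [hi, map_zero, zero_div]; exact zero_le_one
    · have h1 := hmax i (Polynomial.mem_support_iff.mpr hi)
      have h2 : A.valuation (F.coeff k) ≠ 0 := by simpa using hk0
      exact div_le_one_of_le₀ h1 zero_le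
  set G : A[X] := ∑ i ∈ Finset.range (F.natDegree + 1),
    Polynomial.monomial i (⟨F.coeff i / F.coeff k, hmem i⟩ : A) with hG
  have hkd : k ∈ Finset.range (F.natDegree + 1) := by
    rw [Finset.mem_range]
    exact Nat.lt_succ_of_le (Polynomial.le_natDegree_of_ne_zero hk0)
  have hGk : G.coeff k = 1 := by
    rw [hG, Polynomial.finsetSum_coeff]
    simp only [Polynomial.coeff_monomial]
    rw [Finset.sum_ite_eq' (Finset.range (F.natDegree + 1)) k, if_pos hkd]
    apply Subtype.ext
    show F.coeff k / F.coeff k = 1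
    exact div_self hk0
  refine ⟨G.map (IsLocalRing.residue A), ?_, ?_⟩
  · intro h0
    have h1 := congrArg (fun p => Polynomial.coeff p k) h0
    simp only [Polynomial.coeff_map, hGk, map_one, Polynomial.coeff_zero] at h1
    exact one_ne_zero h1
  · rw [Polynomial.eval₂_map]
    have h1 : σ.comp (IsLocalRing.residue A) =
        (IsLocalRing.residue B).comp (Q7d_hom A B (algebraMap M N) h) := by
      ext a; exact hσ a
    rw [h1, ← Polynomial.hom_eval₂]
    have h2 : G.eval₂ (Q7d_hom A B (algebraMap M N) h) n = 0 := by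
      apply Subtype.ext
      have h3 : ((G.eval₂ (Q7d_hom A B (algebraMap M N) h) n : B) : N) =
          ∑ i ∈ Finset.range (F.natDegree + 1), algebraMap M N (F.coeff i / F.coeff k) * (n : N) ^ i := by
        rw [hG, Polynomial.eval₂_finsetSum]
        rw [AddSubmonoidClass.coe_finsetSum]
        refine Finset.sum_congr rfl fun i _ => ?_
        rw [Polynomial.eval₂_monomial]
        rfl
      rw [h3]
      have h4 : aeval (n : N) F = 0 := minpoly.aeval M (n : N)
      rw [Polynomial.aeval_eq_sum_range] at h4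
      have h5 : ∑ i ∈ Finset.range (F.natDegree + 1), algebraMap M N (F.coeff i / F.coeff k) * (n : N) ^ i =
          (algebraMap M N (F.coeff k))⁻¹ * ∑ i ∈ Finset.range (F.natDegree + 1), F.coeff i • (n : N) ^ i := by
        rw [Finset.mul_sum]
        refine Finset.sum_congr rfl fun i _ => ?_
        rw [map_div₀, Algebra.smul_def]
        field_simp
      rw [h5, h4, mul_zero]
      rfl
    rw [h2, map_zero]

/-- Denominators of elements of a finite extension. -/
theorem Q7d_clearN {M N : Type} [Field M] [Field N] [Algebra M N] [FiniteDimensional M N]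
    (A : ValuationSubring M) (B : ValuationSubring N) (h : ∀ x, algebraMap M N x ∈ B ↔ x ∈ A)
    (π : M) (hπ : IsUnif A π) (n : N) : ∃ m : ℕ, algebraMap M N π ^ m * n ∈ B := by
  by_cases hn : B.valuation n ≤ 1
  · exact ⟨0, by rw [pow_zero, one_mul]; exact (B.valuation_le_one_iff _).mp hn⟩
  push Not at hn
  have hint : IsIntegral M n := Algebra.IsIntegral.isIntegral _
  set F := minpoly M n with hF
  have hmon : F.Monic := minpoly.monic hint
  have h4 : aeval n F = 0 := minpoly.aeval M n
  rw [Polynomial.aeval_eq_sum_range, Finset.sum_range_succ, hmon.coeff_natDegree, one_smul] at h4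
  have hex : ∃ i ∈ Finset.range F.natDegree, B.valuation n ≤ B.valuation (algebraMap M N (F.coeff i)) := by
    by_contra hc
    push Not at hc
    have hv0 : B.valuation n ≠ 0 := (lt_trans zero_lt_one hn).ne'
    have h5 : B.valuation (∑ i ∈ Finset.range F.natDegree, F.coeff i • n ^ i) < B.valuation (n ^ F.natDegree) := by
      apply Valuation.map_sum_lt
      · rw [map_pow]; exact pow_ne_zero _ hv0
      · intro i hi
        rw [Algebra.smul_def, map_mul, map_pow, map_pow]
        calc B.valuation (algebraMap M N (F.coeff i)) * B.valuation n ^ i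
            < B.valuation n * B.valuation n ^ i :=
              mul_lt_mul_of_pos_right (hc i hi) (zero_lt_iff.mpr (pow_ne_zero _ hv0))
          _ = B.valuation n ^ (i + 1) := (pow_succ' _ _).symm
          _ ≤ B.valuation n ^ F.natDegree :=
              pow_le_pow_right₀ hn.le (Finset.mem_range.mp hi)
    have h6 : ∑ i ∈ Finset.range F.natDegree, F.coeff i • n ^ i = - n ^ F.natDegree :=
      eq_neg_of_add_eq_zero_left h4
    rw [h6, Valuation.map_neg] at h5
    exact lt_irrefl _ h5
  obtain ⟨i, -, hi⟩ := hex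
  obtain ⟨m, hm⟩ := Q7d_clear A π hπ (F.coeff i)
  refine ⟨m, ?_⟩
  rw [← B.valuation_le_one_iff]
  have h7 := (B.valuation_le_one_iff _).mpr ((h _).mpr hm)
  refine le_trans ?_ h7
  have e : B.valuation (algebraMap M N (π ^ m * F.coeff i)) =
      B.valuation (algebraMap M N π ^ m) * B.valuation (algebraMap M N (F.coeff i)) := by
    rw [map_mul, map_mul, map_pow]
  rw [e, map_mul]
  exact mul_le_mul_right hi _

theorem Q7d_valuation_lt {K : Type} [Field K] (O : ValuationSubring K) (π : K) (hπ : IsUnif O π) :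
    O.valuation π < 1 := by
  rw [R1_lt_one_iff]
  exact Or.inr hπ.2.2.1

/-- Unramified extensions stay unramified after a base change of ramification index one. -/
theorem unram_base_change (M K L N : Type) [Field M] [CharZero M] [Field K] [Field L] [Field N]
    [Algebra K L] [FiniteDimensional K L] [Algebra M N] [FiniteDimensional M N] (i : M →+* K)
    (j : N →+* L) (hj : ∀ c, j (algebraMap M N c) = algebraMap K L (i c))
    (hgen : Subfield.closure (Set.range (algebraMap K L) ∪ Set.range j) = ⊤)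
    (O : ValuationSubring K) (hQ : ∀ n : ℕ, n ≠ 0 → ((n : K)⁻¹) ∈ O) (π : M)
    (hπ : IsUnif O (i π)) (hπ1 : IsUnif (O.comap i) π) (W : ValuationSubring L)
    (hW : W.comap (algebraMap K L) = O) (hN : Unram (W.comap j) (algebraMap M N π)) :
    Unram W (algebraMap K L (i π)) := by
  classical
  set A : ValuationSubring M := O.comap i with hA
  set B : ValuationSubring N := W.comap j with hB
  have hOW : ∀ a : K, algebraMap K L a ∈ W ↔ a ∈ O := by
    intro a
    rw [← hW]
    exact Iff.rfl
  have hAO : ∀ a : M, i a ∈ O ↔ a ∈ A := fun a => Iff.rfl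
  have hBW : ∀ n : N, j n ∈ W ↔ n ∈ B := fun n => Iff.rfl
  have hAB : ∀ a : M, algebraMap M N a ∈ B ↔ a ∈ A := by
    intro a
    rw [← hBW, hj, hOW, hAO]
  -- characteristic zero
  have hchar : CharZero (IsLocalRing.ResidueField A) := by
    refine charZero_of_inj_zero fun n hn => ?_
    by_contra hne
    have h1 : IsLocalRing.residue A (n : A) = 0 := by rw [map_natCast]; exact hn
    rw [IsLocalRing.residue_eq_zero_iff, IsLocalRing.mem_maximalIdeal, mem_nonunits_iff,
      R1_isUnit_iff] at h1
    apply h1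
    refine ⟨?_, ?_⟩
    · show i _ ∈ O
      rw [map_inv₀]
      have : i ((n : A) : M) = (n : K) := by simp
      rw [this]; exact hQ n hne
    · have : ((n : A) : M) = (n : M) := by simp
      rw [this]; exact_mod_cast hne
  -- the uniformizer
  set π' : L := algebraMap K L (i π) with hπ'
  have hπ0 : i π ≠ 0 := hπ.2.1
  have hπ'0 : π' ≠ 0 := by rw [hπ']; simpa using hπ0
  have hv0 : W.valuation π' ≠ 0 := by simpa using hπ'0
  have hvπ : W.valuation π' < 1 := by
    rw [R1_lt_one_iff]
    right
    rw [hπ', ← map_inv₀, hOW]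
    exact hπ.2.2.1
  -- the ring `R`
  set R : Subring L := Subring.closure
    (Set.range (fun a : O => algebraMap K L (a : K)) ∪ Set.range (fun n : B => j (n : N))) with hR
  have hRW : ∀ x ∈ R, x ∈ W := by
    intro x hx
    have : R ≤ W.toSubring := by
      rw [hR, Subring.closure_le]
      rintro y (⟨a, rfl⟩ | ⟨n, rfl⟩)
      · exact (hOW a).mpr a.2
      · exact (hBW n).mpr n.2
    exact this hx
  have hRv : ∀ x : R, W.valuation (x : L) ≤ 1 := fun x =>
    (W.valuation_le_one_iff _).mpr (hRW x x.2)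
  let hO : O →+* R := ((algebraMap K L).comp O.subtype).codRestrict R
    (fun a => Subring.subset_closure (Or.inl ⟨a, rfl⟩))
  let hB' : B →+* R := (j.comp B.subtype).codRestrict R
    (fun n => Subring.subset_closure (Or.inr ⟨n, rfl⟩))
  have hOc : ∀ a : O, ((hO a : R) : L) = algebraMap K L a := fun a => rfl
  have hBc : ∀ n : B, ((hB' n : R) : L) = j n := fun n => rfl
  set πR : R := hO ⟨i π, hπ.1⟩ with hπR
  have hπRc : (πR : L) = π' := rfl
  set I : Ideal R := Ideal.span {πR} with hI
  let mk : R →+* R ⧸ I := Ideal.Quotient.mk I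
  have hπI : πR ∈ I := Ideal.subset_span rfl
  -- maps from the residue fields
  have hOker : ∀ a ∈ IsLocalRing.maximalIdeal O, (mk.comp hO) a = 0 := by
    intro a ha
    rw [RingHom.comp_apply]
    apply Ideal.Quotient.eq_zero_iff_mem.mpr
    by_cases ha0 : a = 0
    · rw [ha0, map_zero]; exact I.zero_mem
    obtain ⟨n, u, hu, hui, hau⟩ := hπ.2.2.2 (a : K) a.2 (by simpa using ha0)
    rcases n with _ | n
    · exfalso
      rw [pow_zero, mul_one] at hau
      rw [IsLocalRing.mem_maximalIdeal, mem_nonunits_iff, R1_isUnit_iff] at ha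
      exact ha ⟨by rw [hau]; exact hui, by simpa using ha0⟩
    · have : a = ⟨u, hu⟩ * ⟨i π, hπ.1⟩ ^ n * ⟨i π, hπ.1⟩ := by
        apply Subtype.ext
        show (a : K) = u * (i π) ^ n * i π
        rw [hau, pow_succ]; ring
      rw [this, map_mul]
      exact I.mul_mem_left _ hπI
  have hBker : ∀ n ∈ IsLocalRing.maximalIdeal B, (mk.comp hB') n = 0 := by
    intro n hn
    rw [RingHom.comp_apply]
    apply Ideal.Quotient.eq_zero_iff_mem.mpr
    have h1 : B.valuation (n : N) < 1 := by
      rw [IsLocalRing.mem_maximalIdeal, mem_nonunits_iff, R1_isUnit_iff] at hn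
      rw [R1_lt_one_iff]
      by_cases h0 : (n : N) = 0
      · exact Or.inl h0
      · exact Or.inr fun h => hn ⟨h, h0⟩
    have h2 := hN (n : N) h1
    have hπN0 : algebraMap M N π ≠ 0 := by
      intro h0
      have h3 := hj π
      rw [h0, map_zero] at h3
      exact hπ'0 h3.symm
    have h3 : (n : N) / algebraMap M N π ∈ B := by
      rw [← B.valuation_le_one_iff, map_div₀]
      exact div_le_one_of_le₀ h2 zero_le
    have h4 : hB' n = hB' ⟨_, h3⟩ * πR := by
      apply Subtype.ext
      show j (n : N) = j ((n : N) / algebraMap M N π) * π'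
      rw [hπ', ← hj, ← map_mul, div_mul_cancel₀ _ hπN0]
    rw [h4]
    exact I.mul_mem_left _ hπI
  let ρO : IsLocalRing.ResidueField O →+* R ⧸ I :=
    Ideal.Quotient.lift (IsLocalRing.maximalIdeal O) (mk.comp hO) hOker
  let ρN : IsLocalRing.ResidueField B →+* R ⧸ I :=
    Ideal.Quotient.lift (IsLocalRing.maximalIdeal B) (mk.comp hB') hBker
  have hρO : ∀ a : O, ρO (IsLocalRing.residue O a) = mk (hO a) := fun a => rfl
  have hρN : ∀ n : B, ρN (IsLocalRing.residue B n) = mk (hB' n) := fun n => rfl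
  have := Q7d_local A O i hAO
  have := Q7d_local A B (algebraMap M N) hAB
  let σO : IsLocalRing.ResidueField A →+* IsLocalRing.ResidueField O :=
    IsLocalRing.ResidueField.map (Q7d_hom A O i hAO)
  let σN : IsLocalRing.ResidueField A →+* IsLocalRing.ResidueField B :=
    IsLocalRing.ResidueField.map (Q7d_hom A B (algebraMap M N) hAB)
  have hσO : ∀ a : A, σO (IsLocalRing.residue A a) = IsLocalRing.residue O (Q7d_hom A O i hAO a) :=
    fun a => rfl
  have hσN : ∀ a : A, σN (IsLocalRing.residue A a) =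
      IsLocalRing.residue B (Q7d_hom A B (algebraMap M N) hAB a) := fun a => rfl
  have hc : ∀ c, ρO (σO c) = ρN (σN c) := by
    intro c
    obtain ⟨a, rfl⟩ := IsLocalRing.residue_surjective c
    rw [hσO, hσN, hρO, hρN]
    congr 1
    apply Subtype.ext
    show algebraMap K L (i a) = j (algebraMap M N a)
    exact (hj a).symm
  have halg := Q7d_alg A B hAB σN hσN
  -- every element of `R` is good modulo the uniformizer
  have hgood : ∀ x ∈ R, ∀ hx : x ∈ R, Q7d_Good ρO ρN (mk ⟨x, hx⟩) := by
    intro x hxR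
    refine Subring.closure_induction (p := fun x _ => ∀ hx : x ∈ R, Q7d_Good ρO ρN (mk ⟨x, hx⟩))
      ?_ ?_ ?_ ?_ ?_ ?_ hxR
    · rintro y (⟨a, rfl⟩ | ⟨n, rfl⟩) hx
      · refine ⟨0, C (IsLocalRing.residue O a), ?_⟩
        rw [Polynomial.eval₂_C, hρO]
        rfl
      · refine ⟨IsLocalRing.residue B n, X, ?_⟩
        rw [Polynomial.eval₂_X, hρN]
        rfl
    · intro hx
      refine ⟨0, 0, ?_⟩
      rw [Polynomial.eval₂_zero]
      exact map_zero mk
    · intro hx
      refine ⟨0, 1, ?_⟩
      rw [Polynomial.eval₂_one]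
      exact map_one mk
    · intro x y hx hy ihx ihy hxy
      obtain ⟨t, P, Q, h1, h2⟩ := Q7d_merge σO σN hc halg (ihx hx) (ihy hy)
      refine ⟨t, P + Q, ?_⟩
      rw [Polynomial.eval₂_add, ← h1, ← h2, ← map_add]
      rfl
    · intro x hx ihx hxn
      obtain ⟨t, P, h1⟩ := ihx hx
      refine ⟨t, -P, ?_⟩
      rw [Polynomial.eval₂_neg, ← h1, ← map_neg]
      rfl
    · intro x y hx hy ihx ihy hxy
      obtain ⟨t, P, Q, h1, h2⟩ := Q7d_merge σO σN hc halg (ihx hx) (ihy hy)
      refine ⟨t, P * Q, ?_⟩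
      rw [Polynomial.eval₂_mul, ← h1, ← h2, ← map_mul]
      rfl
  -- key claim
  have hmul : ∀ x y : L, W.valuation x ≤ 1 → W.valuation y < 1 → W.valuation (x * y) < 1 := by
    intro x y hx hy
    rw [map_mul]
    exact lt_of_le_of_lt (mul_le_of_le_one_left' hx) hy
  have key : ∀ x : R, W.valuation (x : L) < 1 → ∃ e r : R, W.valuation (e : L) = 1 ∧
      (e : L) * x = π' * r := by
    intro x hx
    obtain ⟨e', u', w', h1, h2⟩ := Q7d_split σO σN hc halg (hgood x x.2 x.2)
    obtain ⟨e, rfl⟩ := Ideal.Quotient.mk_surjective e'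
    obtain ⟨u, rfl⟩ := Ideal.Quotient.mk_surjective u'
    obtain ⟨w, rfl⟩ := Ideal.Quotient.mk_surjective w'
    have h3 : mk (e * x) = 0 := by rw [map_mul]; exact h1
    have h4 : mk (u * x + w * e - 1) = 0 := by
      rw [map_sub, map_add, map_mul, map_mul, map_one, sub_eq_zero]
      exact h2
    obtain ⟨r, hr⟩ := Ideal.mem_span_singleton'.mp (Ideal.Quotient.eq_zero_iff_mem.mp h3)
    obtain ⟨r', hr'⟩ := Ideal.mem_span_singleton'.mp (Ideal.Quotient.eq_zero_iff_mem.mp h4)
    have h5 : (e : L) * x = π' * r := by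
      have := congrArg (fun z : R => (z : L)) hr
      simp only [Subring.coe_mul] at this
      rw [hπRc] at this
      rw [← this]; ring
    have h6 : (1 : L) = (u : L) * x + (w : L) * e - (r' : L) * π' := by
      have h9 : (r' : L) * π' = (u : L) * x + (w : L) * e - 1 := congrArg R.subtype hr'
      rw [h9]; ring
    refine ⟨e, r, ?_, h5⟩
    by_contra hne
    have helt : W.valuation (e : L) < 1 := lt_of_le_of_ne (hRv e) hne
    have h7 : W.valuation (1 : L) < 1 := by
      rw [h6]
      refine lt_of_le_of_lt (W.valuation.map_sub _ _) (max_lt ?_ ?_)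
      · refine lt_of_le_of_lt (W.valuation.map_add _ _) (max_lt ?_ ?_)
        · exact hmul _ _ (hRv _) hx
        · exact hmul _ _ (hRv _) helt
      · exact hmul _ _ (hRv _) hvπ
    rw [map_one] at h7
    exact lt_irrefl _ h7
  have ind : ∀ (m : ℕ) (x : R), W.valuation (x : L) < W.valuation π' ^ m →
      W.valuation (x : L) ≤ W.valuation π' ^ (m + 1) := by
    intro m
    induction m with
    | zero =>
      intro x hx
      rw [pow_zero] at hx
      obtain ⟨e, r, he, her⟩ := key x hx
      have h1 : W.valuation (x : L) = W.valuation π' * W.valuation (r : L) := by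
        rw [← map_mul, ← her, map_mul, he, one_mul]
      rw [h1, zero_add, pow_one]
      exact mul_le_of_le_one_right' (hRv r)
    | succ m ih =>
      intro x hx
      have hx1 : W.valuation (x : L) < 1 := lt_of_lt_of_le hx (pow_le_one' hvπ.le _)
      obtain ⟨e, r, he, her⟩ := key x hx1
      have h1 : W.valuation (x : L) = W.valuation π' * W.valuation (r : L) := by
        rw [← map_mul, ← her, map_mul, he, one_mul]
      rw [h1, pow_succ'] at hx
      have h2 : W.valuation (r : L) < W.valuation π' ^ m := lt_of_mul_lt_mul_left hx zero_le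
      have h3 := ih r h2
      rw [h1, pow_succ' _ (m + 1)]
      gcongr
  -- clearing denominators
  have hden : ∀ z : L, ∃ m : ℕ, π' ^ m * z ∈ R := by
    intro z
    have hπmem : π' ∈ R := πR.2
    have hz : z ∈ Algebra.adjoin K (Set.range j) := by
      have halg' : ∀ x ∈ Set.range j, IsAlgebraic K x := fun x _ =>
        Algebra.IsAlgebraic.isAlgebraic x
      rw [← IntermediateField.adjoin_toSubalgebra_of_isAlgebraic halg']
      have h1 : Subfield.closure (Set.range (algebraMap K L) ∪ Set.range j) ≤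
          (IntermediateField.adjoin K (Set.range j)).toSubfield := by
        rw [Subfield.closure_le]
        rintro x (⟨y, rfl⟩ | hx)
        · exact (IntermediateField.adjoin K (Set.range j)).algebraMap_mem y
        · exact IntermediateField.subset_adjoin K _ hx
      have h2 : z ∈ Subfield.closure (Set.range (algebraMap K L) ∪ Set.range j) := by
        rw [hgen]; trivial
      exact h1 h2
    refine Algebra.adjoin_induction (p := fun z _ => ∃ m : ℕ, π' ^ m * z ∈ R) ?_ ?_ ?_ ?_ hz
    · rintro x ⟨n, rfl⟩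
      obtain ⟨m, hm⟩ := Q7d_clearN A B hAB π hπ1 n
      refine ⟨m, ?_⟩
      have : π' ^ m * j n = j (algebraMap M N π ^ m * n) := by
        rw [map_mul, map_pow, hj]
      rw [this]
      exact Subring.subset_closure (Or.inr ⟨⟨_, hm⟩, rfl⟩)
    · intro a
      obtain ⟨m, hm⟩ := Q7d_clear O (i π) hπ a
      refine ⟨m, ?_⟩
      have : π' ^ m * algebraMap K L a = algebraMap K L (i π ^ m * a) := by
        rw [map_mul, map_pow]
      rw [this]
      exact Subring.subset_closure (Or.inl ⟨⟨_, hm⟩, rfl⟩)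
    · rintro x y _ _ ⟨m, hm⟩ ⟨m', hm'⟩
      refine ⟨m + m', ?_⟩
      have : π' ^ (m + m') * (x + y) = π' ^ m' * (π' ^ m * x) + π' ^ m * (π' ^ m' * y) := by
        rw [pow_add]; ring
      rw [this]
      exact R.add_mem (R.mul_mem (R.pow_mem hπmem _) hm) (R.mul_mem (R.pow_mem hπmem _) hm')
    · rintro x y _ _ ⟨m, hm⟩ ⟨m', hm'⟩
      refine ⟨m + m', ?_⟩
      have : π' ^ (m + m') * (x * y) = (π' ^ m * x) * (π' ^ m' * y) := by
        rw [pow_add]; ring
      rw [this]
      exact R.mul_mem hm hm'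
  intro z hz
  obtain ⟨m, hm⟩ := hden z
  have h1 : W.valuation (((⟨π' ^ m * z, hm⟩ : R) : L)) < W.valuation π' ^ m := by
    show W.valuation (π' ^ m * z) < _
    rw [map_mul, map_pow]
    calc W.valuation π' ^ m * W.valuation z < W.valuation π' ^ m * 1 :=
          mul_lt_mul_of_pos_left hz (zero_lt_iff.mpr (pow_ne_zero _ hv0))
      _ = _ := mul_one _
  have h2 := ind m _ h1
  have h3 : W.valuation π' ^ m * W.valuation z ≤ W.valuation π' ^ m * W.valuation π' := by
    rw [← map_pow, ← map_mul, map_pow, ← pow_succ]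
    exact h2
  exact le_of_mul_le_mul_left h3 (zero_lt_iff.mpr (pow_ne_zero _ hv0))

end Pool.Agent.LibHPQ
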