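import Pool.Agent.LibHPQ.Defs
import Pool.Agent.LibHP2.D3
import Pool.Agent.LibHP2.R2

set_option autoImplicit false

namespace Pool.Agent.LibHPQ

open Polynomial Pool.Agent.LibHP

/-- The argument of `R2` in general form. -/
theorem Q7e_unram (K L : Type) [Field K] [Field L] [Algebra K L]
    (O : ValuationSubring K) (π : K) (hπ : IsUnif O π)
    (W : ValuationSubring L) (hW : W.comap (algebraMap K L) = O) (θ : L) (hθW : θ ∈ W)
    (f0 : O[X]) (hf00 : f0.eval₂ ((algebraMap K L).comp O.subtype) θ = 0)
    (hfsep : (f0.map (IsLocalRing.residue O)).Separable) (P : K[X]) (z : L)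
    (hzP : z = aeval θ P) (hz : W.valuation z < 1) :
    W.valuation z ≤ W.valuation (algebraMap K L π) := by
  classical
  have hOW : ∀ a : K, a ∈ O → algebraMap K L a ∈ W := by
    intro a ha
    rw [← hW] at ha
    exact ha
  have hWO : ∀ a : K, algebraMap K L a ∈ W → a ∈ O := by
    intro a ha
    rw [← hW]
    exact ha
  -- the maps
  let j : O →+* L := (algebraMap K L).comp O.subtype
  have hj : ∀ a : O, j a = algebraMap K L (a : K) := fun a => rfl
  let ev : O[X] →+* L := Polynomial.eval₂RingHom j θ
  have hev1 : ∀ A : O[X], W.valuation (ev A) ≤ 1 := by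
    intro A
    rw [ValuationSubring.valuation_le_one_iff]
    show Polynomial.eval₂ j θ A ∈ W
    rw [Polynomial.eval₂_eq_sum, Polynomial.sum]
    apply Subring.sum_mem W.toSubring
    intro i _
    exact W.mul_mem _ _ (hOW _ (A.coeff i).2) (pow_mem hθW i)
  -- the uniformizer
  have hπ0 : algebraMap K L π ≠ 0 := by
    simpa using hπ.2.1
  have hvπ0 : W.valuation (algebraMap K L π) ≠ 0 := by
    simpa using hπ0
  have hvπ : W.valuation (algebraMap K L π) < 1 := by
    rw [lt_iff_le_and_ne]
    refine ⟨(W.valuation_le_one_iff _).mpr (hOW _ hπ.1), ?_⟩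
    intro h1
    apply hπ.2.2.1
    apply hWO
    rw [map_inv₀]
    rw [← W.valuation_le_one_iff, map_inv₀, h1, inv_one]
  let ϖ : O := ⟨π, hπ.1⟩
  have hevϖ : ∀ R : O[X], ev (C ϖ * R) = algebraMap K L π * ev R := by
    intro R
    rw [map_mul]
    congr 1
    show Polynomial.eval₂ j θ (C ϖ) = _
    rw [Polynomial.eval₂_C]
    rfl
  have hlift : ∀ q : (IsLocalRing.ResidueField O)[X], ∃ Q : O[X],
      Q.map (IsLocalRing.residue O) = q := by
    intro q
    exact Polynomial.map_surjective _ IsLocalRing.residue_surjective q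
  have hcmp : ∀ A B : O[X], A.map (IsLocalRing.residue O) = B.map (IsLocalRing.residue O) →
      ∃ R : O[X], ev A = ev B + algebraMap K L π * ev R := by
    intro A B hAB
    obtain ⟨R, hR⟩ := R2_dvd O π hπ (A - B) (by rw [Polynomial.map_sub, hAB, sub_self])
    refine ⟨R, ?_⟩
    rw [← hevϖ, ← map_add]
    congr 1
    rw [← hR]; ring
  have hf0 : ev f0 = 0 := hf00
  -- key claim
  have key : ∀ A : O[X], W.valuation (ev A) < 1 → ∃ E R : O[X], W.valuation (ev E) = 1 ∧
      ev E * ev A = algebraMap K L π * ev R := by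
    intro A hA
    obtain ⟨e, he⟩ := EuclideanDomain.gcd_dvd_right (A.map (IsLocalRing.residue O))
      (f0.map (IsLocalRing.residue O))
    obtain ⟨t, ht⟩ := EuclideanDomain.gcd_dvd_left (A.map (IsLocalRing.residue O))
      (f0.map (IsLocalRing.residue O))
    have hbz := EuclideanDomain.gcd_eq_gcd_ab (A.map (IsLocalRing.residue O))
      (f0.map (IsLocalRing.residue O))
    generalize EuclideanDomain.gcd (A.map (IsLocalRing.residue O))
      (f0.map (IsLocalRing.residue O)) = d at he ht hbz
    have hcop : IsCoprime d e := by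
      apply Polynomial.Separable.isCoprime
      rw [← he]; exact hfsep
    obtain ⟨x', y', hxy⟩ := hcop
    obtain ⟨D, hD⟩ := hlift d
    obtain ⟨E, hE⟩ := hlift e
    obtain ⟨T, hT⟩ := hlift t
    obtain ⟨X', hX'⟩ := hlift x'
    obtain ⟨Y', hY'⟩ := hlift y'
    obtain ⟨GA, hGA⟩ := hlift (EuclideanDomain.gcdA (A.map (IsLocalRing.residue O))
      (f0.map (IsLocalRing.residue O)))
    obtain ⟨GB, hGB⟩ := hlift (EuclideanDomain.gcdB (A.map (IsLocalRing.residue O))
      (f0.map (IsLocalRing.residue O)))
    obtain ⟨R1, hR1⟩ := hcmp (E * A) (T * f0) (by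
      rw [Polynomial.map_mul, Polynomial.map_mul, hE, hT, he]
      nth_rewrite 1 [ht]
      ring)
    obtain ⟨R2, hR2⟩ := hcmp D (A * GA + f0 * GB) (by
      rw [Polynomial.map_add, Polynomial.map_mul, Polynomial.map_mul, hD, hGA, hGB]
      exact hbz)
    obtain ⟨R3, hR3⟩ := hcmp (X' * D + Y' * E) 1 (by
      rw [Polynomial.map_add, Polynomial.map_mul, Polynomial.map_mul, hD, hE, hX', hY',
        Polynomial.map_one]
      exact hxy)
    rw [map_mul, map_mul, hf0, mul_zero, zero_add] at hR1
    rw [map_add, map_mul, map_mul, hf0, zero_mul, add_zero] at hR2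
    rw [map_add, map_mul, map_mul, map_one] at hR3
    refine ⟨E, R1, ?_, hR1⟩
    by_contra hne
    have hElt : W.valuation (ev E) < 1 := lt_of_le_of_ne (hev1 E) hne
    have hmul : ∀ x y : L, W.valuation x ≤ 1 → W.valuation y < 1 → W.valuation (x * y) < 1 := by
      intro x y hx hy
      rw [map_mul]
      exact lt_of_le_of_lt (mul_le_of_le_one_left' hx) hy
    have hDlt : W.valuation (ev D) < 1 := by
      rw [hR2]
      refine lt_of_le_of_lt (W.valuation.map_add _ _) (max_lt ?_ ?_)
      · rw [mul_comm]; exact hmul _ _ (hev1 _) hA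
      · rw [mul_comm]; exact hmul _ _ (hev1 _) hvπ
    have h1 : (1 : L) = (ev X' * ev D + ev Y' * ev E) - ev R3 * algebraMap K L π := by
      rw [hR3]; ring
    have h2 : W.valuation (1 : L) < 1 := by
      rw [h1]
      refine lt_of_le_of_lt (W.valuation.map_sub _ _) (max_lt ?_ ?_)
      · refine lt_of_le_of_lt (W.valuation.map_add _ _) (max_lt ?_ ?_)
        · exact hmul _ _ (hev1 _) hDlt
        · exact hmul _ _ (hev1 _) hElt
      · exact hmul _ _ (hev1 _) hvπ
    rw [map_one] at h2
    exact lt_irrefl _ h2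
  have ind : ∀ (m : ℕ) (A : O[X]), W.valuation (ev A) < W.valuation (algebraMap K L π) ^ m →
      W.valuation (ev A) ≤ W.valuation (algebraMap K L π) ^ (m + 1) := by
    intro m
    induction m with
    | zero =>
      intro A hA
      rw [pow_zero] at hA
      obtain ⟨E, R, hE, hER⟩ := key A hA
      have h1 : W.valuation (ev A) = W.valuation (algebraMap K L π) * W.valuation (ev R) := by
        rw [← map_mul, ← hER, map_mul, hE, one_mul]
      rw [h1, zero_add, pow_one]
      exact mul_le_of_le_one_right' (hev1 R)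
    | succ m ih =>
      intro A hA
      have hA1 : W.valuation (ev A) < 1 :=
        lt_of_lt_of_le hA (pow_le_one' hvπ.le _)
      obtain ⟨E, R, hE, hER⟩ := key A hA1
      have h1 : W.valuation (ev A) = W.valuation (algebraMap K L π) * W.valuation (ev R) := by
        rw [← map_mul, ← hER, map_mul, hE, one_mul]
      rw [h1, pow_succ'] at hA
      have h2 : W.valuation (ev R) < W.valuation (algebraMap K L π) ^ m := by
        exact lt_of_mul_lt_mul_left hA zero_le
      have h3 := ih R h2
      rw [h1, pow_succ' _ (m + 1)]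
      gcongr
  -- clearing denominators
  have hden : ∀ Q : K[X], ∃ (m : ℕ) (A : O[X]), ev A = algebraMap K L π ^ m * aeval θ Q := by
    intro Q
    induction Q using Polynomial.induction_on' with
    | add p q hp hq =>
      obtain ⟨m, A, hA⟩ := hp
      obtain ⟨m', A', hA'⟩ := hq
      refine ⟨m + m', C ϖ ^ m' * A + C ϖ ^ m * A', ?_⟩
      have hpow : ∀ (i : ℕ) (R : O[X]), ev (C ϖ ^ i * R) = algebraMap K L π ^ i * ev R := by
        intro i
        induction i with
        | zero => intro R; simp
        | succ i ih =>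
          intro R
          rw [pow_succ, mul_assoc, ih, hevϖ]; ring
      rw [map_add, hpow, hpow, hA, hA', map_add, pow_add]
      ring
    | monomial n a =>
      have : ∃ (m : ℕ) (b : O), (b : K) = π ^ m * a := by
        by_cases ha : a ∈ O
        · exact ⟨0, ⟨a, ha⟩, by simp⟩
        · have ha' : a⁻¹ ∈ O := (O.mem_or_inv_mem a).resolve_left ha
          have ha0 : a ≠ 0 := by
            rintro rfl
            exact ha O.zero_mem
          obtain ⟨m, u, hu, hui, hau⟩ := hπ.2.2.2 a⁻¹ ha' (inv_ne_zero ha0)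
          refine ⟨m, ⟨u⁻¹, hui⟩, ?_⟩
          show u⁻¹ = π ^ m * a
          have hu0 : u ≠ 0 := by
            rintro rfl
            rw [zero_mul] at hau
            exact ha0 (by simpa using hau)
          field_simp
          have : a = (u * π ^ m)⁻¹ := by rw [← hau, inv_inv]
          rw [this]
          have := hπ.2.1
          field_simp
      obtain ⟨m, b, hb⟩ := this
      refine ⟨m, Polynomial.monomial n b, ?_⟩
      show Polynomial.eval₂ j θ (Polynomial.monomial n b) = _
      rw [Polynomial.eval₂_monomial, Polynomial.aeval_monomial, hj, hb]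
      simp [mul_assoc]
  obtain ⟨m, A, hA⟩ := hden P
  rw [← hzP] at hA
  have h1 : W.valuation (ev A) < W.valuation (algebraMap K L π) ^ m := by
    rw [hA, map_mul, map_pow]
    calc W.valuation (algebraMap K L π) ^ m * W.valuation z
        < W.valuation (algebraMap K L π) ^ m * 1 := by
          apply mul_lt_mul_of_pos_left hz
          exact zero_lt_iff.mpr (pow_ne_zero _ hvπ0)
      _ = _ := mul_one _
  have h2 := ind m A h1
  rw [hA, map_mul, map_pow, pow_succ] at h2
  exact le_of_mul_le_mul_left h2 (zero_lt_iff.mpr (pow_ne_zero _ hvπ0))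

/-- Clearing denominators in a polynomial over the fraction field. -/
theorem Q7e_clear {A M : Type} [CommRing A] [IsDomain A] [Field M] [Algebra A M]
    [IsFractionRing A M] (f : M[X]) :
    ∃ (c : A) (F : A[X]), c ≠ 0 ∧ F.map (algebraMap A M) = C (algebraMap A M c) * f := by
  obtain ⟨b, hb0, hb⟩ := IsLocalization.integerNormalization_spec (nonZeroDivisors A) f
  refine ⟨b, IsLocalization.integerNormalization (nonZeroDivisors A) f,
    nonZeroDivisors.ne_zero hb0, ?_⟩
  rw [hb]
  ext n
  rw [Polynomial.coeff_smul, Polynomial.coeff_C_mul, Algebra.smul_def]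

/-- The valuation ring of `M` below `W` is the valuation ring of `π`. -/
theorem Q7e_isUnif (k : Type) [Field k] [CharZero k] (m : ℕ) (M : Type) [Field M]
    [Algebra (MvPolynomial (Fin m) k) M] [IsFractionRing (MvPolynomial (Fin m) k) M] (N : Type)
    [Field N] (i : M →+* N) (π : MvPolynomial (Fin m) k) (hπ : Irreducible π)
    (W : ValuationSubring N)
    (hW : Above (i.comp (algebraMap (MvPolynomial (Fin m) k) M)) π W) :
    IsUnif (W.comap i) (algebraMap (MvPolynomial (Fin m) k) M π) := by
  obtain ⟨O', hu, hmem, -⟩ := exists_valPoly k m M π hπ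
  have hval : ∀ q : MvPolynomial (Fin m) k, ¬ π ∣ q →
      W.valuation (i (algebraMap (MvPolynomial (Fin m) k) M q)) = 1 := by
    intro q hq
    have h1 := (W.valuation_le_one_iff _).mpr (hW.1 q)
    have h2 := mt (hW.2 q).mp hq
    exact le_antisymm h1 (not_lt.mp h2)
  have heq : W.comap i = O' := by
    ext z
    constructor
    · intro hz
      obtain ⟨n, d, hco, hz'⟩ :=
        IsFractionRing.exists_reduced_fraction (A := MvPolynomial (Fin m) k) z
      have hz2 : z * algebraMap (MvPolynomial (Fin m) k) M (d : MvPolynomial (Fin m) k)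
          = algebraMap (MvPolynomial (Fin m) k) M n := by
        rw [← hz', IsLocalization.mk'_spec]
      rw [hmem]
      refine ⟨n, d, ?_, hz2⟩
      intro hd
      have h1 : W.valuation (i (algebraMap (MvPolynomial (Fin m) k) M
          (d : MvPolynomial (Fin m) k))) < 1 := (hW.2 _).mpr hd
      have h2 : W.valuation (i z) ≤ 1 := (W.valuation_le_one_iff _).mpr hz
      have h3 : W.valuation (i (algebraMap (MvPolynomial (Fin m) k) M n)) < 1 := by
        rw [← hz2, map_mul, map_mul]
        exact lt_of_le_of_lt (mul_le_of_le_one_left' h2) h1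
      have h4 : π ∣ n := (hW.2 n).mp h3
      exact hπ.not_isUnit (hco h4 hd)
    · intro hz
      obtain ⟨p, q, hq, hpq⟩ := (hmem z).mp hz
      show i z ∈ W
      rw [← W.valuation_le_one_iff]
      have h1 := hval q hq
      have h2 := (W.valuation_le_one_iff _).mpr (hW.1 p)
      have h3 : i z * i (algebraMap (MvPolynomial (Fin m) k) M q)
          = i (algebraMap (MvPolynomial (Fin m) k) M p) := by
        rw [← map_mul, hpq]
      have h4 := congrArg W.valuation h3
      rw [map_mul, h1, mul_one] at h4
      rw [h4]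
      exact h2
  rw [heq]
  exact hu

/-- A finite extension of `k(x_1, ..., x_m)` is ramified over finitely many primes only. -/
theorem exists_ram_bound (k : Type) [Field k] [CharZero k] (m : ℕ) (M : Type) [Field M]
    [Algebra (MvPolynomial (Fin m) k) M] [IsFractionRing (MvPolynomial (Fin m) k) M] (N : Type)
    [Field N] [Algebra M N] [FiniteDimensional M N] :
    ∃ B : MvPolynomial (Fin m) k, B ≠ 0 ∧ ∀ π, Irreducible π →
      RamAt ((algebraMap M N).comp (algebraMap (MvPolynomial (Fin m) k) M)) π → π ∣ B := by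
  classical
  have hinj := IsFractionRing.injective (MvPolynomial (Fin m) k) M
  have : CharZero M := charZero_of_injective_algebraMap hinj
  obtain ⟨θ, hθ⟩ := Field.exists_primitive_element M N
  have hint : IsIntegral M θ := Algebra.IsIntegral.isIntegral θ
  have hfirr : Irreducible (minpoly M θ) := minpoly.irreducible hint
  have hfsep : (minpoly M θ).Separable := hfirr.separable
  obtain ⟨a, b, hab⟩ := hfsep
  obtain ⟨c, F, hc0, hF⟩ := Q7e_clear (A := MvPolynomial (Fin m) k) (minpoly M θ)
  obtain ⟨ca, Fa, hca0, hFa⟩ := Q7e_clear (A := MvPolynomial (Fin m) k) a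
  obtain ⟨cb, Fb, hcb0, hFb⟩ := Q7e_clear (A := MvPolynomial (Fin m) k) b
  have hrel : (C cb * Fa) * F + (C ca * Fb) * derivative F = C (ca * cb * c) := by
    apply Polynomial.map_injective _ hinj
    rw [Polynomial.map_add, Polynomial.map_mul, Polynomial.map_mul, Polynomial.map_mul,
      Polynomial.map_mul, ← Polynomial.derivative_map, hF, hFa, hFb, Polynomial.map_C,
      Polynomial.map_C, Polynomial.map_C, Polynomial.derivative_C_mul, map_mul, C_mul,
      map_mul, C_mul]
    linear_combination (C ((algebraMap (MvPolynomial (Fin m) k) M) ca) *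
      C ((algebraMap (MvPolynomial (Fin m) k) M) cb) *
      C ((algebraMap (MvPolynomial (Fin m) k) M) c)) * hab
  refine ⟨ca * cb * c, mul_ne_zero (mul_ne_zero hca0 hcb0) hc0, ?_⟩
  intro π hπ hram
  by_contra hπB
  obtain ⟨W, hA, hun⟩ := hram
  apply hun
  intro z hz
  have hunif := Q7e_isUnif k m M N (algebraMap M N) π hπ W hA
  set O : ValuationSubring M := W.comap (algebraMap M N) with hO
  have hAO : ∀ p : MvPolynomial (Fin m) k, algebraMap (MvPolynomial (Fin m) k) M p ∈ O :=
    fun p => hA.1 p
  let ρ : MvPolynomial (Fin m) k →+* O :=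
    (algebraMap (MvPolynomial (Fin m) k) M).codRestrict O hAO
  have hval : ∀ q : MvPolynomial (Fin m) k, ¬ π ∣ q →
      W.valuation (algebraMap M N (algebraMap (MvPolynomial (Fin m) k) M q)) = 1 := by
    intro q hq
    have h1 := (W.valuation_le_one_iff _).mpr (hA.1 q)
    have h2 := mt (hA.2 q).mp hq
    exact le_antisymm h1 (not_lt.mp h2)
  have hπc : ¬ π ∣ c := fun h => hπB (h.mul_left _)
  have hcM : algebraMap (MvPolynomial (Fin m) k) M c ≠ 0 := fun h =>
    hc0 (hinj (by rw [h, map_zero]))
  have hinvmem : ∀ q : MvPolynomial (Fin m) k, ¬ π ∣ q →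
      (algebraMap (MvPolynomial (Fin m) k) M q)⁻¹ ∈ O := by
    intro q hq
    show algebraMap M N (algebraMap (MvPolynomial (Fin m) k) M q)⁻¹ ∈ W
    rw [← W.valuation_le_one_iff, map_inv₀, map_inv₀, hval q hq, inv_one]
  -- θ is in W
  have hθW : θ ∈ W := by
    have hco : ∀ i, ((minpoly M θ).map (algebraMap M N)).coeff i ∈ W := by
      intro i
      rw [Polynomial.coeff_map]
      show (minpoly M θ).coeff i ∈ O
      have h1 : (minpoly M θ).coeff i = (algebraMap (MvPolynomial (Fin m) k) M c)⁻¹ *
          algebraMap (MvPolynomial (Fin m) k) M (F.coeff i) := by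
        have h2 := congrArg (fun q => Polynomial.coeff q i) hF
        simp only [Polynomial.coeff_map, Polynomial.coeff_C_mul] at h2
        rw [h2, inv_mul_cancel_left₀ hcM]
      rw [h1]
      exact O.mul_mem _ _ (hinvmem c hπc) (hAO _)
    have h3 : IsIntegral W θ := by
      refine D3b_lift W _ ((minpoly.monic hint).map (algebraMap M N)) hco θ ?_
      rw [Polynomial.eval₂_map]
      exact minpoly.aeval M θ
    obtain ⟨y, hy⟩ := IsIntegrallyClosed.isIntegral_iff.mp h3
    rw [← hy]
    exact y.2
  -- z as a polynomial in θ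
  have hzP : ∃ P : M[X], z = aeval θ P := by
    have h1 : z ∈ IntermediateField.adjoin M ({θ} : Set N) := by
      rw [hθ]; trivial
    have h2 : z ∈ (IntermediateField.adjoin M ({θ} : Set N)).toSubalgebra := h1
    rw [IntermediateField.adjoin_simple_toSubalgebra_of_isAlgebraic hint.isAlgebraic,
      Algebra.adjoin_singleton_eq_range_aeval] at h2
    obtain ⟨P, hP⟩ := h2
    exact ⟨P, hP.symm⟩
  obtain ⟨P, hzP⟩ := hzP
  refine Q7e_unram M N O _ hunif W rfl θ hθW (F.map ρ) ?_ ?_ P z hzP hz
  · rw [Polynomial.eval₂_map]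
    have h1 : ((algebraMap M N).comp O.subtype).comp ρ
        = (algebraMap M N).comp (algebraMap (MvPolynomial (Fin m) k) M) := by
      rfl
    rw [h1, ← Polynomial.eval₂_map, hF, Polynomial.eval₂_mul]
    have h2 : Polynomial.eval₂ (algebraMap M N) θ (minpoly M θ) = 0 := minpoly.aeval M θ
    rw [h2, mul_zero]
  · have hunit : IsLocalRing.residue O (ρ (ca * cb * c)) ≠ 0 := by
      intro h0
      rw [IsLocalRing.residue_eq_zero_iff] at h0
      apply h0
      refine isUnit_iff_exists_inv.mpr
        ⟨⟨(algebraMap (MvPolynomial (Fin m) k) M (ca * cb * c))⁻¹, hinvmem _ hπB⟩, ?_⟩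
      apply Subtype.ext
      show algebraMap (MvPolynomial (Fin m) k) M (ca * cb * c) *
        (algebraMap (MvPolynomial (Fin m) k) M (ca * cb * c))⁻¹ = 1
      refine mul_inv_cancel₀ fun h => hπB ?_
      have h3 : ca * cb * c = 0 := hinj (by rw [h, map_zero])
      rw [h3]
      exact dvd_zero _
    have h1 := congrArg (fun q => (q.map ρ).map (IsLocalRing.residue O)) hrel
    simp only [Polynomial.map_add, Polynomial.map_mul, Polynomial.map_C,
      ← Polynomial.derivative_map] at h1
    rw [Polynomial.separable_def]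
    refine ⟨C (IsLocalRing.residue O (ρ (ca * cb * c)))⁻¹ *
        (C (IsLocalRing.residue O (ρ cb)) * (Fa.map ρ).map (IsLocalRing.residue O)),
      C (IsLocalRing.residue O (ρ (ca * cb * c)))⁻¹ *
        (C (IsLocalRing.residue O (ρ ca)) * (Fb.map ρ).map (IsLocalRing.residue O)), ?_⟩
    have h2 : C (IsLocalRing.residue O (ρ (ca * cb * c)))⁻¹ *
        C (IsLocalRing.residue O (ρ (ca * cb * c))) = 1 := by
      rw [← C_mul, inv_mul_cancel₀ hunit, C_1]
    rw [← h2, ← h1]
    ring

end Pool.Agent.LibHPQ
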