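import Pool.Agent.LibHPQ.Q5b
import Pool.Agent.LibHPQ.Q7f

set_option autoImplicit false

namespace Pool.Agent.LibHPQ

open Polynomial Pool.Agent.LibHP

private theorem Q9a_ne {k κ : Type} [Field k] [Field κ] {m : ℕ}
    (l : MvPolynomial (Fin m) k →+* κ[X]) (hl : LineHom l) (Q : MvPolynomial (Fin m) k)
    (hQ : Q ≠ 0) : l Q ≠ 0 := by
  revert hQ
  refine WfDvdMonoid.induction_on_irreducible Q (fun h => absurd rfl h)
    (fun u hu _ => (hu.map l).ne_zero) ?_
  intro a i ha hi ih _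
  rw [map_mul]
  refine mul_ne_zero ?_ (ih ha)
  rcases hl.irr i hi with h | h
  · exact h.ne_zero
  · exact h.ne_zero

private theorem Q9a_factor {k κ : Type} [Field k] [Field κ] {m : ℕ}
    (l : MvPolynomial (Fin m) k →+* κ[X]) (q : κ[X]) (hq : Irreducible q)
    (Q : MvPolynomial (Fin m) k) (hQ : Q ≠ 0) (hqQ : q ∣ l Q) :
    ∃ π, Irreducible π ∧ π ∣ Q ∧ q ∣ l π := by
  revert hQ hqQ
  refine WfDvdMonoid.induction_on_irreducible Q (fun h => absurd rfl h)
    (fun u hu _ h => absurd (isUnit_of_dvd_unit h (hu.map l)) hq.not_isUnit) ?_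
  intro a i ha hi ih _ h
  rw [map_mul] at h
  rcases hq.prime.dvd_or_dvd h with h | h
  · exact ⟨i, hi, dvd_mul_right i a, h⟩
  · obtain ⟨π, h1, h2, h3⟩ := ih ha h
    exact ⟨π, h1, h2.mul_left i, h3⟩

private theorem Q9a_cop {k κ : Type} [Field k] [Field κ] {m : ℕ}
    (l : MvPolynomial (Fin m) k →+* κ[X]) (G : κ[X])
    (hlG : ∀ π, Irreducible π → IsCoprime (l π) G)
    (Q : MvPolynomial (Fin m) k) (hQ : Q ≠ 0) : IsCoprime (l Q) G := by
  revert hQ
  refine WfDvdMonoid.induction_on_irreducible Q (fun h => absurd rfl h)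
    (fun u hu _ => ?_) ?_
  · obtain ⟨v, hv⟩ := (hu.map l).exists_left_inv
    exact ⟨v, 0, by rw [hv, zero_mul, add_zero]⟩
  intro a i ha hi ih _
  rw [map_mul]
  exact (hlG i hi).mul_left (ih ha)

private theorem Q9a_homP_unit {κ : Type} [Field κ] (p N M : κ[X]) (hp : IsUnit p) :
    IsUnit (homP p N M) := by
  obtain ⟨a, ha, rfl⟩ := Polynomial.isUnit_iff.1 hp
  rw [homP, natDegree_C]
  simpa using ha

private theorem Q9a_factor2 {k κ : Type} [Field k] [Field κ] {m : ℕ}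
    (l : MvPolynomial (Fin m) k →+* κ[X]) (hl : LineHom l) (N M q : κ[X]) (hq : Irreducible q)
    (Q : MvPolynomial (Fin m) k) (hQ : Q ≠ 0) (hqQ : q ∣ homP (l Q) N M) :
    ∃ π, Irreducible π ∧ π ∣ Q ∧ q ∣ homP (l π) N M := by
  revert hQ hqQ
  refine WfDvdMonoid.induction_on_irreducible Q (fun h => absurd rfl h)
    (fun u hu _ h => absurd (isUnit_of_dvd_unit h (Q9a_homP_unit _ N M (hu.map l)))
      hq.not_isUnit) ?_
  intro a i ha hi ih _ h
  rw [map_mul, homP_mul _ _ _ _ (Q9a_ne l hl i hi.ne_zero) (Q9a_ne l hl a ha)] at h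
  rcases hq.prime.dvd_or_dvd h with h | h
  · exact ⟨i, hi, dvd_mul_right i a, h⟩
  · obtain ⟨π, h1, h2, h3⟩ := ih ha h
    exact ⟨π, h1, h2.mul_left i, h3⟩

private theorem Q9a_dvd {κ : Type} [Field κ] (b a : κ[X]) (ha : Squarefree a)
    (h : ∀ q, Irreducible q → q ∣ a → q ∣ b) : a ∣ b := by
  revert ha h
  refine WfDvdMonoid.induction_on_irreducible a (fun h => absurd rfl h.ne_zero)
    (fun u hu _ _ => hu.dvd) ?_
  intro a i _ hi ih hs h
  have h1 : ¬ i ∣ a := by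
    rintro ⟨c, rfl⟩
    exact hi.not_isUnit (hs i ⟨c, by rw [mul_assoc]⟩)
  have h2 : IsCoprime i a := (hi.coprime_iff_not_dvd).2 h1
  exact h2.mul_dvd (h i hi (dvd_mul_right i a))
    (ih (hs.squarefree_of_dvd (dvd_mul_left a i)) fun q hq hqa => h q hq (hqa.mul_left i))

private theorem Q9a_assoc {k κ : Type} [Field k] [Field κ] {m : ℕ}
    (l : MvPolynomial (Fin m) k →+* κ[X]) (hl : LineHom l) (q : κ[X]) (hq : Irreducible q)
    (π : MvPolynomial (Fin m) k) (hπ : Irreducible π) (h : q ∣ l π) : Associated q (l π) := by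
  rcases hl.irr π hπ with h1 | h1
  · exact absurd (isUnit_of_dvd_unit h h1) hq.not_isUnit
  · exact hq.associated_of_dvd h1 h

private theorem Q9a_squarefree {k κ : Type} [Field k] [Field κ] {m : ℕ}
    (l : MvPolynomial (Fin m) k →+* κ[X]) (hl : LineHom l)
    (P : MvPolynomial (Fin m) k) (hP : Squarefree P) : Squarefree (l P) := by
  rw [squarefree_iff_irreducible_sq_not_dvd_of_ne_zero (Q9a_ne l hl P hP.ne_zero)]
  intro q hq hqq
  obtain ⟨π, hπ, ⟨P', hP'⟩, hqπ⟩ := Q9a_factor l q hq P hP.ne_zero ((dvd_mul_right q q).trans hqq)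
  have h1 : ¬ π ∣ P' := by
    rintro ⟨c, rfl⟩
    exact hπ.not_isUnit (hP π ⟨c, by rw [hP', mul_assoc]⟩)
  have h2 := hl.cop π P' hπ h1
  have h3 := Q9a_assoc l hl q hq π hπ hqπ
  have h4 : l π * l π ∣ l π * l P' := by
    rw [← map_mul l π P', ← hP']
    exact (mul_dvd_mul h3.symm.dvd h3.symm.dvd).trans hqq
  have h5 : l π ∣ l P' := (mul_dvd_mul_iff_left (Q9a_ne l hl π hπ.ne_zero)).1 h4
  have h6 : q ∣ l P' := h3.dvd.trans h5
  exact hq.not_isUnit (h2.isUnit_of_dvd' hqπ h6)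

private theorem Q9a_unif {K : Type} [Field K] (O : ValuationSubring K) (x c : K)
    (hx : IsUnif O x) (hc0 : c ≠ 0) (hc : c ∈ O) (hci : c⁻¹ ∈ O) : IsUnif O (x * c) := by
  obtain ⟨h1, h2, h3, h4⟩ := hx
  refine ⟨mul_mem h1 hc, mul_ne_zero h2 hc0, fun h => h3 ?_, fun a ha ha0 => ?_⟩
  · have h5 : x⁻¹ = (x * c)⁻¹ * c := by
      field_simp
    rw [h5]
    exact mul_mem h hc
  · obtain ⟨n, u, hu, hui, rfl⟩ := h4 a ha ha0
    refine ⟨n, u * c⁻¹ ^ n, mul_mem hu (pow_mem hci n), ?_, ?_⟩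
    · rw [mul_inv, inv_pow, inv_inv]
      exact mul_mem hui (pow_mem hc n)
    · rw [mul_pow, inv_pow]
      field_simp

/-- The inverse image by `P ↦ 2H - 3P` of the ramification of `N'` is contained in the ramification
of `N`; this divides the degree by two at least. -/
theorem measure_step (k : Type) [Field k] [CharZero k] (m : ℕ) (M : Type) [Field M]
    [Algebra (MvPolynomial (Fin m) k) M] [IsFractionRing (MvPolynomial (Fin m) k) M]
    (κ K₁ L₁ N N' : Type) [Field κ] [CharZero κ] [Field K₁] [Field L₁] [Field N] [Field N']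
    [Algebra K₁ L₁] [FiniteDimensional K₁ L₁] [Algebra M N] [FiniteDimensional M N] [Algebra M N']
    [FiniteDimensional M N'] (l : MvPolynomial (Fin m) k →+* κ[X]) (hl : LineHom l)
    (ε : κ →+* K₁) (τ w : K₁) (G : κ[X]) (hG : Quart G) (h : CurveField ε τ w G)
    (hlG : ∀ π, Irreducible π → IsCoprime (l π) G) (i d : M →+* K₁)
    (hi : ∀ p : MvPolynomial (Fin m) k, i (algebraMap (MvPolynomial (Fin m) k) M p) =
      (l p).eval₂ ε τ)
    (hd : ∀ p : MvPolynomial (Fin m) k, d (algebraMap (MvPolynomial (Fin m) k) M p) =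
      (l p).eval₂ ε ((nn G).eval₂ ε τ / (mm G).eval₂ ε τ))
    (hcl : ∀ c : K₁, (∃ P : M[X], P ≠ 0 ∧ P.eval₂ d c = 0) → ∃ a, d a = c) (j : N →+* L₁)
    (hj : ∀ c, j (algebraMap M N c) = algebraMap K₁ L₁ (i c))
    (hgen : Subfield.closure (Set.range (algebraMap K₁ L₁) ∪ Set.range j) = ⊤) (j' : N' →+* L₁)
    (hj' : ∀ c, j' (algebraMap M N' c) = algebraMap K₁ L₁ (d c)) (B : MvPolynomial (Fin m) k)
    (hB0 : B ≠ 0) (hB : ∀ π, Irreducible π →
      RamAt ((algebraMap M N).comp (algebraMap (MvPolynomial (Fin m) k) M)) π → π ∣ B)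
    (P : MvPolynomial (Fin m) k) (hP : Squarefree P) (hPr : ∀ π, Irreducible π → π ∣ P →
      RamAt ((algebraMap M N').comp (algebraMap (MvPolynomial (Fin m) k) M)) π) :
    2 * (l P).natDegree ≤ (l B).natDegree := by
  have hsq := Q9a_squarefree l hl P hP
  have hsep : (l P).Separable := (PerfectField.separable_iff_squarefree).2 hsq
  have hcop : IsCoprime (l P) G := Q9a_cop l G hlG P hP.ne_zero
  refine (natDegree_homP G hG (l P) hsep hcop).trans
    (natDegree_le_of_dvd ?_ (Q9a_ne l hl B hB0))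
  refine Q9a_dvd _ _ (separable_homP G hG (l P) hsep hcop).squarefree ?_
  intro q hq hqd
  obtain ⟨π, hπ, hπP, hqπ⟩ := Q9a_factor2 l hl (nn G) (mm G) q hq P hP.ne_zero hqd
  obtain ⟨O, hO1, hO2, hO3, hO4, hO5, hO6⟩ := exists_valuation_hom k κ K₁ m l hl ε τ w G hG h π hπ
    (hlG π hπ) q hq hqπ
  obtain ⟨⟨p₀, hp₀, hp₀O⟩, hcore⟩ := core_step k m M K₁ L₁ N N' i d j hj hgen j' hj' hcl π hπ
    (hPr π hπ hπP) O (by rw [hd]; exact hO4) ⟨fun p => by
      rw [RingHom.comp_apply, hd]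
      exact hO5 p, fun p => by
      rw [RingHom.comp_apply, hd]
      exact hO6 p⟩
  have hq0 : q ∣ l p₀ := by
    rw [hi] at hp₀O
    rcases hp₀O with h1 | h1
    · exact absurd (hO2 _) h1
    · exact (hO3 _).1 h1
  obtain ⟨π', hπ', _, hqπ'⟩ := Q9a_factor l q hq p₀ hp₀ hq0
  have hassoc := Q9a_assoc l hl q hq π' hπ' hqπ'
  have hunif : IsUnif O (i (algebraMap (MvPolynomial (Fin m) k) M π')) := by
    rw [hi]
    obtain ⟨u, hu⟩ := hassoc
    obtain ⟨a, ha, hau⟩ := Polynomial.isUnit_iff.1 u.isUnit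
    rw [← hu, ← hau, eval₂_mul, eval₂_C]
    refine Q9a_unif O _ _ hO1 ?_ ?_ ?_
    · rw [Ne, map_eq_zero]
      exact ha.ne_zero
    · have := hO2 (C a)
      rwa [eval₂_C] at this
    · have := hO2 (C a⁻¹)
      rwa [eval₂_C, map_inv₀] at this
  have hram := hcore π' hπ' hunif ⟨fun p => by
      rw [RingHom.comp_apply, hi]
      exact hO2 _, fun p => by
      rw [RingHom.comp_apply, hi, hO3]
      constructor
      · intro h1
        by_contra h2
        exact hq.not_isUnit ((hl.cop π' p hπ' h2).isUnit_of_dvd' hqπ' h1)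
      · intro h1
        exact hqπ'.trans (map_dvd l h1)⟩
  exact hqπ'.trans (map_dvd l (hB π' hπ' hram))

end Pool.Agent.LibHPQ
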