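import Pool.Agent.LibHPQ.Defs

set_option autoImplicit false

namespace Pool.Agent.LibHPQ

open Polynomial Pool.Agent.LibHP

theorem Q9b_ne_zero {k κ : Type} [Field k] [Field κ] {m : ℕ}
    (l : MvPolynomial (Fin m) k →+* κ[X]) (hl : LineHom l) :
    ∀ p : MvPolynomial (Fin m) k, p ≠ 0 → l p ≠ 0 := by
  intro p
  refine WfDvdMonoid.induction_on_irreducible p ?_ ?_ ?_
  · intro h; exact absurd rfl h
  · intro u hu _
    exact (hu.map l).ne_zero
  · intro a i ha hi ih _
    rw [map_mul]
    refine mul_ne_zero ?_ (ih ha)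
    rcases hl.irr i hi with h | h
    · exact h.ne_zero
    · exact h.ne_zero

/-- If the restrictions to a line of the products of distinct ramified primes are of bounded degree,
there are finitely many ramified primes and their product is of bounded degree. -/
theorem exists_bound_of_measure (k κ : Type) [Field k] [Field κ] (m : ℕ)
    (l : MvPolynomial (Fin m) k →+* κ[X]) (hl : LineHom l) (R : MvPolynomial (Fin m) k → Prop)
    (hR : ∀ π u, R π → IsUnit u → R (π * u))
    (hu : ∀ π, Irreducible π → R π → ¬ IsUnit (l π)) (b : ℕ)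
    (hb : ∀ P, Squarefree P → (∀ π, Irreducible π → π ∣ P → R π) → 2 * (l P).natDegree ≤ b) :
    ∃ B, B ≠ 0 ∧ (∀ π, Irreducible π → R π → π ∣ B) ∧ 2 * (l B).natDegree ≤ b := by
  by_contra hcon
  have key : ∀ n : ℕ, ∃ P, Squarefree P ∧ (∀ π, Irreducible π → π ∣ P → R π) ∧
      n ≤ (l P).natDegree := by
    intro n
    induction n with
    | zero =>
      exact ⟨1, squarefree_one,
        fun π hπ hd => (hπ.not_isUnit (isUnit_of_dvd_one hd)).elim, Nat.zero_le _⟩
    | succ n ih =>
      obtain ⟨P, hsq, hPR, hn⟩ := ih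
      have hnotall : ∃ π, Irreducible π ∧ R π ∧ ¬ π ∣ P := by
        by_contra h
        apply hcon
        refine ⟨P, hsq.ne_zero, ?_, hb P hsq hPR⟩
        intro π hπ hRπ
        by_contra hd
        exact h ⟨π, hπ, hRπ, hd⟩
      obtain ⟨π, hπ, hRπ, hnd⟩ := hnotall
      refine ⟨P * π, ?_, ?_, ?_⟩
      · rw [squarefree_mul_iff]
        refine ⟨?_, hsq, hπ.squarefree⟩
        exact ((hπ.isRelPrime_iff_not_dvd).mpr hnd).symm
      · intro π' hπ' hd
        rcases hπ'.prime.dvd_or_dvd hd with h | h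
        · exact hPR π' hπ' h
        · obtain ⟨u, hu'⟩ := (hπ'.associated_of_dvd hπ h).symm
          rw [← hu']
          exact hR π _ hRπ u.isUnit
      · have h1 : l P ≠ 0 := Q9b_ne_zero l hl P hsq.ne_zero
        have h2 : l π ≠ 0 := Q9b_ne_zero l hl π hπ.ne_zero
        rw [map_mul, Polynomial.natDegree_mul h1 h2]
        have h3 : Irreducible (l π) := (hl.irr π hπ).resolve_left (hu π hπ hRπ)
        have h4 := h3.natDegree_pos
        omega
  obtain ⟨P, hsq, hPR, hn⟩ := key (b + 1)
  have := hb P hsq hPR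
  omega

/-- Being ramified depends only on the prime up to units. -/
theorem ramAt_mul_unit {k L : Type} [Field k] [Field L] {m : ℕ}
    (φ : MvPolynomial (Fin m) k →+* L) (π u : MvPolynomial (Fin m) k) (h : RamAt φ π)
    (hu : IsUnit u) : RamAt φ (π * u) := by
  obtain ⟨W, hA, hram⟩ := h
  have hvu : W.valuation (φ u) = 1 := by
    obtain ⟨v, hv⟩ := isUnit_iff_exists_inv.mp hu
    have h1 : W.valuation (φ u) ≤ 1 := (W.valuation_le_one_iff _).mpr (hA.1 u)
    have h2 : W.valuation (φ v) ≤ 1 := (W.valuation_le_one_iff _).mpr (hA.1 v)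
    have h3 : W.valuation (φ u) * W.valuation (φ v) = 1 := by
      rw [← map_mul, ← map_mul, hv, map_one, map_one]
    refine le_antisymm h1 ?_
    calc (1 : W.ValueGroup) = W.valuation (φ u) * W.valuation (φ v) := h3.symm
      _ ≤ W.valuation (φ u) * 1 := by gcongr
      _ = W.valuation (φ u) := mul_one _
  refine ⟨W, ⟨hA.1, ?_⟩, ?_⟩
  · intro p
    rw [hu.mul_right_dvd]
    exact hA.2 p
  · intro hun
    apply hram
    intro z hz
    have := hun z hz
    rw [map_mul, map_mul, hvu, mul_one] at this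
    exact this

end Pool.Agent.LibHPQ
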