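import Pool.Agent.LibHPQ.Q3
import Pool.Agent.LibHPQ.Q4
import Pool.Agent.LibHPQ.Q6c
import Pool.Agent.LibHPQ.Q6d
import Pool.Agent.LibHPQ.Q7b
import Pool.Agent.LibHPQ.Q7e
import Pool.Agent.LibHPQ.Q8
import Pool.Agent.LibHPQ.Q9a
import Pool.Agent.LibHPQ.Q9b
import Pool.Agent.LibHP2.W1
import Pool.Agent.LibHP2.W6

set_option autoImplicit false

namespace Pool.Agent.LibHPQ

open Polynomial Pool.Agent.LibHP

theorem Q9c_ess (k σ : Type) [Field k] [Fintype σ] (F : MvPolynomial σ k) (K : Type) [Field K]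
    [Algebra k K] (x : σ → K) (w : K) (hx : IsDoublePt F x w) : Algebra.EssFiniteType k K := by
  classical
  rw [← IntermediateField.fg_top_iff]
  refine ⟨insert w (Finset.univ.image x), ?_⟩
  rw [eq_top_iff]
  intro z _
  obtain ⟨P, Q, R, hR, hz⟩ := hx.2.2 z
  have h1 : ∀ G : MvPolynomial σ k, MvPolynomial.aeval x G ∈
      IntermediateField.adjoin k ((insert w (Finset.univ.image x) : Finset K) : Set K) := by
    intro G
    have h2 : MvPolynomial.aeval x G ∈ Algebra.adjoin k (Set.range x) := by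
      rw [Algebra.adjoin_range_eq_range_aeval]
      exact ⟨G, rfl⟩
    apply IntermediateField.algebra_adjoin_le_adjoin
    refine Algebra.adjoin_mono ?_ h2
    rintro _ ⟨v, rfl⟩
    simp
  have h3 : w ∈ IntermediateField.adjoin k
      ((insert w (Finset.univ.image x) : Finset K) : Set K) :=
    IntermediateField.subset_adjoin k _ (by simp)
  have h4 : z = (MvPolynomial.aeval x P + MvPolynomial.aeval x Q * w) /
      MvPolynomial.aeval x R := by
    rw [← hz, mul_div_cancel_right₀ _ hR]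
  rw [h4]
  exact div_mem (add_mem (h1 P) (mul_mem (h1 Q) h3)) (h1 R)

theorem Q9c_mem_vars {k σ : Type} [Field k] {m : ℕ} (e : Fin m → σ) (he : Function.Injective e)
    (π : MvPolynomial (Fin m) k) (v : Fin m) (hv : v ∈ π.vars) :
    e v ∈ (MvPolynomial.rename e π).vars := by
  classical
  rw [MvPolynomial.mem_vars_iff_mem_support] at hv ⊢
  obtain ⟨s, hs, hvs⟩ := hv
  refine ⟨s.mapDomain e, ?_, ?_⟩
  · rw [MvPolynomial.mem_support_iff, MvPolynomial.coeff_rename_mapDomain e he]
    exact MvPolynomial.mem_support_iff.1 hs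
  · rw [Finsupp.mem_support_iff, Finsupp.mapDomain_apply he]
    exact Finsupp.mem_support_iff.1 hvs

/-- The step: from a minimal `N` to a minimal `N'` with less ramification. -/
theorem exists_less_ramified (k σ ι : Type) [Field k] [CharZero k] [Fintype σ] [DecidableEq σ]
    [DecidableEq ι] (g : σ → ι) (F : MvPolynomial σ k) (i₀ i₁ : ι) (hs : Setup g F i₀ i₁)
    (K : Type) [Field K] [Algebra k K] (x : σ → K) (w : K) (hx : IsDoublePt F x w)
    (m : ℕ) (e : Fin m → σ) (he : Function.Injective e)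
    (hrange : ∀ v, v ∈ Set.range e ↔ g v ≠ i₀)
    [Algebra (MvPolynomial (Fin m) k) (MF k g x i₀)]
    [IsFractionRing (MvPolynomial (Fin m) k) (MF k g x i₀)]
    (hM : ∀ p : MvPolynomial (Fin m) k, algebraMap (MF k g x i₀) K
      (algebraMap (MvPolynomial (Fin m) k) (MF k g x i₀) p) =
        MvPolynomial.aeval (fun j => x (e j)) p)
    (N : Type) [Field N] [Algebra (MF k g x i₀) N] (hN : MinAdm k (MF k g x i₀) K N)
    (B : MvPolynomial (Fin m) k) (hB0 : B ≠ 0) (hB : ∀ π, Irreducible π →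
      RamAt ((algebraMap (MF k g x i₀) N).comp
        (algebraMap (MvPolynomial (Fin m) k) (MF k g x i₀))) π → π ∣ B) :
    ∃ (N' : Type) (_ : Field N') (_ : Algebra (MF k g x i₀) N')
      (B' : MvPolynomial (Fin m) k), MinAdm k (MF k g x i₀) K N' ∧ B' ≠ 0 ∧
      (∀ π, Irreducible π → RamAt ((algebraMap (MF k g x i₀) N').comp
        (algebraMap (MvPolynomial (Fin m) k) (MF k g x i₀))) π → π ∣ B') ∧
      2 * (ell g i₁ (MvPolynomial.rename e B')).natDegree ≤
        (ell g i₁ (MvPolynomial.rename e B)).natDegree := by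
  classical
  obtain ⟨hfN, ⟨L, iL1, iL2, j, hfL, hAdm, hj, hgen, hclL⟩, hmin⟩ := hN
  have hcharM : CharZero (MF k g x i₀) := charZero_of_injective_algebraMap
      (algebraMap k (MF k g x i₀)).injective
  have hcharK : CharZero K := charZero_of_injective_algebraMap (algebraMap k K).injective
  have hcharκ : CharZero (KY k σ) := charZero_of_injective_algebraMap
      (algebraMap k (KY k σ)).injective
  have hess : Algebra.EssFiniteType k K := Q9c_ess k σ F K x w hx
  have hessM : Algebra.EssFiniteType (MF k g x i₀) K := Algebra.EssFiniteType.of_comp k _ K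
  have hF2 : Squarefree F := squarefree_of_quadratic k σ ι g F i₀ (hs.surj i₀)
    (hs.quad i₀ hs.ne) hs.nofac
  have hG : Quart (ell g i₁ F) := quart_ell k σ ι g F hF2 i₁ hs.quart
  obtain ⟨n, hn, Bq, y, hBq, hdet, hy⟩ := exists_quad_structure_double k σ ι g F i₀ (hs.surj i₀)
      (hs.quad i₀ hs.ne).1 (hs.quad i₀ hs.ne).2 K x w hx
  have hclM : ∀ c : K, (∃ P : (MF k g x i₀)[X], P ≠ 0 ∧
      P.eval₂ (algebraMap (MF k g x i₀) K) c = 0) → ∃ a, algebraMap (MF k g x i₀) K a = c := by
    rintro c ⟨P, hP, hPc⟩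
    exact quad_algClosed _ K n hn Bq hBq hdet y hy c ⟨P, hP, hPc⟩
  obtain ⟨r, ε, f, f₀, hf, hf₀, h1, h2, h3, h4, h5⟩ := exists_line k σ ι g i₁ F K x w hx
  obtain ⟨D, hDk, hD⟩ := exists_hom k σ ι g i₁ F hG K x w hx (RF K r) ε
    (algebraMap (MvPolynomial (Fin r) K) (RF K r) (MvPolynomial.X f₀))
    (algebraMap K (RF K r) w)
    (fun c => by rw [h3, ← IsScalarTower.algebraMap_apply]) (ell_injective k σ ι g i₁) h5
  have hDk' : ∀ c : k, D (algebraMap k K c) = algebraMap K (RF K r) (algebraMap k K c) := by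
    intro c
    rw [hDk, ← IsScalarTower.algebraMap_apply]
  -- the two embeddings of `M`
  let i : MF k g x i₀ →+* RF K r := (algebraMap K (RF K r)).comp (algebraMap (MF k g x i₀) K)
  let d : MF k g x i₀ →+* RF K r := D.comp (algebraMap (MF k g x i₀) K)
  let l : MvPolynomial (Fin m) k →+* (KY k σ)[X] := (ell g i₁).comp
    (MvPolynomial.rename e : MvPolynomial (Fin m) k →ₐ[k] MvPolynomial σ k).toRingHom
  have hl : LineHom l := lineHom_rename k σ ι g i₁ m e he
  have hlG : ∀ π, Irreducible π → IsCoprime (l π) (ell g i₁ F) := fun π hπ =>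
    isCoprime_ell_F k σ ι g F i₀ i₁ hs.nofac m e he (fun v => (hrange _).1 ⟨v, rfl⟩) π hπ
  have hren : ∀ p : MvPolynomial (Fin m) k, algebraMap (MF k g x i₀) K
      (algebraMap (MvPolynomial (Fin m) k) (MF k g x i₀) p) =
        MvPolynomial.aeval x (MvPolynomial.rename e p) := by
    intro p
    rw [hM, MvPolynomial.aeval_rename]
    rfl
  have hi : ∀ p : MvPolynomial (Fin m) k,
      i (algebraMap (MvPolynomial (Fin m) k) (MF k g x i₀) p) = (l p).eval₂ ε
        (algebraMap (MvPolynomial (Fin r) K) (RF K r) (MvPolynomial.X f₀)) := by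
    intro p
    change algebraMap K (RF K r) (algebraMap (MF k g x i₀) K _) = _
    rw [hren]
    exact (h4 _).symm
  have hd : ∀ p : MvPolynomial (Fin m) k,
      d (algebraMap (MvPolynomial (Fin m) k) (MF k g x i₀) p) = (l p).eval₂ ε
        ((nn (ell g i₁ F)).eval₂ ε
          (algebraMap (MvPolynomial (Fin r) K) (RF K r) (MvPolynomial.X f₀)) /
        (mm (ell g i₁ F)).eval₂ ε
          (algebraMap (MvPolynomial (Fin r) K) (RF K r) (MvPolynomial.X f₀))) := by
    intro p
    change D (algebraMap (MF k g x i₀) K _) = _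
    rw [hren]
    exact hD _
  have hcli : ∀ c : RF K r, (∃ P : (MF k g x i₀)[X], P ≠ 0 ∧ P.eval₂ i c = 0) →
      ∃ a, i a = c := by
    intro c hc
    exact closed_RF (MF k g x i₀) K (algebraMap (MF k g x i₀) K) hclM r c hc
  obtain ⟨κ₀, iκ₀, q, ρ, ε₀, hq, hqG, hρ, hρs, hε₀, hP2⟩ := natDegree_le_two k σ ι g F i₀ i₁ hs.ne
    (hs.quad i₀ hs.ne) hs.nofac hG m e he hrange (MF k g x i₀)
  have hcld : ∀ c : RF K r, (∃ P : (MF k g x i₀)[X], P ≠ 0 ∧ P.eval₂ d c = 0) →
      ∃ a, d a = c := by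
    intro c hc
    exact closed_hom k (KY k σ) (RF K r) m l hl (MF k g x i₀) ε _ _ (ell g i₁ F) hG h5 hlG i d hi
      hd hcli κ₀ q hq hqG ρ hρ hρs ε₀ hε₀ hP2 c hc
  -- the new extension
  obtain ⟨L', iL'1, iL'2, j1, hfL', hAdm', hj1, hj1'⟩ := hom_step k K L hess hAdm r D hDk'
  obtain ⟨N', iN'1, iN'2, j0, hfN', hAdmN', hj0, hj0'⟩ := quad_step k (MF k g x i₀) K L' hessM n hn
    Bq hBq hdet y hy hAdm'
  let algRF : Algebra (RF K r) (RF L r) := (rfmap (algebraMap K L) r).toAlgebra
  obtain ⟨hfRF, hrank, hgenRF⟩ := finrank_RF K L r (fun z => rfl)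
  let jN : N →+* RF L r := (algebraMap L (RF L r)).comp j
  let jN' : N' →+* RF L r := j1.comp j0
  have hjN : ∀ c, jN (algebraMap (MF k g x i₀) N c) = algebraMap (RF K r) (RF L r) (i c) := by
    intro c
    change algebraMap L (RF L r) (j (algebraMap (MF k g x i₀) N c)) =
      rfmap (algebraMap K L) r (algebraMap K (RF K r) (algebraMap (MF k g x i₀) K c))
    rw [hj, rfmap_const]
  have hjN' : ∀ c, jN' (algebraMap (MF k g x i₀) N' c) =
      algebraMap (RF K r) (RF L r) (d c) := by
    intro c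
    change j1 (j0 (algebraMap (MF k g x i₀) N' c)) =
      rfmap (algebraMap K L) r (D (algebraMap (MF k g x i₀) K c))
    rw [hj0, hj1]
  have hgenN : Subfield.closure (Set.range (algebraMap (RF K r) (RF L r)) ∪ Set.range jN) = ⊤ := by
    rw [eq_top_iff, ← hgenRF, Subfield.closure_le]
    rintro z (hz | ⟨a, rfl⟩)
    · exact Subfield.subset_closure (Or.inl hz)
    · have ha : a ∈ Subfield.closure (Set.range (algebraMap K L) ∪ Set.range j) := by
        rw [hgen]; trivial
      have hmap : Subfield.closure (Set.range (algebraMap K L) ∪ Set.range j) ≤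
          (Subfield.closure (Set.range (algebraMap (RF K r) (RF L r)) ∪ Set.range jN)).comap
            (algebraMap L (RF L r)) := by
        rw [Subfield.closure_le]
        rintro b (⟨c, rfl⟩ | ⟨c, rfl⟩)
        · refine Subfield.subset_closure (Or.inl ⟨algebraMap K (RF K r) c, ?_⟩)
          exact rfmap_const (algebraMap K L) c
        · exact Subfield.subset_closure (Or.inr ⟨c, rfl⟩)
      exact hmap ha
  have hrankN : Module.finrank K L ≤ Module.finrank (MF k g x i₀) N :=
    finrank_le_of_closure (MF k g x i₀) K L N (algebraMap (MF k g x i₀) K) j hj hgen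
  have hrankN' : Module.finrank (MF k g x i₀) N' ≤ Module.finrank (MF k g x i₀) N := by
    refine ((finrank_le_of_closed (MF k g x i₀) (RF K r) (RF L r) N' d hcld jN' hjN').1.trans
      hrank).trans hrankN
  have hminN' : MinAdm k (MF k g x i₀) K N' := by
    refine ⟨hfN', hAdmN', ?_⟩
    intro N'' _ _ hf'' hA''
    exact hrankN'.trans (hmin N'' hf'' hA'')
  obtain ⟨B', hB'0, hB', hdeg⟩ := exists_bound_of_measure k (KY k σ) m l hl
    (RamAt ((algebraMap (MF k g x i₀) N').comp
        (algebraMap (MvPolynomial (Fin m) k) (MF k g x i₀))))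
    (fun π u h hu => ramAt_mul_unit _ π u h hu)
    (by
      intro π hπ hr
      obtain ⟨v, hv⟩ := W6_exists_vars π hπ
      have hvar := ram_vars k σ ι g F i₀ i₁ hs K x w hx m e he hrange hM N' hminN' π hπ hr v hv
      refine ell_not_isUnit k σ ι g i₁ (MvPolynomial.rename e π) (e v) ?_ hvar
      exact Q9c_mem_vars e he π v hv)
    (l B).natDegree
    (by
      intro P hP hPr
      exact measure_step k m (MF k g x i₀) (KY k σ) (RF K r) (RF L r) N N' l hl ε _ _
        (ell g i₁ F) hG h5 hlG i d hi hd hcld jN hjN hgenN jN' hjN' B hB0 hB P hP hPr)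
  exact ⟨N', iN'1, iN'2, B', hminN', hB'0, hB', hdeg⟩

end Pool.Agent.LibHPQ
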