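import Pool.Agent.LibHPQ.Q9c
import Pool.Agent.LibHP2.D3
import Pool.Agent.LibHP2.W8

set_option autoImplicit false

namespace Pool.Agent.LibHPQ

open Polynomial Pool.Agent.LibHP

/-- An admissible extension which is trivial. -/
theorem Q9d_adm_of_surj (k K L : Type) [Field k] [Field K] [Field L] [Algebra k K] [Algebra K L]
    (hL : Adm k K L) (hsurj : Function.Surjective (algebraMap K L)) : Adm k K K := by
  obtain ⟨n, ι, h1, h2⟩ := hL
  refine ⟨n, ι.comp (algebraMap K L), ?_, ?_⟩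
  · rintro e ⟨P, hP, hPe⟩
    obtain ⟨l, rfl⟩ := h1 e ⟨P.map (algebraMap K L),
      (Polynomial.map_ne_zero_iff (algebraMap K L).injective).mpr hP, by
      rw [Polynomial.eval₂_map]; exact hPe⟩
    obtain ⟨a, rfl⟩ := hsurj l
    exact ⟨a, rfl⟩
  · intro c
    exact h2 c

/-- If `K` has an admissible finite extension then `K` itself is admissible. -/
theorem adm_self (k σ ι : Type) [Field k] [CharZero k] [Fintype σ] [DecidableEq σ]
    [DecidableEq ι] (g : σ → ι) (F : MvPolynomial σ k) (i₀ i₁ : ι) (hs : Setup g F i₀ i₁)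
    (K : Type) [Field K] [Algebra k K] (x : σ → K) (w : K) (hx : IsDoublePt F x w)
    (L : Type) [Field L] [Algebra K L] [FiniteDimensional K L] (hL : Adm k K L) : Adm k K K := by
  classical
  obtain ⟨m, ⟨eq⟩⟩ : ∃ m : ℕ, Nonempty (Fin m ≃ {v : σ // g v ≠ i₀}) :=
    ⟨_, ⟨(Fintype.equivFin {v : σ // g v ≠ i₀}).symm⟩⟩
  let e : Fin m → σ := fun j => (eq j).1
  have he : Function.Injective e := Subtype.val_injective.comp eq.injective
  have hrange : ∀ v, v ∈ Set.range e ↔ g v ≠ i₀ := by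
    intro v
    constructor
    · rintro ⟨j, rfl⟩
      exact (eq j).2
    · intro hv
      exact ⟨eq.symm ⟨v, hv⟩, by simp [e]⟩
  have hset : x '' {v | g v ≠ i₀} = Set.range (fun j => x (e j)) := by
    ext z
    constructor
    · rintro ⟨v, hv, rfl⟩
      obtain ⟨j, hj⟩ := (hrange v).2 hv
      exact ⟨j, by simp only [hj]⟩
    · rintro ⟨j, rfl⟩
      exact ⟨e j, (hrange (e j)).1 ⟨j, rfl⟩, rfl⟩
  have hind : AlgebraicIndependent k (fun j => x (e j)) := hx.1.comp e he
  have hmem : ∀ j, x (e j) ∈ IntermediateField.adjoin k (x '' {v | g v ≠ i₀}) := fun j =>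
    IntermediateField.subset_adjoin k _ ⟨e j, (hrange (e j)).1 ⟨j, rfl⟩, rfl⟩
  let f1 : MvPolynomial (Fin m) k →ₐ[k] MF k g x i₀ :=
    MvPolynomial.aeval fun j => ⟨x (e j), hmem j⟩
  have hf1 : ∀ p, ((f1 p : MF k g x i₀) : K) =
      MvPolynomial.aeval (fun j => x (e j)) p := by
    intro p
    exact MvPolynomial.comp_aeval_apply
      (φ := (IntermediateField.adjoin k (x '' {v | g v ≠ i₀})).val)
      (f := fun j => (⟨x (e j), hmem j⟩ :
        IntermediateField.adjoin k (x '' {v | g v ≠ i₀}))) (p := p)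
  let _ : Algebra (MvPolynomial (Fin m) k) (MF k g x i₀) := f1.toRingHom.toAlgebra
  have halg : ∀ p, algebraMap (MvPolynomial (Fin m) k) (MF k g x i₀) p = f1 p := fun _ => rfl
  have hinj : Function.Injective (algebraMap (MvPolynomial (Fin m) k) (MF k g x i₀)) := by
    intro p q h
    apply algebraicIndependent_iff_injective_aeval.1 hind
    rw [← hf1, ← hf1]
    exact congrArg _ h
  have hfaith : FaithfulSMul (MvPolynomial (Fin m) k) (MF k g x i₀) :=
    (faithfulSMul_iff_algebraMap_injective _ _).2 hinj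
  have hfrac : IsFractionRing (MvPolynomial (Fin m) k) (MF k g x i₀) := by
    apply IsFractionRing.of_field
    intro z
    have hfr : ∀ z : K, z ∈ IntermediateField.adjoin k (x '' {v | g v ≠ i₀}) →
        ∃ r s : MvPolynomial (Fin m) k, z = MvPolynomial.aeval (fun j => x (e j)) r /
          MvPolynomial.aeval (fun j => x (e j)) s := by
      intro z hz
      rwa [hset, IntermediateField.mem_adjoin_range_iff] at hz
    obtain ⟨r, s, h⟩ := hfr z z.2
    refine ⟨r, s, ?_⟩
    apply Subtype.ext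
    rw [halg, halg, IntermediateField.coe_div, hf1, hf1, h]
  have hM : ∀ p : MvPolynomial (Fin m) k, algebraMap (MF k g x i₀) K
      (algebraMap (MvPolynomial (Fin m) k) (MF k g x i₀) p) =
        MvPolynomial.aeval (fun j => x (e j)) p := hf1
  have hcharM : CharZero (MF k g x i₀) := charZero_of_injective_algebraMap
      (algebraMap k (MF k g x i₀)).injective
  have hcharK : CharZero K := charZero_of_injective_algebraMap (algebraMap k K).injective
  have hess : Algebra.EssFiniteType k K := Q9c_ess k σ F K x w hx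
  have hessM : Algebra.EssFiniteType (MF k g x i₀) K := Algebra.EssFiniteType.of_comp k _ K
  obtain ⟨n, hn, Bq, y, hBq, hdet, hy⟩ := exists_quad_structure_double k σ ι g F i₀ (hs.surj i₀)
      (hs.quad i₀ hs.ne).1 (hs.quad i₀ hs.ne).2 K x w hx
  -- a minimal extension
  have hne : ∃ d : ℕ, ∃ (N : Type) (_ : Field N) (_ : Algebra (MF k g x i₀) N),
      FiniteDimensional (MF k g x i₀) N ∧ AdmOver k (MF k g x i₀) K N ∧
        Module.finrank (MF k g x i₀) N = d := by
    obtain ⟨N, iN1, iN2, j0, h1, h2, -, -⟩ := quad_step k (MF k g x i₀) K L hessM n hn Bq hBq hdet y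
      hy hL
    exact ⟨_, N, iN1, iN2, h1, h2, rfl⟩
  obtain ⟨N₁, iN1, iN2, hfN₁, hAN₁, hdN₁⟩ := Nat.find_spec hne
  have hminN₁ : MinAdm k (MF k g x i₀) K N₁ := by
    refine ⟨hfN₁, hAN₁, ?_⟩
    intro N' _ _ hf' hA'
    rw [hdN₁]
    exact Nat.find_min' hne ⟨N', inferInstance, inferInstance, hf', hA', rfl⟩
  -- minimal ramification
  have hne2 : ∃ b : ℕ, ∃ (N : Type) (_ : Field N) (_ : Algebra (MF k g x i₀) N)
      (B : MvPolynomial (Fin m) k), MinAdm k (MF k g x i₀) K N ∧ B ≠ 0 ∧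
      (∀ π, Irreducible π → RamAt ((algebraMap (MF k g x i₀) N).comp
        (algebraMap (MvPolynomial (Fin m) k) (MF k g x i₀))) π → π ∣ B) ∧
      (ell g i₁ (MvPolynomial.rename e B)).natDegree = b := by
    obtain ⟨B, hB0, hB⟩ := exists_ram_bound k m (MF k g x i₀) N₁
    exact ⟨_, N₁, iN1, iN2, B, hminN₁, hB0, hB, rfl⟩
  obtain ⟨N, iN1', iN2', B, hN, hB0, hB, hb⟩ := Nat.find_spec hne2
  obtain ⟨N', iN1'', iN2'', B', hN', hB'0, hB', hb'⟩ := exists_less_ramified k σ ι g F i₀ i₁ hs K x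
    w hx m e he hrange hM N hN B hB0 hB
  have hb0 : (ell g i₁ (MvPolynomial.rename e B)).natDegree = 0 := by
    have h1 : Nat.find hne2 ≤ (ell g i₁ (MvPolynomial.rename e B')).natDegree :=
      Nat.find_min' hne2 ⟨N', iN1'', iN2'', B', hN', hB'0, hB', rfl⟩
    rw [← hb] at h1
    omega
  have hren0 : MvPolynomial.rename e B ≠ 0 := fun h =>
    hB0 (MvPolynomial.rename_injective e he (by rw [h, map_zero]))
  have hl0 : ell g i₁ (MvPolynomial.rename e B) ≠ 0 := fun h =>
    hren0 (ell_injective k σ ι g i₁ _ h)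
  have hnoram : ∀ π, Irreducible π → ¬ RamAt ((algebraMap (MF k g x i₀) N).comp
        (algebraMap (MvPolynomial (Fin m) k) (MF k g x i₀))) π := by
    intro π hπ hr
    obtain ⟨v, hv⟩ := W6_exists_vars π hπ
    have hvar := ram_vars k σ ι g F i₀ i₁ hs K x w hx m e he hrange hM N hN π hπ hr v hv
    refine ell_not_isUnit k σ ι g i₁ (MvPolynomial.rename e π) (e v)
      (Q9c_mem_vars e he π v hv) hvar ?_
    obtain ⟨c, hc⟩ := hB π hπ hr
    have h1 : ell g i₁ (MvPolynomial.rename e π) ∣ ell g i₁ (MvPolynomial.rename e B) := by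
      rw [hc, map_mul, map_mul]
      exact dvd_mul_right _ _
    have h2 : ell g i₁ (MvPolynomial.rename e π) ≠ 0 := ne_zero_of_dvd_ne_zero hl0 h1
    have h3 : (ell g i₁ (MvPolynomial.rename e π)).natDegree = 0 := by
      have := Polynomial.natDegree_le_of_dvd h1 hl0
      omega
    rw [Polynomial.natDegree_eq_zero] at h3
    obtain ⟨a, ha⟩ := h3
    rw [← ha]
    rw [← ha] at h2
    exact Polynomial.isUnit_C.2 (isUnit_iff_ne_zero.2 (by
      rintro rfl
      exact h2 (map_zero _)))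
  obtain ⟨hfN, ⟨L₂, iL1, iL2, j, hfL₂, hAdm₂, hj, hgen, hclL⟩, -⟩ := hN
  obtain ⟨nn', ιL, hι1, hι2⟩ := hAdm₂
  have hsurj : Function.Surjective (algebraMap (MF k g x i₀) N) := by
    by_contra hns
    obtain ⟨π, W, hπ, hW1, hW2, hW3⟩ := exists_ramified k m (MF k g x i₀) N (by
      rintro z ⟨P, hP, hPz⟩
      have hcomp : ∀ c : k, ιL (j (algebraMap (MF k g x i₀) N
          (algebraMap (MvPolynomial (Fin m) k) (MF k g x i₀) (MvPolynomial.C c)))) =
          algebraMap k (RF k nn') c := by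
        intro c
        rw [hj, hM, MvPolynomial.aeval_C, hι2]
      obtain ⟨c, hc⟩ := W8_const k nn' (ιL (j z)) ⟨P, hP, by
        have h4 := congrArg (ιL.comp j) hPz
        rw [Polynomial.hom_eval₂, map_zero] at h4
        have h5 : (ιL.comp j).comp ((algebraMap (MF k g x i₀) N).comp
            ((algebraMap (MvPolynomial (Fin m) k) (MF k g x i₀)).comp MvPolynomial.C)) =
            algebraMap k (RF k nn') := RingHom.ext hcomp
        rw [h5] at h4
        exact h4⟩
      refine ⟨c, j.injective (ιL.injective ?_)⟩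
      rw [← hc]
      exact hcomp c) hns
    exact hnoram π hπ ⟨W, ⟨hW1, hW2⟩, hW3⟩
  refine Q9d_adm_of_surj k K L₂ ⟨nn', ιL, hι1, hι2⟩ ?_
  have htop : (⊤ : Subfield L₂) ≤ (algebraMap K L₂).fieldRange := by
    rw [← hgen, Subfield.closure_le]
    rintro z (⟨a, rfl⟩ | ⟨b, rfl⟩)
    · exact ⟨a, rfl⟩
    · obtain ⟨c, rfl⟩ := hsurj b
      exact ⟨_, (hj c).symm⟩
  intro z
  exact htop (Subfield.mem_top z)

end Pool.Agent.LibHPQ
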